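import Mathlib
import Pool.Agent.H95.Gol.SieveAux
import Pool.Agent.H66.Gol.Blk
import Pool.Agent.H95.Gol.Sieve

/-!
The abstract Brun-Hooley upper bound sieve of arbitrary dimension, for an arbitrary finite set
with approximately multiplicative joint counts.
-/

namespace Pool.Agent.H24.KS

open Finset Classical
open Pool.Agent.H12 (esym tsum' bonferroni esym_le esym_nonneg)
open Pool.Agent.H95.Gol

variable {ι : Type*}

/-- indicator -/
noncomputable def ind' (E : ℕ → ι → Prop) (j : ι) (p : ℕ) : ℝ := if E p j then 1 else 0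

lemma ind'_range (E : ℕ → ι → Prop) (j : ι) (p : ℕ) : 0 ≤ ind' E j p ∧ ind' E j p ≤ 1 := by
  unfold ind'; split_ifs <;> norm_num

lemma prod_ind' (E : ℕ → ι → Prop) (j : ι) (D : Finset ℕ) :
    ∏ p ∈ D, ind' E j p = if ∀ p ∈ D, E p j then 1 else 0 := by
  unfold ind'
  split_ifs with h
  · exact prod_eq_one fun p hp => if_pos (h p hp)
  · push Not at h
    obtain ⟨p, hp, hpe⟩ := h
    exact prod_eq_zero hp (if_neg hpe)

/-- the main identity, with error term -/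
lemma ab_expand (S : Finset ι) (P : Finset ℕ) (E : ℕ → ι → Prop) (δ G : ℕ → ℝ) (N E0 : ℝ)
    (hcount : ∀ D ⊆ P, |((S.filter (fun j => ∀ p ∈ D, E p j)).card : ℝ) - N * ∏ p ∈ D, δ p| ≤
      E0 * ∏ p ∈ D, G p)
    (Q : ℕ → Finset ℕ) (r : ℕ → ℕ) (m : ℕ) : (∀ i < m, Q i ⊆ P) →
    (∀ i < m, ∀ i' < m, i ≠ i' → Disjoint (Q i) (Q i')) → ∀ D0 ⊆ P,
    (∀ i < m, Disjoint D0 (Q i)) →
    |∑ j ∈ S, (∏ p ∈ D0, ind' E j p) * ∏ i ∈ range m, tsum' (Q i) (ind' E j) (r i) -
      N * ((∏ p ∈ D0, δ p) * ∏ i ∈ range m, tsum' (Q i) δ (r i))| ≤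
    E0 * ((∏ p ∈ D0, G p) * ∏ i ∈ range m, Bd (Q i) G (r i)) := by
  induction m with
  | zero =>
    intro _ _ D0 hD0 _
    simp only [range_zero, prod_empty, mul_one]
    have h1 : ∑ j ∈ S, ∏ p ∈ D0, ind' E j p =
        ((S.filter (fun j => ∀ p ∈ D0, E p j)).card : ℝ) := by
      rw [← sum_boole]
      exact sum_congr rfl fun j _ => prod_ind' E j D0
    rw [h1]
    exact hcount D0 hD0
  | succ m ih =>
    intro hQ hdisj D0 hD0 hdD
    have ih' := ih (fun i hi => hQ i (by omega)) (fun i hi i' hi' => hdisj i (by omega) i' (by omega))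
    set T : ℕ → ℝ := fun i => tsum' (Q i) δ (r i) with hT
    set S' : Finset ℕ → ℝ := fun D => ∑ j ∈ S, (∏ p ∈ D, ind' E j p) *
      ∏ i ∈ range m, tsum' (Q i) (ind' E j) (r i) with hS
    have key : ∀ t, ∀ D ∈ (Q m).powersetCard t, D0 ∪ D ⊆ P ∧ Disjoint D0 D ∧
        (∀ i < m, Disjoint (D0 ∪ D) (Q i)) := by
      intro t D hD
      rw [mem_powersetCard] at hD
      refine ⟨union_subset hD0 (hD.1.trans (hQ m (by omega))),
        (hdD m (by omega)).mono_right hD.1, fun i hi => ?_⟩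
      rw [disjoint_union_left]
      exact ⟨hdD i (by omega), (hdisj m (by omega) i (by omega) (by omega)).mono_left hD.1⟩
    have e1 : ∑ j ∈ S, (∏ p ∈ D0, ind' E j p) *
        ∏ i ∈ range (m+1), tsum' (Q i) (ind' E j) (r i) =
        ∑ t ∈ range (r m + 1), ∑ D ∈ (Q m).powersetCard t, (-1)^t * S' (D0 ∪ D) := by
      have : ∀ j ∈ S, (∏ p ∈ D0, ind' E j p) *
          ∏ i ∈ range (m+1), tsum' (Q i) (ind' E j) (r i) =
          ∑ t ∈ range (r m + 1), ∑ D ∈ (Q m).powersetCard t, (-1)^t *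
            ((∏ p ∈ D0 ∪ D, ind' E j p) * ∏ i ∈ range m, tsum' (Q i) (ind' E j) (r i)) := by
        intro j _
        rw [prod_range_succ, tsum'_eq (Q m), mul_sum, mul_sum]
        refine sum_congr rfl fun t _ => ?_
        rw [mul_sum, mul_sum]
        refine sum_congr rfl fun D hD => ?_
        rw [prod_union (key t D hD).2.1]
        ring
      rw [sum_congr rfl this, sum_comm]
      refine sum_congr rfl fun t _ => ?_
      rw [sum_comm]
      refine sum_congr rfl fun D _ => ?_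
      rw [hS, mul_sum]
    have e2 : (∏ p ∈ D0, δ p) * ∏ i ∈ range (m+1), T i =
        ∑ t ∈ range (r m + 1), ∑ D ∈ (Q m).powersetCard t, (-1)^t *
          ((∏ p ∈ D0 ∪ D, δ p) * ∏ i ∈ range m, T i) := by
      rw [prod_range_succ]
      have : T m = ∑ t ∈ range (r m + 1), ∑ D ∈ (Q m).powersetCard t,
          (-1)^t * ∏ p ∈ D, δ p := tsum'_eq (Q m) _ (r m)
      rw [this, mul_sum, mul_sum]
      refine sum_congr rfl fun t _ => ?_
      rw [mul_sum, mul_sum]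
      refine sum_congr rfl fun D hD => ?_
      rw [prod_union (key t D hD).2.1]
      ring
    have e3 : (∏ p ∈ D0, G p) * ∏ i ∈ range (m+1), Bd (Q i) G (r i) =
        ∑ t ∈ range (r m + 1), ∑ D ∈ (Q m).powersetCard t,
          ((∏ p ∈ D0 ∪ D, G p) * ∏ i ∈ range m, Bd (Q i) G (r i)) := by
      rw [prod_range_succ, Bd_eq (Q m), mul_sum, mul_sum]
      refine sum_congr rfl fun t _ => ?_
      rw [mul_sum, mul_sum]
      refine sum_congr rfl fun D hD => ?_
      rw [prod_union (key t D hD).2.1]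
      ring
    rw [e1, e2, e3, mul_sum, mul_sum, ← sum_sub_distrib]
    refine (abs_sum_le_sum_abs _ _).trans (sum_le_sum fun t _ => ?_)
    rw [mul_sum, mul_sum, ← sum_sub_distrib]
    refine (abs_sum_le_sum_abs _ _).trans (sum_le_sum fun D hD => ?_)
    obtain ⟨k1, k2, k3⟩ := key t D hD
    have h := ih' (D0 ∪ D) k1 k3
    have e4 : (-1:ℝ)^t * S' (D0 ∪ D) - N * ((-1)^t *
        ((∏ p ∈ D0 ∪ D, δ p) * ∏ i ∈ range m, T i)) =
        (-1)^t * (S' (D0 ∪ D) - N * ((∏ p ∈ D0 ∪ D, δ p) * ∏ i ∈ range m, T i)) := by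
      ring
    rw [e4, abs_mul, abs_pow, abs_neg, abs_one, one_pow, one_mul]
    exact h

/-- the upper bound sieve inequality for blocks -/
lemma ab_upper (S : Finset ι) (P : Finset ℕ) (E : ℕ → ι → Prop) (δ G : ℕ → ℝ) (N E0 : ℝ)
    (hcount : ∀ D ⊆ P, |((S.filter (fun j => ∀ p ∈ D, E p j)).card : ℝ) - N * ∏ p ∈ D, δ p| ≤
      E0 * ∏ p ∈ D, G p)
    (Q : ℕ → Finset ℕ) (r : ℕ → ℕ) (hr : ∀ i, Even (r i)) (m : ℕ) (hQ : ∀ i < m, Q i ⊆ P)
    (hdisj : ∀ i < m, ∀ i' < m, i ≠ i' → Disjoint (Q i) (Q i')) :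
    ((S.filter (fun j => ∀ p ∈ P, ¬ E p j)).card : ℝ) ≤
      N * ∏ i ∈ range m, tsum' (Q i) δ (r i) + E0 * ∏ i ∈ range m, Bd (Q i) G (r i) := by
  have h := ab_expand S P E δ G N E0 hcount Q r m hQ hdisj ∅ (empty_subset _)
    (fun i _ => disjoint_empty_left _)
  simp only [prod_empty, one_mul] at h
  have h1 : ((S.filter (fun j => ∀ p ∈ P, ¬ E p j)).card : ℝ) ≤
      ∑ j ∈ S, ∏ i ∈ range m, tsum' (Q i) (ind' E j) (r i) := by
    rw [← sum_boole (R := ℝ)]
    refine sum_le_sum fun j _ => ?_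
    have hpos : ∀ i, ∏ p ∈ Q i, (1 - ind' E j p) ≤ tsum' (Q i) (ind' E j) (r i) := by
      intro i
      have := (bonferroni (Q i) (ind' E j) (fun p _ => ind'_range E j p) (r i)).1
      rw [(hr i).neg_one_pow, one_mul] at this
      linarith
    have hnn : ∀ i, 0 ≤ ∏ p ∈ Q i, (1 - ind' E j p) := fun i =>
      prod_nonneg fun p _ => by linarith [(ind'_range E j p).2]
    split_ifs with hc
    · refine le_trans ?_ (prod_le_prod (fun i _ => hnn i) (fun i _ => hpos i))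
      refine le_of_eq ?_
      symm
      refine prod_eq_one fun i hi => prod_eq_one fun p hp => ?_
      have : ind' E j p = 0 := if_neg (hc p (hQ i (mem_range.mp hi) hp))
      rw [this, sub_zero]
    · exact prod_nonneg fun i _ => (hnn i).trans (hpos i)
  have h2 := (abs_le.mp h).2
  linarith

/-- the abstract sieve up to `bb K`, in terms of the block sums; dimension `κ`, error exponent `c` -/
theorem ab_blocks (κ c : ℕ) (Lb : ℝ) (hLb : ∀ k : ℕ, ∑ l ∈ PB k, (1:ℝ) / l ≤ Lb)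
    (S : Finset ι) (P : Finset ℕ) (K : ℕ) (E : ℕ → ι → Prop) (δ G : ℕ → ℝ) (N E0 : ℝ)
    (hN : 0 ≤ N) (hE0 : 0 ≤ E0)
    (hP : ∀ p ∈ P, p.Prime ∧ 2 < p ∧ p ≤ bb K)
    (hδ : ∀ p ∈ P, 0 ≤ δ p ∧ δ p ≤ 1 ∧ δ p ≤ κ / p)
    (hG : ∀ p ∈ P, 0 ≤ G p ∧ G p ≤ (p:ℝ)^c)
    (hcount : ∀ D ⊆ P, |((S.filter (fun j => ∀ p ∈ D, E p j)).card : ℝ) - N * ∏ p ∈ D, δ p| ≤
      E0 * ∏ p ∈ D, G p) :
    ((S.filter (fun j => ∀ p ∈ P, ¬ E p j)).card : ℝ) ≤
      N * (Real.exp (Real.exp (2 * κ * Lb)) * Real.exp (- ∑ p ∈ P, δ p)) +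
        E0 * (bb K : ℝ)^(8 * (c + 2)) := by
  set Q : ℕ → Finset ℕ := fun i => P ∩ PB (K - 1 - i) with hQ
  set r : ℕ → ℕ := fun i => 2 * (i + 1) with hr
  have hprime : ∀ p ∈ P, p.Prime := fun p hp => (hP p hp).1
  have hup := ab_upper S P E δ G N E0 hcount Q r
    (fun i => ⟨i+1, by simp only [hr]; ring⟩) K (fun i _ => inter_subset_left)
    (fun i hi i' hi' hne => (PB_disjoint (by omega)).mono inter_subset_right inter_subset_right)
  have hPunion : P = (range K).biUnion Q := by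
    ext p
    rw [mem_biUnion]
    constructor
    · intro hp
      obtain ⟨h1, h2, h3⟩ := hP p hp
      obtain ⟨k, hk, hpk⟩ := exists_block h1 h2 h3
      refine ⟨K - 1 - k, mem_range.mpr (by omega), ?_⟩
      simp only [hQ, mem_inter]
      refine ⟨hp, ?_⟩
      rw [show K - 1 - (K - 1 - k) = k by omega]
      exact hpk
    · rintro ⟨i, -, hi⟩
      exact (mem_inter.mp hi).1
  have hdisjQ : ∀ i ∈ (range K : Finset ℕ), ∀ i' ∈ (range K : Finset ℕ), i ≠ i' →
      Disjoint (Q i) (Q i') := by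
    intro i hi i' hi' hne
    rw [mem_range] at hi hi'
    exact (PB_disjoint (by omega)).mono inter_subset_right inter_subset_right
  have hδ1 : ∀ p ∈ P, 0 ≤ δ p ∧ δ p ≤ 1 := fun p hp => ⟨(hδ p hp).1, (hδ p hp).2.1⟩
  have hLb0 : 0 ≤ Lb := le_trans (sum_nonneg fun l _ => by positivity) (hLb 0)
  have hκ0 : (0:ℝ) ≤ κ := Nat.cast_nonneg _
  have hS : ∀ i, ∑ p ∈ Q i, δ p ≤ κ * Lb := by
    intro i
    calc ∑ p ∈ Q i, δ p ≤ ∑ p ∈ Q i, κ * ((1:ℝ) / p) := by
          refine sum_le_sum fun p hp => ?_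
          have := (hδ p (mem_inter.mp hp).1).2.2
          rw [mul_one_div]; exact this
      _ ≤ ∑ p ∈ PB (K - 1 - i), κ * ((1:ℝ) / p) :=
          sum_le_sum_of_subset_of_nonneg inter_subset_right fun p _ _ => by positivity
      _ = κ * ∑ p ∈ PB (K - 1 - i), (1:ℝ) / p := by rw [mul_sum]
      _ ≤ κ * Lb := mul_le_mul_of_nonneg_left (hLb (K - 1 - i)) hκ0
  -- main term
  have hmain : ∏ i ∈ range K, tsum' (Q i) δ (r i) ≤
      Real.exp (Real.exp (2 * κ * Lb)) * Real.exp (- ∑ p ∈ P, δ p) := by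
    set x : ℕ → ℝ := fun i => Real.exp (κ * Lb) * ((κ * Lb)^(r i + 1) / ((r i + 1).factorial : ℝ))
      with hx
    have hx0 : ∀ i, 0 ≤ x i := fun i => by positivity
    have h1 : ∏ i ∈ range K, tsum' (Q i) δ (r i) ≤
        ∏ i ∈ range K, (Real.exp (-∑ p ∈ Q i, δ p) * (1 + x i)) := by
      refine prod_le_prod (fun i _ => ?_) (fun i _ => ?_)
      · have hb := (bonferroni (Q i) δ (fun p hp => hδ1 p (mem_inter.mp hp).1) (r i)).1
        rw [(show Even (r i) from ⟨i+1, by simp only [hr]; ring⟩).neg_one_pow, one_mul] at hb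
        have : 0 ≤ ∏ p ∈ Q i, (1 - δ p) :=
          prod_nonneg fun p hp => by linarith [(hδ1 p (mem_inter.mp hp).1).2]
        linarith
      · exact block_main (Q i) _ (fun p hp => hδ1 p (mem_inter.mp hp).1) (r i)
          ⟨i+1, by simp only [hr]; ring⟩ (κ * Lb) (hS i)
    refine h1.trans ?_
    rw [prod_mul_distrib, ← Real.exp_sum, sum_neg_distrib, ← sum_biUnion hdisjQ, ← hPunion, mul_comm]
    refine mul_le_mul_of_nonneg_right ?_ (Real.exp_pos _).le
    calc ∏ i ∈ range K, (1 + x i) ≤ ∏ i ∈ range K, Real.exp (x i) :=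
          prod_le_prod (fun i _ => by linarith [hx0 i]) (fun i _ => by
            have := Real.add_one_le_exp (x i); linarith)
      _ = Real.exp (∑ i ∈ range K, x i) := by rw [Real.exp_sum]
      _ ≤ Real.exp (Real.exp (2 * κ * Lb)) := by
          apply Real.exp_le_exp.mpr
          rw [hx, ← mul_sum]
          have h2 : ∑ i ∈ range K, (κ * Lb)^(r i + 1) / ((r i + 1).factorial : ℝ) ≤
              Real.exp (κ * Lb) := by
            have hinj : Set.InjOn (fun i => r i + 1) (range K : Finset ℕ) := by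
              intro a _ b _ hab
              simp only [hr] at hab
              omega
            rw [← sum_image (f := fun t : ℕ => (κ * Lb)^t / (t.factorial : ℝ)) hinj]
            exact pow_div_fact_le (κ * Lb) (by positivity) 0 _
          calc Real.exp (κ * Lb) * ∑ i ∈ range K, (κ * Lb)^(r i + 1) / ((r i + 1).factorial : ℝ)
              ≤ Real.exp (κ * Lb) * Real.exp (κ * Lb) :=
                mul_le_mul_of_nonneg_left h2 (Real.exp_pos _).le
            _ = Real.exp (2 * κ * Lb) := by rw [← Real.exp_add]; congr 1; ring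
  -- error term
  have herr : ∏ i ∈ range K, Bd (Q i) G (r i) ≤ (bb K : ℝ)^(8 * (c + 2)) := by
    have h1 : ∀ i ∈ range K, Bd (Q i) G (r i) ≤
        (2:ℝ)^(2 * (c + 2) * ((i+1) * 2^(K-i))) := by
      intro i hi
      rw [mem_range] at hi
      set y : ℕ := bb (K - i) with hy
      have hy2 : 2 ≤ y := two_le_bb _
      have hsub : Q i ⊆ range (y + 1) := by
        intro p hp
        have := (mem_PB.mp (mem_inter.mp hp).2).1.2
        rw [show K - 1 - i + 1 = K - i by omega] at this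
        rw [mem_range]; omega
      have hyr : (2:ℝ) ≤ y := by exact_mod_cast hy2
      have hsum : 1 + ∑ p ∈ Q i, G p ≤ ((y:ℝ)^(c+2)) := by
        have h2 : ∑ p ∈ Q i, G p ≤ ∑ p ∈ Q i, ((y:ℝ)^c) := by
          refine sum_le_sum fun p hp => ?_
          have h3 : G p ≤ (p:ℝ)^c := (hG p (mem_inter.mp hp).1).2
          have h4 : (p:ℝ) ≤ y := by
            have := mem_range.mp (hsub hp)
            exact_mod_cast (by omega : p ≤ y)
          exact h3.trans (pow_le_pow_left₀ (Nat.cast_nonneg _) h4 _)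
        rw [sum_const, nsmul_eq_mul] at h2
        have h5 : ((Q i).card : ℝ) ≤ y := by
          have h6 : Q i ⊆ Ioc 0 y := by
            intro p hp
            have a := mem_range.mp (hsub hp)
            have b := (hprime p (mem_inter.mp hp).1).pos
            rw [mem_Ioc]; omega
          have := card_le_card h6
          rw [Nat.card_Ioc] at this
          exact_mod_cast (by omega : (Q i).card ≤ y)
        have h0 : (0:ℝ) < (y:ℝ)^c := by positivity
        have h7 : ((Q i).card : ℝ) * ((y:ℝ)^c) ≤ y * (y:ℝ)^c :=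
          mul_le_mul_of_nonneg_right h5 h0.le
        have h8 : (1:ℝ) ≤ (y:ℝ)^c := one_le_pow₀ (by linarith)
        have h9 : (y:ℝ)^(c+2) = y * (y * (y:ℝ)^c) := by ring
        rw [h9]
        have h10 : (2:ℝ) ≤ y * (y:ℝ)^c := by nlinarith
        nlinarith
      refine (block_err (Q i) _ (fun p hp => (hG p (mem_inter.mp hp).1).1) (r i) _ hsum).trans
        (le_of_eq ?_)
      rw [hy]
      unfold bb
      push_cast
      rw [← pow_mul, ← pow_mul]
      congr 1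
      simp only [hr]
      ring
    calc ∏ i ∈ range K, Bd (Q i) G (r i) ≤
          ∏ i ∈ range K, (2:ℝ)^(2 * (c + 2) * ((i+1) * 2^(K-i))) :=
          prod_le_prod (fun i _ => Bd_nonneg _ _ (fun p hp => (hG p (mem_inter.mp hp).1).1) _) h1
      _ = (2:ℝ)^(∑ i ∈ range K, 2 * (c + 2) * ((i+1) * 2^(K-i))) := by rw [prod_pow_eq_pow_sum]
      _ ≤ (2:ℝ)^(2 * (c + 2) * (4 * 2^K)) := by
          refine pow_le_pow_right₀ (by norm_num) ?_
          rw [← mul_sum]
          have := geom_exp K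
          exact Nat.mul_le_mul_left _ (by omega)
      _ = (bb K : ℝ)^(8 * (c + 2)) := by
          unfold bb
          push_cast
          rw [← pow_mul]
          congr 1
          ring
  have h1 := mul_le_mul_of_nonneg_left hmain hN
  have h2 := mul_le_mul_of_nonneg_left herr hE0
  linarith

/-- The abstract Brun-Hooley upper bound sieve of dimension `κ` with error exponent `c`. -/
theorem absieve (κ c : ℕ) : ∃ C : ℝ, 0 < C ∧ ∀ {ι : Type} (S : Finset ι) (P : Finset ℕ)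
    (K : ℕ) (E : ℕ → ι → Prop) (δ G : ℕ → ℝ) (N E0 : ℝ), 0 ≤ N → 0 ≤ E0 →
    (∀ p ∈ P, p.Prime ∧ 2 < p ∧ p ≤ bb K) →
    (∀ p ∈ P, 0 ≤ δ p ∧ δ p ≤ 1 ∧ δ p ≤ κ / p) → (∀ p ∈ P, 0 ≤ G p ∧ G p ≤ (p:ℝ)^c) →
    (∀ D ⊆ P, |((S.filter (fun j => ∀ p ∈ D, E p j)).card : ℝ) - N * ∏ p ∈ D, δ p| ≤
      E0 * ∏ p ∈ D, G p) →
    ((S.filter (fun j => ∀ p ∈ P, ¬ E p j)).card : ℝ) ≤
      C * N * Real.exp (- ∑ p ∈ P, δ p) + E0 * (bb K : ℝ)^(8 * (c + 2)) := by
  obtain ⟨C0, hC0, hb⟩ := Pool.Agent.H66.Gol.blk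
  set Lb : ℝ := Real.log 2 + C0 with hLb
  have hLbk : ∀ k : ℕ, ∑ l ∈ PB k, (1:ℝ) / l ≤ Lb := fun k => by
    have h := (abs_le.mp (hb k)).2
    have h1 : (1:ℝ) ≤ 2 ^ k := one_le_pow₀ (by norm_num)
    have : C0 / 2 ^ k ≤ C0 := div_le_self hC0.le h1
    linarith
  refine ⟨Real.exp (Real.exp (2 * κ * Lb)), Real.exp_pos _, ?_⟩
  intro ι S P K E δ G N E0 hN hE0 hP hδ hG hcount
  have := ab_blocks κ c Lb hLbk S P K E δ G N E0 hN hE0 hP hδ hG hcount
  linarith

/-- lower bound for the main term: `exp (- ∑ δ) ≥ e^(-2κC0) 2^(-κK)` -/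
lemma exp_neg_lower (κ : ℕ) : ∃ C : ℝ, 0 < C ∧ ∀ (P : Finset ℕ) (K : ℕ) (δ : ℕ → ℝ),
    (∀ p ∈ P, p.Prime ∧ 2 < p ∧ p ≤ bb K) → (∀ p ∈ P, δ p ≤ κ / p) →
    (1:ℝ) / 2^(κ * K) ≤ C * Real.exp (- ∑ p ∈ P, δ p) := by
  obtain ⟨C0, hC0, hb⟩ := Pool.Agent.H66.Gol.blk
  refine ⟨Real.exp (2 * κ * C0), Real.exp_pos _, ?_⟩
  intro P K δ hP hδ
  have hbu : ∀ k, ∑ l ∈ PB k, (1:ℝ) / l ≤ Real.log 2 + C0 / 2 ^ k := fun k => by
    have := (abs_le.mp (hb k)).2
    linarith
  have hκ0 : (0:ℝ) ≤ κ := Nat.cast_nonneg _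
  have hPsum : ∑ p ∈ P, δ p ≤ κ * (K * Real.log 2 + 2 * C0) := by
    have h1 : P ⊆ (range K).biUnion PB := by
      intro p hp
      obtain ⟨k, hk, hpk⟩ := exists_block (hP p hp).1 (hP p hp).2.1 (hP p hp).2.2
      exact mem_biUnion.mpr ⟨k, mem_range.mpr hk, hpk⟩
    calc ∑ p ∈ P, δ p ≤ ∑ p ∈ P, κ * ((1:ℝ) / p) := by
          refine sum_le_sum fun p hp => ?_
          rw [mul_one_div]; exact hδ p hp
      _ ≤ ∑ p ∈ (range K).biUnion PB, κ * ((1:ℝ) / p) :=
          sum_le_sum_of_subset_of_nonneg h1 fun p _ _ => by positivity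
      _ ≤ ∑ k ∈ range K, ∑ p ∈ PB k, κ * ((1:ℝ) / p) :=
          le_of_eq (sum_biUnion fun a _ b _ hab => PB_disjoint hab)
      _ = κ * ∑ k ∈ range K, ∑ p ∈ PB k, (1:ℝ) / p := by
          rw [mul_sum]
          exact sum_congr rfl fun k _ => by rw [mul_sum]
      _ ≤ κ * ∑ k ∈ range K, (Real.log 2 + C0 * (1 / 2 ^ k)) := by
          refine mul_le_mul_of_nonneg_left (sum_le_sum fun k _ => ?_) hκ0
          have := hbu k
          rw [mul_one_div]; exact this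
      _ = κ * (K * Real.log 2 + C0 * ∑ k ∈ Ico 0 K, 1 / 2 ^ k) := by
          rw [sum_add_distrib, sum_const, card_range, nsmul_eq_mul, ← mul_sum,
            Nat.Ico_zero_eq_range]
      _ ≤ κ * (K * Real.log 2 + 2 * C0) := by
          have := geom_half' 0 K
          rw [pow_zero, div_one] at this
          refine mul_le_mul_of_nonneg_left ?_ hκ0
          nlinarith
  rw [← Real.exp_add]
  have h4 : (1:ℝ) / 2^(κ * K) = Real.exp (-(κ * K * Real.log 2)) := by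
    rw [Real.exp_neg, one_div]
    congr 1
    rw [show (κ:ℝ) * K * Real.log 2 = ((κ * K : ℕ) : ℝ) * Real.log 2 by push_cast; ring,
      Real.exp_nat_mul, Real.exp_log (by norm_num)]
  rw [h4]
  apply Real.exp_le_exp.mpr
  linarith

/-- Brun-Hooley upper bound sieve of dimension `κ` for an interval, with events periodic modulo
`p^2`. -/
theorem sieveD (κ : ℕ) : ∃ C : ℝ, 0 < C ∧ ∀ (P : Finset ℕ) (K J : ℕ) (E : ℕ → ℕ → Prop)
    (g : ℕ → ℕ), (bb K) ^ (32 + κ) ≤ J → (∀ p ∈ P, p.Prime ∧ 2 < p ∧ p ≤ bb K) →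
    (∀ p ∈ P, ∀ j, E p j ↔ E p (j % p^2)) →
    (∀ p ∈ P, ((range (p^2)).filter (E p)).card = g p) →
    (∀ p ∈ P, g p ≤ κ * p) →
    (((range J).filter (fun j => ∀ p ∈ P, ¬ E p j)).card : ℝ) ≤
      C * J * Real.exp (- ∑ p ∈ P, (g p : ℝ) / p^2) := by
  obtain ⟨C1, hC1, hs⟩ := absieve κ 2
  obtain ⟨C2, hC2, hl⟩ := exp_neg_lower κ
  refine ⟨C1 + C2, by positivity, ?_⟩
  intro P K J E g hJ hP hE hg hgκ
  have hprime : ∀ p ∈ P, p.Prime := fun p hp => (hP p hp).1
  have hgp : ∀ p ∈ P, g p ≤ p^2 := fun p hp => by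
    rw [← hg p hp]
    exact (card_filter_le _ _).trans (by rw [card_range])
  have hδ : ∀ p ∈ P, 0 ≤ (g p : ℝ) / (p:ℝ)^2 ∧ (g p : ℝ) / (p:ℝ)^2 ≤ 1 ∧
      (g p : ℝ) / (p:ℝ)^2 ≤ κ / p := by
    intro p hp
    have hp0 : (0:ℝ) < p := by exact_mod_cast (hprime p hp).pos
    refine ⟨by positivity, ?_, ?_⟩
    · rw [div_le_one (by positivity)]; exact_mod_cast hgp p hp
    · rw [div_le_div_iff₀ (by positivity) hp0]
      have : (g p : ℝ) ≤ κ * p := by exact_mod_cast hgκ p hp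
      nlinarith
  have hcount : ∀ D ⊆ P, |(((range J).filter (fun j => ∀ p ∈ D, E p j)).card : ℝ) -
      J * ∏ p ∈ D, ((g p : ℝ) / (p:ℝ)^2)| ≤ 1 * ∏ p ∈ D, (g p : ℝ) := by
    intro D0 hD0
    have hD0p : ∀ p ∈ D0, p.Prime := fun p hp => hprime p (hD0 hp)
    have hM : 0 < ∏ p ∈ D0, p^2 := prod_pos fun p hp => pow_pos (hD0p p hp).pos 2
    have h2 := card_crt D0 hD0p E (fun p hp => hE p (hD0 hp))
    have h3 : |(((range J).filter (fun j => ∀ p ∈ D0, E p j)).card : ℝ) -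
        J * (((range (∏ p ∈ D0, p^2)).filter (fun j => ∀ p ∈ D0, E p j)).card : ℝ) /
          (∏ p ∈ D0, p^2 : ℕ)| ≤
        ((range (∏ p ∈ D0, p^2)).filter (fun j => ∀ p ∈ D0, E p j)).card := by
      convert card_interval J (∏ p ∈ D0, p^2) hM (fun j => ∀ p ∈ D0, E p j) (by
        intro j
        refine forall₂_congr fun p hp => ?_
        rw [hE p (hD0 hp) (j % _), Nat.mod_mod_of_dvd _ (dvd_prod_of_mem (fun p => p^2) hp),
          ← hE p (hD0 hp) j])
    rw [h2] at h3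
    have h4 : ((∏ p ∈ D0, ((range (p^2)).filter (E p)).card : ℕ) : ℝ) = ∏ p ∈ D0, (g p : ℝ) := by
      push_cast
      exact prod_congr rfl fun p hp => by rw [hg p (hD0 hp)]
    rw [h4] at h3
    rw [prod_div_distrib, one_mul]
    push_cast at h3
    rw [mul_div_assoc] at h3
    exact h3
  have h := hs (range J) P K E (fun p => (g p : ℝ) / (p:ℝ)^2) (fun p => (g p : ℝ)) J 1
    (Nat.cast_nonneg _) zero_le_one hP hδ
    (fun p hp => ⟨Nat.cast_nonneg _, by exact_mod_cast hgp p hp⟩) hcount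
  have hlow := hl P K (fun p => (g p : ℝ) / (p:ℝ)^2) hP (fun p hp => (hδ p hp).2.2)
  set X : ℝ := Real.exp (- ∑ p ∈ P, (g p : ℝ) / (p:ℝ)^2) with hX
  have hJr : ((bb K : ℝ))^(32 + κ) ≤ J := by exact_mod_cast hJ
  have h2K : ((2:ℝ)^(κ * K)) ≤ (bb K : ℝ)^κ := by
    have h3 : ((2:ℝ)^K) ≤ bb K := by
      have := four_pow_le_bb K
      have h4 : (2:ℝ)^K ≤ (4:ℝ)^K := pow_le_pow_left₀ (by norm_num) (by norm_num) K
      exact h4.trans (by exact_mod_cast this)
    rw [mul_comm, pow_mul]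
    exact pow_le_pow_left₀ (by positivity) h3 κ
  have herr : (bb K : ℝ)^(8 * (2 + 2)) ≤ J * (C2 * X) := by
    refine le_trans ?_ (mul_le_mul_of_nonneg_left hlow (Nat.cast_nonneg _))
    rw [mul_one_div, le_div_iff₀ (by positivity)]
    calc (bb K : ℝ)^(8 * (2 + 2)) * 2^(κ * K) ≤ (bb K : ℝ)^(8 * (2 + 2)) * (bb K : ℝ)^κ :=
          mul_le_mul_of_nonneg_left h2K (by positivity)
      _ = (bb K : ℝ)^(32 + κ) := by rw [← pow_add]
      _ ≤ J := hJr
  calc (((range J).filter (fun j => ∀ p ∈ P, ¬ E p j)).card : ℝ)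
      ≤ C1 * J * X + 1 * (bb K : ℝ)^(8 * (2 + 2)) := h
    _ ≤ C1 * J * X + J * (C2 * X) := by linarith
    _ = (C1 + C2) * J * X := by ring

end Pool.Agent.H24.KS
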