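import Mathlib
import Pool.Agent.H24.KS.AbSieve
import Pool.Agent.H95.Gol.Count

/-!
The one-dimensional Brun-Hooley sieve with additional conditions at a finite set of primes.
-/

namespace Pool.Agent.H24.KS

open Finset Classical
open Pool.Agent.H95.Gol

theorem sieveC (κ : ℕ) : ∃ C : ℝ, 0 < C ∧ ∀ (D P : Finset ℕ) (K J : ℕ) (E Cd : ℕ → ℕ → Prop),
    (∏ q ∈ D, q^2) * (bb K) ^ (32 + κ) ≤ J → (∀ q ∈ D, q.Prime) → Disjoint D P →
    (∀ p ∈ P, p.Prime ∧ 2 < p ∧ p ≤ bb K) →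
    (∀ p ∈ P, ∀ j, E p j ↔ E p (j % p^2)) → (∀ q ∈ D, ∀ j, Cd q j ↔ Cd q (j % q^2)) →
    (∀ p ∈ P, ((range (p^2)).filter (E p)).card ≤ κ * p) →
    (((range J).filter (fun j => (∀ q ∈ D, Cd q j) ∧ ∀ p ∈ P, ¬ E p j)).card : ℝ) ≤
      C * J * (∏ q ∈ D, (((range (q^2)).filter (Cd q)).card : ℝ) / q^2) *
        Real.exp (- ∑ p ∈ P, (((range (p^2)).filter (E p)).card : ℝ) / p^2) := by
  obtain ⟨C, hC, hs⟩ := sieveD κ
  refine ⟨2 * C, by positivity, ?_⟩
  intro D P K J E Cd hJ hD hDP hP hE hCd hg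
  set M := ∏ q ∈ D, q^2 with hM
  have hM0 : 0 < M := prod_pos fun q hq => pow_pos (hD q hq).pos 2
  set R := (range M).filter (fun j => ∀ q ∈ D, Cd q j) with hR
  have hRc : R.card = ∏ q ∈ D, ((range (q^2)).filter (Cd q)).card := card_crt D hD Cd hCd
  set X : ℝ := Real.exp (- ∑ p ∈ P, (((range (p^2)).filter (E p)).card : ℝ) / p^2) with hX
  set J' := J / M + 1 with hJ'
  have hb0 : 0 < (bb K)^(32 + κ) := pow_pos (bb_pos K) _
  have hJM : (bb K)^(32 + κ) ≤ J / M := by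
    rw [Nat.le_div_iff_mul_le hM0, mul_comm]; exact hJ
  have hJ'le : (J':ℝ) ≤ 2 * (J / M) := by
    have h1 : 1 ≤ J / M := le_trans hb0 hJM
    have h2 : ((J / M : ℕ) : ℝ) ≤ (J:ℝ) / M := Nat.cast_div_le
    have h3 : (J':ℝ) = ((J / M : ℕ) : ℝ) + 1 := by rw [hJ']; push_cast; ring
    have h4 : (1:ℝ) ≤ ((J / M : ℕ) : ℝ) := by exact_mod_cast h1
    linarith
  have hcop : ∀ p ∈ P, Nat.Coprime M (p^2) := by
    intro p hp
    rw [hM]
    apply Nat.Coprime.prod_left
    intro q hq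
    refine Nat.Coprime.pow 2 2 ((Nat.coprime_primes (hD q hq) (hP p hp).1).mpr ?_)
    rintro rfl
    exact (disjoint_left.mp hDP hq) hp
  -- one class
  have hone : ∀ τ ∈ R, (((range J).filter (fun j => j % M = τ ∧ ∀ p ∈ P, ¬ E p j)).card : ℝ) ≤
      C * J' * X := by
    intro τ hτ
    have hτM : τ < M := mem_range.mp (mem_filter.mp hτ).1
    have h1 := hs P K J' (fun p t => E p (τ + M * t))
      (fun p => ((range (p^2)).filter (E p)).card) (by omega) hP ?_ ?_ hg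
    · refine le_trans ?_ h1
      have h2 : ((range J).filter (fun j => j % M = τ ∧ ∀ p ∈ P, ¬ E p j)).card ≤
          ((range J').filter (fun t => ∀ p ∈ P, ¬ E p (τ + M * t))).card := by
        refine card_le_card_of_injOn (fun j => j / M) ?_ ?_
        · intro j hj
          rw [mem_coe, mem_filter, mem_range] at hj
          obtain ⟨h3, h4, h5⟩ := hj
          rw [mem_coe, mem_filter, mem_range]
          have h6 : τ + M * (j / M) = j := by rw [← h4]; exact Nat.mod_add_div j M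
          refine ⟨Nat.lt_succ_of_le (Nat.div_le_div_right h3.le), ?_⟩
          rw [h6]; exact h5
        · intro j hj j' hj' h
          rw [mem_coe, mem_filter] at hj hj'
          simp only at h
          rw [← Nat.mod_add_div j M, ← Nat.mod_add_div j' M, hj.2.1, hj'.2.1, h]
      exact_mod_cast h2
    · intro p hp t
      rw [hE p hp (τ + M * t), hE p hp (τ + M * (t % p^2))]
      have : (τ + M * t) % p^2 = (τ + M * (t % p^2)) % p^2 := by
        rw [Nat.add_mod, Nat.mul_mod, Nat.add_mod τ (M * (t % p^2)), Nat.mul_mod M (t % p^2),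
          Nat.mod_mod]
      rw [this]
    · intro p hp
      exact card_affine M τ (p^2) (hcop p hp) (E p) (hE p hp)
  have hsub : (range J).filter (fun j => (∀ q ∈ D, Cd q j) ∧ ∀ p ∈ P, ¬ E p j) ⊆
      R.biUnion (fun τ => (range J).filter (fun j => j % M = τ ∧ ∀ p ∈ P, ¬ E p j)) := by
    intro j hj
    rw [mem_filter] at hj
    rw [mem_biUnion]
    refine ⟨j % M, ?_, ?_⟩
    · rw [hR, mem_filter, mem_range]
      refine ⟨Nat.mod_lt _ hM0, fun q hq => ?_⟩
      rw [hCd q hq, Nat.mod_mod_of_dvd _ (dvd_prod_of_mem (fun q => q^2) hq), ← hCd q hq]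
      exact hj.2.1 q hq
    · rw [mem_filter]
      exact ⟨hj.1, rfl, hj.2.2⟩
  have h1 : (((range J).filter (fun j => (∀ q ∈ D, Cd q j) ∧ ∀ p ∈ P, ¬ E p j)).card : ℝ) ≤
      ∑ τ ∈ R, (((range J).filter (fun j => j % M = τ ∧ ∀ p ∈ P, ¬ E p j)).card : ℝ) := by
    exact_mod_cast (card_le_card hsub).trans card_biUnion_le
  have hX0 : 0 < X := Real.exp_pos _
  have hMr : (0:ℝ) < M := by exact_mod_cast hM0
  have hprod : (∏ q ∈ D, (((range (q^2)).filter (Cd q)).card : ℝ) / q^2) = (R.card : ℝ) / M := by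
    rw [prod_div_distrib, hRc, hM]
    push_cast
    rfl
  calc _ ≤ ∑ τ ∈ R, (C * J' * X) := h1.trans (sum_le_sum hone)
    _ = R.card * (C * J' * X) := by rw [sum_const, nsmul_eq_mul]
    _ ≤ R.card * (C * (2 * (J / M)) * X) := by gcongr
    _ = 2 * C * J * (∏ q ∈ D, (((range (q^2)).filter (Cd q)).card : ℝ) / q^2) * X := by
        rw [hprod]; ring

/-- the weighted form: weights `w q` at the primes `q` exactly dividing `z`, for `z` in the multiples
of `m` -/
theorem zsieve : ∃ C : ℝ, 0 < C ∧ ∀ (P : Finset ℕ) (k N m : ℕ) (w : ℕ → ℝ), 0 < m →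
    (∀ p ∈ P, p.Prime ∧ 2 < p ∧ p ≤ bb k ∧ Nat.Coprime p m) →
    (∀ p ∈ P, 0 ≤ w p ∧ w p ≤ 1) → m * (bb k)^33 ≤ N →
    ∑ z ∈ (range N).filter (fun z => m ∣ z), ∏ p ∈ P, (if p ∣ z ∧ ¬ p^2 ∣ z then w p else 1) ≤
      C * (N / m) * Real.exp (- ∑ p ∈ P, (1 - w p) / p) := by
  obtain ⟨C, hC, hs⟩ := sieveD 1
  refine ⟨2 * C * Real.exp 2, by positivity, ?_⟩
  intro P k N m w hm hP hw hN
  have hprime : ∀ p ∈ P, p.Prime := fun p hp => (hP p hp).1
  set N' := N / m + 1 with hN'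
  have hb0 : 0 < (bb k)^33 := pow_pos (bb_pos k) _
  have hNm : (bb k)^33 ≤ N / m := by
    rw [Nat.le_div_iff_mul_le hm, mul_comm]; exact hN
  have hmr : (0:ℝ) < m := by exact_mod_cast hm
  have hN'le : (N':ℝ) ≤ 2 * (N / m) := by
    have h1 : 1 ≤ N / m := le_trans hb0 hNm
    have h2 : ((N / m : ℕ) : ℝ) ≤ (N:ℝ) / m := Nat.cast_div_le
    have h3 : (N':ℝ) = ((N / m : ℕ) : ℝ) + 1 := by rw [hN']; push_cast; ring
    have h4 : (1:ℝ) ≤ ((N / m : ℕ) : ℝ) := by exact_mod_cast h1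
    linarith
  -- expansion over subsets
  have hexp : ∀ z : ℕ, ∏ p ∈ P, (if p ∣ z ∧ ¬ p^2 ∣ z then w p else 1) =
      ∑ R ∈ P.powerset, (∏ p ∈ R, (1 - w p)) * (∏ p ∈ P \ R, w p) *
        (if ∀ p ∈ R, ¬ (p ∣ z ∧ ¬ p^2 ∣ z) then 1 else 0) := by
    intro z
    have h1 : ∏ p ∈ P, (if p ∣ z ∧ ¬ p^2 ∣ z then w p else 1) =
        ∏ p ∈ P, ((1 - w p) * (if p ∣ z ∧ ¬ p^2 ∣ z then 0 else 1) + w p) := by
      refine prod_congr rfl fun p _ => ?_
      split_ifs <;> ring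
    rw [h1, prod_add]
    refine sum_congr rfl fun R _ => ?_
    rw [prod_mul_distrib]
    have h2 : (∏ p ∈ R, (if p ∣ z ∧ ¬ p^2 ∣ z then (0:ℝ) else 1)) =
        (if ∀ p ∈ R, ¬ (p ∣ z ∧ ¬ p^2 ∣ z) then 1 else 0) := by
      split_ifs with h
      · exact prod_eq_one fun p hp => if_neg (h p hp)
      · push Not at h
        obtain ⟨p, hp, h3, h4⟩ := h
        exact prod_eq_zero hp (if_pos ⟨h3, h4⟩)
    rw [h2]; ring
  have hcount : ∀ R ∈ P.powerset,
      (((range N).filter (fun z => m ∣ z ∧ ∀ p ∈ R, ¬ (p ∣ z ∧ ¬ p^2 ∣ z))).card : ℝ) ≤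
      C * N' * Real.exp (- ∑ p ∈ R, ((p - 1 : ℕ) : ℝ) / p^2) := by
    intro R hR
    rw [mem_powerset] at hR
    have h1 := hs R k N' (fun p t => p ∣ m * t ∧ ¬ p^2 ∣ m * t) (fun p => p - 1)
      (by show (bb k)^33 ≤ N'; omega)
      (fun p hp => ⟨(hP p (hR hp)).1, (hP p (hR hp)).2.1, (hP p (hR hp)).2.2.1⟩) ?_ ?_ ?_
    · refine le_trans ?_ h1
      have h2 : ((range N).filter (fun z => m ∣ z ∧ ∀ p ∈ R, ¬ (p ∣ z ∧ ¬ p^2 ∣ z))).card ≤
          ((range N').filter (fun t => ∀ p ∈ R, ¬ (p ∣ m * t ∧ ¬ p^2 ∣ m * t))).card := by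
        refine card_le_card_of_injOn (fun z => z / m) ?_ ?_
        · intro z hz
          rw [mem_coe, mem_filter, mem_range] at hz
          obtain ⟨h3, h4, h5⟩ := hz
          rw [mem_coe, mem_filter, mem_range, Nat.mul_div_cancel' h4]
          exact ⟨Nat.lt_succ_of_le (Nat.div_le_div_right h3.le), h5⟩
        · intro z hz z' hz' h
          rw [mem_coe, mem_filter] at hz hz'
          simp only at h
          rw [← Nat.mul_div_cancel' hz.2.1, ← Nat.mul_div_cancel' hz'.2.1, h]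
      refine Nat.cast_le.mpr ?_
      convert h2
    · intro p hp t
      have h3 : ∀ c, c ∣ p^2 → (c ∣ m * t ↔ c ∣ m * (t % p^2)) := by
        intro c hc
        rw [← Nat.dvd_mod_iff hc, Nat.mul_mod, ← Nat.dvd_mod_iff (n := p^2) (m := m * (t % p^2)) hc,
          Nat.mul_mod m (t % p^2), Nat.mod_mod]
      rw [h3 p (dvd_pow_self p two_ne_zero), h3 (p^2) dvd_rfl]
    · intro p hp
      have h3 := card_affine m 0 (p^2) (Nat.Coprime.pow_right 2 (hP p (hR hp)).2.2.2.symm)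
        (fun x => p ∣ x ∧ ¬ p^2 ∣ x) (fun x => by
          rw [Nat.dvd_mod_iff (⟨p, by ring⟩ : p ∣ p^2), Nat.dvd_mod_iff (dvd_refl _)])
      simp only [zero_add] at h3
      have h4 := h3.trans (by convert card_exact p (hprime p (hR hp)).pos)
      convert h4
    · intro p hp; omega
  have hexpR : ∀ R ∈ P.powerset, Real.exp (- ∑ p ∈ R, ((p - 1 : ℕ) : ℝ) / p^2) ≤
      Real.exp 1 * ∏ p ∈ R, Real.exp (-((1:ℝ)/p)) := by
    intro R hR
    rw [mem_powerset] at hR
    rw [← Real.exp_sum, ← Real.exp_add]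
    apply Real.exp_le_exp.mpr
    have h1 : ∑ p ∈ R, ((p - 1 : ℕ) : ℝ) / (p:ℝ)^2 = ∑ p ∈ R, (1:ℝ)/p - ∑ p ∈ R, (1:ℝ)/(p:ℝ)^2 := by
      rw [← sum_sub_distrib]
      refine sum_congr rfl fun p hp => ?_
      have hp1 := (hprime p (hR hp)).pos
      rw [Nat.cast_sub hp1]
      have hp0 : (p:ℝ) ≠ 0 := by positivity
      field_simp
      push_cast
      ring
    have h2 := sum_inv_sq_le R (fun l hl => (hprime l (hR hl)).two_le)
    rw [h1, sum_neg_distrib]
    linarith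
  have hmain : ∑ z ∈ (range N).filter (fun z => m ∣ z),
      ∏ p ∈ P, (if p ∣ z ∧ ¬ p^2 ∣ z then w p else 1) ≤
      ∑ R ∈ P.powerset, ((∏ p ∈ R, (1 - w p)) * (∏ p ∈ P \ R, w p)) *
        (C * N' * (Real.exp 1 * ∏ p ∈ R, Real.exp (-((1:ℝ)/p)))) := by
    simp_rw [hexp]
    rw [sum_comm]
    refine sum_le_sum fun R hR => ?_
    rw [← mul_sum]
    have hR' := mem_powerset.mp hR
    have hc0 : 0 ≤ (∏ p ∈ R, (1 - w p)) * (∏ p ∈ P \ R, w p) := by
      refine mul_nonneg (prod_nonneg fun p hp => ?_) (prod_nonneg fun p hp => ?_)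
      · linarith [(hw p (hR' hp)).2]
      · exact (hw p (sdiff_subset hp)).1
    refine mul_le_mul_of_nonneg_left ?_ hc0
    rw [sum_boole, filter_filter]
    refine (hcount R hR).trans ?_
    exact mul_le_mul_of_nonneg_left (hexpR R hR) (by positivity)
  have hfac : ∑ R ∈ P.powerset, ((∏ p ∈ R, (1 - w p)) * (∏ p ∈ P \ R, w p)) *
        (C * N' * (Real.exp 1 * ∏ p ∈ R, Real.exp (-((1:ℝ)/p)))) =
      C * N' * Real.exp 1 * ∏ p ∈ P, ((1 - w p) * Real.exp (-((1:ℝ)/p)) + w p) := by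
    rw [prod_add, mul_sum]
    refine sum_congr rfl fun R _ => ?_
    rw [prod_mul_distrib]
    ring
  have hlast : ∏ p ∈ P, ((1 - w p) * Real.exp (-((1:ℝ)/p)) + w p) ≤
      Real.exp 1 * Real.exp (- ∑ p ∈ P, (1 - w p) / p) := by
    rw [← sum_neg_distrib, Real.exp_sum]
    have h1 : ∏ p ∈ P, ((1 - w p) * Real.exp (-((1:ℝ)/p)) + w p) ≤
        ∏ p ∈ P, (Real.exp (1/(p:ℝ)^2) * Real.exp (-((1 - w p) / p))) := by
      refine prod_le_prod (fun p hp => ?_) (fun p hp => ?_)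
      · have h2 := (hw p hp).1
        have h3 : 0 ≤ 1 - w p := by linarith [(hw p hp).2]
        positivity
      · have hp2 : (2:ℝ) ≤ p := by exact_mod_cast (hprime p hp).two_le
        have hp0 : (0:ℝ) < p := by linarith
        set u : ℝ := 1/p with hu
        have hu0 : 0 < u := by positivity
        have hu1 : u ≤ 1/2 := by rw [hu]; exact one_div_le_one_div_of_le (by norm_num) hp2
        have e1 : Real.exp (-u) ≤ 1 - u + u^2/2 := by
          have := Real.exp_bound_div_one_sub_of_interval (x := u) hu0.le (by linarith)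
          -- exp(-u) <= 1 - u + u^2/2
          have h5 : Real.exp (-u) = 1 / Real.exp u := by rw [Real.exp_neg, one_div]
          have h6 : 1 + u + u^2/2 ≤ Real.exp u := Real.quadratic_le_exp_of_nonneg hu0.le
          rw [h5, div_le_iff₀ (Real.exp_pos u)]
          nlinarith [mul_nonneg hu0.le hu0.le, pow_pos hu0 3, pow_pos hu0 4]
        have h2 := (hw p hp).1
        have h3 : 0 ≤ 1 - w p := by linarith [(hw p hp).2]
        have e2 : (1 - w p) * Real.exp (-u) + w p ≤ 1 - (1 - w p) * u + u^2 := by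
          have h4 : (1 - w p) * Real.exp (-u) ≤ (1 - w p) * (1 - u + u^2/2) :=
            mul_le_mul_of_nonneg_left e1 h3
          have h5 : (1 - w p) * (u^2/2) ≤ 1 * (u^2) := by
            apply mul_le_mul (by linarith) (by nlinarith [sq_nonneg u]) (by positivity) (by norm_num)
          nlinarith
        have e3 : 1 - (1 - w p) * u + u^2 ≤ Real.exp (u^2 - (1 - w p) * u) := by
          have := Real.add_one_le_exp (u^2 - (1 - w p) * u)
          linarith
        rw [← Real.exp_add]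
        have e4 : 1/(p:ℝ)^2 + -((1 - w p) / p) = u^2 - (1 - w p) * u := by
          rw [hu]; ring
        rw [e4]
        exact e2.trans e3
    refine h1.trans ?_
    rw [prod_mul_distrib, ← Real.exp_sum]
    refine mul_le_mul_of_nonneg_right ?_ (prod_nonneg fun _ _ => (Real.exp_pos _).le)
    apply Real.exp_le_exp.mpr
    exact sum_inv_sq_le P (fun l hl => (hprime l hl).two_le)
  rw [hfac] at hmain
  refine hmain.trans ?_
  have h1 : Real.exp 2 = Real.exp 1 * Real.exp 1 := by rw [← Real.exp_add]; norm_num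
  have h2 : 0 ≤ C * (N' : ℝ) * Real.exp 1 := by positivity
  calc C * N' * Real.exp 1 * ∏ p ∈ P, ((1 - w p) * Real.exp (-((1:ℝ)/p)) + w p)
      ≤ C * N' * Real.exp 1 * (Real.exp 1 * Real.exp (- ∑ p ∈ P, (1 - w p) / p)) :=
        mul_le_mul_of_nonneg_left hlast h2
    _ ≤ C * (2 * (N / m)) * Real.exp 1 * (Real.exp 1 * Real.exp (- ∑ p ∈ P, (1 - w p) / p)) := by
        gcongr
    _ = 2 * C * Real.exp 2 * (N / m) * Real.exp (- ∑ p ∈ P, (1 - w p) / p) := by
        rw [h1]; ring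

end Pool.Agent.H24.KS
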