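import Mathlib
import Pool.Agent.H24.SH.Wt
import Pool.Agent.H24.SH.Pair

/-!
Windows of character sums over primes: one-sided bounds for all but few integers.
-/

namespace Pool.Agent.H24.KS

open Finset Classical Pool.Agent.H95.Gol Pool.Agent.H24.UM Pool.Agent.H70.SymDes
open Pool.Agent.H24.SH

/-- the primes in `(bb i, bb j]` -/
def W (i j : ℕ) : Finset ℕ := (Ico i j).biUnion PB

lemma sum_W (i j : ℕ) (f : ℕ → ℝ) : ∑ p ∈ W i j, f p = ∑ k ∈ Ico i j, ∑ p ∈ PB k, f p :=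
  sum_biUnion fun _ _ _ _ hxy => PB_disjoint hxy

lemma mem_W {i j p : ℕ} (_ : i ≤ j) : p ∈ W i j ↔ p.Prime ∧ bb i < p ∧ p ≤ bb j := by
  unfold W
  rw [mem_biUnion]
  constructor
  · rintro ⟨k, hk, hp⟩
    rw [mem_Ico] at hk
    rw [mem_PB] at hp
    have h1 : bb i ≤ bb k := bb_mono hk.1
    have h2 : bb (k+1) ≤ bb j := bb_mono hk.2
    exact ⟨hp.2, by omega, by omega⟩
  · rintro ⟨h1, h2, h3⟩
    have h4 := two_le_bb i
    obtain ⟨k, hk, hpk⟩ := exists_block h1 (by omega) h3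
    refine ⟨k, mem_Ico.mpr ⟨?_, hk⟩, hpk⟩
    by_contra hcon
    push Not at hcon
    have h5 := (mem_PB.mp hpk).1.2
    have h6 : bb (k+1) ≤ bb i := bb_mono hcon
    omega

lemma prime_of_mem_W {i j p : ℕ} (h : p ∈ W i j) : p.Prime := by
  unfold W at h
  rw [mem_biUnion] at h
  obtain ⟨k, _, hp⟩ := h
  exact (mem_PB.mp hp).2

lemma lt_of_mem_W {i j p : ℕ} (h : p ∈ W i j) : bb i < p := by
  unfold W at h
  rw [mem_biUnion] at h
  obtain ⟨k, hk, hp⟩ := h
  have h1 : bb i ≤ bb k := bb_mono (mem_Ico.mp hk).1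
  have := (mem_PB.mp hp).1.1
  omega

lemma le_of_mem_W {i j p : ℕ} (h : p ∈ W i j) : p ≤ bb j := by
  unfold W at h
  rw [mem_biUnion] at h
  obtain ⟨k, hk, hp⟩ := h
  have h1 : bb (k+1) ≤ bb j := bb_mono (mem_Ico.mp hk).2
  have := (mem_PB.mp hp).1.2
  omega

lemma W_mono {i j i' j' : ℕ} (h1 : i' ≤ i) (h2 : j ≤ j') : W i j ⊆ W i' j' := by
  unfold W
  apply biUnion_subset_biUnion_of_subset_left
  intro k hk
  rw [mem_Ico] at hk ⊢
  omega

/-- the window sum of a character -/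
noncomputable def XD (D : ℤ) (i j : ℕ) : ℝ := ∑ p ∈ W i j, F D p / p

lemma XD_eq (D : ℤ) (i j : ℕ) : XD D i j = ∑ k ∈ Ico i j, Dk D k := sum_W i j _

/-- the exceptional integers -/
def BadN (s : ℤ) (k1 D : ℕ) : Prop :=
  ∃ i : ℕ, bb i < D ∧ D ≤ bb (i+1) ∧ ∃ k : ℕ, k1 ≤ k ∧ k + 4 ≤ i ∧ 1/((i:ℝ)+1) < |Dk (s * D) k|

lemma bad_oneN (s : ℤ) (hs : s = 1 ∨ s = -1) (k1 i k : ℕ) (hk : k1 ≤ k) (hki : k + 4 ≤ i) :
    ∑ a ∈ Ioc (bb i) (bb (i+1)), (Dk (s * a) k)^2 / a ≤ 2^i * (2 / bb k1) := by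
  have hs0 : s ≠ 0 := by rcases hs with h | h <;> rw [h] <;> norm_num
  have hd : s.natAbs = 1 := by rcases hs with h | h <;> rw [h] <;> rfl
  refine (sum_block_le i (fun a => (Dk (s * a) k)^2) (fun _ => sq_nonneg _)).trans ?_
  have hcard : (Ico (2^i) (2^(i+1))).card = 2^i := by
    rw [Nat.card_Ico, pow_succ]; omega
  have h : ∀ m ∈ Ico (2^i) (2^(i+1)), (∑ a ∈ Ioc (2^m : ℕ) (2 * 2^m), (Dk (s * a) k)^2) / (2:ℝ)^m ≤
      2 / bb k1 := by
    intro m hm
    rw [mem_Ico] at hm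
    have h1 := low_twist s hs0 (2^m) k
    rw [hd] at h1
    have hm0 : (0:ℝ) < 2^m := by positivity
    rw [div_le_iff₀ hm0]
    refine h1.trans ?_
    have hb0 : (0:ℝ) < bb k1 := by exact_mod_cast bb_pos _
    have hbk : (bb k1 : ℝ) ≤ bb k := by exact_mod_cast bb_mono hk
    have e1 : ((1 * 2^m : ℕ) : ℝ) / bb k ≤ 2^m / bb k1 := by
      push_cast
      rw [one_mul]
      exact div_le_div_of_nonneg_left (by positivity) hb0 hbk
    have e2 : (bb (k+1) : ℝ)^2 ≤ 2^m / bb k1 := by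
      rw [le_div_iff₀ hb0]
      have h2 : bb (k+1)^2 * bb k1 ≤ 2^m := by
        rw [← bb_succ]
        have h3 : bb (k+1+1) ≤ bb (i-2) := bb_mono (by omega)
        have h4 : bb k1 ≤ bb (i-1) := bb_mono (by omega)
        have h5 : bb (i-2) ≤ bb (i-1) := bb_mono (by omega)
        calc bb (k+1+1) * bb k1 ≤ bb (i-1) * bb (i-1) := Nat.mul_le_mul (h3.trans h5) h4
          _ = bb i := by rw [← sq, ← bb_succ]; congr 1; omega
          _ ≤ 2^m := by unfold bb; exact Nat.pow_le_pow_right (by norm_num) hm.1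
      exact_mod_cast h2
    calc ((1 * 2^m : ℕ) : ℝ) / bb k + (bb (k+1) : ℝ)^2 ≤ 2^m / bb k1 + 2^m / bb k1 := by
          linarith
      _ = 2 / bb k1 * 2^m := by ring
  calc ∑ m ∈ Ico (2^i) (2^(i+1)), (∑ a ∈ Ioc (2^m : ℕ) (2 * 2^m), (Dk (s * a) k)^2) / (2:ℝ)^m
      ≤ ∑ m ∈ Ico (2^i) (2^(i+1)), (2:ℝ) / bb k1 := sum_le_sum h
    _ = 2^i * (2 / bb k1) := by rw [sum_const, hcard, nsmul_eq_mul]; push_cast; ring

lemma bad_sumN (s : ℤ) (hs : s = 1 ∨ s = -1) (k1 i : ℕ) :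
    ∑ p ∈ (Ioc (bb i) (bb (i+1))).filter (BadN s k1), (1:ℝ)/p ≤ 16^i * (2 / bb k1) := by
  have hX0 : (0:ℝ) ≤ 2^i * (2 / (bb k1 : ℝ)) := by positivity
  have h1 : ∀ p ∈ (Ioc (bb i) (bb (i+1))).filter (BadN s k1), (1:ℝ)/p ≤
      ((i:ℝ)+1)^2 * ∑ k ∈ Ico k1 (i-3), (Dk (s * p) k)^2 / p := by
    intro p hp
    rw [mem_filter, mem_Ioc] at hp
    obtain ⟨⟨hp1, hp2⟩, i', hi1, hi2, k, hk1, hk2, hk3⟩ := hp
    have hii : i' = i := by
      by_contra hne
      rcases lt_or_gt_of_ne hne with h | h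
      · have := bb_mono (show i' + 1 ≤ i by omega); omega
      · have := bb_mono (show i + 1 ≤ i' by omega); omega
    subst hii
    have hp0 : (0:ℝ) < p := by
      have := bb_pos i'
      exact_mod_cast (by omega : 0 < p)
    have h2 : (Dk (s * p) k)^2 / p ≤ ∑ k ∈ Ico k1 (i'-3), (Dk (s * p) k)^2 / p :=
      single_le_sum (f := fun k => (Dk (s * p) k)^2 / p) (fun _ _ => by positivity)
        (mem_Ico.mpr ⟨hk1, by omega⟩)
    have hi : (0:ℝ) < (i':ℝ) + 1 := by positivity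
    have h3 : 1 ≤ ((i':ℝ)+1)^2 * (Dk (s * p) k)^2 := by
      rw [div_lt_iff₀ hi] at hk3
      rw [← mul_pow, ← sq_abs, abs_mul, abs_of_pos hi]
      have : 1 ≤ ((i':ℝ)+1) * |Dk (s * p) k| := by linarith
      exact one_le_pow₀ this
    calc (1:ℝ)/p ≤ (((i':ℝ)+1)^2 * (Dk (s * p) k)^2) / p := by gcongr
      _ = ((i':ℝ)+1)^2 * ((Dk (s * p) k)^2 / p) := by ring
      _ ≤ _ := mul_le_mul_of_nonneg_left h2 (by positivity)
  have hi2 : ((i:ℝ)+1) ≤ 2^i := by
    have : i + 1 ≤ 2^i := Nat.lt_two_pow_self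
    exact_mod_cast this
  have hi0 : (0:ℝ) ≤ (i:ℝ) + 1 := by positivity
  calc ∑ p ∈ (Ioc (bb i) (bb (i+1))).filter (BadN s k1), (1:ℝ)/p
      ≤ ∑ p ∈ (Ioc (bb i) (bb (i+1))).filter (BadN s k1),
          ((i:ℝ)+1)^2 * ∑ k ∈ Ico k1 (i-3), (Dk (s * p) k)^2 / p := sum_le_sum h1
    _ ≤ ∑ p ∈ Ioc (bb i) (bb (i+1)), ((i:ℝ)+1)^2 * ∑ k ∈ Ico k1 (i-3), (Dk (s * p) k)^2 / p := by
        refine sum_le_sum_of_subset_of_nonneg (filter_subset _ _) fun p _ _ => ?_
        exact mul_nonneg (by positivity) (sum_nonneg fun _ _ => by positivity)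
    _ = ((i:ℝ)+1)^2 * ∑ k ∈ Ico k1 (i-3), ∑ p ∈ Ioc (bb i) (bb (i+1)), (Dk (s * p) k)^2 / p := by
        rw [← mul_sum, sum_comm]
    _ ≤ ((i:ℝ)+1)^2 * ∑ k ∈ Ico k1 (i-3), 2^i * (2 / (bb k1 : ℝ)) := by
        refine mul_le_mul_of_nonneg_left (sum_le_sum fun k hk => ?_) (by positivity)
        rw [mem_Ico] at hk
        exact bad_oneN s hs k1 i k hk.1 (by omega)
    _ = ((i:ℝ)+1)^2 * ((Ico k1 (i-3)).card * (2^i * (2 / (bb k1 : ℝ)))) := by
        rw [sum_const, nsmul_eq_mul]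
    _ ≤ ((i:ℝ)+1)^2 * (((i:ℝ)+1) * (2^i * (2 / (bb k1 : ℝ)))) := by
        refine mul_le_mul_of_nonneg_left (mul_le_mul_of_nonneg_right ?_ hX0) (by positivity)
        rw [Nat.card_Ico]
        have : (i - 3) - k1 ≤ i + 1 := by omega
        exact_mod_cast this
    _ = ((i:ℝ)+1)^3 * (2^i * (2 / (bb k1 : ℝ))) := by ring
    _ ≤ (2^i)^3 * (2^i * (2 / (bb k1 : ℝ))) :=
        mul_le_mul_of_nonneg_right (pow_le_pow_left₀ hi0 hi2 3) hX0
    _ = 16^i * (2 / (bb k1 : ℝ)) := by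
        rw [← mul_assoc, ← pow_succ, ← pow_mul, mul_comm i 4, pow_mul]; norm_num

/-- windows of a good integer -/
lemma win_good : ∃ C : ℝ, 0 ≤ C ∧ ∀ (s : ℤ) (k1 D : ℕ), (s = 1 ∨ s = -1) → 963 ≤ k1 → 0 < D →
    ¬ IsSquare (s * D) → ¬ BadN s k1 D → ∀ j, XD (s * D) k1 j ≤ C := by
  obtain ⟨C0, hC0, hone, hup, _⟩ := blk_bounds
  obtain ⟨Cu, hCu, hwin⟩ := window_high
  have hl0 : 0 < Real.log 2 := Real.log_pos (by norm_num)
  set Lb := Real.log 2 + C0 with hLb
  have hLb0 : 0 < Lb := by rw [hLb]; positivity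
  refine ⟨1 + 8 * Lb + Cu, by positivity, ?_⟩
  intro s k1 D hs hk1 hD hns hbad j
  have hs0 : s ≠ 0 := by rcases hs with h | h <;> rw [h] <;> norm_num
  have hd : s.natAbs = 1 := by rcases hs with h | h <;> rw [h] <;> rfl
  rw [XD_eq]
  -- a block of D
  obtain ⟨i, hi1, hi2⟩ : ∃ i : ℕ, D ≤ bb (i+1) ∧ (∀ k, k1 ≤ k → k + 4 ≤ i →
      |Dk (s * D) k| ≤ 1/((i:ℝ)+1)) := by
    by_cases h2 : D ≤ 2
    · refine ⟨0, ?_, fun k _ hk => by omega⟩
      have : bb 1 = 4 := rfl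
      rw [zero_add, this]; omega
    · push Not at h2
      have hex : ∃ i, D ≤ bb (i+1) := by
        refine ⟨D, ?_⟩
        have h3 : D < 2^D := Nat.lt_two_pow_self
        have h4 : 2^D ≤ bb D := by
          unfold bb
          exact Nat.pow_le_pow_right (by norm_num) Nat.lt_two_pow_self.le
        have h5 : bb D ≤ bb (D+1) := bb_mono (by omega)
        omega
      set i := Nat.find hex with hi
      have hfind := Nat.find_spec hex
      refine ⟨i, hfind, fun k hk hki => ?_⟩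
      have hlo : bb i < D := by
        rcases Nat.eq_zero_or_pos i with h0 | h0
        · rw [h0]; exact h2
        · have hmin := Nat.find_min hex (m := i - 1) (by omega)
          push Not at hmin
          rwa [Nat.sub_add_cancel h0] at hmin
      by_contra hcon
      push Not at hcon
      exact hbad ⟨i, hlo, hfind, k, hk, hki, hcon⟩
  set E : ℤ := s * D with hE
  set J := max (k1 + 1) (i + 4) with hJ
  have hsplit : ∑ k ∈ Ico k1 j, Dk E k = ∑ k ∈ (Ico k1 j).filter (fun k => k + 4 ≤ i), Dk E k +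
      ∑ k ∈ (Ico k1 j).filter (fun k => ¬ k + 4 ≤ i), Dk E k :=
    (sum_filter_add_sum_filter_not _ _ _).symm
  have hsplit2 : ∑ k ∈ (Ico k1 j).filter (fun k => ¬ k + 4 ≤ i), Dk E k =
      ∑ k ∈ ((Ico k1 j).filter (fun k => ¬ k + 4 ≤ i)).filter (fun k => k < J), Dk E k +
      ∑ k ∈ ((Ico k1 j).filter (fun k => ¬ k + 4 ≤ i)).filter (fun k => ¬ k < J), Dk E k :=
    (sum_filter_add_sum_filter_not _ _ _).symm
  have h1 : ∑ k ∈ (Ico k1 j).filter (fun k => k + 4 ≤ i), Dk E k ≤ 1 := by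
    have h3 : ∀ k ∈ (Ico k1 j).filter (fun k => k + 4 ≤ i), Dk E k ≤ 1/((i:ℝ)+1) := by
      intro k hk
      rw [mem_filter, mem_Ico] at hk
      exact (le_abs_self _).trans (hi2 k hk.1.1 hk.2)
    refine (sum_le_card_nsmul _ _ _ h3).trans ?_
    rw [nsmul_eq_mul, mul_one_div, div_le_one (by positivity)]
    have h4 : (Ico k1 j).filter (fun k => k + 4 ≤ i) ⊆ range (i+1) := by
      intro k hk
      rw [mem_filter] at hk
      rw [mem_range]; omega
    have h5 := card_le_card h4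
    rw [card_range] at h5
    exact_mod_cast h5
  have h2 : ∑ k ∈ ((Ico k1 j).filter (fun k => ¬ k + 4 ≤ i)).filter (fun k => k < J), Dk E k ≤
      8 * Lb := by
    have h3 : ∀ k ∈ ((Ico k1 j).filter (fun k => ¬ k + 4 ≤ i)).filter (fun k => k < J),
        Dk E k ≤ Lb := fun k _ => (le_abs_self _).trans ((abs_Dk_le E k).trans (hone k))
    refine (sum_le_card_nsmul _ _ _ h3).trans ?_
    rw [nsmul_eq_mul]
    refine mul_le_mul_of_nonneg_right ?_ hLb0.le
    have h4 : ((Ico k1 j).filter (fun k => ¬ k + 4 ≤ i)).filter (fun k => k < J) ⊆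
        Ico (max k1 (i-3)) J := by
      intro k hk
      rw [mem_filter, mem_filter, mem_Ico] at hk
      rw [mem_Ico]; omega
    have h5 := card_le_card h4
    rw [Nat.card_Ico] at h5
    have h6 : J - max k1 (i-3) ≤ 8 := by omega
    exact_mod_cast h5.trans h6
  have h3 : ∑ k ∈ ((Ico k1 j).filter (fun k => ¬ k + 4 ≤ i)).filter (fun k => ¬ k < J), Dk E k ≤
      Cu := by
    have e : ((Ico k1 j).filter (fun k => ¬ k + 4 ≤ i)).filter (fun k => ¬ k < J) = Ico J j := by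
      ext k; rw [mem_filter, mem_filter, mem_Ico, mem_Ico]; omega
    rw [e]
    rcases le_or_gt J j with h | h
    · refine hwin E J j hns (by omega) h ?_
      apply adm_of s _ D
      · rw [hd]; omega
      · exact hi1.trans (bb_mono (by omega))
    · rw [Ico_eq_empty (by omega), sum_empty]; exact hCu
  rw [hsplit, hsplit2]
  linarith

/-- the majorant of the windows -/
noncomputable def mu (C1 C0 : ℝ) (s : ℤ) (k1 K D : ℕ) : ℝ :=
  if BadN s k1 D then K * Real.log 2 + C0 else C1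

/-- **the weight theorem**: a majorant `μ` of all windows, with a small exponential moment -/
theorem weightN : ∃ (C : ℝ) (μ : ℤ → ℕ → ℕ → ℕ → ℝ), 0 < C ∧ (∀ s k1 K D, 0 ≤ μ s k1 K D) ∧
    (∀ (s : ℤ) (k1 K D : ℕ), (s = 1 ∨ s = -1) → 963 ≤ k1 → 0 < D → ¬ IsSquare (s * D) →
      ∀ j ≤ K, XD (s * D) k1 j ≤ μ s k1 K D) ∧
    (∀ (s : ℤ) (k1 K : ℕ) (S : Finset ℕ), (s = 1 ∨ s = -1) → 5 * K ≤ 2^k1 →
      (∀ D ∈ S, 0 < D ∧ D ≤ bb (K+3)) →
      ∑ D ∈ S, Real.exp (μ s k1 K D) / D ≤ C * (1 + ∑ D ∈ S, (1:ℝ) / D)) := by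
  obtain ⟨C0, hC0, hone, hup, _⟩ := blk_bounds
  obtain ⟨C1, hC1, hg⟩ := win_good
  have hl0 : 0 < Real.log 2 := Real.log_pos (by norm_num)
  refine ⟨Real.exp C1 + Real.exp C0 * (4 * 16^3), mu C1 C0, by positivity, ?_, ?_, ?_⟩
  · intro s k1 K D
    unfold mu
    split_ifs
    · positivity
    · exact hC1
  · intro s k1 K D hs hk1 hD hns j hj
    unfold mu
    split_ifs with hbad
    · rw [XD_eq]
      rcases le_or_gt k1 j with h | h
      · have h1 : ∑ k ∈ Ico k1 j, Dk (s * D) k ≤ ∑ k ∈ Ico k1 j, ∑ l ∈ PB k, (1:ℝ)/l :=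
          sum_le_sum fun k _ => (le_abs_self _).trans (abs_Dk_le _ k)
        have h2 := hup k1 j h
        have h3 : (j:ℝ) ≤ K := by exact_mod_cast hj
        have h4 : (0:ℝ) ≤ k1 := Nat.cast_nonneg _
        have h5 : ((j:ℝ) - k1) * Real.log 2 ≤ K * Real.log 2 :=
          mul_le_mul_of_nonneg_right (by linarith) hl0.le
        linarith
      · rw [Ico_eq_empty (by omega), sum_empty]; positivity
    · exact hg s k1 D hs hk1 hD hns hbad j
  · intro s k1 K S hs hK hS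
    have h1 : ∀ D ∈ S, Real.exp (mu C1 C0 s k1 K D) / D ≤ Real.exp C1 * (1/D) +
        (if BadN s k1 D then Real.exp (K * Real.log 2 + C0) * (1/D) else 0) := by
      intro D hD
      have hD0 : (0:ℝ) < D := by exact_mod_cast (hS D hD).1
      unfold mu
      split_ifs
      · rw [div_eq_mul_one_div]
        have : 0 ≤ Real.exp C1 * (1/(D:ℝ)) := by positivity
        linarith
      · rw [div_eq_mul_one_div, add_zero]
    refine (sum_le_sum h1).trans ?_
    rw [sum_add_distrib, ← mul_sum, ← sum_filter, ← mul_sum]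
    have h2 : ∑ D ∈ S.filter (BadN s k1), (1:ℝ)/D ≤
        ∑ i ∈ range (K+3), ∑ p ∈ (Ioc (bb i) (bb (i+1))).filter (BadN s k1), (1:ℝ)/p := by
      have hsub : S.filter (BadN s k1) ⊆ (range (K+3)).biUnion
          (fun i => (Ioc (bb i) (bb (i+1))).filter (BadN s k1)) := by
        intro D hD
        rw [mem_filter] at hD
        obtain ⟨i, hi1, hi2, hrest⟩ := hD.2
        rw [mem_biUnion]
        refine ⟨i, ?_, ?_⟩
        · rw [mem_range]
          by_contra hcon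
          push Not at hcon
          have := bb_mono hcon
          have := (hS D hD.1).2
          omega
        · rw [mem_filter, mem_Ioc]
          exact ⟨⟨hi1, hi2⟩, hD.2⟩
      set SS : Finset ℕ := (range (K+3)).biUnion
          (fun i => (Ioc (bb i) (bb (i+1))).filter (BadN s k1)) with hSS
      calc ∑ D ∈ S.filter (BadN s k1), (1:ℝ)/D ≤ ∑ D ∈ SS, (1:ℝ)/D :=
            sum_le_sum_of_subset_of_nonneg hsub fun _ _ _ => by positivity
        _ = ∑ i ∈ range (K+3), ∑ p ∈ (Ioc (bb i) (bb (i+1))).filter (BadN s k1), (1:ℝ)/p := by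
            apply sum_biUnion
            intro i _ j _ hij
            rw [Function.onFun, disjoint_left]
            intro D hD hD'
            rw [mem_filter, mem_Ioc] at hD hD'
            rcases lt_or_gt_of_ne hij with h | h
            · have := bb_mono (show i + 1 ≤ j by omega); omega
            · have := bb_mono (show j + 1 ≤ i by omega); omega
    have hb0 : (0:ℝ) < bb k1 := by exact_mod_cast bb_pos _
    have h3 : ∑ D ∈ S.filter (BadN s k1), (1:ℝ)/D ≤ 16^(K+3) * (4 / bb k1) := by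
      refine h2.trans ((sum_le_sum fun i _ => bad_sumN s hs k1 i).trans ?_)
      rw [← sum_mul]
      have h4 : ∑ i ∈ range (K+3), (16:ℝ)^i ≤ 16^(K+3) := by
        have h5 := geom_sum_eq (show (16:ℝ) ≠ 1 by norm_num) (K+3)
        rw [h5, div_le_iff₀ (by norm_num)]
        have : (0:ℝ) < 16^(K+3) := by positivity
        linarith
      calc (∑ i ∈ range (K+3), (16:ℝ)^i) * (2 / bb k1) ≤ 16^(K+3) * (2 / bb k1) :=
            mul_le_mul_of_nonneg_right h4 (by positivity)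
        _ ≤ 16^(K+3) * (4 / bb k1) := by gcongr; norm_num
    have h5 : Real.exp (K * Real.log 2 + C0) * (16^(K+3) * (4 / bb k1)) ≤
        Real.exp C0 * (4 * 16^3) := by
      have e1 : Real.exp (K * Real.log 2 + C0) = 2^K * Real.exp C0 := by
        rw [Real.exp_add, Real.exp_nat_mul, Real.exp_log (by norm_num)]
      have e2 : (2:ℝ)^K * 16^K ≤ bb k1 := by
        have : 2^K * 16^K ≤ bb k1 := by
          unfold bb
          calc 2^K * 16^K = 2^(5 * K) := by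
                rw [show (16:ℕ) = 2^4 by norm_num, ← pow_mul, ← pow_add]; congr 1; ring
            _ ≤ 2^(2^k1) := Nat.pow_le_pow_right (by norm_num) hK
        exact_mod_cast this
      rw [e1]
      have e3 : (2:ℝ)^K * Real.exp C0 * (16^(K+3) * (4 / bb k1)) =
          Real.exp C0 * (4 * 16^3) * ((2^K * 16^K) / bb k1) := by
        rw [pow_add]; ring
      rw [e3]
      have e4 : ((2:ℝ)^K * 16^K) / bb k1 ≤ 1 := by rw [div_le_one hb0]; exact e2
      exact mul_le_of_le_one_right (by positivity) e4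
    have hS1 : 0 ≤ ∑ D ∈ S, (1:ℝ)/D := sum_nonneg fun _ _ => by positivity
    have h6 : Real.exp (K * Real.log 2 + C0) * ∑ D ∈ S.filter (BadN s k1), (1:ℝ)/D ≤
        Real.exp C0 * (4 * 16^3) :=
      (mul_le_mul_of_nonneg_left h3 (Real.exp_pos _).le).trans h5
    have h7 := Real.exp_pos C1
    have h8 : 0 ≤ Real.exp C0 * (4 * 16^3) * ∑ D ∈ S, (1:ℝ)/D := by positivity
    nlinarith

end Pool.Agent.H24.KS
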