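import Mathlib
import Pool.Agent.H24.KS.SieveC
import Pool.Agent.H24.KS.Win
import Pool.Agent.H24.SH.Cnt
import Pool.Agent.H24.DS.Gauss

/-!
The sieve over `t` for fixed `(a,z)`: `x = x0 + y t`, `v = v0 + a^2 t`.
-/

namespace Pool.Agent.H24.KS

open Finset Classical
open Pool.Agent.H95.Gol
open Pool.Agent.H24.SH (card_sq_of_mod)

/-- number of `t < l^2` with `l ∣ c + d t` -/
lemma card_lin (l c d : ℕ) (hl : l.Prime) (hd : ¬ l ∣ d) :
    ((range (l^2)).filter (fun t => l ∣ c + d * t)).card = l := by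
  have hcop : Nat.Coprime d (l^2) :=
    Nat.Coprime.pow_right 2 ((Nat.Prime.coprime_iff_not_dvd hl).mpr hd).symm
  have h1 := card_affine d c (l^2) hcop (fun x => l ∣ x) (fun x => by
    rw [Nat.dvd_mod_iff (⟨l, by ring⟩ : l ∣ l^2)])
  have h2 := card_mod_eq l 0 hl.pos
  have h3 : (range (l^2)).filter (fun x => l ∣ x) = (range (l^2)).filter (fun x => x % l = 0) :=
    filter_congr fun x _ => Nat.dvd_iff_mod_eq_zero
  calc ((range (l^2)).filter (fun t => l ∣ c + d * t)).card =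
      ((range (l^2)).filter (fun x => l ∣ x)).card := by convert h1
    _ = l := by rw [h3]; exact h2

lemma card_lin_exact (l c d : ℕ) (hl : l.Prime) (hd : ¬ l ∣ d) :
    ((range (l^2)).filter (fun t => l ∣ c + d * t ∧ ¬ l^2 ∣ c + d * t)).card = l - 1 := by
  have hcop : Nat.Coprime d (l^2) :=
    Nat.Coprime.pow_right 2 ((Nat.Prime.coprime_iff_not_dvd hl).mpr hd).symm
  have h1 := card_affine d c (l^2) hcop (fun x => l ∣ x ∧ ¬ l^2 ∣ x) (fun x => by
    rw [Nat.dvd_mod_iff (⟨l, by ring⟩ : l ∣ l^2), Nat.dvd_mod_iff (dvd_refl _)])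
  calc ((range (l^2)).filter (fun t => l ∣ c + d * t ∧ ¬ l^2 ∣ c + d * t)).card =
      ((range (l^2)).filter (fun x => l ∣ x ∧ ¬ l^2 ∣ x)).card := by convert h1
    _ = l - 1 := card_exact l hl.pos

/-- the events of the `t`-sieve -/
def Et (a y x0 v0 : ℕ) (A B : ℕ → Prop) (l t : ℕ) : Prop :=
  (A l ∧ l ∣ v0 + a^2 * t) ∨ (B l ∧ l ∣ x0 + y * t ∧ ¬ l^2 ∣ x0 + y * t)

lemma lin_mod (c d t M l : ℕ) (hl : l ∣ M) : l ∣ c + d * t ↔ l ∣ c + d * (t % M) := by
  rw [← Nat.dvd_mod_iff hl, Nat.add_mod, Nat.mul_mod, ← Nat.dvd_mod_iff (n := M)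
    (m := c + d * (t % M)) hl, Nat.add_mod c (d * (t % M)), Nat.mul_mod d (t % M), Nat.mod_mod]

lemma Et_per (a y x0 v0 : ℕ) (A B : ℕ → Prop) (l t : ℕ) :
    Et a y x0 v0 A B l t ↔ Et a y x0 v0 A B l (t % l^2) := by
  unfold Et
  have h1 : l ∣ l^2 := ⟨l, by ring⟩
  rw [lin_mod v0 (a^2) t (l^2) l h1, lin_mod x0 y t (l^2) l h1,
    lin_mod x0 y t (l^2) (l^2) dvd_rfl]

lemma Et_card (a y z x0 v0 : ℕ) (hid : y * v0 + z = a^2 * x0)
    (A B : ℕ → Prop) (l : ℕ) (hl : l.Prime) (ha : ¬ l ∣ a) (hy : ¬ l ∣ y) (hz : ¬ l ∣ z) :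
    ((range (l^2)).filter (Et a y x0 v0 A B l)).card =
      (if A l then l else 0) + (if B l then l - 1 else 0) := by
  have ha2 : ¬ l ∣ a^2 := fun h => ha (hl.dvd_of_dvd_pow h)
  have hdis : Disjoint ((range (l^2)).filter (fun t => A l ∧ l ∣ v0 + a^2 * t))
      ((range (l^2)).filter (fun t => B l ∧ l ∣ x0 + y * t ∧ ¬ l^2 ∣ x0 + y * t)) := by
    rw [disjoint_filter]
    rintro t _ ⟨_, h1⟩ ⟨_, h2, _⟩
    have h3 : y * (v0 + a^2 * t) + z = a^2 * (x0 + y * t) := by nlinarith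
    have h4 : l ∣ y * (v0 + a^2 * t) + z := by rw [h3]; exact Dvd.dvd.mul_left h2 _
    exact hz ((Nat.dvd_add_right (Dvd.dvd.mul_left h1 _)).mp h4)
  have hsplit : (range (l^2)).filter (Et a y x0 v0 A B l) =
      (range (l^2)).filter (fun t => A l ∧ l ∣ v0 + a^2 * t) ∪
      (range (l^2)).filter (fun t => B l ∧ l ∣ x0 + y * t ∧ ¬ l^2 ∣ x0 + y * t) := by
    rw [← filter_or]
    ext t
    rw [mem_filter, mem_filter]
    rfl
  rw [hsplit, card_union_of_disjoint hdis]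
  congr 1
  · by_cases hA : A l
    · simp only [hA, true_and, if_true]
      convert card_lin l v0 (a^2) hl ha2
    · simp [hA]
  · by_cases hB : B l
    · simp only [hB, true_and, if_true]
      convert card_lin_exact l x0 y hl hy
    · simp [hB]

theorem FZ : ∃ C : ℝ, 0 < C ∧ ∀ (a y z x0 v0 K J : ℕ) (D P : Finset ℕ) (A B : ℕ → Prop)
    (Cd : ℕ → ℕ → Prop), y * v0 + z = a^2 * x0 →
    (∏ q ∈ D, q^2) * (bb K)^34 ≤ J → (∀ q ∈ D, q.Prime) → Disjoint D P →
    (∀ p ∈ P, p.Prime ∧ 2 < p ∧ p ≤ bb K ∧ ¬ p ∣ a ∧ ¬ p ∣ y ∧ ¬ p ∣ z) →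
    (∀ q ∈ D, ∀ j, Cd q j ↔ Cd q (j % q^2)) →
    (((range J).filter (fun t => (∀ q ∈ D, Cd q t) ∧
      ∀ p ∈ P, ¬ Et a y x0 v0 A B p t)).card : ℝ) ≤
      C * J * (∏ q ∈ D, (((range (q^2)).filter (Cd q)).card : ℝ) / q^2) *
        Real.exp (- ∑ p ∈ P, ((if A p then (1:ℝ) else 0) + (if B p then (1:ℝ) else 0)) / p) := by
  obtain ⟨C, hC, hs⟩ := sieveC 2
  refine ⟨C * Real.exp 1, by positivity, ?_⟩
  intro a y z x0 v0 K J D P A B Cd hid hJ hD hDP hP hCd
  have h1 := hs D P K J (Et a y x0 v0 A B) Cd hJ hD hDP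
    (fun p hp => ⟨(hP p hp).1, (hP p hp).2.1, (hP p hp).2.2.1⟩)
    (fun p _ j => Et_per a y x0 v0 A B p j) hCd ?_
  · refine h1.trans ?_
    have hX0 : 0 ≤ C * J * (∏ q ∈ D, (((range (q^2)).filter (Cd q)).card : ℝ) / q^2) := by
      have : 0 ≤ (∏ q ∈ D, (((range (q^2)).filter (Cd q)).card : ℝ) / q^2) :=
        prod_nonneg fun _ _ => div_nonneg (Nat.cast_nonneg _) (sq_nonneg _)
      exact mul_nonneg (mul_nonneg hC.le (Nat.cast_nonneg _)) this
    have h2 : Real.exp (- ∑ p ∈ P, (((range (p^2)).filter (Et a y x0 v0 A B p)).card : ℝ) / p^2) ≤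
        Real.exp 1 * Real.exp (- ∑ p ∈ P, ((if A p then (1:ℝ) else 0) +
          (if B p then (1:ℝ) else 0)) / p) := by
      rw [← Real.exp_add]
      apply Real.exp_le_exp.mpr
      have h3 : ∑ p ∈ P, ((if A p then (1:ℝ) else 0) + (if B p then (1:ℝ) else 0)) / p ≤
          ∑ p ∈ P, (((range (p^2)).filter (Et a y x0 v0 A B p)).card : ℝ) / p^2 +
          ∑ p ∈ P, (1:ℝ)/(p:ℝ)^2 := by
        rw [← sum_add_distrib]
        refine sum_le_sum fun p hp => ?_
        obtain ⟨hp1, hp2, hp3, hp4, hp5, hp6⟩ := hP p hp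
        rw [Et_card a y z x0 v0 hid A B p hp1 hp4 hp5 hp6]
        have hp0 : (0:ℝ) < p := by exact_mod_cast hp1.pos
        rw [← add_div, div_le_div_iff₀ hp0 (by positivity)]
        have h4 : ((p - 1 : ℕ) : ℝ) = p - 1 := by
          rw [Nat.cast_sub hp1.one_lt.le, Nat.cast_one]
        push_cast
        split_ifs <;> (try rw [h4]) <;> nlinarith
      have h5 := sum_inv_sq_le P (fun l hl => (hP l hl).1.two_le)
      linarith
    calc _ ≤ C * J * (∏ q ∈ D, (((range (q^2)).filter (Cd q)).card : ℝ) / q^2) *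
          (Real.exp 1 * Real.exp (- ∑ p ∈ P, ((if A p then (1:ℝ) else 0) +
          (if B p then (1:ℝ) else 0)) / p)) := mul_le_mul_of_nonneg_left h2 hX0
      _ = _ := by ring
  · intro p hp
    obtain ⟨hp1, hp2, hp3, hp4, hp5, hp6⟩ := hP p hp
    rw [Et_card a y z x0 v0 hid A B p hp1 hp4 hp5 hp6]
    split_ifs <;> omega

/-- few large prime divisors -/
lemma few_primes (S : Finset ℕ) (B N : ℕ) (hB : 0 < B) (hS : ∀ p ∈ S, p.Prime ∧ B < p ∧ p ∣ N)
    (hN : N ≠ 0) (h : N ≤ 2^B) : ∑ p ∈ S, (1:ℝ)/p ≤ 1 := by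
  have h1 : ∏ p ∈ S, p ∣ N := prod_primes_dvd N (fun p hp => (hS p hp).1.prime) fun p hp => (hS p hp).2.2
  have h2 : 2^S.card ≤ ∏ p ∈ S, p := by
    rw [← prod_const]
    exact prod_le_prod' fun p hp => (hS p hp).1.two_le
  have h3 : 2^S.card ≤ 2^B := (h2.trans (Nat.le_of_dvd (Nat.pos_of_ne_zero hN) h1)).trans h
  have h4 : S.card ≤ B := (Nat.pow_le_pow_iff_right (by norm_num)).mp h3
  have hB' : (0:ℝ) < B := by exact_mod_cast hB
  calc ∑ p ∈ S, (1:ℝ)/p ≤ ∑ p ∈ S, (1:ℝ)/B := by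
        refine sum_le_sum fun p hp => ?_
        have : (B:ℝ) ≤ p := by exact_mod_cast (hS p hp).2.1.le
        exact one_div_le_one_div_of_le hB' this
    _ = S.card / B := by rw [sum_const, nsmul_eq_mul]; ring
    _ ≤ 1 := by rw [div_le_one hB']; exact_mod_cast h4

/-- half of the non-zero residues are non-residues -/
lemma card_nonres (q : ℕ) (hq : q.Prime) (hq2 : q ≠ 2) (s : ℤ) (hs : s = 1 ∨ s = -1) :
    2 * ((range q).filter (fun u : ℕ => jacobiSym (s * u) q = -1)).card = q - 1 := by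
  have hf : Fact q.Prime := ⟨hq⟩
  have hlz : ∀ u ∈ range q, jacobiSym (s * u) q = 0 ↔ u = 0 := by
    intro u hu
    rw [mem_range] at hu
    rw [← jacobiSym.legendreSym.to_jacobiSym, legendreSym.eq_zero_iff]
    constructor
    · intro h
      have h1 : ((u:ℕ) : ZMod q) = 0 := by
        rcases hs with h2 | h2 <;> rw [h2] at h <;> push_cast at h
        · simpa using h
        · simpa using h
      rw [ZMod.natCast_eq_zero_iff] at h1
      exact Nat.eq_zero_of_dvd_of_lt h1 hu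
    · rintro rfl
      simp
  have hsum : ∑ u ∈ range q, jacobiSym (s * u) q = 0 := by
    have h1 : ∑ u ∈ range q, jacobiSym (s * u) q =
        ∑ c : ZMod q, quadraticChar (ZMod q) ((s : ZMod q) * c) := by
      refine sum_nbij' (fun u : ℕ => (u : ZMod q)) (fun c => c.val) ?_ ?_ ?_ ?_ ?_
      · intro u _; exact mem_univ _
      · intro c _; exact mem_range.mpr (ZMod.val_lt c)
      · intro u hu; exact ZMod.val_cast_of_lt (mem_range.mp hu)
      · intro c _; simp
      · intro u _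
        rw [← jacobiSym.legendreSym.to_jacobiSym]
        unfold legendreSym
        push_cast
        rfl
    rw [h1]
    have h2 : ∀ c : ZMod q, quadraticChar (ZMod q) ((s : ZMod q) * c) =
        quadraticChar (ZMod q) (s : ZMod q) * quadraticChar (ZMod q) c := fun c => map_mul _ _ _
    rw [sum_congr rfl fun c _ => h2 c, ← mul_sum, quadraticChar_sum_zero (F := ZMod q)
      (Pool.Agent.H24.DS.ringChar_ne q hq2), mul_zero]
  have htri : ∀ u : ℕ, jacobiSym (s * u) q = 0 ∨ jacobiSym (s * u) q = 1 ∨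
      jacobiSym (s * u) q = -1 := fun u => jacobiSym.trichotomy _ _
  set S1 := (range q).filter (fun u : ℕ => jacobiSym (s * u) q = 1) with hS1
  set S2 := (range q).filter (fun u : ℕ => jacobiSym (s * u) q = -1) with hS2
  have h1 : (S1.card : ℤ) - S2.card = 0 := by
    rw [← hsum, hS1, hS2, card_filter, card_filter]
    push_cast
    rw [← sum_sub_distrib]
    refine sum_congr rfl fun u _ => ?_
    rcases htri u with h | h | h <;> rw [h] <;> norm_num
  have h2 : S1.card + S2.card = q - 1 := by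
    have h3 : S1 ∪ S2 = (range q).erase 0 := by
      ext u
      rw [mem_union, hS1, hS2, mem_filter, mem_filter, mem_erase]
      constructor
      · rintro (⟨h4, h5⟩ | ⟨h4, h5⟩)
        · refine ⟨fun h6 => ?_, h4⟩
          rw [(hlz u h4).mpr h6] at h5; norm_num at h5
        · refine ⟨fun h6 => ?_, h4⟩
          rw [(hlz u h4).mpr h6] at h5; norm_num at h5
      · rintro ⟨h4, h5⟩
        rcases htri u with h | h | h
        · exact absurd ((hlz u h5).mp h) h4
        · exact Or.inl ⟨h5, h⟩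
        · exact Or.inr ⟨h5, h⟩
    have h4 : Disjoint S1 S2 := by
      rw [hS1, hS2, disjoint_filter]
      intro u _ h5 h6
      rw [h5] at h6; norm_num at h6
    rw [← card_union_of_disjoint h4, h3, card_erase_of_mem (mem_range.mpr hq.pos), card_range]
  omega

end Pool.Agent.H24.KS
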