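import Mathlib
import Pool.Agent.H96.Sing.Final
import Pool.Agent.H12.Param
import Pool.Agent.H70.SymDes.Rep

/-!
The arithmetic data attached to a symmetric design with automorphisms of all odd prime orders
dividing the number of points.
-/

namespace Pool.Agent.H24.KS

open Finset Pool.Agent.H96.Sing

/-- The numbers `v ≤ X` for which some symmetric `(v,k,l)`-design with `1 < k < v - 1` has, for
every odd prime `q` dividing `v`, an automorphism of order `q` with an even number of fixed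
points. -/
def richOrders (X : ℕ) : Set ℕ :=
  {v | v ≤ X ∧ ∃ (k l : ℕ) (B : Fin v → Finset (Fin v)), 1 < k ∧ k + 1 < v ∧
    IsSymmetricDesign v k l B ∧
    ∀ q : ℕ, q.Prime → q ≠ 2 → q ∣ v →
      ∃ s, IsAut B s ∧ orderOf s = q ∧ Even (univ.filter (fun x => s x = x)).card}

/-- the arithmetic data -/
structure Rep (v x y z w : ℕ) : Prop where
  hx : 0 < x
  hy : 0 < y
  hz : 0 < z
  hw : 0 < w
  det : x * z = y * w + 1
  hv : v = (y + z) * (x + w) + 1
  P1 : ∀ l : ℕ, l.Prime → l ≠ 2 → l ∣ v → ∀ q : ℕ, q.Prime → q ≠ l →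
    Odd (padicValNat q (x*z)) → IsSquare ((q:ℕ) : ZMod l)
  P0 : Even v → ∀ q : ℕ, q.Prime → ¬ Odd (padicValNat q (x*z))

lemma Rep.swap {v x y z w : ℕ} (h : Rep v x y z w) : Rep v z w x y where
  hx := h.hz
  hy := h.hw
  hz := h.hx
  hw := h.hy
  det := by have := h.det; linarith [mul_comm x z, mul_comm y w]
  hv := by rw [h.hv]; ring
  P1 := by
    intro l h1 h2 h3 q h4 h5 h6
    rw [mul_comm z x] at h6
    exact h.P1 l h1 h2 h3 q h4 h5 h6
  P0 := by
    intro h1 q h2
    rw [mul_comm z x]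
    exact h.P0 h1 q h2

theorem rep_of_design {X v : ℕ} (hv : v ∈ richOrders X) : ∃ x y z w, Rep v x y z w := by
  obtain ⟨-, k, l, B, hk, hkv, hd, haut⟩ := hv
  obtain ⟨hlk, hlv⟩ := Pool.Agent.H12.design_lt (by omega) (toH12 hd)
  have hl0 : 0 < l := by
    rcases Nat.eq_zero_or_pos l with h0 | h0
    · rw [h0, zero_mul] at hlv
      have h1 : 0 < k * (k-1) := Nat.mul_pos (by omega) (by omega)
      omega
    · exact h0
  have hadm : Pool.Agent.H12.Admissible v k l := ⟨by omega, hl0, by omega, hlv⟩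
  obtain ⟨x, y, hab, hcop, ha2, hkx, hky, hl, hx0, hy0, hya⟩ := Pool.Agent.H12.admissible_facts hadm
  set a := Nat.gcd k (v-1) with ha
  set b := Nat.gcd (k-1) (v-1) with hb
  obtain ⟨z, hz⟩ : ∃ z, a = y + z := ⟨a - y, by omega⟩
  have hz0 : 0 < z := by omega
  have hv1 : v = a * b + 1 := by omega
  have hk1 : a * x = b * y + 1 := by rw [← hkx, ← hky]
  have hxb : x < b := by
    by_contra hcon
    push Not at hcon
    have e1 : a * b ≤ a * x := Nat.mul_le_mul_left a hcon
    omega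
  obtain ⟨w, hw⟩ : ∃ w, b = x + w := ⟨b - x, by omega⟩
  have hw0 : 0 < w := by omega
  have hn : k - l = x * z := by
    rw [hl, hkx, hz]
    have : (y + z) * x = x * y + x * z := by ring
    rw [this]; simp
  have hdet : x * z = y * w + 1 := by
    rw [hz, hw] at hk1
    nlinarith
  refine ⟨x, y, z, w, hx0, hy0, hz0, hw0, hdet, by rw [hv1, hz, hw], ?_, ?_⟩
  · intro q hq hq2 hqv p hp hpq hodd
    obtain ⟨s, hs, hord, hev⟩ := haut q hq hq2 hqv
    by_contra hns
    have hvodd : Odd v := by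
      by_contra hcon
      rw [Nat.not_odd_iff_even] at hcon
      obtain ⟨c, hc⟩ := Pool.Agent.H12.brc_even (toH12 hd) hlk (Nat.even_iff.mp hcon)
      have hp' : Fact p.Prime := ⟨hp⟩
      rw [← hn, hc] at hodd
      have hc0 : c ≠ 0 := by
        rintro rfl
        simp at hc
        omega
      rw [padicValNat.mul hc0 hc0] at hodd
      exact (Nat.not_even_iff_odd.mpr hodd) ⟨_, rfl⟩
    have hfq : Fact q.Prime := ⟨hq⟩
    have hfp : Fact p.Prime := ⟨hp⟩
    have hsq : s^q = 1 := orderOf_dvd hord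
    have hdiv : ∃ c, (univ.filter (fun x => s x ≠ x)).card = c * q := by
      obtain ⟨I, _, e, he⟩ := exists_param (q := q) s hsq
      refine ⟨Fintype.card I, ?_⟩
      have h3 := Fintype.card_congr e
      rw [Fintype.card_prod, ZMod.card, Fintype.card_subtype] at h3
      exact h3.symm
    obtain ⟨c, hc⟩ := hdiv
    have htot := card_filter_add_card_filter_not (s := (univ : Finset (Fin v))) (fun x => s x = x)
    rw [card_univ, Fintype.card_fin] at htot
    simp only [ne_eq] at hc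
    have hcodd : Odd c := by
      rw [hc] at htot
      have h4 : Odd (c * q) := by
        rw [← htot, Nat.odd_add] at hvodd
        rw [← Nat.not_even_iff_odd]
        intro hcon
        exact (Nat.not_odd_iff_even.mpr hev) (hvodd.mpr hcon)
      exact (Nat.odd_mul.mp h4).1
    have hkey := key hd hlk s hs q (lt_of_le_of_ne hq.two_le (Ne.symm hq2)) hsq c hcodd hc p hpq
      (q/2) (pow_neg_one q hq2 p hns)
    rw [hn] at hkey
    exact (Nat.not_even_iff_odd.mpr hodd) hkey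
  · intro hev q hq hodd
    obtain ⟨c, hc⟩ := Pool.Agent.H12.brc_even (toH12 hd) hlk (Nat.even_iff.mp hev)
    have hq' : Fact q.Prime := ⟨hq⟩
    rw [← hn, hc] at hodd
    have hc0 : c ≠ 0 := by
      rintro rfl
      simp at hc
      omega
    rw [padicValNat.mul hc0 hc0] at hodd
    exact (Nat.not_even_iff_odd.mpr hodd) ⟨_, rfl⟩

section facts

variable {v x y z w : ℕ}

lemma Rep.bz (h : Rep v x y z w) : (x + w) * z = (y + z) * w + 1 := by
  have := h.det; nlinarith

lemma Rep.ax (h : Rep v x y z w) : (y + z) * x = (x + w) * y + 1 := by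
  have := h.det; nlinarith

lemma Rep.v_eq (h : Rep v x y z w) : v = x * (y + 2 * z) + z * w := by
  have := h.det; have := h.hv; nlinarith

lemma Rep.v_eq' (h : Rep v x y z w) : v = z * (w + 2 * x) + x * y := by
  have := h.det; have := h.hv; nlinarith

lemma Rep.dvd_v (h : Rep v x y z w) {l : ℕ} (h1 : l ∣ x) (h2 : l ∣ z) : l ∣ v := by
  rw [h.v_eq]
  exact dvd_add (Dvd.dvd.mul_right h1 _) (Dvd.dvd.mul_right h2 _)

lemma Rep.dvd_z (h : Rep v x y z w) {l : ℕ} (hl : l.Prime) (h1 : l ∣ x) (h2 : l ∣ v) : l ∣ z := by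
  rw [h.v_eq] at h2
  have h3 : l ∣ z * w := (Nat.dvd_add_right (Dvd.dvd.mul_right h1 _)).mp h2
  rcases hl.dvd_mul.mp h3 with h4 | h4
  · exact h4
  · exfalso
    have h5 : l ∣ y * w + 1 := by rw [← h.det]; exact Dvd.dvd.mul_right h1 _
    have h6 : l ∣ 1 := (Nat.dvd_add_right (Dvd.dvd.mul_left h4 _)).mp h5
    exact hl.one_lt.ne' (Nat.dvd_one.mp h6)

lemma Rep.dvd_x (h : Rep v x y z w) {l : ℕ} (hl : l.Prime) (h1 : l ∣ z) (h2 : l ∣ v) : l ∣ x :=
  h.swap.dvd_z hl h1 h2

lemma Rep.cop_z (h : Rep v x y z w) : Nat.Coprime (y + z) z := by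
  have h1 := h.bz
  rw [Nat.coprime_iff_gcd_eq_one, ← Nat.dvd_one]
  have h2 : Nat.gcd (y+z) z ∣ (x + w) * z := Dvd.dvd.mul_left (Nat.gcd_dvd_right _ _) _
  rw [h1] at h2
  exact (Nat.dvd_add_right (Dvd.dvd.mul_right (Nat.gcd_dvd_left _ _) _)).mp h2

/-- exact divisors of `x` which do not divide `v` have odd exponent in `x z` -/
lemma Rep.odd_x (h : Rep v x y z w) {l : ℕ} (hl : l.Prime) (h1 : l ∣ x) (h2 : ¬ l^2 ∣ x)
    (h3 : ¬ l ∣ v) : Odd (padicValNat l (x*z)) := by
  have : Fact l.Prime := ⟨hl⟩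
  have h4 : ¬ l ∣ z := fun h5 => h3 (h.dvd_v h1 h5)
  rw [padicValNat.mul h.hx.ne' h.hz.ne', padicValNat.eq_zero_of_not_dvd h4, add_zero]
  have h5 : 1 ≤ padicValNat l x := one_le_padicValNat_of_dvd h.hx.ne' h1
  have h6 : ¬ 2 ≤ padicValNat l x := fun h7 => h2 ((padicValNat_dvd_iff_le h.hx.ne').mpr h7)
  have h7 : padicValNat l x = 1 := by omega
  rw [h7]; exact odd_one

lemma Rep.odd_z (h : Rep v x y z w) {l : ℕ} (hl : l.Prime) (h1 : l ∣ z) (h2 : ¬ l^2 ∣ z)
    (h3 : ¬ l ∣ v) : Odd (padicValNat l (x*z)) := by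
  have := h.swap.odd_x hl h1 h2 h3
  rwa [mul_comm] at this

/-- (G1) -/
lemma Rep.jac_one (h : Rep v x y z w) {l q : ℕ} (hl : l.Prime) (hl2 : l ≠ 2) (hlv : l ∣ v)
    (hq : q.Prime) (hql : q ≠ l) (hodd : Odd (padicValNat q (x*z))) : jacobiSym q l = 1 := by
  have : Fact l.Prime := ⟨hl⟩
  have h1 := h.P1 l hl hl2 hlv q hq hql hodd
  rw [← jacobiSym.legendreSym.to_jacobiSym]
  rw [legendreSym.eq_one_iff]
  · exact_mod_cast h1
  · rw [Int.cast_natCast, Ne, ZMod.natCast_eq_zero_iff]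
    intro h2
    exact hql ((Nat.prime_dvd_prime_iff_eq hl hq).mp h2).symm

/-- the sign -/
def sg (v : ℕ) : ℤ := if v % 4 = 3 then -1 else 1

/-- (G2) -/
lemma Rep.jac_v (h : Rep v x y z w) {l : ℕ} (hl : l.Prime) (hl2 : l ≠ 2) (hlv : ¬ l ∣ v)
    (hodd : Odd (padicValNat l (x*z))) : Odd v ∧ jacobiSym (sg v * v) l = 1 := by
  have hvodd : Odd v := by
    by_contra hcon
    rw [Nat.not_odd_iff_even] at hcon
    exact h.P0 hcon l hl hodd
  refine ⟨hvodd, ?_⟩
  have hlodd : Odd l := hl.odd_of_ne_two hl2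
  -- jacobiSym l v = 1
  have h1 : jacobiSym l v = 1 := by
    unfold jacobiSym
    apply List.prod_eq_one
    intro t ht
    rw [List.mem_pmap] at ht
    obtain ⟨q, hq, rfl⟩ := ht
    have hqp := Nat.prime_of_mem_primeFactorsList hq
    have hqv := Nat.dvd_of_mem_primeFactorsList hq
    have hq2 : q ≠ 2 := by
      rintro rfl
      exact (Nat.not_even_iff_odd.mpr hvodd) (even_iff_two_dvd.mpr hqv)
    have hlq : l ≠ q := by rintro rfl; exact hlv hqv
    have h2 := h.jac_one hqp hq2 hqv hl hlq hodd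
    have : Fact q.Prime := ⟨hqp⟩
    rw [← jacobiSym.legendreSym.to_jacobiSym] at h2
    exact h2
  have h4 : v % 4 = 1 ∨ v % 4 = 3 := by
    have := Nat.odd_iff.mp hvodd; omega
  have hrec := jacobiSym.quadratic_reciprocity hlodd hvodd
  rw [h1] at hrec
  rcases h4 with h4 | h4
  · have : sg v = 1 := by unfold sg; rw [if_neg (by omega)]
    rw [this, one_mul]
    have h5 : Even ((l / 2) * (v / 2)) := by
      apply Even.mul_left
      rw [Nat.even_iff]; omega
    rw [h5.neg_one_pow, one_mul] at hrec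
    exact hrec.symm
  · have : sg v = -1 := by unfold sg; rw [if_pos h4]
    rw [this, jacobiSym.mul_left]
    have h5 : jacobiSym (-1) l = (-1)^(l/2) := by
      rw [jacobiSym.at_neg_one hlodd, ZMod.χ₄_eq_neg_one_pow (Nat.odd_iff.mp hlodd)]
    have h6 : (-1:ℤ)^(l/2 * (v/2)) = (-1)^(l/2) := by
      rw [mul_comm, pow_mul]
      have : Odd (v/2) := by rw [Nat.odd_iff]; omega
      rw [this.neg_one_pow]
    rw [h6] at hrec
    rw [h5, ← hrec]

end facts

end Pool.Agent.H24.KS
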