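import Mathlib
import Pool.Agent.H24.KS.Rep
import Pool.Agent.H24.KS.FZ

/-!
Definitions of the cases in the count of the triples `(a,b,z)`.
`v = a b + 1`, `a = y + z`, `b = x + w`, `x z = y w + 1`, `a x = b y + 1`, `b z = a w + 1`.
-/

namespace Pool.Agent.H24.KS

open Finset Classical
open Pool.Agent.H95.Gol

/-- the lower end of the windows: `2^(kk K) ≥ 10 K + 10`, `kk K ≥ 963` -/
def kk (K : ℕ) : ℕ := Nat.clog 2 (10 * K + 10) + 963

/-- the quadruples -/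
def Tr (X a b z x : ℕ) : Prop :=
  a ≤ b ∧ a * b < X ∧ z < a ∧ x < b ∧ Rep (a * b + 1) x (a - z) z (b - x)

/-- number of triples `(a,b,z)` with property `Q` -/
noncomputable def cnt (X : ℕ) (Q : ℕ → ℕ → ℕ → ℕ → Prop) : ℕ :=
  (((range X) ×ˢ ((range X) ×ˢ (range X))).filter
    (fun t => ∃ x, Tr X t.1 t.2.1 t.2.2 x ∧ Q t.1 t.2.1 t.2.2 x)).card

/-- number of `b` with property `Q` for given `(a,z)` -/
noncomputable def Bz (X a z : ℕ) (Q : ℕ → ℕ → Prop) : ℕ :=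
  ((range X).filter (fun b => ∃ x, a * x = b * (a - z) + 1 ∧ a * b < X ∧ Q b x)).card

/-- small primes of odd exponent in `x`, not dividing `z` -/
noncomputable def Ox (K z x : ℕ) : Finset ℕ :=
  (range (bb K + 1)).filter (fun q => q.Prime ∧ q ∣ x ∧ ¬ q ∣ z ∧ Odd (padicValNat q (x * z)))

/-- small odd prime factor -/
def hasP (K v : ℕ) : Prop := ∃ p, p.Prime ∧ p ≠ 2 ∧ p ≤ bb K ∧ p ∣ v

/-- small primes of odd exponent in `x z`, not dividing `a v` -/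
noncomputable def OL (K a b z x : ℕ) : Finset ℕ :=
  (range (bb K + 1)).filter (fun q => q.Prime ∧ ¬ q ∣ a ∧ ¬ q ∣ a * b + 1 ∧
    Odd (padicValNat q (x * z)))

def CS1 (K a b z x : ℕ) : Prop := a < bb K ∧ 3 ≤ (Ox K z x).card ∧ hasP K (a * b + 1)

def CS2 (K a b z x : ℕ) : Prop :=
  a < bb K ∧ 1 ≤ (Ox K z x).card ∧ (Ox K z x).card ≤ 2 ∧ hasP K (a * b + 1)

def CS3 (K a b z x : ℕ) : Prop :=
  a < bb K ∧ Ox K z x = ∅ ∧ hasP K (a * b + 1) ∧
    ∃ q : ℕ, q.Prime ∧ bb (kk K) < q ∧ Odd (padicValNat q z)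

def CS4 (K a b z x : ℕ) : Prop :=
  a < bb K ∧ Ox K z x = ∅ ∧ (∀ q : ℕ, q.Prime → bb (kk K) < q → ¬ Odd (padicValNat q z)) ∧
    ∃ q : ℕ, q.Prime ∧ q ≤ bb (kk K) ∧ q ∣ z ∧ ¬ q ∣ a * b + 1 ∧ Odd (padicValNat q (x * z))

def CS5 (K a b z x : ℕ) : Prop :=
  a < bb K ∧ Ox K z x = ∅ ∧ ∀ q : ℕ, q.Prime → Odd (padicValNat q z) → q ∣ a * b + 1

def CL0 (K a b z x : ℕ) : Prop := bb K ≤ a ∧ OL (K - 10) a b z x = ∅

def CL1 (K a b z x : ℕ) : Prop := bb K ≤ a ∧ (OL (K - 10) a b z x).card = 1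

def CL2 (K a b z x : ℕ) : Prop :=
  bb K ≤ a ∧ 2 ≤ (OL (K - 10) a b z x).card ∧ hasP (K - 10) (a * b + 1)

/-- large square divisors of `a` -/
def CSq (K a _b _z _x : ℕ) : Prop := ∃ d, bb (kk K) < d ∧ d^2 ∣ a

/-- the prime discriminant -/
def ps (p : ℕ) : ℤ := (-1)^(p/2) * p

/-- the block index: `bb (ja a) ≤ a < bb (ja a + 1)` for `a ≥ 2` -/
def ja (a : ℕ) : ℕ := Nat.log 2 (Nat.log 2 a)

lemma kk_ge (K : ℕ) : 963 ≤ kk K := by unfold kk; omega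

lemma kk_pow (K : ℕ) : 10 * K + 10 ≤ 2 ^ kk K := by
  unfold kk
  rw [pow_add]
  have h1 := Nat.le_pow_clog (b := 2) (by norm_num) (10 * K + 10)
  have h2 : 1 ≤ 2^963 := Nat.one_le_two_pow
  generalize 2^963 = Z at h2 ⊢
  calc 10 * K + 10 = (10 * K + 10) * 1 := by ring
    _ ≤ 2 ^ Nat.clog 2 (10 * K + 10) * Z := Nat.mul_le_mul h1 h2

lemma kk_pow_le (K : ℕ) : 2 ^ kk K ≤ 2^964 * (10 * K + 10) := by
  unfold kk
  rw [pow_add]
  have h1 : 2 ^ Nat.clog 2 (10 * K + 10) ≤ 2 * (10 * K + 10) := by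
    have h2 := Nat.pow_pred_clog_lt_self (b := 2) (by norm_num) (show 1 < 10 * K + 10 by omega)
    have h3 : 0 < Nat.clog 2 (10 * K + 10) := Nat.clog_pos (by norm_num) (by omega)
    have h4 : 2 ^ Nat.clog 2 (10 * K + 10) = 2 * 2 ^ (Nat.clog 2 (10 * K + 10)).pred := by
      rw [← pow_succ']
      congr 1
    rw [h4]
    exact Nat.mul_le_mul_left 2 h2.le
  have h5 : (2:ℕ)^964 = 2 * 2^963 := by rw [← pow_succ']
  rw [h5]
  generalize (2:ℕ)^963 = Z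
  calc 2 ^ Nat.clog 2 (10 * K + 10) * Z ≤ (2 * (10 * K + 10)) * Z :=
        Nat.mul_le_mul_right _ h1
    _ = 2 * Z * (10 * K + 10) := by ring

lemma kk_lt (K : ℕ) (hK : 2000 ≤ K) : kk K + 20 ≤ K := by
  unfold kk
  have h1 : Nat.clog 2 (10 * K + 10) ≤ K - 983 := by
    apply Nat.clog_le_of_le_pow
    have h2 : K - 983 = (K - 2000) + 1017 := by omega
    rw [h2, pow_add]
    have h3 : K - 2000 < 2^(K-2000) := Nat.lt_two_pow_self
    have h4 : 10 * K + 10 ≤ 20021 * 2^(K-2000) := by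
      have : 1 ≤ 2^(K-2000) := Nat.one_le_two_pow
      omega
    have h5 : 20021 ≤ 2^1017 :=
      le_trans (by norm_num) (Nat.pow_le_pow_right (show 0 < 2 by norm_num) (show 15 ≤ 1017 by norm_num))
    generalize 2^1017 = Z at h5 ⊢
    calc 10 * K + 10 ≤ 20021 * 2^(K-2000) := h4
      _ ≤ Z * 2^(K-2000) := Nat.mul_le_mul_right _ h5
      _ = 2^(K-2000) * Z := mul_comm _ _
  omega

attribute [irreducible] kk

lemma bb_add (K c : ℕ) : bb (K + c) = (bb K) ^ (2^c) := by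
  unfold bb
  rw [← pow_mul, pow_add]

lemma ja_le (a : ℕ) (ha : 2 ≤ a) : bb (ja a) ≤ a := by
  unfold ja bb
  have h1 : Nat.log 2 a ≠ 0 := by
    have := Nat.log_pos (b := 2) (by norm_num) ha
    omega
  have h2 := Nat.pow_log_le_self 2 h1
  exact (Nat.pow_le_pow_right (by norm_num) h2).trans (Nat.pow_log_le_self 2 (by omega))

lemma lt_ja (a : ℕ) : a < bb (ja a + 1) := by
  unfold ja bb
  have h2 := Nat.lt_pow_succ_log_self (b := 2) (by norm_num) (Nat.log 2 a)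
  have h3 := Nat.lt_pow_succ_log_self (b := 2) (by norm_num) a
  exact h3.trans_le (Nat.pow_le_pow_right (by norm_num) h2)

/-- zone S: the count by `(a,z)` -/
lemma cnt_le_sum (X M : ℕ) (Q : ℕ → ℕ → ℕ → ℕ → Prop)
    (h : ∀ a b z x, Tr X a b z x → Q a b z x → a < M) :
    cnt X Q ≤ ∑ a ∈ Ico 2 M, ∑ z ∈ (Ico 1 a).filter (fun z => Nat.Coprime a z),
      Bz X a z (fun b x => Tr X a b z x ∧ Q a b z x) := by
  unfold cnt
  have hsub : ((range X) ×ˢ ((range X) ×ˢ (range X))).filter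
      (fun t => ∃ x, Tr X t.1 t.2.1 t.2.2 x ∧ Q t.1 t.2.1 t.2.2 x) ⊆
      (Ico 2 M).biUnion (fun a => ((Ico 1 a).filter (fun z => Nat.Coprime a z)).biUnion (fun z =>
        ((range X).filter (fun b => ∃ x, a * x = b * (a - z) + 1 ∧ a * b < X ∧
          (Tr X a b z x ∧ Q a b z x))).image (fun b => (a, b, z)))) := by
    rintro ⟨a, b, z⟩ ht
    rw [mem_filter, mem_product, mem_product] at ht
    obtain ⟨⟨h1, h2, h3⟩, x, h4, h5⟩ := ht
    simp only at h1 h2 h3 h4 h5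
    have hM := h a b z x h4 h5
    obtain ⟨e1, e2, e3, e4, e5⟩ := h4
    have e6 := e5.hz
    have e7 : a - z + z = a := Nat.sub_add_cancel e3.le
    rw [mem_biUnion]
    refine ⟨a, mem_Ico.mpr ⟨by omega, hM⟩, ?_⟩
    rw [mem_biUnion]
    refine ⟨z, ?_, ?_⟩
    · rw [mem_filter, mem_Ico]
      refine ⟨⟨e6, e3⟩, ?_⟩
      have := e5.cop_z
      rwa [e7] at this
    · rw [mem_image]
      refine ⟨b, ?_, rfl⟩
      rw [mem_filter]
      refine ⟨h2, x, ?_, e2, ⟨e1, e2, e3, e4, e5⟩, h5⟩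
      have := e5.ax
      rwa [e7, Nat.add_sub_cancel' e4.le] at this
  refine (card_le_card hsub).trans (card_biUnion_le.trans (sum_le_sum fun a _ => ?_))
  refine card_biUnion_le.trans (sum_le_sum fun z _ => ?_)
  exact card_image_le

end Pool.Agent.H24.KS
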