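import Mathlib
import Pool.Agent.H24.KS.Df

/-!
Further definitions: windows, events, and the counting functions of the two zones.
-/

namespace Pool.Agent.H24.KS

open Finset Classical
open Pool.Agent.H95.Gol

/-- the indicator of a proposition -/
noncomputable def chi (P : Prop) : ℝ := if P then 1 else 0

/-- sum of the reciprocals of the primes in a window -/
noncomputable def SW (i j : ℕ) : ℝ := ∑ l ∈ W i j, (1:ℝ) / l

/-- the primes up to `N` -/
def Pr (N : ℕ) : Finset ℕ := (range (N+1)).filter Nat.Prime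

/-- some element of `T` is a non-residue modulo `l` -/
def AT (T : Finset ℕ) (l : ℕ) : Prop := ∃ q ∈ T, F (q:ℤ) l = -1

/-- `l` is a non-residue modulo `p` -/
def BP (p l : ℕ) : Prop := F (ps p) l = -1

/-- exact divisor -/
def Ex (l n : ℕ) : Prop := l ∣ n ∧ ¬ l^2 ∣ n

/-- the weights of the `z`-sieve -/
noncomputable def wz (p q : ℕ) : ℝ := if F (ps p) q = 1 then ((q:ℝ) + 1) / (2 * q) else 1 / q

/-- zone S: the events at the primes of the window which do not occur -/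
def EvS (K a z : ℕ) (D : Finset ℕ) (A B : ℕ → Prop) (b x : ℕ) : Prop :=
  ∀ l ∈ W (kk K) K, l ∉ D → ¬ l ∣ a * (a - z) * z →
    ¬ (A l ∧ l ∣ a * b + 1) ∧ ¬ (B l ∧ Ex l x)

/-- zone S: the conditions at `T`, `p`, and the exact divisors of `z` -/
def QS (K a z p : ℕ) (s : ℤ) (T : Finset ℕ) (b x : ℕ) : Prop :=
  (∀ q ∈ T, q ∣ x ∧ ¬ q ∣ z) ∧ p ∣ a * b + 1 ∧
    ∀ q ∈ W (kk K) (ja a - 6), q ≠ p → Ex q z →
      q ∣ a * b + 1 ∨ (F (ps p) q = 1 ∧ jacobiSym (s * ((a * b + 1 : ℕ) : ℤ)) q = 1)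

/-- zone L: number of pairs `(b,z)` with property `Q`, for given `a` -/
noncomputable def Lz (X a : ℕ) (Q : ℕ → ℕ → ℕ → Prop) : ℕ :=
  (((range (X / a + 1)) ×ˢ (range a)).filter (fun t => (t.1 * t.2) % a = 1 % a ∧
    ∃ x, a * x = t.1 * (a - t.2) + 1 ∧ Q t.1 t.2 x)).card

/-- zone L: the events at the primes of `P` which do not occur -/
def EvL (P : Finset ℕ) (a : ℕ) (s : ℤ) (A U : ℕ → Prop) (b z x : ℕ) : Prop :=
  ∀ l ∈ P, ¬ (A l ∧ l ∣ a * b + 1) ∧
    ¬ (¬ l ∣ a * b + 1 ∧ (Ex l x ∨ Ex l z) ∧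
      (U l ∨ jacobiSym (s * ((a * b + 1 : ℕ) : ℤ)) l = -1))

/-- zone L: the conditions at `D` and at `E` -/
def QL (a : ℕ) (D E : Finset ℕ) (b z x : ℕ) : Prop :=
  (∀ q ∈ D, q ∣ x ∨ q ∣ z) ∧ ∀ q ∈ E, q ∣ a * b + 1

/-- no large square divides `a` -/
def NSq (K a : ℕ) : Prop := ∀ d, bb (kk K) < d → ¬ d^2 ∣ a

lemma chi_nonneg (P : Prop) : 0 ≤ chi P := by unfold chi; split_ifs <;> norm_num
lemma chi_le_one (P : Prop) : chi P ≤ 1 := by unfold chi; split_ifs <;> norm_num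
lemma chi_true {P : Prop} (h : P) : chi P = 1 := if_pos h
lemma chi_false {P : Prop} (h : ¬ P) : chi P = 0 := if_neg h

lemma mem_Pr {N p : ℕ} : p ∈ Pr N ↔ p.Prime ∧ p ≤ N := by
  unfold Pr
  rw [mem_filter, mem_range]
  constructor
  · rintro ⟨h1, h2⟩; exact ⟨h2, by omega⟩
  · rintro ⟨h1, h2⟩; exact ⟨by omega, h1⟩

lemma SW_nonneg (i j : ℕ) : 0 ≤ SW i j := sum_nonneg fun _ _ => by positivity

/-- monotonicity -/
lemma Bz_mono {X a z : ℕ} {Q Q' : ℕ → ℕ → Prop}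
    (h : ∀ b x, a * x = b * (a - z) + 1 → a * b < X → Q b x → Q' b x) :
    Bz X a z Q ≤ Bz X a z Q' := by
  unfold Bz
  apply card_le_card
  intro b hb
  rw [mem_filter] at hb ⊢
  obtain ⟨h1, x, h2, h3, h4⟩ := hb
  exact ⟨h1, x, h2, h3, h b x h2 h3 h4⟩

lemma Lz_mono {X a : ℕ} {Q Q' : ℕ → ℕ → ℕ → Prop}
    (h : ∀ b z x, z < a → a * x = b * (a - z) + 1 → Q b z x → Q' b z x) :
    Lz X a Q ≤ Lz X a Q' := by
  unfold Lz
  apply card_le_card
  rintro ⟨b, z⟩ hb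
  rw [mem_filter, mem_product, mem_range, mem_range] at hb
  rw [mem_filter, mem_product, mem_range, mem_range]
  obtain ⟨⟨h1, h2⟩, h3, x, h4, h5⟩ := hb
  exact ⟨⟨h1, h2⟩, h3, x, h4, h b z x h2 h4 h5⟩

/-- subadditivity over a finite family of properties -/
lemma Bz_le_sum {ι : Type} (I : Finset ι) (X a z : ℕ) (Q : ℕ → ℕ → Prop)
    (R : ι → ℕ → ℕ → Prop) (h : ∀ b x, a * x = b * (a - z) + 1 → a * b < X → Q b x →
      ∃ i ∈ I, R i b x) : Bz X a z Q ≤ ∑ i ∈ I, Bz X a z (R i) := by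
  unfold Bz
  refine (card_le_card ?_).trans card_biUnion_le
  intro b hb
  rw [mem_filter] at hb
  obtain ⟨h1, x, h2, h3, h4⟩ := hb
  obtain ⟨i, hi, h5⟩ := h b x h2 h3 h4
  rw [mem_biUnion]
  exact ⟨i, hi, mem_filter.mpr ⟨h1, x, h2, h3, h5⟩⟩

lemma Lz_le_sum {ι : Type} (I : Finset ι) (X a : ℕ) (Q : ℕ → ℕ → ℕ → Prop)
    (R : ι → ℕ → ℕ → ℕ → Prop) (h : ∀ b z x, z < a → a * x = b * (a - z) + 1 → Q b z x →
      ∃ i ∈ I, R i b z x) : Lz X a Q ≤ ∑ i ∈ I, Lz X a (R i) := by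
  unfold Lz
  refine (card_le_card ?_).trans card_biUnion_le
  rintro ⟨b, z⟩ hb
  rw [mem_filter, mem_product, mem_range, mem_range] at hb
  obtain ⟨⟨h1, h2⟩, h3, x, h4, h5⟩ := hb
  obtain ⟨i, hi, h6⟩ := h b z x h2 h4 h5
  rw [mem_biUnion]
  refine ⟨i, hi, ?_⟩
  rw [mem_filter, mem_product, mem_range, mem_range]
  exact ⟨⟨h1, h2⟩, h3, x, h4, h6⟩

/-- zone L: the count by `a` -/
lemma cnt_le_sumL (X K : ℕ) (Q : ℕ → ℕ → ℕ → ℕ → Prop) (hX : X < bb (K+7))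
    (h : ∀ a b z x, Tr X a b z x → Q a b z x → bb K ≤ a) :
    cnt X Q ≤ ∑ a ∈ Ico (bb K) (bb (K+6)), Lz X a (fun b z x => Tr X a b z x ∧ Q a b z x) := by
  unfold cnt
  have hsub : ((range X) ×ˢ ((range X) ×ˢ (range X))).filter
      (fun t => ∃ x, Tr X t.1 t.2.1 t.2.2 x ∧ Q t.1 t.2.1 t.2.2 x) ⊆
      (Ico (bb K) (bb (K+6))).biUnion (fun a =>
        (((range (X / a + 1)) ×ˢ (range a)).filter (fun t => (t.1 * t.2) % a = 1 % a ∧
          ∃ x, a * x = t.1 * (a - t.2) + 1 ∧ (Tr X a t.1 t.2 x ∧ Q a t.1 t.2 x))).image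
            (fun t => (a, t.1, t.2))) := by
    rintro ⟨a, b, z⟩ ht
    rw [mem_filter, mem_product, mem_product] at ht
    obtain ⟨⟨h1, h2, h3⟩, x, h4, h5⟩ := ht
    simp only at h1 h2 h3 h4 h5
    have hK := h a b z x h4 h5
    have hTr := h4
    obtain ⟨e1, e2, e3, e4, e5⟩ := h4
    have e6 := e5.hz
    have e7 : a - z + z = a := Nat.sub_add_cancel e3.le
    have e8 : x + (b - x) = b := Nat.add_sub_cancel' e4.le
    have ha0 : 0 < a := by omega
    rw [mem_biUnion]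
    refine ⟨a, mem_Ico.mpr ⟨hK, ?_⟩, ?_⟩
    · by_contra hcon
      push Not at hcon
      have h6 : bb (K+7) = bb (K+6) * bb (K+6) := by
        unfold bb
        rw [← pow_add]
        congr 1
        rw [pow_succ 2 (K+6)]; ring
      have h7 : bb (K+6) * bb (K+6) ≤ a * b := Nat.mul_le_mul hcon (hcon.trans e1)
      omega
    · rw [mem_image]
      refine ⟨(b, z), ?_, rfl⟩
      rw [mem_filter, mem_product, mem_range, mem_range]
      refine ⟨⟨?_, e3⟩, ?_, x, ?_, hTr, h5⟩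
      · have : b ≤ X / a := (Nat.le_div_iff_mul_le ha0).mpr (by rw [mul_comm]; exact e2.le)
        show b < X / a + 1
        omega
      · have := e5.bz
        rw [e7, e8] at this
        show (b * z) % a = 1 % a
        rw [this, Nat.mul_add_mod]
      · have := e5.ax
        rw [e7, e8] at this
        exact this
  exact (card_le_card hsub).trans (card_biUnion_le.trans (sum_le_sum fun a _ => card_image_le))

end Pool.Agent.H24.KS
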