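import Mathlib
import Pool.Agent.H24.KS.Df2

/-!
Summation over the triples `(T, p, s)`: the common part of the cases of zone S.
-/

namespace Pool.Agent.H24.KS

open Finset Classical
open Pool.Agent.H95.Gol

lemma sg_cases (v : ℕ) : sg v = 1 ∨ sg v = -1 := by
  unfold sg
  split_ifs
  · exact Or.inr rfl
  · exact Or.inl rfl

lemma ja_le_of_lt {a K : ℕ} (ha : 2 ≤ a) (h : a < bb K) : ja a ≤ K := by
  by_contra hcon
  push Not at hcon
  have h1 := ja_le a ha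
  have h2 : bb K ≤ bb (ja a) := bb_mono hcon.le
  omega

/-- the index set of the triples `(T, p, s)` -/
noncomputable def Idx (r K : ℕ) : Finset ((Finset ℕ × ℕ) × ℤ) :=
  (((powersetCard r (Pr (bb K))) ×ˢ ((Pr (bb K)).filter (fun p => p ≠ 2))) ×ˢ
    ({1, -1} : Finset ℤ)).filter (fun i => i.1.2 ∉ i.1.1)

lemma mem_Idx {r K : ℕ} {i : (Finset ℕ × ℕ) × ℤ} : i ∈ Idx r K ↔
    ((i.1.1 ⊆ Pr (bb K) ∧ i.1.1.card = r) ∧ (i.1.2.Prime ∧ i.1.2 ≤ bb K) ∧ i.1.2 ≠ 2) ∧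
      (i.2 = 1 ∨ i.2 = -1) ∧ i.1.2 ∉ i.1.1 := by
  unfold Idx
  rw [mem_filter, mem_product, mem_product, mem_powersetCard, mem_filter, mem_Pr, mem_insert,
    mem_singleton]
  tauto

/-- summation over the index set -/
lemma sum_Idx_le (r K : ℕ) (f : Finset ℕ → ℝ) (g : ℕ → ℝ) (hf : ∀ T, 0 ≤ f T)
    (hg : ∀ p, 0 ≤ g p) :
    ∑ i ∈ Idx r K, f i.1.1 * g i.1.2 ≤
      2 * (∑ T ∈ powersetCard r (Pr (bb K)), f T) *
        ∑ p ∈ (Pr (bb K)).filter (fun p => p ≠ 2), g p := by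
  unfold Idx
  refine (sum_le_sum_of_subset_of_nonneg (filter_subset _ _)
    (fun i _ _ => mul_nonneg (hf _) (hg _))).trans ?_
  rw [sum_product]
  simp only [sum_const]
  have h2 : ({1, -1} : Finset ℤ).card = 2 := by decide
  rw [h2, ← smul_sum, sum_product]
  rw [nsmul_eq_mul, mul_assoc, sum_mul_sum]
  simp

/-- the final summation of the cases `CS1`, `CS2` -/
lemma accumulate {ι : Type} (I : Finset ι) (X K : ℕ) (Q : ℕ → ℕ → ℕ → ℕ → Prop)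
    (R : ι → ℕ → ℕ → ℕ → ℕ → Prop) (hQ : ∀ a b z x, Tr X a b z x → Q a b z x → a < bb K)
    (hR : ∀ a b z x, 2 ≤ a → a < bb K → 0 < z → z < a → Tr X a b z x → Q a b z x →
      ∃ i ∈ I, R i a z b x)
    (w : ι → ℝ) (α : ℕ → ℝ) (E : ℝ)
    (hE : ∀ i ∈ I, ∀ a, 2 ≤ a → a < bb K →
      ∑ z ∈ (Ico 1 a).filter (fun z => Nat.Coprime a z), (Bz X a z (R i a z) : ℝ) ≤
        E * w i * α a) :
    (cnt X Q : ℝ) ≤ E * (∑ i ∈ I, w i) * ∑ a ∈ Ico 2 (bb K), α a := by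
  have h1 : (cnt X Q : ℝ) ≤ ∑ a ∈ Ico 2 (bb K), ∑ z ∈ (Ico 1 a).filter (fun z => Nat.Coprime a z),
      (Bz X a z (fun b x => Tr X a b z x ∧ Q a b z x) : ℝ) := by
    have := cnt_le_sum X (bb K) Q hQ
    exact_mod_cast this
  refine h1.trans ?_
  rw [mul_sum]
  refine sum_le_sum fun a ha => ?_
  rw [mem_Ico] at ha
  have h2 : ∑ z ∈ (Ico 1 a).filter (fun z => Nat.Coprime a z),
      (Bz X a z (fun b x => Tr X a b z x ∧ Q a b z x) : ℝ) ≤
      ∑ z ∈ (Ico 1 a).filter (fun z => Nat.Coprime a z), ∑ i ∈ I, (Bz X a z (R i a z) : ℝ) := by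
    refine sum_le_sum fun z hz => ?_
    rw [mem_filter, mem_Ico] at hz
    have := Bz_le_sum I X a z (fun b x => Tr X a b z x ∧ Q a b z x) (fun i => R i a z)
      (fun b x _ _ h => hR a b z x ha.1 ha.2 hz.1.1 hz.1.2 h.1 h.2)
    exact_mod_cast this
  refine h2.trans ?_
  rw [sum_comm, mul_sum, sum_mul]
  exact sum_le_sum fun i hi => hE i hi a ha.1 ha.2

lemma regroup {c x a t p e1 e2 f0 ft fp fa r : ℝ} (h5 : 0 ≤ c * (x / a) * t * (1 / p))
    (h3 : e1 * e2 ≤ f0 * ft * fp * fa)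
    (hr : r = c * f0 * x * (t * ft * (fp / p)) * (1 / a * fa)) :
    c * (x / a) * t * (1 / p) * e1 * e2 ≤ r := by
  rw [hr]
  calc c * (x / a) * t * (1 / p) * e1 * e2 = c * (x / a) * t * (1 / p) * (e1 * e2) := by ring
    _ ≤ c * (x / a) * t * (1 / p) * (f0 * ft * fp * fa) := mul_le_mul_of_nonneg_left h3 h5
    _ = c * f0 * x * (t * ft * (fp / p)) * (1 / a * fa) := by ring

end Pool.Agent.H24.KS
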