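import Mathlib
import Pool.Agent.H24.KS.Df2

/-!
M4: densities of the events over the windows.
-/

namespace Pool.Agent.H24.KS

open Finset Classical
open Pool.Agent.H95.Gol

theorem SW_lower : ∃ C : ℝ, 0 < C ∧ ∀ i j : ℕ, ((j:ℝ) - i) * Real.log 2 - C ≤ SW i j := by
  obtain ⟨C0, hC0, _, _, hlow⟩ := Pool.Agent.H24.SH.blk_bounds
  refine ⟨C0, hC0, fun i j => ?_⟩
  rcases le_total i j with h | h
  · have h1 := hlow i j h
    unfold SW
    rw [sum_W]
    exact h1
  · have h1 := SW_nonneg i j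
    have h2 : ((j:ℝ) - i) ≤ 0 := by
      have : (j:ℝ) ≤ i := by exact_mod_cast h
      linarith
    have h3 : (0:ℝ) ≤ Real.log 2 := Real.log_nonneg (by norm_num)
    have h4 := mul_nonpos_of_nonpos_of_nonneg h2 h3
    linarith

theorem SW_upper : ∃ C : ℝ, 0 < C ∧ ∀ i j : ℕ, i ≤ j → SW i j ≤ ((j:ℝ) - i) * Real.log 2 + C := by
  obtain ⟨C0, hC0, _, hup, _⟩ := Pool.Agent.H24.SH.blk_bounds
  refine ⟨C0, hC0, fun i j h => ?_⟩
  have h1 := hup i j h
  unfold SW
  rw [sum_W]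
  exact h1

/-- primes of the windows are odd -/
lemma dens_ne_two {i j l : ℕ} (_ : 1 ≤ i) (h : l ∈ W i j) : l ≠ 2 := by
  have h1 := lt_of_mem_W h
  have h2 := two_le_bb i
  omega

/-- `F D l = ±1` at an odd prime not dividing `D` -/
lemma dens_F_pm {D : ℤ} {l : ℕ} (hl : l.Prime) (hl2 : l ≠ 2) (hD : ¬ (l:ℤ) ∣ D) :
    F D l = 1 ∨ F D l = -1 := by
  have hodd : Odd l := hl.odd_of_ne_two hl2
  unfold F
  rw [if_pos hodd]
  have h1 : Int.gcd D l = 1 := by
    rw [← Int.isCoprime_iff_gcd_eq_one]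
    have hp : Prime (l:ℤ) := Nat.prime_iff_prime_int.mp hl
    exact ((Prime.coprime_iff_not_dvd hp).mpr hD).symm
  rcases jacobiSym.eq_one_or_neg_one h1 with h | h
  · left; rw [h]; norm_num
  · right; rw [h]; norm_num

lemma dens_F_one {l : ℕ} (hl : l.Prime) (hl2 : l ≠ 2) : F 1 l = 1 := by
  have hodd : Odd l := hl.odd_of_ne_two hl2
  unfold F
  rw [if_pos hodd, jacobiSym.one_left]
  norm_num

lemma dens_F_prod (U : Finset ℕ) {l : ℕ} (hl : l.Prime) (hl2 : l ≠ 2) :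
    F ((∏ q ∈ U, q : ℕ) : ℤ) l = ∏ q ∈ U, F (q:ℤ) l := by
  induction U using Finset.induction_on with
  | empty => simp only [prod_empty, Nat.cast_one]; exact dens_F_one hl hl2
  | insert a s ha ih =>
    rw [prod_insert ha, prod_insert ha, ← ih]
    push_cast
    exact Pool.Agent.H24.SH.F_mul_left _ _ _

/-- the expansion of the product -/
lemma dens_expand (T : Finset ℕ) {l : ℕ} (hl : l.Prime) (hl2 : l ≠ 2) :
    ∏ q ∈ T, (1 + F (q:ℤ) l) = 1 + ∑ U ∈ T.powerset.erase ∅, F ((∏ q ∈ U, q : ℕ) : ℤ) l := by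
  rw [prod_one_add, ← add_sum_erase _ _ (empty_mem_powerset T), prod_empty]
  congr 1
  exact sum_congr rfl fun U _ => (dens_F_prod U hl hl2).symm

lemma dens_F_le (D : ℤ) (l : ℕ) : -1 ≤ F D l ∧ F D l ≤ 1 :=
  abs_le.mp (Pool.Agent.H66.Gol.abs_F_le D l)

/-- pointwise inequality -/
lemma dens_point (T : Finset ℕ) (hT : ∀ q ∈ T, q.Prime) {l : ℕ} (hl : l.Prime) (hl2 : l ≠ 2) :
    (1 - (1/2:ℝ)^T.card) - (1/2:ℝ)^T.card * ∑ U ∈ T.powerset.erase ∅, F ((∏ q ∈ U, q : ℕ) : ℤ) l ≤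
      chi (AT T l) + (if l ∈ T then 1 else 0) := by
  have h1 := dens_expand T hl hl2
  have h2 : (1 - (1/2:ℝ)^T.card) -
      (1/2:ℝ)^T.card * ∑ U ∈ T.powerset.erase ∅, F ((∏ q ∈ U, q : ℕ) : ℤ) l =
      1 - (1/2:ℝ)^T.card * ∏ q ∈ T, (1 + F (q:ℤ) l) := by
    rw [h1]; ring
  rw [h2]
  have h3 : 0 ≤ ∏ q ∈ T, (1 + F (q:ℤ) l) :=
    prod_nonneg fun q _ => by have := (dens_F_le q l).1; linarith
  have h4 : 0 ≤ (1/2:ℝ)^T.card * ∏ q ∈ T, (1 + F (q:ℤ) l) := by positivity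
  by_cases hlT : l ∈ T
  · rw [if_pos hlT]
    have := chi_nonneg (AT T l)
    linarith
  · rw [if_neg hlT]
    by_cases hA : AT T l
    · rw [chi_true hA]
      linarith
    · rw [chi_false hA]
      have h5 : ∀ q ∈ T, F (q:ℤ) l = 1 := by
        intro q hq
        have hne : ¬ (l:ℤ) ∣ (q:ℤ) := by
          intro h
          have h6 : l ∣ q := by exact_mod_cast h
          have h7 := (Nat.prime_dvd_prime_iff_eq hl (hT q hq)).mp h6
          rw [h7] at hlT
          exact hlT hq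
        rcases dens_F_pm hl hl2 hne with h | h
        · exact h
        · exact absurd ⟨q, hq, h⟩ hA
      have h6 : ∏ q ∈ T, (1 + F (q:ℤ) l) = 2 ^ T.card := by
        rw [prod_congr rfl fun q hq => by rw [h5 q hq]]
        rw [prod_const]
        norm_num
      rw [h6, ← mul_pow]
      norm_num

theorem densT (T : Finset ℕ) (hT : ∀ q ∈ T, q.Prime) (i j : ℕ) (hi : 1 ≤ i) :
    (1 - (1/2:ℝ)^T.card) * SW i j -
      (1/2:ℝ)^T.card * ∑ U ∈ T.powerset.erase ∅, XD ((∏ q ∈ U, q : ℕ) : ℤ) i j - T.card ≤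
      ∑ l ∈ W i j, chi (AT T l) / l := by
  have h1 : ∀ l ∈ W i j, (1 - (1/2:ℝ)^T.card) * (1 / (l:ℝ)) -
      (1/2:ℝ)^T.card * ∑ U ∈ T.powerset.erase ∅, F ((∏ q ∈ U, q : ℕ) : ℤ) l / l ≤
      chi (AT T l) / l + (if l ∈ T then 1 else 0) := by
    intro l hl
    have hlp := prime_of_mem_W hl
    have hl2 := dens_ne_two hi hl
    have hl1 : (1:ℝ) ≤ l := by exact_mod_cast hlp.one_lt.le
    have h2 := dens_point T hT hlp hl2
    have h3 := div_le_div_of_nonneg_right h2 (by linarith : (0:ℝ) ≤ l)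
    have h4 : ((1 - (1/2:ℝ)^T.card) -
        (1/2:ℝ)^T.card * ∑ U ∈ T.powerset.erase ∅, F ((∏ q ∈ U, q : ℕ) : ℤ) l) / l =
        (1 - (1/2:ℝ)^T.card) * (1 / (l:ℝ)) -
      (1/2:ℝ)^T.card * ∑ U ∈ T.powerset.erase ∅, F ((∏ q ∈ U, q : ℕ) : ℤ) l / l := by
      rw [← sum_div]; ring
    rw [h4, add_div] at h3
    refine h3.trans ?_
    have h5 : (if l ∈ T then (1:ℝ) else 0) / l ≤ if l ∈ T then 1 else 0 := by
      split_ifs
      · exact (div_le_one (by linarith)).mpr hl1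
      · simp
    linarith
  have h2 := sum_le_sum h1
  rw [sum_add_distrib, sum_sub_distrib, ← mul_sum, ← mul_sum, sum_comm] at h2
  have h3 : ∑ l ∈ W i j, (if l ∈ T then (1:ℝ) else 0) ≤ T.card := by
    rw [← sum_filter, sum_const, nsmul_eq_mul, mul_one]
    have : ((W i j).filter (fun l => l ∈ T)).card ≤ T.card :=
      card_le_card fun l hl => (mem_filter.mp hl).2
    exact_mod_cast this
  have h4 : ∑ U ∈ T.powerset.erase ∅, ∑ l ∈ W i j, F ((∏ q ∈ U, q : ℕ) : ℤ) l / l =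
      ∑ U ∈ T.powerset.erase ∅, XD ((∏ q ∈ U, q : ℕ) : ℤ) i j := rfl
  rw [h4] at h2
  unfold SW
  linarith

theorem densP (p : ℕ) (hp : p.Prime) (hp2 : p ≠ 2) (i j : ℕ) (hi : 1 ≤ i) :
    (1/2) * SW i j - (1/2) * XD (ps p) i j - 1 ≤ ∑ l ∈ W i j, chi (BP p l) / l := by
  have h1 : ∀ l ∈ W i j, (1/2) * (1 / (l:ℝ)) - (1/2) * (F (ps p) l / l) ≤
      chi (BP p l) / l + (if l = p then 1 else 0) := by
    intro l hl
    have hlp := prime_of_mem_W hl
    have hl2 := dens_ne_two hi hl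
    have hl1 : (1:ℝ) ≤ l := by exact_mod_cast hlp.one_lt.le
    have hl0 : (0:ℝ) < l := by linarith
    have hkey : (1 - F (ps p) l) / 2 ≤ chi (BP p l) + (if l = p then 1 else 0) := by
      by_cases hlp' : l = p
      · rw [if_pos hlp']
        have := (dens_F_le (ps p) l).1
        have := chi_nonneg (BP p l)
        linarith
      · rw [if_neg hlp']
        have hne : ¬ (l:ℤ) ∣ ps p := by
          intro h
          have h6 : l ∣ (ps p).natAbs := Int.natCast_dvd.mp h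
          have h7 : (ps p).natAbs = p := by
            unfold ps
            rw [Int.natAbs_mul, Int.natAbs_pow]
            simp
          rw [h7] at h6
          exact hlp' ((Nat.prime_dvd_prime_iff_eq hlp hp).mp h6)
        rcases dens_F_pm hlp hl2 hne with h | h
        · rw [h]
          have := chi_nonneg (BP p l)
          linarith
        · have hB : BP p l := h
          rw [chi_true hB, h]
          norm_num
    have h3 := div_le_div_of_nonneg_right hkey hl0.le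
    rw [add_div] at h3
    have h4 : (1 - F (ps p) l) / 2 / l = (1/2) * (1 / (l:ℝ)) - (1/2) * (F (ps p) l / l) := by ring
    rw [h4] at h3
    refine h3.trans ?_
    have h5 : (if l = p then (1:ℝ) else 0) / l ≤ if l = p then 1 else 0 := by
      split_ifs
      · exact (div_le_one hl0).mpr hl1
      · simp
    linarith
  have h2 := sum_le_sum h1
  rw [sum_add_distrib, sum_sub_distrib, ← mul_sum, ← mul_sum] at h2
  have h3 : ∑ l ∈ W i j, (if l = p then (1:ℝ) else 0) ≤ 1 := by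
    rw [sum_ite_eq']
    split_ifs <;> norm_num
  unfold SW XD
  linarith

end Pool.Agent.H24.KS
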