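import Mathlib
import Pool.Agent.H24.KS.Dens

/-!
Module M7: the sums over `a` (zone S), the harmonic sum, absorption of polynomial factors.
-/

namespace Pool.Agent.H24.KS

open Finset Classical
open Pool.Agent.H95.Gol

/-- sum of reciprocals over an interval -/
lemma asum_Ico (m n : ℕ) (hm : 1 ≤ m) (hmn : m ≤ n) :
    ∑ a ∈ Ico m n, (1:ℝ)/a ≤ 1 + (Real.log n - Real.log m) := by
  obtain ⟨m, rfl⟩ : ∃ k, m = k + 1 := ⟨m - 1, by omega⟩
  obtain ⟨n, rfl⟩ : ∃ k, n = k + 1 := ⟨n - 1, by omega⟩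
  have hreal : ∀ k : ℕ, ∑ a ∈ Ico 1 (k+1), (1:ℝ)/a = ((harmonic k : ℚ) : ℝ) := by
    intro k
    rw [harmonic_eq_sum_Icc]
    push_cast
    have : Ico 1 (k+1) = Icc 1 k := by ext x; simp
    rw [this]
    exact sum_congr rfl fun x _ => by rw [one_div]
  have h1 : ∑ a ∈ Ico (m+1) (n+1), (1:ℝ)/a =
      ∑ a ∈ Ico 1 (n+1), (1:ℝ)/a - ∑ a ∈ Ico 1 (m+1), (1:ℝ)/a := by
    rw [eq_sub_iff_add_eq, add_comm]
    exact sum_Ico_consecutive _ (by omega) (by omega)
  rw [h1, hreal, hreal]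
  have h2 := harmonic_le_one_add_log n
  have h3 := log_add_one_le_harmonic m
  have h4 : Real.log n ≤ Real.log ((n+1 : ℕ) : ℝ) := by
    rcases Nat.eq_zero_or_pos n with h | h
    · subst h; simp
    · exact Real.log_le_log (by exact_mod_cast h) (by push_cast; linarith)
  linarith

lemma log_bb (K : ℕ) : Real.log (bb K : ℝ) = 2^K * Real.log 2 := by
  unfold bb
  push_cast
  rw [Real.log_pow]
  push_cast
  rfl

theorem harm : ∃ C : ℝ, 0 < C ∧ ∀ K : ℕ, ∑ a ∈ Ico 1 (bb K), (1:ℝ)/a ≤ C * 2^K := by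
  have hl2 : 0 < Real.log 2 := Real.log_pos (by norm_num)
  refine ⟨1 + Real.log 2, by positivity, fun K => ?_⟩
  have h1 := asum_Ico 1 (bb K) le_rfl (by unfold bb; exact Nat.one_le_two_pow)
  rw [log_bb] at h1
  have h2 : (1:ℝ) ≤ 2^K := one_le_pow₀ (by norm_num)
  simp only [Nat.cast_one, Real.log_one, sub_zero] at h1
  refine h1.trans ?_
  nlinarith

theorem asum (c : ℝ) (hc : 0 ≤ c) (hc1 : c ≤ 1) : ∃ C : ℝ, 0 < C ∧ ∀ K : ℕ,
    ∑ a ∈ Ico 2 (bb K), (1:ℝ)/a * Real.exp (-c * SW (kk K) (ja a - 6)) ≤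
      C * (K + 1) * Real.exp (((1 - c) * K + c * kk K) * Real.log 2) := by
  obtain ⟨C0, hC0, hlow⟩ := SW_lower
  have hl2 : 0 < Real.log 2 := Real.log_pos (by norm_num)
  refine ⟨(1 + Real.log 2) * Real.exp (6 * Real.log 2 + C0), by positivity, fun K => ?_⟩
  have hsub : Ico 2 (bb K) ⊆ (range K).biUnion fun j => Ico (bb j) (bb (j+1)) := by
    intro a ha
    rw [mem_Ico] at ha
    rw [mem_biUnion]
    refine ⟨ja a, ?_, ?_⟩
    · rw [mem_range]
      by_contra hcon
      push Not at hcon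
      have h1 := ja_le a ha.1
      have h2 := bb_mono hcon
      omega
    · rw [mem_Ico]
      exact ⟨ja_le a ha.1, lt_ja a⟩
  have hjeq : ∀ j a, a ∈ Ico (bb j) (bb (j+1)) → ja a = j := by
    intro j a ha
    rw [mem_Ico] at ha
    have h0 : 2 ≤ bb j := by
      unfold bb
      calc 2 = 2^1 := rfl
        _ ≤ 2^(2^j) := Nat.pow_le_pow_right (by norm_num) Nat.one_le_two_pow
    have h1 := ja_le a (h0.trans ha.1)
    have h2 := lt_ja a
    by_contra hne
    rcases lt_or_gt_of_ne hne with h | h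
    · have := bb_mono (show ja a + 1 ≤ j by omega)
      omega
    · have := bb_mono (show j + 1 ≤ ja a by omega)
      omega
  have hterm : ∀ j ∈ range K, ∑ a ∈ Ico (bb j) (bb (j+1)),
      (1:ℝ)/a * Real.exp (-c * SW (kk K) (ja a - 6)) ≤
      (1 + Real.log 2) * Real.exp (6 * Real.log 2 + C0) *
        Real.exp (((1 - c) * K + c * kk K) * Real.log 2) := by
    intro j hj
    rw [mem_range] at hj
    have hjK : (j:ℝ) ≤ K := by exact_mod_cast hj.le
    have h1 : ∀ a ∈ Ico (bb j) (bb (j+1)), (1:ℝ)/a * Real.exp (-c * SW (kk K) (ja a - 6)) ≤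
        (1:ℝ)/a * Real.exp (-c * (((j:ℝ) - 6 - kk K) * Real.log 2 - C0)) := by
      intro a ha
      apply mul_le_mul_of_nonneg_left _ (by positivity)
      apply Real.exp_le_exp.mpr
      rw [hjeq j a ha]
      have h2 := hlow (kk K) (j - 6)
      have h3 : (j:ℝ) - 6 ≤ ((j - 6 : ℕ) : ℝ) := by
        have : j ≤ (j - 6) + 6 := by omega
        have h4 : (j:ℝ) ≤ ((j - 6 : ℕ) : ℝ) + 6 := by exact_mod_cast this
        linarith
      have h4 : ((j:ℝ) - 6 - kk K) * Real.log 2 - C0 ≤ SW (kk K) (j - 6) := by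
        refine le_trans ?_ h2
        have := mul_le_mul_of_nonneg_right (sub_le_sub_right h3 (kk K : ℝ)) hl2.le
        linarith
      nlinarith
    refine (sum_le_sum h1).trans ?_
    rw [← sum_mul]
    have h2 : ∑ a ∈ Ico (bb j) (bb (j+1)), (1:ℝ)/a ≤ (1 + Real.log 2) * 2^j := by
      have h3 := asum_Ico (bb j) (bb (j+1)) (by unfold bb; exact Nat.one_le_two_pow)
        (bb_mono (by omega))
      rw [log_bb, log_bb] at h3
      have h4 : (1:ℝ) ≤ 2^j := one_le_pow₀ (by norm_num)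
      rw [pow_succ] at h3
      nlinarith
    have h2j : (2:ℝ)^j = Real.exp (j * Real.log 2) := by
      rw [mul_comm, Real.exp_mul, Real.exp_log (by norm_num), Real.rpow_natCast]
    calc (∑ a ∈ Ico (bb j) (bb (j+1)), (1:ℝ)/a) *
          Real.exp (-c * (((j:ℝ) - 6 - kk K) * Real.log 2 - C0))
        ≤ ((1 + Real.log 2) * 2^j) * Real.exp (-c * (((j:ℝ) - 6 - kk K) * Real.log 2 - C0)) :=
          mul_le_mul_of_nonneg_right h2 (Real.exp_pos _).le
      _ = (1 + Real.log 2) * Real.exp (j * Real.log 2 +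
            -c * (((j:ℝ) - 6 - kk K) * Real.log 2 - C0)) := by
          rw [h2j, Real.exp_add]; ring
      _ ≤ (1 + Real.log 2) * Real.exp ((6 * Real.log 2 + C0) +
            ((1 - c) * K + c * kk K) * Real.log 2) := by
          apply mul_le_mul_of_nonneg_left _ (by positivity)
          apply Real.exp_le_exp.mpr
          have e1 : (1 - c) * (j:ℝ) ≤ (1 - c) * K := mul_le_mul_of_nonneg_left hjK (by linarith)
          have e2 : c * C0 ≤ C0 := by nlinarith
          have e3 : c * (6 * Real.log 2) ≤ 6 * Real.log 2 := by nlinarith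
          have e4 := mul_le_mul_of_nonneg_right e1 hl2.le
          nlinarith
      _ = _ := by rw [Real.exp_add]; ring
  calc ∑ a ∈ Ico 2 (bb K), (1:ℝ)/a * Real.exp (-c * SW (kk K) (ja a - 6))
      ≤ ∑ a ∈ (range K).biUnion fun j => Ico (bb j) (bb (j+1)),
          (1:ℝ)/a * Real.exp (-c * SW (kk K) (ja a - 6)) :=
        sum_le_sum_of_subset_of_nonneg hsub fun _ _ _ => by positivity
    _ ≤ ∑ j ∈ range K, ∑ a ∈ Ico (bb j) (bb (j+1)),
          (1:ℝ)/a * Real.exp (-c * SW (kk K) (ja a - 6)) :=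
        le_of_eq (sum_biUnion fun j _ j' _ hne => by
          rw [Function.onFun, Finset.disjoint_left]
          intro a ha ha'
          exact hne ((hjeq j a ha).symm.trans (hjeq j' a ha')))
    _ ≤ ∑ _j ∈ range K, (1 + Real.log 2) * Real.exp (6 * Real.log 2 + C0) *
        Real.exp (((1 - c) * K + c * kk K) * Real.log 2) := sum_le_sum hterm
    _ = K * ((1 + Real.log 2) * Real.exp (6 * Real.log 2 + C0) *
        Real.exp (((1 - c) * K + c * kk K) * Real.log 2)) := by
        rw [sum_const, card_range, nsmul_eq_mul]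
    _ ≤ (K+1) * ((1 + Real.log 2) * Real.exp (6 * Real.log 2 + C0) *
        Real.exp (((1 - c) * K + c * kk K) * Real.log 2)) := by
        apply mul_le_mul_of_nonneg_right (by linarith) (by positivity)
    _ = _ := by ring

theorem absorb (A : ℝ) (n : ℕ) (d : ℝ) (hd : 0 < d) : ∃ C : ℝ, 0 < C ∧ ∀ K : ℕ,
    Real.exp ((A * kk K - d * K) * Real.log 2) * (K + 1)^n ≤ C := by
  have hl2 : 0 < Real.log 2 := Real.log_pos (by norm_num)
  set m : ℕ := ⌈max A 0⌉₊ with hm
  have hAm : A ≤ m := (le_max_left A 0).trans (Nat.le_ceil _)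
  set δ : ℝ := d * Real.log 2 with hδ
  have hδ0 : 0 < δ := by positivity
  set Z : ℝ := (2:ℝ)^964 * 10 with hZ
  have hZ0 : 0 < Z := by positivity
  refine ⟨Z^m * ((m+n).factorial / δ^(m+n) * Real.exp δ), by positivity, fun K => ?_⟩
  have hK1 : (0:ℝ) < (K:ℝ) + 1 := by positivity
  have h1 : Real.exp (A * kk K * Real.log 2) ≤ (Z * (K+1))^m := by
    have h2 : ((2:ℝ)^(kk K)) ≤ Z * (K+1) := by
      have := kk_pow_le K
      have h3 : ((2^kk K : ℕ) : ℝ) ≤ ((2^964 * (10 * K + 10) : ℕ) : ℝ) := by exact_mod_cast this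
      push_cast at h3
      rw [hZ]
      linarith
    have h4 : Real.exp (A * kk K * Real.log 2) ≤ ((2:ℝ)^(kk K))^m := by
      have h5 : ((2:ℝ)^(kk K))^m = Real.exp ((m:ℝ) * kk K * Real.log 2) := by
        rw [← pow_mul, mul_comm (kk K) m, mul_comm ((m:ℝ) * kk K), Real.exp_mul,
          Real.exp_log (by norm_num), ← Nat.cast_mul, Real.rpow_natCast]
      rw [h5]
      apply Real.exp_le_exp.mpr
      have h6 : A * kk K ≤ m * kk K := mul_le_mul_of_nonneg_right hAm (Nat.cast_nonneg _)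
      exact mul_le_mul_of_nonneg_right h6 hl2.le
    exact h4.trans (pow_le_pow_left₀ (by positivity) h2 m)
  have h2 : ((K:ℝ)+1)^(m+n) ≤ (m+n).factorial / δ^(m+n) * Real.exp (δ * (K+1)) := by
    have h3 := Real.pow_div_factorial_le_exp (x := δ * (K+1)) (by positivity) (m+n)
    rw [div_le_iff₀ (by positivity), mul_pow] at h3
    rw [div_mul_eq_mul_div, le_div_iff₀ (by positivity)]
    linarith
  calc Real.exp ((A * kk K - d * K) * Real.log 2) * (K + 1)^n
      = Real.exp (A * kk K * Real.log 2) * Real.exp (-(δ * K)) * (K+1)^n := by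
        rw [← Real.exp_add]; congr 2; rw [hδ]; ring
    _ ≤ (Z * (K+1))^m * Real.exp (-(δ * K)) * (K+1)^n := by
        apply mul_le_mul_of_nonneg_right _ (by positivity)
        exact mul_le_mul_of_nonneg_right h1 (Real.exp_pos _).le
    _ = Z^m * (((K:ℝ)+1)^(m+n) * Real.exp (-(δ * K))) := by rw [mul_pow, pow_add]; ring
    _ ≤ Z^m * (((m+n).factorial / δ^(m+n) * Real.exp (δ * (K+1))) * Real.exp (-(δ * K))) := by
        apply mul_le_mul_of_nonneg_left _ (by positivity)
        exact mul_le_mul_of_nonneg_right h2 (Real.exp_pos _).le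
    _ = Z^m * ((m+n).factorial / δ^(m+n) * Real.exp δ) := by
        rw [mul_assoc ((m+n).factorial / δ^(m+n) : ℝ), ← Real.exp_add]
        congr 3; ring

end Pool.Agent.H24.KS
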