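import Mathlib
import Pool.Agent.H24.KS.Df2

/-!
Logarithmic averages of `exp (c ∑_{l ∣ a} 1/l)`.
-/

namespace Pool.Agent.H24.KS

open Finset Classical
open Pool.Agent.H95.Gol

lemma sum_div_mult (N P : ℕ) (hP : 0 < P) :
    ∑ a ∈ (Ico 1 N).filter (fun a => P ∣ a), (1:ℝ)/a ≤ (1 / P) * ∑ m ∈ Ico 1 N, (1:ℝ)/m := by
  rw [mul_sum]
  have h1 : ∑ a ∈ (Ico 1 N).filter (fun a => P ∣ a), (1:ℝ)/a =
      ∑ a ∈ (Ico 1 N).filter (fun a => P ∣ a), (1 / (P:ℝ)) * (1 / ((a / P : ℕ) : ℝ)) := by
    refine sum_congr rfl fun a ha => ?_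
    rw [mem_filter] at ha
    obtain ⟨k, rfl⟩ := ha.2
    rw [Nat.mul_div_cancel_left k hP, Nat.cast_mul, one_div_mul_one_div]
  rw [h1]
  have hinj : Set.InjOn (fun a => a / P) ((Ico 1 N).filter (fun a => P ∣ a) : Finset ℕ) := by
    intro a ha b hb hab
    rw [mem_coe, mem_filter] at ha hb
    obtain ⟨k, rfl⟩ := ha.2
    obtain ⟨k', rfl⟩ := hb.2
    simp only [Nat.mul_div_cancel_left _ hP] at hab
    rw [hab]
  rw [← sum_image (s := (Ico 1 N).filter (fun a => P ∣ a)) (g := fun a => a / P)
    (f := fun m : ℕ => (1 / (P:ℝ)) * (1 / (m:ℝ))) hinj]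
  apply sum_le_sum_of_subset_of_nonneg
  · intro m hm
    rw [mem_image] at hm
    obtain ⟨a, ha, rfl⟩ := hm
    rw [mem_filter, mem_Ico] at ha
    obtain ⟨⟨h2, h3⟩, k, rfl⟩ := ha
    rw [Nat.mul_div_cancel_left _ hP, mem_Ico]
    constructor
    · rcases Nat.eq_zero_or_pos k with h | h
      · rw [h, mul_zero] at h2; omega
      · exact h
    · exact lt_of_le_of_lt (Nat.le_mul_of_pos_left k hP) h3
  · intro m _ _
    positivity

theorem asum2 (c : ℕ) : ∃ C : ℝ, 0 < C ∧ ∀ N : ℕ, 2 ≤ N →
    ∑ a ∈ Ico 1 N, (1:ℝ)/a * Real.exp (c * ∑ l ∈ a.primeFactors, (1:ℝ)/l) ≤ C * Real.log N := by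
  set B : ℝ := c * Real.exp c with hB
  have hB0 : 0 ≤ B := by positivity
  refine ⟨(1 + 1 / Real.log 2) * Real.exp (2 * B), by
    have := Real.log_pos (show (1:ℝ) < 2 by norm_num)
    positivity, ?_⟩
  intro N hN
  set Pn : Finset ℕ := (range N).filter Nat.Prime with hPn
  set H : ℝ := ∑ m ∈ Ico 1 N, (1:ℝ)/m with hH
  -- pointwise bound
  have hpt : ∀ a ∈ Ico 1 N, Real.exp (c * ∑ l ∈ a.primeFactors, (1:ℝ)/l) ≤
      ∑ T ∈ Pn.powerset, if (∏ l ∈ T, l) ∣ a then ∏ l ∈ T, (B / l) else 0 := by
    intro a ha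
    rw [mem_Ico] at ha
    rw [mul_sum, Real.exp_sum]
    have h1 : ∀ l ∈ a.primeFactors, Real.exp (c * ((1:ℝ)/l)) ≤ 1 + B / l := by
      intro l hl
      have hl1 : (1:ℝ) ≤ l := by exact_mod_cast (Nat.prime_of_mem_primeFactors hl).one_lt.le
      have hl0 : (0:ℝ) < l := by linarith
      set x : ℝ := c * ((1:ℝ)/l) with hx
      have hx0 : 0 ≤ x := by positivity
      have hxc : x ≤ c := by
        rw [hx, mul_one_div, div_le_iff₀ hl0]
        have : (0:ℝ) ≤ c := Nat.cast_nonneg _
        nlinarith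
      have h2 : Real.exp x ≤ 1 + x * Real.exp x := by
        have h3 : 1 - x ≤ Real.exp (-x) := by
          have := Real.add_one_le_exp (-x)
          linarith
        have h4 : Real.exp (-x) * Real.exp x = 1 := by
          rw [← Real.exp_add]; simp
        have h5 := mul_le_mul_of_nonneg_right h3 (Real.exp_pos x).le
        nlinarith
      have h6 : Real.exp x ≤ Real.exp c := Real.exp_le_exp.mpr hxc
      have h7 : x * Real.exp x ≤ x * Real.exp c := mul_le_mul_of_nonneg_left h6 hx0
      have h8 : x * Real.exp c = B / l := by rw [hx, hB]; ring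
      linarith
    refine (prod_le_prod (fun l _ => (Real.exp_pos _).le) h1).trans ?_
    rw [prod_one_add]
    have hsub : a.primeFactors ⊆ Pn := by
      intro l hl
      rw [hPn, mem_filter, mem_range]
      have h2 := Nat.le_of_mem_primeFactors hl
      exact ⟨by omega, Nat.prime_of_mem_primeFactors hl⟩
    calc ∑ T ∈ a.primeFactors.powerset, ∏ l ∈ T, (B / (l:ℝ))
        = ∑ T ∈ a.primeFactors.powerset,
            if (∏ l ∈ T, l) ∣ a then ∏ l ∈ T, (B / (l:ℝ)) else 0 := by
          refine sum_congr rfl fun T hT => ?_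
          rw [mem_powerset] at hT
          rw [if_pos]
          exact prod_primes_dvd a (fun l hl => (Nat.prime_of_mem_primeFactors (hT hl)).prime)
            (fun l hl => Nat.dvd_of_mem_primeFactors (hT hl))
      _ ≤ _ := by
          apply sum_le_sum_of_subset_of_nonneg (powerset_mono.mpr hsub)
          intro T _ _
          split_ifs
          · exact prod_nonneg fun l _ => by positivity
          · exact le_refl _
  have hH0 : 0 ≤ H := sum_nonneg fun m _ => by positivity
  -- swap
  have hsum : ∑ a ∈ Ico 1 N, (1:ℝ)/a * Real.exp (c * ∑ l ∈ a.primeFactors, (1:ℝ)/l) ≤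
      H * Real.exp (2 * B) := by
    calc ∑ a ∈ Ico 1 N, (1:ℝ)/a * Real.exp (c * ∑ l ∈ a.primeFactors, (1:ℝ)/l)
        ≤ ∑ a ∈ Ico 1 N, (1:ℝ)/a * ∑ T ∈ Pn.powerset,
            (if (∏ l ∈ T, l) ∣ a then ∏ l ∈ T, (B / (l:ℝ)) else 0) :=
          sum_le_sum fun a ha => mul_le_mul_of_nonneg_left (hpt a ha) (by positivity)
      _ = ∑ T ∈ Pn.powerset, ∑ a ∈ Ico 1 N, (1:ℝ)/a *
            (if (∏ l ∈ T, l) ∣ a then ∏ l ∈ T, (B / (l:ℝ)) else 0) := by
          simp_rw [mul_sum]
          exact sum_comm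
      _ = ∑ T ∈ Pn.powerset, (∏ l ∈ T, (B / (l:ℝ))) *
            ∑ a ∈ (Ico 1 N).filter (fun a => (∏ l ∈ T, l) ∣ a), (1:ℝ)/a := by
          refine sum_congr rfl fun T _ => ?_
          rw [mul_sum, sum_filter]
          refine sum_congr rfl fun a _ => ?_
          split_ifs
          · ring
          · ring
      _ ≤ ∑ T ∈ Pn.powerset, (∏ l ∈ T, (B / (l:ℝ))) * ((1 / ((∏ l ∈ T, l : ℕ) : ℝ)) * H) := by
          refine sum_le_sum fun T hT => ?_
          rw [mem_powerset] at hT
          apply mul_le_mul_of_nonneg_left _ (prod_nonneg fun l _ => by positivity)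
          apply sum_div_mult
          refine prod_pos fun l hl => ?_
          have := hT hl
          rw [hPn, mem_filter] at this
          exact this.2.pos
      _ = H * ∑ T ∈ Pn.powerset, ∏ l ∈ T, (B / (l:ℝ) * (1 / l)) := by
          rw [mul_sum]
          refine sum_congr rfl fun T _ => ?_
          rw [prod_mul_distrib, prod_div_distrib (fun _ => (1:ℝ)), prod_const_one]
          push_cast
          ring
      _ = H * ∏ l ∈ Pn, (1 + B / (l:ℝ) * (1 / l)) := by rw [prod_one_add]
      _ ≤ H * Real.exp (2 * B) := by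
          apply mul_le_mul_of_nonneg_left _ hH0
          calc ∏ l ∈ Pn, (1 + B / (l:ℝ) * (1 / l)) ≤
                ∏ l ∈ Pn, Real.exp (B / (l:ℝ) * (1 / l)) := by
                refine prod_le_prod (fun l _ => by positivity) fun l _ => ?_
                have := Real.add_one_le_exp (B / (l:ℝ) * (1 / l))
                linarith
            _ = Real.exp (∑ l ∈ Pn, B / (l:ℝ) * (1 / l)) := by rw [Real.exp_sum]
            _ ≤ Real.exp (2 * B) := by
                apply Real.exp_le_exp.mpr
                calc ∑ l ∈ Pn, B / (l:ℝ) * (1 / l) = ∑ l ∈ Pn, B * ((l:ℝ)^2)⁻¹ := by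
                      refine sum_congr rfl fun l _ => ?_
                      rw [pow_two, mul_inv]; ring
                  _ ≤ ∑ l ∈ Ioo 0 N, B * ((l:ℝ)^2)⁻¹ := by
                      apply sum_le_sum_of_subset_of_nonneg
                      · intro l hl
                        rw [hPn, mem_filter, mem_range] at hl
                        rw [mem_Ioo]
                        exact ⟨hl.2.pos, hl.1⟩
                      · intro l _ _
                        positivity
                  _ = B * ∑ l ∈ Ioo 0 N, ((l:ℝ)^2)⁻¹ := by rw [mul_sum]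
                  _ ≤ B * (2 / ((0:ℕ) + 1)) :=
                      mul_le_mul_of_nonneg_left (sum_Ioo_inv_sq_le 0 N) hB0
                  _ = 2 * B := by push_cast; ring
  have hHlog : H ≤ 1 + Real.log N := by
    have h1 := harmonic_le_one_add_log N
    have h2 : H ≤ ((harmonic N : ℚ) : ℝ) := by
      rw [hH, harmonic_eq_sum_Icc]
      push_cast
      calc ∑ m ∈ Ico 1 N, (1:ℝ)/m = ∑ m ∈ Ico 1 N, ((m:ℝ))⁻¹ :=
            sum_congr rfl fun m _ => by rw [one_div]
        _ ≤ ∑ m ∈ Icc 1 N, ((m:ℝ))⁻¹ := by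
            apply sum_le_sum_of_subset_of_nonneg
            · intro m hm
              rw [mem_Ico] at hm
              rw [mem_Icc]
              omega
            · intro m _ _
              positivity
    linarith
  have hlog2 : 0 < Real.log 2 := Real.log_pos (by norm_num)
  have hlogN : Real.log 2 ≤ Real.log N :=
    Real.log_le_log (by norm_num) (by exact_mod_cast hN)
  have h1 : 1 ≤ (1 / Real.log 2) * Real.log N := by
    rw [one_div, inv_mul_eq_div, one_le_div hlog2]
    exact hlogN
  calc _ ≤ H * Real.exp (2 * B) := hsum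
    _ ≤ ((1 + 1 / Real.log 2) * Real.log N) * Real.exp (2 * B) := by
        apply mul_le_mul_of_nonneg_right _ (Real.exp_pos _).le
        linarith
    _ = (1 + 1 / Real.log 2) * Real.exp (2 * B) * Real.log N := by ring

end Pool.Agent.H24.KS
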