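import Mathlib
import Pool.Agent.H24.KS.Logic

/-!
The cases cover all orders.
-/

namespace Pool.Agent.H24.KS

open Finset Classical
open Pool.Agent.H95.Gol

lemma mem_OLc {K a b z x q : ℕ} : q ∈ OL K a b z x ↔ q.Prime ∧ q ≤ bb K ∧ ¬ q ∣ a ∧
    ¬ q ∣ a * b + 1 ∧ Odd (padicValNat q (x * z)) := by
  unfold OL
  rw [mem_filter, mem_range]
  constructor
  · rintro ⟨h1, h2, h3, h4, h5⟩; exact ⟨h2, by omega, h3, h4, h5⟩
  · rintro ⟨h1, h2, h3, h4, h5⟩; exact ⟨by omega, h1, h3, h4, h5⟩

/-- a prime of odd exponent in `z` which does not divide `v` has odd exponent in `x z` -/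
lemma odd_z_of {X a b z x q : ℕ} (h : Tr X a b z x) (hq : q.Prime) (hodd : Odd (padicValNat q z))
    (hqv : ¬ q ∣ a * b + 1) : Odd (padicValNat q (x * z)) ∧ q ∣ z := by
  have : Fact q.Prime := ⟨hq⟩
  have hr := h.rep
  have hqz : q ∣ z := by
    by_contra hcon
    rw [padicValNat.eq_zero_of_not_dvd hcon] at hodd
    simp at hodd
  have hqx : ¬ q ∣ x := fun h1 => hqv (hr.dvd_v h1 hqz)
  refine ⟨?_, hqz⟩
  rw [padicValNat.mul hr.hx.ne' hr.hz.ne', padicValNat.eq_zero_of_not_dvd hqx, zero_add]
  exact hodd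

/-- the case distinction -/
lemma cases_of (K X a b z x : ℕ) (h : Tr X a b z x)
    (hv : ¬ (∀ p : ℕ, p.Prime → p ≠ 2 → p ≤ bb (K-10) → ¬ p ∣ a * b + 1) ∨ Even (a * b + 1)) :
    CS1 K a b z x ∨ CS2 K a b z x ∨ CS3 K a b z x ∨ CS4 K a b z x ∨ CS5 K a b z x ∨
    (bb K ≤ a ∧ ¬ NSq K a) ∨ (CL0 K a b z x ∧ NSq K a) ∨ (CL1 K a b z x ∧ NSq K a) ∨
    (CL2 K a b z x ∧ NSq K a) := by
  have hr := h.rep
  by_cases hev : Even (a * b + 1)
  · have hO := hr.P0 hev
    by_cases haK : a < bb K
    · -- CS5
      right; right; right; right; left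
      refine ⟨haK, ?_, ?_⟩
      · rw [Finset.eq_empty_iff_forall_notMem]
        intro q hq
        have := mem_Ox.mp hq
        exact hO q this.1 this.2.2.2.2
      · intro q hq hodd
        by_contra hcon
        exact hO q hq (odd_z_of h hq hodd hcon).1
    · push Not at haK
      by_cases hsq : NSq K a
      · right; right; right; right; right; right; left
        refine ⟨⟨haK, ?_⟩, hsq⟩
        rw [Finset.eq_empty_iff_forall_notMem]
        intro q hq
        have := mem_OLc.mp hq
        exact hO q this.1 this.2.2.2.2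
      · right; right; right; right; right; left
        exact ⟨haK, hsq⟩
  · have hP : hasP (K-10) (a * b + 1) := by
      rcases hv with hv | hv
      · push Not at hv
        obtain ⟨p, h1, h2, h3, h4⟩ := hv
        exact ⟨p, h1, h2, h3, h4⟩
      · exact absurd hv hev
    have hPK : hasP K (a * b + 1) := by
      obtain ⟨p, h1, h2, h3, h4⟩ := hP
      exact ⟨p, h1, h2, h3.trans (bb_mono (by omega)), h4⟩
    by_cases haK : a < bb K
    · by_cases h3 : 3 ≤ (Ox K z x).card
      · left; exact ⟨haK, h3, hPK⟩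
      · by_cases h1 : 1 ≤ (Ox K z x).card
        · right; left; exact ⟨haK, h1, by omega, hPK⟩
        · have h0 : Ox K z x = ∅ := by
            rw [← Finset.card_eq_zero]; omega
          by_cases hq : ∃ q : ℕ, q.Prime ∧ bb (kk K) < q ∧ Odd (padicValNat q z)
          · right; right; left
            exact ⟨haK, h0, hPK, hq⟩
          · push Not at hq
            by_cases h4 : ∃ q : ℕ, q.Prime ∧ q ≤ bb (kk K) ∧ q ∣ z ∧ ¬ q ∣ a * b + 1 ∧
                Odd (padicValNat q (x * z))
            · right; right; right; left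
              refine ⟨haK, h0, ?_, h4⟩
              intro q h5 h6 h7
              exact (Nat.not_odd_iff_even.mpr (by
                have := hq q h5 h6
                simpa using this)) h7
            · push Not at h4
              right; right; right; right; left
              refine ⟨haK, h0, ?_⟩
              intro q h5 h6
              by_contra hcon
              have h7 := odd_z_of h h5 h6 hcon
              have h8 : q ≤ bb (kk K) := by
                by_contra h9
                push Not at h9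
                have := hq q h5 h9
                exact (Nat.not_odd_iff_even.mpr (by simpa using this)) h6
              have h9 := h4 q h5 h8 h7.2 hcon
              exact (Nat.not_odd_iff_even.mpr (by simpa using h9)) h7.1
    · push Not at haK
      by_cases hsq : NSq K a
      · by_cases h0 : (OL (K-10) a b z x).card = 0
        · right; right; right; right; right; right; left
          exact ⟨⟨haK, Finset.card_eq_zero.mp h0⟩, hsq⟩
        · by_cases h1 : (OL (K-10) a b z x).card = 1
          · right; right; right; right; right; right; right; left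
            exact ⟨⟨haK, h1⟩, hsq⟩
          · right; right; right; right; right; right; right; right
            exact ⟨⟨haK, by omega, hP⟩, hsq⟩
      · right; right; right; right; right; left
        exact ⟨haK, hsq⟩

/-- the number of values of `a b + 1` on a class of triples -/
lemma card_image_cnt (X : ℕ) (Q : ℕ → ℕ → ℕ → ℕ → Prop) :
    ((range (X+1)).filter (fun v => ∃ a b z x, v = a * b + 1 ∧ Tr X a b z x ∧ Q a b z x)).card ≤
      cnt X Q := by
  unfold cnt
  have hsub : (range (X+1)).filter (fun v => ∃ a b z x, v = a * b + 1 ∧ Tr X a b z x ∧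
      Q a b z x) ⊆ (((range X) ×ˢ ((range X) ×ˢ (range X))).filter
      (fun t => ∃ x, Tr X t.1 t.2.1 t.2.2 x ∧ Q t.1 t.2.1 t.2.2 x)).image
        (fun t => t.1 * t.2.1 + 1) := by
    intro v hv
    rw [mem_filter] at hv
    obtain ⟨_, a, b, z, x, h1, h2, h3⟩ := hv
    rw [mem_image]
    refine ⟨(a, b, z), ?_, h1.symm⟩
    have hr := h2.rep
    have hz := hr.hz
    have e1 := h2.1
    have e2 := h2.2.1
    have e3 := h2.2.2.1
    have ha0 : 1 ≤ a := by omega
    have hb0 : 1 ≤ b := by omega
    have h4 : a ≤ a * b := Nat.le_mul_of_pos_right a hb0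
    have h5 : b ≤ a * b := Nat.le_mul_of_pos_left b ha0
    rw [mem_filter, mem_product, mem_product, mem_range, mem_range, mem_range]
    refine ⟨⟨?_, ?_, ?_⟩, x, h2, h3⟩
    · show a < X; omega
    · show b < X; omega
    · show z < X; omega
  exact (card_le_card hsub).trans card_image_le

theorem cover (K X : ℕ) (_hK : 2000 ≤ K) (_hX : X < bb (K+7)) : (richOrders X).ncard ≤
    ((range (X+1)).filter (fun v => ∀ p : ℕ, p.Prime → p ≠ 2 → p ≤ bb (K-10) → ¬ p ∣ v)).card +
    cnt X (CS1 K) + cnt X (CS2 K) + cnt X (CS3 K) + cnt X (CS4 K) + cnt X (CS5 K) +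
    cnt X (fun a _ _ _ => bb K ≤ a ∧ ¬ NSq K a) +
    cnt X (fun a b z x => CL0 K a b z x ∧ NSq K a) +
    cnt X (fun a b z x => CL1 K a b z x ∧ NSq K a) +
    cnt X (fun a b z x => CL2 K a b z x ∧ NSq K a) := by
  set im : (ℕ → ℕ → ℕ → ℕ → Prop) → Finset ℕ := fun Q =>
    (range (X+1)).filter (fun v => ∃ a b z x, v = a * b + 1 ∧ Tr X a b z x ∧ Q a b z x) with him
  have hc : ∀ Q, (im Q).card ≤ cnt X Q := fun Q => card_image_cnt X Q
  set R := (range (X+1)).filter (fun v => ∀ p : ℕ, p.Prime → p ≠ 2 → p ≤ bb (K-10) → ¬ p ∣ v)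
    with hR
  have hsub : richOrders X ⊆ ((R ∪ (im (CS1 K) ∪ (im (CS2 K) ∪ (im (CS3 K) ∪ (im (CS4 K) ∪
      (im (CS5 K) ∪ (im (fun a _ _ _ => bb K ≤ a ∧ ¬ NSq K a) ∪
      (im (fun a b z x => CL0 K a b z x ∧ NSq K a) ∪
      (im (fun a b z x => CL1 K a b z x ∧ NSq K a) ∪
      im (fun a b z x => CL2 K a b z x ∧ NSq K a))))))))) : Finset ℕ) : Set ℕ) := by
    intro v hv
    have hvX : v ≤ X := hv.1
    have hvr : v ∈ range (X+1) := mem_range.mpr (by omega)
    obtain ⟨x, y, z, w, hrep⟩ := rep_of_design hv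
    have hmain : ∀ x y z w : ℕ, Rep v x y z w → y + z ≤ x + w →
        Tr X (y+z) (x+w) z x ∧ v = (y+z) * (x+w) + 1 := by
      intro x y z w h hle
      have hve := h.hv
      refine ⟨⟨hle, by omega, by have := h.hy; omega, by have := h.hw; omega, ?_⟩, hve⟩
      have e1 : y + z - z = y := Nat.add_sub_cancel _ _
      have e2 : x + w - x = w := Nat.add_sub_cancel_left _ _
      rw [e1, e2, ← hve]
      exact h
    have hex : ∃ a b z x, v = a * b + 1 ∧ Tr X a b z x := by
      rcases le_total (y + z) (x + w) with h | h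
      · obtain ⟨h1, h2⟩ := hmain x y z w hrep h
        exact ⟨_, _, _, _, h2, h1⟩
      · obtain ⟨h1, h2⟩ := hmain z w x y hrep.swap (by omega)
        exact ⟨_, _, _, _, h2, h1⟩
    obtain ⟨a, b, z, x, hve, hTr⟩ := hex
    rw [mem_coe]
    by_cases hrough : (∀ p : ℕ, p.Prime → p ≠ 2 → p ≤ bb (K-10) → ¬ p ∣ a * b + 1)
    · apply mem_union_left
      rw [hR, mem_filter]
      rw [hve]
      exact ⟨by rw [← hve]; exact hvr, hrough⟩
    · apply mem_union_right
      have hmem : ∀ Q : ℕ → ℕ → ℕ → ℕ → Prop, Q a b z x → v ∈ im Q := by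
        intro Q hQ
        rw [him]
        exact mem_filter.mpr ⟨hvr, a, b, z, x, hve, hTr, hQ⟩
      rcases cases_of K X a b z x hTr (Or.inl hrough) with h | h | h | h | h | h | h | h | h
      · exact mem_union_left _ (hmem _ h)
      · exact mem_union_right _ (mem_union_left _ (hmem _ h))
      · exact mem_union_right _ (mem_union_right _ (mem_union_left _ (hmem _ h)))
      · exact mem_union_right _ (mem_union_right _ (mem_union_right _
          (mem_union_left _ (hmem _ h))))
      · exact mem_union_right _ (mem_union_right _ (mem_union_right _ (mem_union_right _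
          (mem_union_left _ (hmem _ h)))))
      · exact mem_union_right _ (mem_union_right _ (mem_union_right _ (mem_union_right _
          (mem_union_right _ (mem_union_left _
            (hmem (fun a _ _ _ => bb K ≤ a ∧ ¬ NSq K a) h))))))
      · exact mem_union_right _ (mem_union_right _ (mem_union_right _ (mem_union_right _
          (mem_union_right _ (mem_union_right _ (mem_union_left _
            (hmem (fun a b z x => CL0 K a b z x ∧ NSq K a) h)))))))
      · exact mem_union_right _ (mem_union_right _ (mem_union_right _ (mem_union_right _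
          (mem_union_right _ (mem_union_right _ (mem_union_right _ (mem_union_left _
            (hmem (fun a b z x => CL1 K a b z x ∧ NSq K a) h))))))))
      · exact mem_union_right _ (mem_union_right _ (mem_union_right _ (mem_union_right _
          (mem_union_right _ (mem_union_right _ (mem_union_right _ (mem_union_right _
            (hmem (fun a b z x => CL2 K a b z x ∧ NSq K a) h))))))))
  have h1 := Set.ncard_le_ncard hsub (Finset.finite_toSet _)
  rw [Set.ncard_coe_finset] at h1
  refine h1.trans ?_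
  have g1 := hc (CS1 K)
  have g2 := hc (CS2 K)
  have g3 := hc (CS3 K)
  have g4 := hc (CS4 K)
  have g5 := hc (CS5 K)
  have g6 := hc (fun a _ _ _ => bb K ≤ a ∧ ¬ NSq K a)
  have g7 := hc (fun a b z x => CL0 K a b z x ∧ NSq K a)
  have g8 := hc (fun a b z x => CL1 K a b z x ∧ NSq K a)
  have g9 := hc (fun a b z x => CL2 K a b z x ∧ NSq K a)
  refine (card_union_le _ _).trans ?_
  have k1 := card_union_le (im (CS1 K)) (im (CS2 K) ∪ (im (CS3 K) ∪ (im (CS4 K) ∪
      (im (CS5 K) ∪ (im (fun a _ _ _ => bb K ≤ a ∧ ¬ NSq K a) ∪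
      (im (fun a b z x => CL0 K a b z x ∧ NSq K a) ∪
      (im (fun a b z x => CL1 K a b z x ∧ NSq K a) ∪
      im (fun a b z x => CL2 K a b z x ∧ NSq K a))))))))
  have k2 := card_union_le (im (CS2 K)) (im (CS3 K) ∪ (im (CS4 K) ∪
      (im (CS5 K) ∪ (im (fun a _ _ _ => bb K ≤ a ∧ ¬ NSq K a) ∪
      (im (fun a b z x => CL0 K a b z x ∧ NSq K a) ∪
      (im (fun a b z x => CL1 K a b z x ∧ NSq K a) ∪
      im (fun a b z x => CL2 K a b z x ∧ NSq K a)))))))
  have k3 := card_union_le (im (CS3 K)) (im (CS4 K) ∪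
      (im (CS5 K) ∪ (im (fun a _ _ _ => bb K ≤ a ∧ ¬ NSq K a) ∪
      (im (fun a b z x => CL0 K a b z x ∧ NSq K a) ∪
      (im (fun a b z x => CL1 K a b z x ∧ NSq K a) ∪
      im (fun a b z x => CL2 K a b z x ∧ NSq K a))))))
  have k4 := card_union_le (im (CS4 K))
      (im (CS5 K) ∪ (im (fun a _ _ _ => bb K ≤ a ∧ ¬ NSq K a) ∪
      (im (fun a b z x => CL0 K a b z x ∧ NSq K a) ∪
      (im (fun a b z x => CL1 K a b z x ∧ NSq K a) ∪
      im (fun a b z x => CL2 K a b z x ∧ NSq K a)))))
  have k5 := card_union_le (im (CS5 K)) (im (fun a _ _ _ => bb K ≤ a ∧ ¬ NSq K a) ∪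
      (im (fun a b z x => CL0 K a b z x ∧ NSq K a) ∪
      (im (fun a b z x => CL1 K a b z x ∧ NSq K a) ∪
      im (fun a b z x => CL2 K a b z x ∧ NSq K a))))
  have k6 := card_union_le (im (fun a _ _ _ => bb K ≤ a ∧ ¬ NSq K a))
      (im (fun a b z x => CL0 K a b z x ∧ NSq K a) ∪
      (im (fun a b z x => CL1 K a b z x ∧ NSq K a) ∪
      im (fun a b z x => CL2 K a b z x ∧ NSq K a)))
  have k7 := card_union_le (im (fun a b z x => CL0 K a b z x ∧ NSq K a))
      (im (fun a b z x => CL1 K a b z x ∧ NSq K a) ∪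
      im (fun a b z x => CL2 K a b z x ∧ NSq K a))
  have k8 := card_union_le (im (fun a b z x => CL1 K a b z x ∧ NSq K a))
      (im (fun a b z x => CL2 K a b z x ∧ NSq K a))
  omega

end Pool.Agent.H24.KS
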