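import Pool.Agent.H24.KS.N4

/-!
KS2: the fourth moment bound for Kloosterman sums modulo a squarefree number.
-/

namespace Pool.Agent.H24.KS

open Finset Classical

/-- Kloosterman sum -/
noncomputable def Kl (s : ℕ) [NeZero s] (h k : ZMod s) : ℂ :=
  ∑ u : (ZMod s)ˣ, ZMod.stdAddChar (h * (u : ZMod s) + k * ((u⁻¹ : (ZMod s)ˣ) : ZMod s))

namespace KlAux

variable {s : ℕ} [NeZero s]

/-- sum of a pair of units -/
def S (p : (ZMod s)ˣ × (ZMod s)ˣ) : ZMod s := (p.1 : ZMod s) + p.2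

/-- sum of the inverses of a pair of units -/
def I (p : (ZMod s)ˣ × (ZMod s)ˣ) : ZMod s :=
  ((p.1⁻¹ : (ZMod s)ˣ) : ZMod s) + ((p.2⁻¹ : (ZMod s)ˣ) : ZMod s)

theorem Kl_sq (h k : ZMod s) : Kl s h k * Kl s h k =
    ∑ p : (ZMod s)ˣ × (ZMod s)ˣ, ZMod.stdAddChar (h * S p + k * I p) := by
  unfold Kl
  rw [Finset.sum_mul_sum, ← Finset.sum_product', Finset.univ_product_univ]
  apply Finset.sum_congr rfl
  rintro ⟨u, v⟩ _
  rw [← AddChar.map_add_eq_mul]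
  congr 1
  simp only [S, I]
  ring

theorem norm_four (h k : ZMod s) : ((‖Kl s h k‖ ^ 4 : ℝ) : ℂ) =
    ∑ p : (ZMod s)ˣ × (ZMod s)ˣ, ∑ q : (ZMod s)ˣ × (ZMod s)ˣ,
      ZMod.stdAddChar (h * (S p - S q)) * ZMod.stdAddChar (k * (I p - I q)) := by
  have h1 : ((‖Kl s h k‖ ^ 4 : ℝ) : ℂ) =
      (Kl s h k * Kl s h k) * (starRingEnd ℂ) (Kl s h k * Kl s h k) := by
    rw [Complex.mul_conj, Complex.normSq_eq_norm_sq, norm_mul]
    push_cast
    ring
  rw [h1, Kl_sq, map_sum, Finset.sum_mul_sum]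
  apply Finset.sum_congr rfl
  intro p _
  apply Finset.sum_congr rfl
  intro q _
  rw [← AddChar.map_neg_eq_conj, ← AddChar.map_add_eq_mul, ← AddChar.map_add_eq_mul]
  congr 1
  ring

/-- orthogonality -/
theorem sum_char (a : ZMod s) : ∑ h : ZMod s, (ZMod.stdAddChar (h * a) : ℂ) =
    if a = 0 then (s : ℂ) else 0 := by
  have := AddChar.sum_mulShift a (ZMod.isPrimitive_stdAddChar s)
  rw [ZMod.card] at this
  rw [this]
  split_ifs <;> simp

theorem moment : ∑ h : ZMod s, ∑ k : ZMod s, ‖Kl s h k‖ ^ 4 = (s : ℝ) ^ 2 *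
    (((univ : Finset (((ZMod s)ˣ × (ZMod s)ˣ) × ((ZMod s)ˣ × (ZMod s)ˣ))).filter
      (fun t => S t.1 - S t.2 = 0 ∧ I t.1 - I t.2 = 0)).card : ℝ) := by
  have key : ((∑ h : ZMod s, ∑ k : ZMod s, ‖Kl s h k‖ ^ 4 : ℝ) : ℂ) = (((s : ℝ) ^ 2 *
    (((univ : Finset (((ZMod s)ˣ × (ZMod s)ˣ) × ((ZMod s)ˣ × (ZMod s)ˣ))).filter
      (fun t => S t.1 - S t.2 = 0 ∧ I t.1 - I t.2 = 0)).card : ℝ) : ℝ) : ℂ) := by
    push_cast
    have e1 : ∀ h k : ZMod s, (‖Kl s h k‖ : ℂ) ^ 4 = ∑ p : (ZMod s)ˣ × (ZMod s)ˣ, ∑ q : (ZMod s)ˣ × (ZMod s)ˣ,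
      (ZMod.stdAddChar (h * (S p - S q)) : ℂ) * ZMod.stdAddChar (k * (I p - I q)) := by
      intro h k
      rw [← norm_four]
      push_cast
      rfl
    simp_rw [e1]
    have e2 : ∀ h : ZMod s, ∑ k : ZMod s, ∑ p : (ZMod s)ˣ × (ZMod s)ˣ, ∑ q : (ZMod s)ˣ × (ZMod s)ˣ,
        (ZMod.stdAddChar (h * (S p - S q)) : ℂ) * ZMod.stdAddChar (k * (I p - I q)) =
        ∑ p : (ZMod s)ˣ × (ZMod s)ˣ, ∑ q : (ZMod s)ˣ × (ZMod s)ˣ,
        (ZMod.stdAddChar (h * (S p - S q)) : ℂ) * (if I p - I q = 0 then (s : ℂ) else 0) := by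
      intro h
      rw [Finset.sum_comm]
      apply Finset.sum_congr rfl
      intro p _
      rw [Finset.sum_comm]
      apply Finset.sum_congr rfl
      intro q _
      rw [← Finset.mul_sum, sum_char]
    simp_rw [e2]
    rw [Finset.sum_comm]
    have e3 : ∀ p : (ZMod s)ˣ × (ZMod s)ˣ, ∑ h : ZMod s, ∑ q : (ZMod s)ˣ × (ZMod s)ˣ,
        (ZMod.stdAddChar (h * (S p - S q)) : ℂ) * (if I p - I q = 0 then (s : ℂ) else 0) =
        ∑ q : (ZMod s)ˣ × (ZMod s)ˣ, (if S p - S q = 0 ∧ I p - I q = 0 then (s : ℂ) ^ 2 else 0) := by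
      intro p
      rw [Finset.sum_comm]
      apply Finset.sum_congr rfl
      intro q _
      rw [← Finset.sum_mul, sum_char]
      by_cases h1 : S p - S q = 0 <;> by_cases h2 : I p - I q = 0 <;> simp [h1, h2, sq]
    simp_rw [e3]
    rw [← Finset.sum_product', Finset.univ_product_univ, ← Finset.sum_filter, Finset.sum_const,
      nsmul_eq_mul, mul_comm]
  exact_mod_cast key

theorem card_le (hs : Squarefree s) :
    ((univ : Finset (((ZMod s)ˣ × (ZMod s)ˣ) × ((ZMod s)ˣ × (ZMod s)ˣ))).filter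
      (fun t => S t.1 - S t.2 = 0 ∧ I t.1 - I t.2 = 0)).card ≤ s ^ 2 * s.divisors.card ^ 2 := by
  refine le_trans ?_ (N4_le s hs)
  apply Finset.card_le_card_of_injOn (fun t => (t.1.1, t.1.2, t.2.1, t.2.2))
  · intro t ht
    simp only [Finset.coe_filter, Finset.mem_univ, true_and, Set.mem_ofPred_eq] at ht ⊢
    refine ⟨?_, ?_⟩
    · exact sub_eq_zero.1 ht.1
    · exact sub_eq_zero.1 ht.2
  · rintro ⟨⟨a, b⟩, ⟨c, d⟩⟩ _ ⟨⟨a', b'⟩, ⟨c', d'⟩⟩ _ h
    simp only [Prod.mk.injEq] at h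
    obtain ⟨rfl, rfl, rfl, rfl⟩ := h
    rfl

theorem Kl_twist (h k : ZMod s) (u : (ZMod s)ˣ) :
    Kl s (h * u) (k * ((u⁻¹ : (ZMod s)ˣ) : ZMod s)) = Kl s h k := by
  unfold Kl
  refine Fintype.sum_equiv (Equiv.mulLeft u) _ _ ?_
  intro v
  congr 1
  simp only [Equiv.coe_mulLeft, mul_inv_rev, Units.val_mul]
  ring

end KlAux

open KlAux in
/-- KS2 (file Kl.lean). -/
theorem Kl_le (s : ℕ) [NeZero s] (hs : Squarefree s) (h k : ZMod s) :
    ‖Kl s h k‖^4 * s.totient ≤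
      ((univ : Finset (ZMod s)).filter (fun w => h * w = 0)).card * (s:ℝ)^4 * s.divisors.card^2 := by
  set n := ((univ : Finset (ZMod s)).filter (fun w => h * w = 0)).card with hn
  -- the fibres of `u ↦ (h u, k u⁻¹)`
  let f : (ZMod s)ˣ → ZMod s × ZMod s := fun u => (h * u, k * ((u⁻¹ : (ZMod s)ˣ) : ZMod s))
  have hfib : ∀ q : ZMod s × ZMod s, ((univ : Finset (ZMod s)ˣ).filter fun u => f u = q).card ≤ n := by
    intro q
    rcases ((univ : Finset (ZMod s)ˣ).filter fun u => f u = q).eq_empty_or_nonempty with he | ⟨u0, hu0⟩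
    · rw [he]; simp
    · simp only [Finset.mem_filter, Finset.mem_univ, true_and] at hu0
      rw [hn]
      apply Finset.card_le_card_of_injOn (fun u : (ZMod s)ˣ => (u : ZMod s) - u0)
      · intro u hu
        simp only [Finset.coe_filter, Finset.mem_univ, true_and, Set.mem_ofPred_eq] at hu ⊢
        have h1 : h * u = h * u0 := by
          have := hu.trans hu0.symm
          simp only [f, Prod.mk.injEq] at this
          exact this.1
        rw [mul_sub, h1, sub_self]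
      · intro u _ v _ huv
        exact Units.ext (sub_left_injective huv)
  have hsum : ∑ u : (ZMod s)ˣ, ‖Kl s (f u).1 (f u).2‖ ^ 4 = s.totient * ‖Kl s h k‖ ^ 4 := by
    have : ∀ u : (ZMod s)ˣ, ‖Kl s (f u).1 (f u).2‖ ^ 4 = ‖Kl s h k‖ ^ 4 := by
      intro u
      rw [show Kl s (f u).1 (f u).2 = Kl s h k from Kl_twist h k u]
    rw [Finset.sum_congr rfl fun u _ => this u, Finset.sum_const, Finset.card_univ,
      ZMod.card_units_eq_totient, nsmul_eq_mul]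
  have hfibsum : ∑ u : (ZMod s)ˣ, ‖Kl s (f u).1 (f u).2‖ ^ 4 ≤
      n * ∑ q : ZMod s × ZMod s, ‖Kl s q.1 q.2‖ ^ 4 := by
    rw [← Finset.sum_fiberwise_of_maps_to (t := (univ : Finset (ZMod s × ZMod s))) (g := f)
      (fun u _ => Finset.mem_univ _), Finset.mul_sum]
    apply Finset.sum_le_sum
    intro q _
    have : ∑ u ∈ (univ : Finset (ZMod s)ˣ).filter (fun u => f u = q), ‖Kl s (f u).1 (f u).2‖ ^ 4 =
        (((univ : Finset (ZMod s)ˣ).filter fun u => f u = q).card : ℝ) * ‖Kl s q.1 q.2‖ ^ 4 := by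
      rw [Finset.sum_congr rfl (g := fun _ => ‖Kl s q.1 q.2‖ ^ 4), Finset.sum_const, nsmul_eq_mul]
      intro u hu
      rw [(Finset.mem_filter.1 hu).2]
    rw [this]
    gcongr
    exact_mod_cast hfib q
  have hmom : ∑ q : ZMod s × ZMod s, ‖Kl s q.1 q.2‖ ^ 4 ≤ (s : ℝ) ^ 4 * s.divisors.card ^ 2 := by
    rw [← Finset.univ_product_univ, Finset.sum_product, moment]
    have h1 := card_le hs
    have h2 : (((univ : Finset (((ZMod s)ˣ × (ZMod s)ˣ) × ((ZMod s)ˣ × (ZMod s)ˣ))).filter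
      (fun t => S t.1 - S t.2 = 0 ∧ I t.1 - I t.2 = 0)).card : ℝ) ≤ (s : ℝ) ^ 2 * s.divisors.card ^ 2 := by
      exact_mod_cast h1
    calc _ ≤ (s : ℝ) ^ 2 * ((s : ℝ) ^ 2 * s.divisors.card ^ 2) := by gcongr
      _ = _ := by ring
  calc ‖Kl s h k‖^4 * s.totient = ∑ u : (ZMod s)ˣ, ‖Kl s (f u).1 (f u).2‖ ^ 4 := by rw [hsum]; ring
    _ ≤ n * ∑ q : ZMod s × ZMod s, ‖Kl s q.1 q.2‖ ^ 4 := hfibsum
    _ ≤ n * ((s : ℝ) ^ 4 * s.divisors.card ^ 2) := by gcongr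
    _ = _ := by ring

end Pool.Agent.H24.KS
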