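import Mathlib
import Pool.Agent.H41.Eis.Divisor
import Pool.Agent.H24.KS.Kl

/-!
KS3: equidistribution of the modular hyperbola in boxes of two arithmetic progressions modulo a
squarefree number, from the fourth moment bound for Kloosterman sums.
-/

namespace Pool.Agent.H24.KS

open Finset Classical

/-- symmetry of the Kloosterman sum -/
lemma Kl_symm (s : ℕ) [NeZero s] (h k : ZMod s) : Kl s h k = Kl s k h := by
  unfold Kl
  refine Fintype.sum_equiv (Equiv.inv (ZMod s)ˣ) _ _ (fun u => ?_)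
  simp only [Equiv.inv_apply, inv_inv]
  rw [add_comm]

/-- the number of solutions of `h w = 0` -/
noncomputable def nz (s : ℕ) [NeZero s] (h : ZMod s) : ℕ :=
  ((univ : Finset (ZMod s)).filter (fun w => h * w = 0)).card

lemma nz_pos (s : ℕ) [NeZero s] (h : ZMod s) : 1 ≤ nz s h := by
  unfold nz
  refine Finset.card_pos.mpr ⟨0, ?_⟩
  simp

/-- `s ≤ φ(s) τ(s)` -/
lemma le_totient_mul_tau (s : ℕ) (hs : 0 < s) : s ≤ s.totient * s.divisors.card := by
  calc s = ∑ d ∈ s.divisors, d.totient := (Nat.sum_totient s).symm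
    _ ≤ ∑ d ∈ s.divisors, s.totient := by
        refine sum_le_sum (fun d hd => ?_)
        exact Nat.le_of_dvd (Nat.totient_pos.mpr hs)
          (Nat.totient_dvd_of_dvd (Nat.dvd_of_mem_divisors hd))
    _ = s.totient * s.divisors.card := by rw [sum_const, smul_eq_mul, mul_comm]

/-- the bound for the Kloosterman sum in the form used here -/
lemma Kl_le' (s : ℕ) [NeZero s] (hs : Squarefree s) (h k : ZMod s) :
    ‖Kl s h k‖ ≤ nz s h * ((s:ℝ) * s.divisors.card) ^ ((3:ℝ)/4) := by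
  have hs0 : 0 < s := Nat.pos_of_ne_zero (NeZero.ne s)
  have hsR : (0:ℝ) < s := by exact_mod_cast hs0
  have hφ : (0:ℝ) < s.totient := by exact_mod_cast Nat.totient_pos.mpr hs0
  have hτ : (1:ℝ) ≤ s.divisors.card := by
    exact_mod_cast Finset.card_pos.mpr ⟨1, Nat.one_mem_divisors.mpr hs0.ne'⟩
  have hn : (1:ℝ) ≤ nz s h := by exact_mod_cast nz_pos s h
  have h1 := Kl_le s hs h k
  have h2 : (s:ℝ) ≤ s.totient * s.divisors.card := by exact_mod_cast le_totient_mul_tau s hs0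
  have h3 : ‖Kl s h k‖^4 * s ≤ (nz s h : ℝ)^4 * ((s:ℝ) * s.divisors.card)^3 * s := by
    calc ‖Kl s h k‖^4 * s ≤ ‖Kl s h k‖^4 * (s.totient * s.divisors.card) := by gcongr
      _ = (‖Kl s h k‖^4 * s.totient) * s.divisors.card := by ring
      _ ≤ ((nz s h : ℝ) * (s:ℝ)^4 * s.divisors.card^2) * s.divisors.card := by
          refine mul_le_mul_of_nonneg_right ?_ (by positivity)
          exact h1
      _ ≤ ((nz s h : ℝ)^4 * (s:ℝ)^4 * s.divisors.card^2) * s.divisors.card := by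
          gcongr
          exact le_self_pow₀ hn (by norm_num)
      _ = (nz s h : ℝ)^4 * ((s:ℝ) * s.divisors.card)^3 * s := by ring
  have h4 : ‖Kl s h k‖^4 ≤ (nz s h : ℝ)^4 * ((s:ℝ) * s.divisors.card)^3 :=
    le_of_mul_le_mul_right h3 hsR
  have h5 : ((nz s h : ℝ) * ((s:ℝ) * s.divisors.card) ^ ((3:ℝ)/4))^4 =
      (nz s h : ℝ)^4 * ((s:ℝ) * s.divisors.card)^3 := by
    rw [mul_pow]
    congr 1
    rw [← Real.rpow_natCast, ← Real.rpow_mul (by positivity), ← Real.rpow_natCast]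
    norm_num
  rw [← h5] at h4
  exact le_of_pow_le_pow_left₀ (by norm_num) (by positivity) h4

/-- the distance of the character value from 1 -/
lemma norm_char_sub_one (s : ℕ) [NeZero s] (h : ZMod s) :
    4 * (h.valMinAbs.natAbs : ℝ) / s ≤ ‖(ZMod.stdAddChar h : ℂ) - 1‖ := by
  have hs0 : 0 < s := Nat.pos_of_ne_zero (NeZero.ne s)
  have hsR : (0:ℝ) < s := by exact_mod_cast hs0
  have hπ := Real.pi_pos
  have e1 : (ZMod.stdAddChar h : ℂ) = Complex.exp (Complex.I * ((2 * Real.pi * h.valMinAbs / s : ℝ) : ℂ)) := by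
    conv_lhs => rw [← ZMod.coe_valMinAbs h]
    rw [ZMod.stdAddChar_coe]
    congr 1
    push_cast
    ring
  rw [e1, Complex.norm_exp_I_mul_ofReal_sub_one]
  have e2 : (2 * Real.pi * h.valMinAbs / s : ℝ) / 2 = Real.pi * h.valMinAbs / s := by ring
  rw [e2, Real.norm_eq_abs, abs_mul, abs_two]
  have h3 : (h.valMinAbs.natAbs : ℝ) ≤ s / 2 := by
    have := ZMod.natAbs_valMinAbs_le h
    have h4 : 2 * h.valMinAbs.natAbs ≤ s := by omega
    have : ((2 * h.valMinAbs.natAbs : ℕ) : ℝ) ≤ s := by exact_mod_cast h4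
    push_cast at this
    linarith
  have h6 : |Real.sin (Real.pi * h.valMinAbs / s)| = Real.sin (Real.pi * h.valMinAbs.natAbs / s) := by
    have hcast : ((h.valMinAbs.natAbs : ℕ) : ℝ) = |(h.valMinAbs : ℝ)| := by
      rw [Nat.cast_natAbs, Int.cast_abs]
    have hpos : 0 ≤ Real.sin (Real.pi * h.valMinAbs.natAbs / s) := by
      refine Real.sin_nonneg_of_nonneg_of_le_pi (by positivity) ?_
      rw [div_le_iff₀ hsR]
      nlinarith
    rcases abs_cases (h.valMinAbs : ℝ) with ⟨ha, _⟩ | ⟨ha, _⟩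
    · rw [hcast, ha] at hpos ⊢
      exact abs_of_nonneg hpos
    · rw [hcast, ha] at hpos ⊢
      have : Real.pi * -(h.valMinAbs : ℝ) / s = -(Real.pi * h.valMinAbs / s) := by ring
      rw [this, Real.sin_neg] at hpos ⊢
      exact abs_of_nonpos (by linarith)
  rw [h6]
  have h7 := Real.mul_le_sin (x := Real.pi * h.valMinAbs.natAbs / s) (by positivity) (by
    rw [div_le_iff₀ hsR]; nlinarith)
  have h8 : 2 / Real.pi * (Real.pi * h.valMinAbs.natAbs / s) = 2 * h.valMinAbs.natAbs / s := by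
    field_simp
  rw [h8] at h7
  calc 4 * (h.valMinAbs.natAbs : ℝ) / s = 2 * (2 * h.valMinAbs.natAbs / s) := by ring
    _ ≤ _ := by gcongr

/-- the exponential sum of an arithmetic progression -/
noncomputable def AP (s : ℕ) [NeZero s] (M α U : ℕ) (h : ZMod s) : ℂ :=
  ∑ i ∈ range U, ZMod.stdAddChar (-(h * ((α + M * i : ℕ) : ZMod s)))

lemma norm_char (s : ℕ) [NeZero s] (h : ZMod s) : ‖(ZMod.stdAddChar h : ℂ)‖ = 1 := by
  rw [ZMod.stdAddChar_apply]
  exact Circle.norm_coe _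

lemma AP_zero (s : ℕ) [NeZero s] (M α U : ℕ) : AP s M α U 0 = U := by
  unfold AP
  simp

/-- geometric sum bound -/
lemma AP_le (s : ℕ) [NeZero s] (M α U : ℕ) (h : ZMod s) (hM : h * (M : ZMod s) ≠ 0) :
    ‖AP s M α U h‖ ≤ s / (2 * ((h * (M : ZMod s)).valMinAbs.natAbs : ℝ)) := by
  have hs0 : 0 < s := Nat.pos_of_ne_zero (NeZero.ne s)
  have hsR : (0:ℝ) < s := by exact_mod_cast hs0
  set z : ℂ := ZMod.stdAddChar (-(h * (M : ZMod s))) with hz
  have hz1 : ‖z‖ = 1 := norm_char _ _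
  set v : ℝ := ((h * (M : ZMod s)).valMinAbs.natAbs : ℝ) with hv
  have hv0 : 0 < v := by
    rw [hv]
    have : (h * (M : ZMod s)).valMinAbs ≠ 0 := by
      rwa [Ne, ZMod.valMinAbs_eq_zero]
    exact_mod_cast Int.natAbs_pos.mpr this
  have e1 : AP s M α U h = ZMod.stdAddChar (-(h * (α : ZMod s))) * ∑ i ∈ range U, z ^ i := by
    unfold AP
    rw [mul_sum]
    refine sum_congr rfl (fun i _ => ?_)
    rw [hz, ← AddChar.map_nsmul_eq_pow, ← AddChar.map_add_eq_mul]
    congr 1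
    push_cast
    rw [nsmul_eq_mul]
    ring
  have hdist : 4 * v / s ≤ ‖z - 1‖ := by
    have := norm_char_sub_one s (-(h * (M : ZMod s)))
    rwa [ZMod.natAbs_valMinAbs_neg] at this
  have hzne : z ≠ 1 := by
    intro h1
    rw [h1, sub_self, norm_zero] at hdist
    have : 0 < 4 * v / s := by positivity
    linarith
  have hpos : 0 < ‖z - 1‖ := by
    rw [norm_pos_iff]
    exact sub_ne_zero.mpr hzne
  rw [e1, norm_mul, norm_char, one_mul, geom_sum_eq hzne, norm_div]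
  have h2 : ‖z ^ U - 1‖ ≤ 2 := by
    calc ‖z ^ U - 1‖ ≤ ‖z ^ U‖ + ‖(1:ℂ)‖ := norm_sub_le _ _
      _ = 2 := by rw [norm_pow, hz1, one_pow, norm_one]; norm_num
  calc ‖z ^ U - 1‖ / ‖z - 1‖ ≤ 2 / (4 * v / s) := by
        gcongr
    _ = s / (2 * v) := by field_simp; norm_num

/-- orthogonality: the count as a double Fourier sum -/
lemma count_pair (s : ℕ) [NeZero s] (x y : ZMod s) :
    ∑ h : ZMod s, ∑ k : ZMod s, Kl s h k * (ZMod.stdAddChar (-(h * x)) * ZMod.stdAddChar (-(k * y)))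
      = if x * y = 1 then (s:ℂ)^2 else 0 := by
  have hprim := ZMod.isPrimitive_stdAddChar s
  have horth : ∀ a : ZMod s, ∑ h : ZMod s, (ZMod.stdAddChar (h * a) : ℂ) = if a = 0 then (s:ℂ) else 0 := by
    intro a
    have := AddChar.sum_mulShift (ψ := (ZMod.stdAddChar : AddChar (ZMod s) ℂ)) a hprim
    rw [ZMod.card] at this
    rw [this]
    split_ifs <;> simp
  have e1 : ∀ h k : ZMod s, Kl s h k * (ZMod.stdAddChar (-(h * x)) * ZMod.stdAddChar (-(k * y))) =
      ∑ u : (ZMod s)ˣ, (ZMod.stdAddChar (h * ((u : ZMod s) - x)) : ℂ) *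
        ZMod.stdAddChar (k * (((u⁻¹ : (ZMod s)ˣ) : ZMod s) - y)) := by
    intro h k
    unfold Kl
    rw [sum_mul]
    refine sum_congr rfl (fun u _ => ?_)
    rw [← AddChar.map_add_eq_mul, ← AddChar.map_add_eq_mul, ← AddChar.map_add_eq_mul]
    congr 1
    ring
  simp_rw [e1]
  have e2 : ∑ h : ZMod s, ∑ k : ZMod s, ∑ u : (ZMod s)ˣ,
      (ZMod.stdAddChar (h * ((u : ZMod s) - x)) : ℂ) *
        ZMod.stdAddChar (k * (((u⁻¹ : (ZMod s)ˣ) : ZMod s) - y)) =
      ∑ u : (ZMod s)ˣ, (if (u : ZMod s) - x = 0 then (s:ℂ) else 0) *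
        (if ((u⁻¹ : (ZMod s)ˣ) : ZMod s) - y = 0 then (s:ℂ) else 0) := by
    calc _ = ∑ h : ZMod s, ∑ u : (ZMod s)ˣ, ∑ k : ZMod s,
      (ZMod.stdAddChar (h * ((u : ZMod s) - x)) : ℂ) *
        ZMod.stdAddChar (k * (((u⁻¹ : (ZMod s)ˣ) : ZMod s) - y)) := by
          refine sum_congr rfl (fun h _ => ?_)
          exact sum_comm
      _ = ∑ u : (ZMod s)ˣ, ∑ h : ZMod s, ∑ k : ZMod s,
      (ZMod.stdAddChar (h * ((u : ZMod s) - x)) : ℂ) *
        ZMod.stdAddChar (k * (((u⁻¹ : (ZMod s)ˣ) : ZMod s) - y)) := sum_comm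
      _ = _ := by
          refine sum_congr rfl (fun u _ => ?_)
          rw [← horth, ← horth, sum_mul_sum]
  rw [e2]
  by_cases hxy : x * y = 1
  · rw [if_pos hxy]
    set u0 : (ZMod s)ˣ := Units.mkOfMulEqOne x y hxy with hu0
    have hx0 : (u0 : ZMod s) = x := by rw [hu0, Units.val_mkOfMulEqOne]
    have hy0 : ((u0⁻¹ : (ZMod s)ˣ) : ZMod s) = y := by
      have : (u0 : ZMod s) * y = 1 := by rw [hx0, hxy]
      exact (Units.inv_eq_of_mul_eq_one_right this)
    rw [Finset.sum_eq_single u0]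
    · rw [hx0, hy0, sub_self, sub_self, if_pos rfl]
      ring
    · intro u _ hu
      have : ¬ ((u : ZMod s) - x = 0) := by
        intro h
        apply hu
        ext
        rw [hx0]
        exact sub_eq_zero.mp h
      rw [if_neg this, zero_mul]
    · intro h
      exact absurd (mem_univ _) h
  · rw [if_neg hxy]
    refine sum_eq_zero (fun u _ => ?_)
    by_cases h1 : (u : ZMod s) - x = 0
    · by_cases h2 : ((u⁻¹ : (ZMod s)ˣ) : ZMod s) - y = 0
      · exfalso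
        apply hxy
        rw [← sub_eq_zero.mp h1, ← sub_eq_zero.mp h2]
        exact Units.mul_inv u
      · rw [if_neg h2, mul_zero]
    · rw [if_neg h1, zero_mul]

/-- the count as a double Fourier sum -/
lemma count_eq (s : ℕ) [NeZero s] (M M' α β U V : ℕ) :
    ((((range U) ×ˢ (range V)).filter
        (fun t => ((α + M * t.1) * (β + M' * t.2)) % s = 1 % s)).card : ℂ) * (s:ℂ)^2 =
      ∑ h : ZMod s, ∑ k : ZMod s, Kl s h k * (AP s M α U h * AP s M' β V k) := by
  have e1 : ∀ i j : ℕ, (((α + M * i) * (β + M' * j)) % s = 1 % s) ↔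
      ((α + M * i : ℕ) : ZMod s) * ((β + M' * j : ℕ) : ZMod s) = 1 := by
    intro i j
    rw [← Nat.cast_mul, ← Nat.cast_one (R := ZMod s), ZMod.natCast_eq_natCast_iff']
  have e2 : ((((range U) ×ˢ (range V)).filter
        (fun t => ((α + M * t.1) * (β + M' * t.2)) % s = 1 % s)).card : ℂ) * (s:ℂ)^2 =
      ∑ i ∈ range U, ∑ j ∈ range V, if ((α + M * i : ℕ) : ZMod s) * ((β + M' * j : ℕ) : ZMod s) = 1
        then (s:ℂ)^2 else 0 := by
    rw [← sum_product']
    rw [Finset.card_filter, Nat.cast_sum, sum_mul]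
    refine sum_congr rfl (fun t _ => ?_)
    by_cases h : ((α + M * t.1) * (β + M' * t.2)) % s = 1 % s
    · rw [if_pos h, if_pos ((e1 _ _).mp h), Nat.cast_one, one_mul]
    · rw [if_neg h, if_neg (fun h' => h ((e1 _ _).mpr h')), Nat.cast_zero, zero_mul]
  rw [e2]
  simp_rw [← count_pair]
  have e3 : ∀ h k : ZMod s, Kl s h k * (AP s M α U h * AP s M' β V k) =
      ∑ i ∈ range U, ∑ j ∈ range V, Kl s h k * (ZMod.stdAddChar (-(h * ((α + M * i : ℕ) : ZMod s))) *
        ZMod.stdAddChar (-(k * ((β + M' * j : ℕ) : ZMod s)))) := by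
    intro h k
    unfold AP
    rw [sum_mul_sum, mul_sum]
    refine sum_congr rfl (fun i _ => ?_)
    rw [mul_sum]
  simp_rw [e3]
  calc _ = ∑ i ∈ range U, ∑ h : ZMod s, ∑ j ∈ range V, ∑ k : ZMod s,
      Kl s h k * (ZMod.stdAddChar (-(h * ((α + M * i : ℕ) : ZMod s))) *
        ZMod.stdAddChar (-(k * ((β + M' * j : ℕ) : ZMod s)))) := by
        refine sum_congr rfl (fun i _ => ?_)
        exact sum_comm
    _ = ∑ h : ZMod s, ∑ i ∈ range U, ∑ j ∈ range V, ∑ k : ZMod s,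
      Kl s h k * (ZMod.stdAddChar (-(h * ((α + M * i : ℕ) : ZMod s))) *
        ZMod.stdAddChar (-(k * ((β + M' * j : ℕ) : ZMod s)))) := sum_comm
    _ = ∑ h : ZMod s, ∑ i ∈ range U, ∑ k : ZMod s, ∑ j ∈ range V,
      Kl s h k * (ZMod.stdAddChar (-(h * ((α + M * i : ℕ) : ZMod s))) *
        ZMod.stdAddChar (-(k * ((β + M' * j : ℕ) : ZMod s)))) := by
        refine sum_congr rfl (fun h _ => sum_congr rfl (fun i _ => sum_comm))
    _ = _ := by
        refine sum_congr rfl (fun h _ => sum_comm)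

lemma nz_le_gcd (s : ℕ) [NeZero s] (h : ZMod s) : nz s h ≤ Nat.gcd h.val s := by
  have hs0 : 0 < s := Nat.pos_of_ne_zero (NeZero.ne s)
  set g := Nat.gcd h.val s with hg
  have hg0 : 0 < g := Nat.gcd_pos_of_pos_right _ hs0
  obtain ⟨q, hq⟩ : g ∣ s := Nat.gcd_dvd_right _ _
  have hq0 : 0 < q := by
    rcases Nat.eq_zero_or_pos q with h0 | h0
    · rw [h0, mul_zero] at hq; omega
    · exact h0
  obtain ⟨a, ha⟩ : g ∣ h.val := Nat.gcd_dvd_left _ _
  have hcop : Nat.Coprime q a := by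
    have h1 : Nat.gcd (h.val / g) (s / g) = 1 := Nat.gcd_div_gcd_div_gcd_of_pos_right hs0
    have h2 : h.val / g = a := by rw [ha]; exact Nat.mul_div_cancel_left _ hg0
    have h3 : s / g = q := by
      conv_lhs => rw [hq]
      exact Nat.mul_div_cancel_left _ hg0
    rw [h2, h3] at h1
    exact (Nat.coprime_comm.mp h1)
  have hdvd : ∀ w : ZMod s, h * w = 0 → q ∣ w.val := by
    intro w hw
    have h1 : (s:ℕ) ∣ h.val * w.val := by
      rw [← ZMod.natCast_eq_zero_iff]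
      push_cast
      rw [ZMod.natCast_zmod_val, ZMod.natCast_zmod_val, hw]
    have h2 : g * q ∣ g * (a * w.val) := by
      have : h.val * w.val = g * (a * w.val) := by rw [ha]; ring
      rw [← this, ← hq]; exact h1
    have h3 : q ∣ a * w.val := Nat.dvd_of_mul_dvd_mul_left hg0 h2
    exact hcop.dvd_of_dvd_mul_left h3
  unfold nz
  rw [← Finset.card_range g]
  refine Finset.card_le_card_of_injOn (fun w => w.val / q) ?_ ?_
  · intro w hw
    simp only [coe_filter, mem_univ, true_and, Set.mem_ofPred_eq, coe_range, Set.mem_Iio] at hw ⊢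
    rw [Nat.div_lt_iff_lt_mul hq0, ← hq]
    exact ZMod.val_lt w
  · intro w hw w' hw' hww
    simp only [coe_filter, mem_univ, true_and, Set.mem_ofPred_eq] at hw hw' hww
    obtain ⟨b, hb⟩ := hdvd w hw
    obtain ⟨b', hb'⟩ := hdvd w' hw'
    rw [hb, hb', Nat.mul_div_cancel_left _ hq0, Nat.mul_div_cancel_left _ hq0] at hww
    exact ZMod.val_injective s (by rw [hb, hb', hww])

lemma nz_neg (s : ℕ) [NeZero s] (h : ZMod s) : nz s (-h) = nz s h := by
  unfold nz
  congr 1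
  ext w
  simp

lemma nz_mul (s : ℕ) [NeZero s] (M : ℕ) (hM : Nat.Coprime M s) (h : ZMod s) :
    nz s (h * (M : ZMod s)) = nz s h := by
  unfold nz
  congr 1
  ext w
  simp only [mem_filter, mem_univ, true_and]
  have hu : IsUnit (M : ZMod s) := (ZMod.isUnit_iff_coprime M s).mpr hM
  have e : h * (M : ZMod s) * w = (M : ZMod s) * (h * w) := by ring
  rw [e, hu.mul_right_eq_zero]

/-- the gcd sum -/
lemma sum_gcd_le (s : ℕ) [NeZero s] :
    ∑ h ∈ (univ : Finset (ZMod s)).erase 0, (nz s h : ℝ) / h.val ≤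
      s.divisors.card * (1 + Real.log s) := by
  have hs0 : 0 < s := Nat.pos_of_ne_zero (NeZero.ne s)
  set φ : ZMod s → ℕ × ℕ := fun h => (Nat.gcd h.val s, h.val / Nat.gcd h.val s) with hφ
  have hval : ∀ h ∈ (univ : Finset (ZMod s)).erase 0, 0 < h.val := by
    intro h hh
    rw [mem_erase] at hh
    exact Nat.pos_of_ne_zero (fun h0 => hh.1 ((ZMod.val_eq_zero h).mp h0))
  have hgp : ∀ h : ZMod s, 0 < Nat.gcd h.val s := fun h => Nat.gcd_pos_of_pos_right _ hs0
  have h1 : ∑ h ∈ (univ : Finset (ZMod s)).erase 0, (nz s h : ℝ) / h.val ≤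
      ∑ h ∈ (univ : Finset (ZMod s)).erase 0, 1 / ((φ h).2 : ℝ) := by
    refine sum_le_sum (fun h hh => ?_)
    have hv := hval h hh
    have hvR : (0:ℝ) < h.val := by exact_mod_cast hv
    have hgR : (0:ℝ) < Nat.gcd h.val s := by exact_mod_cast hgp h
    have hnz : (nz s h : ℝ) ≤ Nat.gcd h.val s := by exact_mod_cast nz_le_gcd s h
    have hdiv : Nat.gcd h.val s ∣ h.val := Nat.gcd_dvd_left _ _
    have e1 : ((φ h).2 : ℝ) = (h.val : ℝ) / Nat.gcd h.val s := by
      simp only [hφ]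
      rw [Nat.cast_div hdiv hgR.ne']
    rw [e1, one_div_div]
    gcongr
  refine h1.trans ?_
  have hinj : Set.InjOn φ ((univ : Finset (ZMod s)).erase 0) := by
    intro h _ h' _ hh
    simp only [hφ, Prod.mk.injEq] at hh
    have e1 := Nat.div_mul_cancel (Nat.gcd_dvd_left h.val s)
    have e2 := Nat.div_mul_cancel (Nat.gcd_dvd_left h'.val s)
    rw [hh.2, hh.1, e2] at e1
    exact ZMod.val_injective s e1.symm
  rw [← Finset.sum_image (f := fun p : ℕ × ℕ => 1 / ((p.2 : ℕ) : ℝ)) hinj]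
  have hsub : ((univ : Finset (ZMod s)).erase 0).image φ ⊆ s.divisors ×ˢ Icc 1 s := by
    intro p hp
    rw [mem_image] at hp
    obtain ⟨h, hh, rfl⟩ := hp
    have hv := hval h hh
    rw [mem_product, Nat.mem_divisors, mem_Icc]
    refine ⟨⟨Nat.gcd_dvd_right _ _, hs0.ne'⟩, ?_, ?_⟩
    · exact Nat.div_pos (Nat.le_of_dvd hv (Nat.gcd_dvd_left _ _)) (hgp h)
    · exact (Nat.div_le_self _ _).trans (ZMod.val_lt h).le
  refine (sum_le_sum_of_subset_of_nonneg hsub (fun _ _ _ => by positivity)).trans ?_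
  rw [sum_product]
  simp only
  rw [sum_const, nsmul_eq_mul]
  refine mul_le_mul_of_nonneg_left ?_ (by positivity)
  have := harmonic_le_one_add_log s
  rw [harmonic_eq_sum_Icc] at this
  push_cast at this
  simpa [one_div] using this

/-- the sum over the nonzero frequencies -/
lemma sum_dist_le (s : ℕ) [NeZero s] :
    ∑ h ∈ (univ : Finset (ZMod s)).erase 0, (nz s h : ℝ) * (s / (2 * (h.valMinAbs.natAbs : ℝ))) ≤
      s * (s.divisors.card * (1 + Real.log s)) := by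
  have hs0 : 0 < s := Nat.pos_of_ne_zero (NeZero.ne s)
  have hsR : (0:ℝ) < s := by exact_mod_cast hs0
  have hval : ∀ h ∈ (univ : Finset (ZMod s)).erase 0, 0 < h.val := by
    intro h hh
    rw [mem_erase] at hh
    exact Nat.pos_of_ne_zero (fun h0 => hh.1 ((ZMod.val_eq_zero h).mp h0))
  have hneg : ∀ h ∈ (univ : Finset (ZMod s)).erase 0, -h ∈ (univ : Finset (ZMod s)).erase 0 := by
    intro h hh
    rw [mem_erase] at hh ⊢
    exact ⟨neg_ne_zero.mpr hh.1, mem_univ _⟩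
  have h1 : ∀ h ∈ (univ : Finset (ZMod s)).erase 0,
      (nz s h : ℝ) * (s / (2 * (h.valMinAbs.natAbs : ℝ))) ≤
        s / 2 * ((nz s h : ℝ) / h.val) + s / 2 * ((nz s (-h) : ℝ) / (-h).val) := by
    intro h hh
    have hv := hval h hh
    have hv' := hval (-h) (hneg h hh)
    have hvR : (0:ℝ) < h.val := by exact_mod_cast hv
    have hvR' : (0:ℝ) < (-h).val := by exact_mod_cast hv'
    rw [nz_neg]
    have hcase : h.valMinAbs.natAbs = h.val ∨ h.valMinAbs.natAbs = (-h).val := by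
      have h0 : h ≠ 0 := (mem_erase.mp hh).1
      rw [ZMod.valMinAbs_def_pos]
      split_ifs with hc
      · left
        exact Int.natAbs_natCast _
      · right
        have : NeZero h := ⟨h0⟩
        rw [ZMod.val_neg_of_ne_zero]
        have := ZMod.val_lt h
        omega
    rcases hcase with hc | hc
    · rw [hc]
      have : (nz s h : ℝ) * (s / (2 * (h.val : ℝ))) = s / 2 * ((nz s h : ℝ) / h.val) := by
        field_simp
      rw [this]
      have : 0 ≤ s / 2 * ((nz s h : ℝ) / (-h).val) := by positivity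
      linarith
    · rw [hc]
      have : (nz s h : ℝ) * (s / (2 * ((-h).val : ℝ))) = s / 2 * ((nz s h : ℝ) / (-h).val) := by
        field_simp
      rw [this]
      have : 0 ≤ s / 2 * ((nz s h : ℝ) / h.val) := by positivity
      linarith
  refine (sum_le_sum h1).trans ?_
  rw [sum_add_distrib, ← mul_sum, ← mul_sum]
  have h2 : ∑ h ∈ (univ : Finset (ZMod s)).erase 0, (nz s (-h) : ℝ) / (-h).val =
      ∑ h ∈ (univ : Finset (ZMod s)).erase 0, (nz s h : ℝ) / h.val := by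
    refine Finset.sum_bij (fun h _ => -h) hneg ?_ ?_ ?_
    · intro a _ b _ hab
      exact neg_injective hab
    · intro b hb
      exact ⟨-b, hneg b hb, neg_neg b⟩
    · intro a _
      rfl
  rw [h2]
  have h3 := sum_gcd_le s
  nlinarith

/-- the weighted sum of the exponential sums over the nonzero frequencies -/
lemma sum_AP_le (s : ℕ) [NeZero s] (M α U : ℕ) (hM : Nat.Coprime M s) :
    ∑ h ∈ (univ : Finset (ZMod s)).erase 0, (nz s h : ℝ) * ‖AP s M α U h‖ ≤
      s * (s.divisors.card * (1 + Real.log s)) := by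
  have hu : IsUnit (M : ZMod s) := (ZMod.isUnit_iff_coprime M s).mpr hM
  have hmem : ∀ h ∈ (univ : Finset (ZMod s)).erase 0, h * (M : ZMod s) ∈ (univ : Finset (ZMod s)).erase 0 := by
    intro h hh
    rw [mem_erase] at hh ⊢
    refine ⟨?_, mem_univ _⟩
    rw [Ne, hu.mul_left_eq_zero]
    exact hh.1
  have hre : ∑ h ∈ (univ : Finset (ZMod s)).erase 0, (nz s (h * (M : ZMod s)) : ℝ) *
      (s / (2 * ((h * (M : ZMod s)).valMinAbs.natAbs : ℝ))) =
      ∑ h ∈ (univ : Finset (ZMod s)).erase 0, (nz s h : ℝ) * (s / (2 * (h.valMinAbs.natAbs : ℝ))) := by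
    refine Finset.sum_bij (fun h _ => h * (M : ZMod s)) hmem ?_ ?_ ?_
    · intro a _ b _ hab
      exact hu.mul_left_injective hab
    · intro b hb
      obtain ⟨u, hu'⟩ := hu
      refine ⟨b * ((u⁻¹ : (ZMod s)ˣ) : ZMod s), ?_, ?_⟩
      · rw [mem_erase] at hb ⊢
        refine ⟨?_, mem_univ _⟩
        rw [Ne, Units.mul_left_eq_zero]
        exact hb.1
      · rw [← hu', mul_assoc, Units.inv_mul, mul_one]
    · intro a _
      rfl
  refine le_trans ?_ (sum_dist_le s)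
  rw [← hre]
  refine sum_le_sum (fun h hh => ?_)
  rw [nz_mul s M hM]
  refine mul_le_mul_of_nonneg_left ?_ (by positivity)
  exact AP_le s M α U h (mem_erase.mp (hmem h hh)).1

lemma norm_AP_le (s : ℕ) [NeZero s] (M α U : ℕ) (h : ZMod s) : ‖AP s M α U h‖ ≤ U := by
  unfold AP
  refine (norm_sum_le _ _).trans ?_
  simp_rw [norm_char]
  simp

lemma Kl_zero (s : ℕ) [NeZero s] : Kl s 0 0 = s.totient := by
  unfold Kl
  simp

/-- the main inequality with explicit constants -/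
lemma equid_aux (s : ℕ) [NeZero s] (hs : Squarefree s) (M M' α β U V : ℕ)
    (hM : Nat.Coprime M s) (hM' : Nat.Coprime M' s) :
    |((((range U) ×ˢ (range V)).filter
        (fun t => ((α + M * t.1) * (β + M' * t.2)) % s = 1 % s)).card : ℝ) -
      U * V * s.totient / (s:ℝ)^2| ≤
      ((s:ℝ) * s.divisors.card) ^ ((3:ℝ)/4) * (s.divisors.card * (1 + Real.log s)) ^ 2 *
        (1 + U / s) * (1 + V / s) := by
  have hs0 : 0 < s := Nat.pos_of_ne_zero (NeZero.ne s)
  have hsR : (0:ℝ) < s := by exact_mod_cast hs0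
  have hτ : (1:ℝ) ≤ s.divisors.card := by
    exact_mod_cast Finset.card_pos.mpr ⟨1, Nat.one_mem_divisors.mpr hs0.ne'⟩
  have hlog : 0 ≤ Real.log s := Real.log_natCast_nonneg s
  set Y : ℝ := ((s:ℝ) * s.divisors.card) ^ ((3:ℝ)/4) with hY
  set T : ℝ := s.divisors.card * (1 + Real.log s) with hT
  have hY0 : 0 ≤ Y := by positivity
  have hT1 : 1 ≤ T := by
    rw [hT]
    nlinarith
  set N : ℕ := (((range U) ×ˢ (range V)).filter
        (fun t => ((α + M * t.1) * (β + M' * t.2)) % s = 1 % s)).card with hN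
  have hcount := count_eq s M M' α β U V
  rw [← hN] at hcount
  set E : Finset (ZMod s) := (univ : Finset (ZMod s)).erase 0 with hE
  have hsplit : ∀ F : ZMod s → ℂ, ∑ h : ZMod s, F h = F 0 + ∑ h ∈ E, F h := by
    intro F
    rw [hE, Finset.add_sum_erase _ _ (mem_univ _)]
  -- split the sum
  have hsum : (N : ℂ) * (s:ℂ)^2 = s.totient * (U * V) +
      ∑ k ∈ E, Kl s 0 k * (U * AP s M' β V k) +
      ∑ h ∈ E, ∑ k : ZMod s, Kl s h k * (AP s M α U h * AP s M' β V k) := by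
    rw [hcount, hsplit (fun h => ∑ k : ZMod s, Kl s h k * (AP s M α U h * AP s M' β V k)),
      hsplit (fun k => Kl s 0 k * (AP s M α U 0 * AP s M' β V k)), Kl_zero, AP_zero, AP_zero]
  have hA := sum_AP_le s M α U hM
  have hB := sum_AP_le s M' β V hM'
  rw [← hT] at hA hB
  have hKh : ∀ h k : ZMod s, ‖Kl s h k‖ ≤ nz s h * Y := fun h k => Kl_le' s hs h k
  have hKk : ∀ h k : ZMod s, ‖Kl s h k‖ ≤ nz s k * Y := fun h k => by
    rw [Kl_symm]; exact Kl_le' s hs k h
  have hb1 : ‖∑ k ∈ E, Kl s 0 k * (U * AP s M' β V k)‖ ≤ U * Y * (s * T) := by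
    calc ‖∑ k ∈ E, Kl s 0 k * (U * AP s M' β V k)‖ ≤ ∑ k ∈ E, ‖Kl s 0 k * (U * AP s M' β V k)‖ :=
          norm_sum_le _ _
      _ ≤ ∑ k ∈ E, U * Y * (nz s k * ‖AP s M' β V k‖) := by
          refine sum_le_sum (fun k _ => ?_)
          rw [norm_mul, norm_mul, Complex.norm_natCast]
          calc ‖Kl s 0 k‖ * (U * ‖AP s M' β V k‖) ≤ (nz s k * Y) * (U * ‖AP s M' β V k‖) := by
                gcongr
                exact hKk 0 k
            _ = _ := by ring
      _ = U * Y * ∑ k ∈ E, (nz s k * ‖AP s M' β V k‖) := by rw [mul_sum]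
      _ ≤ _ := by gcongr
  have hVsum : ∑ k : ZMod s, ‖AP s M' β V k‖ ≤ V + s * T := by
    have h1 : ∑ k : ZMod s, ‖AP s M' β V k‖ = ‖AP s M' β V 0‖ + ∑ k ∈ E, ‖AP s M' β V k‖ := by
      rw [hE]
      exact (Finset.add_sum_erase _ (fun k => ‖AP s M' β V k‖) (mem_univ (0 : ZMod s))).symm
    rw [h1, AP_zero, Complex.norm_natCast]
    have h2 : ∑ k ∈ E, ‖AP s M' β V k‖ ≤ ∑ k ∈ E, (nz s k * ‖AP s M' β V k‖) := by
      refine sum_le_sum (fun k _ => ?_)
      have : (1:ℝ) ≤ nz s k := by exact_mod_cast nz_pos s k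
      nlinarith [norm_nonneg (AP s M' β V k)]
    linarith
  have hb2 : ‖∑ h ∈ E, ∑ k : ZMod s, Kl s h k * (AP s M α U h * AP s M' β V k)‖ ≤
      Y * (s * T) * (V + s * T) := by
    calc _ ≤ ∑ h ∈ E, ∑ k : ZMod s, ‖Kl s h k * (AP s M α U h * AP s M' β V k)‖ := by
          refine (norm_sum_le _ _).trans (sum_le_sum (fun h _ => norm_sum_le _ _))
      _ ≤ ∑ h ∈ E, ∑ k : ZMod s, Y * (nz s h * ‖AP s M α U h‖) * ‖AP s M' β V k‖ := by
          refine sum_le_sum (fun h _ => sum_le_sum (fun k _ => ?_))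
          rw [norm_mul, norm_mul]
          calc ‖Kl s h k‖ * (‖AP s M α U h‖ * ‖AP s M' β V k‖) ≤
              (nz s h * Y) * (‖AP s M α U h‖ * ‖AP s M' β V k‖) := by
                gcongr
                exact hKh h k
            _ = _ := by ring
      _ = Y * (∑ h ∈ E, (nz s h * ‖AP s M α U h‖)) * ∑ k : ZMod s, ‖AP s M' β V k‖ := by
          rw [mul_assoc, sum_mul_sum, mul_sum]
          refine sum_congr rfl (fun h _ => ?_)
          rw [mul_sum]
          refine sum_congr rfl (fun k _ => ?_)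
          ring
      _ ≤ Y * (s * T) * (V + s * T) := by
          gcongr
  -- conclude
  have hmain : ((((N : ℝ) - U * V * s.totient / (s:ℝ)^2) : ℝ) : ℂ) * (s:ℂ)^2 =
      ∑ k ∈ E, Kl s 0 k * (U * AP s M' β V k) +
      ∑ h ∈ E, ∑ k : ZMod s, Kl s h k * (AP s M α U h * AP s M' β V k) := by
    have hsC : (s:ℂ) ≠ 0 := by exact_mod_cast hs0.ne'
    push_cast
    rw [sub_mul, hsum]
    field_simp
    ring
  have hnorm : |(N : ℝ) - U * V * s.totient / (s:ℝ)^2| * (s:ℝ)^2 ≤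
      U * Y * (s * T) + Y * (s * T) * (V + s * T) := by
    have h1 := congrArg norm hmain
    rw [norm_mul, Complex.norm_real, Real.norm_eq_abs, norm_pow, Complex.norm_natCast] at h1
    rw [h1]
    exact (norm_add_le _ _).trans (add_le_add hb1 hb2)
  have hfin : U * Y * (s * T) + Y * (s * T) * (V + s * T) ≤
      (Y * T ^ 2 * (1 + U / s) * (1 + V / s)) * (s:ℝ)^2 := by
    have e1 : (Y * T ^ 2 * (1 + U / s) * (1 + V / s)) * (s:ℝ)^2 = Y * T^2 * (s + U) * (s + V) := by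
      field_simp
    rw [e1]
    have hTT : T ≤ T^2 := by nlinarith
    have hU0 : (0:ℝ) ≤ U := Nat.cast_nonneg U
    have hV0 : (0:ℝ) ≤ V := Nat.cast_nonneg V
    calc U * Y * (s * T) + Y * (s * T) * (V + s * T) =
        Y * (T * (s * U + s * V) + T^2 * s^2) := by ring
      _ ≤ Y * (T^2 * (s * U + s * V) + T^2 * s^2) := by gcongr
      _ ≤ Y * (T^2 * (s * U + s * V) + T^2 * s^2 + T^2 * (U * V)) := by
          refine mul_le_mul_of_nonneg_left ?_ hY0
          have : 0 ≤ T^2 * ((U:ℝ) * V) := by positivity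
          linarith
      _ = Y * T^2 * (s + U) * (s + V) := by ring
  exact le_of_mul_le_mul_right (hnorm.trans hfin) (by positivity)

/-- KS3: equidistribution of the modular hyperbola in boxes. -/
theorem equid : ∃ C : ℝ, 0 < C ∧ ∀ s M M' α β U V : ℕ, 0 < s → Squarefree s →
    Nat.Coprime M s → Nat.Coprime M' s →
    |((((range U) ×ˢ (range V)).filter
        (fun t => ((α + M * t.1) * (β + M' * t.2)) % s = 1 % s)).card : ℝ) -
      U * V * s.totient / (s:ℝ)^2| ≤ C * (s:ℝ)^((7:ℝ)/8) * (1 + U / s) * (1 + V / s) := by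
  obtain ⟨C1, hC1, hdiv⟩ := Pool.Agent.H41.Eis.divisor_bound (1/44) (by norm_num)
  refine ⟨C1 ^ ((11:ℝ)/4) * 33 ^ 2, by positivity, ?_⟩
  intro s M M' α β U V hs hsq hM hM'
  have : NeZero s := ⟨hs.ne'⟩
  refine (equid_aux s hsq M M' α β U V hM hM').trans ?_
  have hsR : (1:ℝ) ≤ s := by exact_mod_cast hs
  have hs0 : (0:ℝ) < s := by linarith
  have hlog0 : 0 ≤ Real.log s := Real.log_natCast_nonneg s
  have hτ := hdiv s hs
  have hlog : 1 + Real.log s ≤ 33 * (s:ℝ) ^ ((1:ℝ)/32) := by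
    have h1 : Real.log s ≤ (s:ℝ) ^ ((1:ℝ)/32) / ((1:ℝ)/32) := Real.log_le_rpow_div hs0.le (by norm_num)
    have h2 : (1:ℝ) ≤ (s:ℝ) ^ ((1:ℝ)/32) := Real.one_le_rpow hsR (by norm_num)
    have h3 : (s:ℝ) ^ ((1:ℝ)/32) / ((1:ℝ)/32) = 32 * (s:ℝ) ^ ((1:ℝ)/32) := by ring
    linarith
  have hkey : ((s:ℝ) * s.divisors.card) ^ ((3:ℝ)/4) * (s.divisors.card * (1 + Real.log s)) ^ 2 ≤
      C1 ^ ((11:ℝ)/4) * 33 ^ 2 * (s:ℝ) ^ ((7:ℝ)/8) := by
    have hτ0 : (0:ℝ) ≤ s.divisors.card := Nat.cast_nonneg _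
    calc ((s:ℝ) * s.divisors.card) ^ ((3:ℝ)/4) * (s.divisors.card * (1 + Real.log s)) ^ 2
        ≤ ((s:ℝ) * (C1 * (s:ℝ) ^ ((1:ℝ)/44))) ^ ((3:ℝ)/4) *
          ((C1 * (s:ℝ) ^ ((1:ℝ)/44)) * (33 * (s:ℝ) ^ ((1:ℝ)/32))) ^ 2 := by
          gcongr
      _ = C1 ^ ((11:ℝ)/4) * 33 ^ 2 * (s:ℝ) ^ ((7:ℝ)/8) := by
          have e1 : ((s:ℝ) * (C1 * (s:ℝ) ^ ((1:ℝ)/44))) = C1 * (s:ℝ) ^ ((45:ℝ)/44) := by
            have : (s:ℝ) ^ ((45:ℝ)/44) = s * (s:ℝ) ^ ((1:ℝ)/44) := by
              rw [← Real.rpow_one_add' hs0.le (by norm_num)]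
              norm_num
            rw [this]; ring
          have e2 : (C1 * (s:ℝ) ^ ((1:ℝ)/44)) * (33 * (s:ℝ) ^ ((1:ℝ)/32)) =
              (C1 * 33) * (s:ℝ) ^ ((19:ℝ)/352) := by
            have : (s:ℝ) ^ ((19:ℝ)/352) = (s:ℝ) ^ ((1:ℝ)/44) * (s:ℝ) ^ ((1:ℝ)/32) := by
              rw [← Real.rpow_add hs0]
              norm_num
            rw [this]; ring
          rw [e1, e2, Real.mul_rpow (by positivity) (by positivity), ← Real.rpow_mul hs0.le, mul_pow,
            ← Real.rpow_natCast ((s:ℝ) ^ ((19:ℝ)/352)) 2, ← Real.rpow_mul hs0.le, mul_pow]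
          have e3 : C1 ^ ((11:ℝ)/4) = C1 ^ ((3:ℝ)/4) * C1 ^ 2 := by
            rw [← Real.rpow_natCast C1 2, ← Real.rpow_add (by linarith)]
            norm_num
          have e4 : (s:ℝ) ^ ((7:ℝ)/8) = (s:ℝ) ^ ((45:ℝ)/44 * (3/4)) * (s:ℝ) ^ ((19:ℝ)/352 * (2:ℕ)) := by
            rw [← Real.rpow_add hs0]
            norm_num
          rw [e3, e4]
          ring
  gcongr

end Pool.Agent.H24.KS
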