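import Mathlib
import Pool.Agent.H24.KS.Df2

/-!
The `t`-sieve for fixed `(a,z)` in terms of `Bz`.
-/

namespace Pool.Agent.H24.KS

open Finset Classical
open Pool.Agent.H95.Gol


/-- a condition which is invariant under the shift by `q^2` depends on the residue only -/
lemma fz4_per (a y q b x : ℕ) (Cd : ℕ → ℕ → Prop)
    (h : ∀ b x, Cd b x ↔ Cd (b + a * q^2) (x + y * q^2)) (j : ℕ) :
    Cd (b + a * j) (x + y * j) ↔ Cd (b + a * (j % q^2)) (x + y * (j % q^2)) := by
  have key : ∀ m r : ℕ, Cd (b + a * r) (x + y * r) ↔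
      Cd (b + a * (r + q^2 * m)) (x + y * (r + q^2 * m)) := by
    intro m r
    induction m with
    | zero => simp
    | succ m ih =>
      rw [ih, h]
      have e1 : b + a * (r + q^2 * m) + a * q^2 = b + a * (r + q^2 * (m+1)) := by ring
      have e2 : x + y * (r + q^2 * m) + y * q^2 = x + y * (r + q^2 * (m+1)) := by ring
      rw [e1, e2]
  have h1 := key (j / q^2) (j % q^2)
  rw [Nat.mod_add_div] at h1
  exact h1.symm

/-- the base solution -/
lemma fz4_base (a y : ℕ) (ha : 2 ≤ a) (hc : Nat.Coprime a y) :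
    ∃ b0 x0, b0 < a ∧ a * x0 = b0 * y + 1 := by
  obtain ⟨m, hm1, hm2⟩ := Nat.exists_mul_mod_eq_one_of_coprime hc.symm (by omega)
  -- y * m % a = 1
  refine ⟨(a - m % a) % a, ?_⟩
  have h0 : 0 < a := by omega
  have hlt : (a - m % a) % a < a := Nat.mod_lt _ h0
  have hm : m % a < a := Nat.mod_lt _ h0
  have hdvd : a ∣ ((a - m % a) % a) * y + 1 := by
    have e1 : (((a - m % a) % a) * y + 1) % a = ((a - m % a) * y + 1) % a := by
      rw [Nat.add_mod, Nat.mod_mul_mod, ← Nat.add_mod]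
    rw [Nat.dvd_iff_mod_eq_zero, e1, ← Nat.dvd_iff_mod_eq_zero]
    have e2 : (a - m % a) * y + (m % a) * y = a * y := by
      rw [← add_mul, Nat.sub_add_cancel hm.le]
    have e3 : ((m % a) * y) % a = 1 := by
      rw [Nat.mod_mul_mod, mul_comm]
      exact hm2
    have e4 : (m % a) * y = a * (((m % a) * y) / a) + 1 := by
      have := Nat.div_add_mod ((m % a) * y) a
      rw [e3] at this
      exact this.symm
    have e5 : a ∣ (a - m % a) * y + 1 + a * (((m % a) * y) / a) := by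
      have : (a - m % a) * y + 1 + a * (((m % a) * y) / a) = a * y := by omega
      rw [this]
      exact Dvd.intro _ rfl
    exact (Nat.dvd_add_left (Dvd.intro _ rfl)).mp e5
  obtain ⟨x0, hx0⟩ := hdvd
  exact ⟨x0, hlt, hx0.symm⟩

/-- the `t`-sieve for fixed `(a,z)`: write `b = b0 + a t`, `x = x0 + (a-z) t`, `t < J = X/a^2+1`
(`J ≥ (∏ q^2) (bb K)^34`), apply `FZ` with `P` = the primes of `W (kk K) K` not in `D` and not
dividing `a (a-z) z`; the missing primes have reciprocal sum `≤ 1` by `few_primes` -/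
theorem fz4 : ∃ C : ℝ, 0 < C ∧ ∀ (K X a z : ℕ) (D : Finset ℕ) (A B : ℕ → Prop)
    (Cd : ℕ → ℕ → ℕ → Prop) (g : ℕ → ℝ), 2000 ≤ K → bb (K+6) ≤ X → 2 ≤ a → a < bb K →
    0 < z → z < a → Nat.Coprime a z → (∀ q ∈ D, q.Prime) → ∏ q ∈ D, q ≤ (bb K)^5 →
    (∀ q ∈ D, 0 ≤ g q) →
    (∀ q ∈ D, ∀ b x, Cd q b x ↔ Cd q (b + a * q^2) (x + (a - z) * q^2)) →
    (∀ q ∈ D, ∀ b x, a * x = b * (a - z) + 1 →
      (((range (q^2)).filter (fun t => Cd q (b + a * t) (x + (a - z) * t))).card : ℝ) ≤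
        g q * q^2) →
    (Bz X a z (fun b x => (∀ q ∈ D, Cd q b x) ∧ EvS K a z D A B b x) : ℝ) ≤
      C * (X / a^2) * (∏ q ∈ D, g q) *
        Real.exp (- ∑ l ∈ W (kk K) K, (chi (A l) + chi (B l)) / l) := by
  obtain ⟨C, hC, hFZ⟩ := FZ
  refine ⟨C * 2 * Real.exp 2, by positivity, ?_⟩
  intro K X a z D A B Cd g hK hX ha haK hz hza hcop hD hDle hg hper hcount
  have hkK : kk K ≤ K := by have := kk_lt K hK; omega
  obtain ⟨y, hy⟩ : ∃ y, y = a - z := ⟨_, rfl⟩
  rw [← hy] at hper hcount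
  have hyz : y + z = a := by omega
  have hy0 : 0 < y := by omega
  have hcay : Nat.Coprime a y := by
    rw [← hyz, Nat.coprime_comm, Nat.coprime_self_add_right]
    rw [← hyz, Nat.coprime_add_self_left] at hcop
    exact hcop
  obtain ⟨b0, x0, hb0, hx0⟩ := fz4_base a y ha hcay
  set J : ℕ := X / a^2 + 1 with hJ
  set P : Finset ℕ := (W (kk K) K).filter (fun l => l ∉ D ∧ ¬ l ∣ a * y * z) with hP
  set v0 : ℕ := a * b0 + 1 with hv0
  have hbpos : 0 < bb K := bb_pos K
  have ha2 : 0 < a^2 := by positivity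
  -- size of `J`
  have hb64 : bb (K+6) = (bb K)^64 := by
    rw [bb_add]
    norm_num
  have hXa : (bb K)^62 ≤ X / a^2 := by
    rw [Nat.le_div_iff_mul_le ha2]
    calc (bb K)^62 * a^2 ≤ (bb K)^62 * (bb K)^2 :=
          Nat.mul_le_mul_left _ (Nat.pow_le_pow_left haK.le 2)
      _ = (bb K)^64 := by rw [← pow_add]
      _ = bb (K+6) := hb64.symm
      _ ≤ X := hX
  have hJX : X / a^2 ≤ J := by rw [hJ]; exact Nat.le_succ _
  have hXJ : (bb K)^62 ≤ J := le_trans hXa hJX
  have hJ1 : (∏ q ∈ D, q^2) * (bb K)^34 ≤ J := by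
    rw [Finset.prod_pow]
    calc (∏ q ∈ D, q)^2 * (bb K)^34 ≤ ((bb K)^5)^2 * (bb K)^34 :=
          Nat.mul_le_mul_right _ (Nat.pow_le_pow_left hDle 2)
      _ = (bb K)^44 := by rw [← pow_mul, ← pow_add]
      _ ≤ (bb K)^62 := Nat.pow_le_pow_right hbpos (by norm_num)
      _ ≤ J := hXJ
  have hid : y * v0 + z = a^2 * x0 := by
    have : a^2 * x0 = a * (a * x0) := by ring
    rw [this, hx0, hv0]
    calc y * (a * b0 + 1) + z = a * (b0 * y) + (y + z) := by ring
      _ = a * (b0 * y + 1) := by rw [hyz]; ring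
  have hW : ∀ l ∈ W (kk K) K, l.Prime ∧ bb (kk K) < l ∧ l ≤ bb K := fun l hl =>
    ⟨prime_of_mem_W hl, lt_of_mem_W hl, le_of_mem_W hl⟩
  have h2 : 2 ≤ bb (kk K) := two_le_bb _
  have hDP : Disjoint D P := by
    rw [Finset.disjoint_left]
    intro l hl hl'
    rw [hP, mem_filter] at hl'
    exact hl'.2.1 hl
  have hPp : ∀ p ∈ P, p.Prime ∧ 2 < p ∧ p ≤ bb K ∧ ¬ p ∣ a ∧ ¬ p ∣ y ∧ ¬ p ∣ z := by
    intro p hp
    rw [hP, mem_filter] at hp
    obtain ⟨h3, h4, h5⟩ := hp
    obtain ⟨h6, h7, h8⟩ := hW p h3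
    refine ⟨h6, by omega, h8, fun h => h5 ?_, fun h => h5 ?_, fun h => h5 ?_⟩
    · exact Dvd.dvd.mul_right (Dvd.dvd.mul_right h _) _
    · exact Dvd.dvd.mul_right (Dvd.dvd.mul_left h _) _
    · exact Dvd.dvd.mul_left h _
  have hmain := hFZ a y z x0 v0 K J D P A B (fun q t => Cd q (b0 + a * t) (x0 + y * t)) hid hJ1 hD
    hDP hPp (fun q hq j => fz4_per a y q b0 x0 (Cd q) (hper q hq) j)
  -- the count
  have hcnt : Bz X a z (fun b x => (∀ q ∈ D, Cd q b x) ∧ EvS K a z D A B b x) ≤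
      ((range J).filter (fun t => (∀ q ∈ D, Cd q (b0 + a * t) (x0 + y * t)) ∧
        ∀ p ∈ P, ¬ Et a y x0 v0 A B p t)).card := by
    unfold Bz
    have hsub : (range X).filter (fun b => ∃ x, a * x = b * (a - z) + 1 ∧ a * b < X ∧
        ((∀ q ∈ D, Cd q b x) ∧ EvS K a z D A B b x)) ⊆
        ((range J).filter (fun t => (∀ q ∈ D, Cd q (b0 + a * t) (x0 + y * t)) ∧
        ∀ p ∈ P, ¬ Et a y x0 v0 A B p t)).image (fun t => b0 + a * t) := by
      intro b hb
      rw [mem_filter] at hb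
      obtain ⟨_, x, h3, h4, h5, h6⟩ := hb
      rw [← hy] at h3
      -- `b = b0 mod a`
      have h7 : (b : ℤ) * y ≡ b0 * y [ZMOD a] := by
        have e1 : ((b : ℤ) * y + 1) = a * x := by exact_mod_cast h3.symm
        have e2 : ((b0 : ℤ) * y + 1) = a * x0 := by exact_mod_cast hx0.symm
        rw [Int.modEq_iff_dvd]
        exact ⟨x0 - x, by linear_combination e2 - e1⟩
      have h8 : (b : ℤ) ≡ b0 [ZMOD a] := by
        have hg : IsCoprime (a : ℤ) (y : ℤ) := Nat.isCoprime_iff_coprime.mpr hcay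
        rw [Int.modEq_iff_dvd] at h7 ⊢
        have : ((b0 : ℤ) * y - b * y) = (b0 - b) * y := by ring
        rw [this] at h7
        exact hg.dvd_of_dvd_mul_right h7
      have h9 : b ≡ b0 [MOD a] := by exact_mod_cast h8
      have h10 : b % a = b0 := by
        rw [h9, Nat.mod_eq_of_lt hb0]
      have h11 : b = b0 + a * (b / a) := by
        have := Nat.mod_add_div b a
        rw [h10] at this
        exact this.symm
      have h12 : x = x0 + y * (b / a) := by
        have e3 : a * x = a * (x0 + y * (b / a)) := by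
          rw [h3, mul_add, hx0]
          conv_lhs => rw [h11]
          ring
        exact Nat.eq_of_mul_eq_mul_left (by omega) e3
      rw [mem_image]
      refine ⟨b / a, ?_, h11.symm⟩
      rw [mem_filter, mem_range, ← h11, ← h12]
      refine ⟨?_, h5, ?_⟩
      · have e4 : a^2 * (b / a) < X := by
          calc a^2 * (b / a) = a * (a * (b / a)) := by ring
            _ ≤ a * b := Nat.mul_le_mul_left _ (Nat.mul_div_le b a)
            _ < X := h4
        have e5 : b / a ≤ X / a^2 := by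
          rw [Nat.le_div_iff_mul_le ha2, mul_comm]
          exact e4.le
        omega
      · intro p hp
        rw [hP, mem_filter] at hp
        obtain ⟨h13, h14, h15⟩ := hp
        have h16 := h6 p h13 h14 (by rw [← hy]; exact h15)
        unfold Et
        rw [← h12]
        have e6 : v0 + a^2 * (b / a) = a * b + 1 := by
          rw [hv0]
          conv_rhs => rw [h11]
          ring
        rw [e6]
        rintro (h17 | h17)
        · exact h16.1 h17
        · exact h16.2 h17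
    exact (card_le_card hsub).trans card_image_le
  have hcntR : (Bz X a z (fun b x => (∀ q ∈ D, Cd q b x) ∧ EvS K a z D A B b x) : ℝ) ≤
      (((range J).filter (fun t => (∀ q ∈ D, Cd q (b0 + a * t) (x0 + y * t)) ∧
        ∀ p ∈ P, ¬ Et a y x0 v0 A B p t)).card : ℝ) := by exact_mod_cast hcnt
  -- the local factors
  have hprod : (∏ q ∈ D, (((range (q^2)).filter
      (fun t => Cd q (b0 + a * t) (x0 + y * t))).card : ℝ) / q^2) ≤ ∏ q ∈ D, g q := by
    refine prod_le_prod (fun q _ => div_nonneg (Nat.cast_nonneg _) (sq_nonneg _)) fun q hq => ?_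
    have hq0 : (0:ℝ) < (q:ℝ)^2 := by
      have : (0:ℝ) < q := by exact_mod_cast (hD q hq).pos
      positivity
    rw [div_le_iff₀ hq0]
    exact hcount q hq b0 x0 hx0
  have hprod0 : 0 ≤ ∏ q ∈ D, g q := prod_nonneg hg
  -- the missing primes
  have hmiss : ∑ l ∈ (W (kk K) K).filter (fun l => ¬ (l ∉ D ∧ ¬ l ∣ a * y * z)), (1:ℝ) / l ≤ 1 := by
    have hDpos : 0 < ∏ q ∈ D, q := prod_pos fun q hq => (hD q hq).pos
    refine few_primes _ (bb (kk K)) ((∏ q ∈ D, q) * (a * y * z)) (bb_pos _) ?_ ?_ ?_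
    · intro p hp
      rw [mem_filter] at hp
      obtain ⟨h3, h4⟩ := hp
      obtain ⟨h5, h6, _⟩ := hW p h3
      refine ⟨h5, h6, ?_⟩
      by_cases h7 : p ∈ D
      · exact Dvd.dvd.mul_right (dvd_prod_of_mem _ h7) _
      · have h8 : p ∣ a * y * z := by
          by_contra h9
          exact h4 ⟨h7, h9⟩
        exact Dvd.dvd.mul_left h8 _
    · have : 0 < (∏ q ∈ D, q) * (a * y * z) := by positivity
      omega
    · have h3 : (∏ q ∈ D, q) * (a * y * z) ≤ (bb K)^8 := by
        calc (∏ q ∈ D, q) * (a * y * z) ≤ (bb K)^5 * (bb K * bb K * bb K) :=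
              Nat.mul_le_mul hDle (Nat.mul_le_mul (Nat.mul_le_mul haK.le (by omega)) (by omega))
          _ = (bb K)^8 := by ring
      refine h3.trans ?_
      have h4 : (bb K)^8 = 2^(2^K * 8) := by
        unfold bb
        rw [← pow_mul]
      rw [h4]
      apply Nat.pow_le_pow_right (by norm_num)
      have h5 : 2^K * 8 = 2^(K+3) := by rw [pow_add]; norm_num
      rw [h5]
      unfold bb
      apply Nat.pow_le_pow_right (by norm_num)
      have := kk_pow K
      omega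
  have hsum : ∑ l ∈ W (kk K) K, (chi (A l) + chi (B l)) / l ≤
      ∑ p ∈ P, ((if A p then (1:ℝ) else 0) + (if B p then (1:ℝ) else 0)) / p + 2 := by
    rw [← sum_filter_add_sum_filter_not (W (kk K) K) (fun l => l ∉ D ∧ ¬ l ∣ a * y * z)]
    have h3 : ∑ l ∈ (W (kk K) K).filter (fun l => ¬ (l ∉ D ∧ ¬ l ∣ a * y * z)),
        (chi (A l) + chi (B l)) / (l:ℝ) ≤ 2 := by
      calc _ ≤ ∑ l ∈ (W (kk K) K).filter (fun l => ¬ (l ∉ D ∧ ¬ l ∣ a * y * z)), 2 * ((1:ℝ) / l) := by
            refine sum_le_sum fun l _ => ?_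
            rw [← mul_div_assoc, mul_one]
            refine div_le_div_of_nonneg_right ?_ (Nat.cast_nonneg l)
            have h4 := chi_le_one (A l)
            have h5 := chi_le_one (B l)
            linarith
        _ = 2 * ∑ l ∈ (W (kk K) K).filter (fun l => ¬ (l ∉ D ∧ ¬ l ∣ a * y * z)), (1:ℝ) / l := by
            rw [mul_sum]
        _ ≤ 2 * 1 := by linarith
        _ = 2 := by norm_num
    have h4 : ∑ l ∈ (W (kk K) K).filter (fun l => l ∉ D ∧ ¬ l ∣ a * y * z),
        (chi (A l) + chi (B l)) / (l:ℝ) = ∑ p ∈ P, ((if A p then (1:ℝ) else 0) +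
          (if B p then (1:ℝ) else 0)) / p := rfl
    rw [h4]
    linarith
  have hexp : Real.exp (- ∑ p ∈ P, ((if A p then (1:ℝ) else 0) + (if B p then (1:ℝ) else 0)) / p) ≤
      Real.exp 2 * Real.exp (- ∑ l ∈ W (kk K) K, (chi (A l) + chi (B l)) / l) := by
    rw [← Real.exp_add]
    apply Real.exp_le_exp.mpr
    linarith
  have haR : (0:ℝ) < (a:ℝ)^2 := by
    have : (0:ℝ) < a := by exact_mod_cast (by omega : 0 < a)
    positivity
  have hJR : (J:ℝ) ≤ 2 * ((X:ℝ) / (a:ℝ)^2) := by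
    have h3 : ((X / a^2 : ℕ) : ℝ) ≤ (X:ℝ) / ((a^2 : ℕ) : ℝ) := Nat.cast_div_le
    have h4 : 1 ≤ X / a^2 := le_trans (Nat.one_le_pow _ _ hbpos) hXa
    have h5 : (1:ℝ) ≤ ((X / a^2 : ℕ) : ℝ) := by exact_mod_cast h4
    rw [hJ]
    push_cast at h3 h5 ⊢
    linarith
  have hJ0 : (0:ℝ) ≤ J := Nat.cast_nonneg _
  calc (Bz X a z (fun b x => (∀ q ∈ D, Cd q b x) ∧ EvS K a z D A B b x) : ℝ)
      ≤ _ := hcntR
    _ ≤ C * J * (∏ q ∈ D, (((range (q^2)).filter
          (fun t => Cd q (b0 + a * t) (x0 + y * t))).card : ℝ) / q^2) *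
        Real.exp (- ∑ p ∈ P, ((if A p then (1:ℝ) else 0) + (if B p then (1:ℝ) else 0)) / p) := by
        convert hmain
    _ ≤ C * (2 * ((X:ℝ) / (a:ℝ)^2)) * (∏ q ∈ D, g q) *
        (Real.exp 2 * Real.exp (- ∑ l ∈ W (kk K) K, (chi (A l) + chi (B l)) / l)) := by
        refine mul_le_mul ?_ hexp (Real.exp_pos _).le (by positivity)
        refine mul_le_mul (mul_le_mul_of_nonneg_left hJR hC.le) hprod ?_ (by positivity)
        exact prod_nonneg fun q _ => div_nonneg (Nat.cast_nonneg _) (sq_nonneg _)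
    _ = _ := by ring

end Pool.Agent.H24.KS
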