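import Mathlib
import Pool.Agent.H24.KS.Rep
import Pool.Agent.H24.AN.Defs
import Pool.Agent.H96.Sing.Final

/-!
Orders of groups with difference sets, and designs with transitive automorphism groups.
-/

namespace Pool.Agent.H24.KS

open Finset Pool.Agent.H96.Sing Pool.Agent.H24.AN

lemma rich_finite (X : ℕ) : (richOrders X).Finite :=
  (Set.finite_Iic X).subset fun _ hv => hv.1

lemma ds_rich (X : ℕ) : differenceSetOrders X ⊆ richOrders X := by
  rintro v ⟨hvX, G, hG, D, l, rfl, h1, h2, hD⟩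
  have : Finite G := by
    apply Nat.finite_of_card_ne_zero
    omega
  obtain ⟨B, hB, hfree⟩ := design_of_diffSet G D l hD (by omega)
  refine ⟨hvX, D.card, l, B, h1, h2, hB, fun q hq _ hqv => ?_⟩
  obtain ⟨s, e1, e2, e3⟩ := hfree q hq hqv
  exact free_even hq (by omega) e1 e2 e3

lemma tr_rich (X : ℕ) : transitiveOrders X ⊆ richOrders X := by
  rintro v ⟨hvX, k, l, B, h1, h2, hB, H, hH, ht, hc⟩
  have hv : 0 < v := by omega
  refine ⟨hvX, k, l, B, h1, h2, hB, fun q hq _ hqv => ?_⟩
  obtain ⟨s, hs, e2, e3⟩ := fpf_of_group hv H ht hc q hq hqv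
  exact free_even hq hv (hH s hs) e2 e3

end Pool.Agent.H24.KS
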