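import Mathlib
import Pool.Agent.H24.KS.Df2

/-!
M14: local counts modulo `p^2` for the two-dimensional sieve.
-/

namespace Pool.Agent.H24.KS

open Finset Classical
open Pool.Agent.H95.Gol

/-- the local event in terms of `(b,z)` -/
def Ev2 (a : ℕ) (s : ℤ) (A U : Prop) (p b z : ℕ) : Prop :=
  (A ∧ p ∣ a * b + 1) ∨
    (¬ p ∣ a * b + 1 ∧ (((p:ℤ) ∣ (b:ℤ) * (a - z) + 1 ∧ ¬ (p:ℤ)^2 ∣ (b:ℤ) * (a - z) + 1) ∨ Ex p z) ∧
      (U ∨ jacobiSym (s * ((a * b + 1 : ℕ) : ℤ)) p = -1))

lemma loc_cc {α : Type*} {s : Finset α} {P Q : α → Prop} {i1 : DecidablePred P}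
    {i2 : DecidablePred Q} (h : ∀ x ∈ s, P x ↔ Q x) :
    (@Finset.filter α P i1 s).card = (@Finset.filter α Q i2 s).card := by
  congr 1
  ext x
  rw [mem_filter, mem_filter]
  constructor
  · exact fun hx => ⟨hx.1, (h x hx.1).mp hx.2⟩
  · exact fun hx => ⟨hx.1, (h x hx.1).mpr hx.2⟩

lemma loc_count_mod (p : ℕ) (E : ℕ → Prop) (hp : 0 < p) (hE : ∀ x, E x ↔ E (x % p)) :
    ((range (p^2)).filter E).card = p * ((range p).filter E).card := by
  rw [card_eq_sum_card_fiberwise (f := fun x => x % p) (t := (range p).filter E)]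
  · rw [sum_congr rfl (g := fun _ => p), sum_const, smul_eq_mul, mul_comm]
    intro u hu
    rw [mem_filter, mem_range] at hu
    rw [filter_filter]
    have h1 : (range (p^2)).filter (fun x => E x ∧ x % p = u) =
        (range (p^2)).filter (fun x => x % p = u) := by
      apply filter_congr
      intro x _
      constructor
      · exact fun h => h.2
      · intro h
        refine ⟨?_, h⟩
        rw [hE x, h]
        exact hu.2
    rw [h1]
    exact card_mod_eq p u hu.1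
  · intro x hx
    rw [mem_coe, mem_filter] at hx
    rw [mem_coe, mem_filter, mem_range]
    exact ⟨Nat.mod_lt _ hp, (hE x).mp hx.2⟩

/-- conversion of the condition on `x` into a linear condition on `z` -/
lemma loc_conv (a b p m z : ℕ) (hp : 0 < p) (hm : m ∣ p^2) :
    ((m:ℕ):ℤ) ∣ (b:ℤ) * ((a:ℤ) - z) + 1 ↔ m ∣ (a * b + 1) + (b * (p^2 - 1)) * z := by
  rw [← Int.natCast_dvd_natCast]
  have h1 : 1 ≤ p^2 := Nat.one_le_pow _ _ hp
  have h2 : (((a * b + 1) + (b * (p^2 - 1)) * z : ℕ) : ℤ) =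
      ((b:ℤ) * ((a:ℤ) - z) + 1) + ((p^2 : ℕ) : ℤ) * (b * z) := by
    push_cast [Nat.cast_sub h1]
    ring
  rw [h2]
  have h3 : ((m:ℕ):ℤ) ∣ ((p^2 : ℕ) : ℤ) * (b * z) :=
    Dvd.dvd.mul_right (Int.natCast_dvd_natCast.mpr hm) _
  exact (dvd_add_left h3).symm

lemma loc_d (p b : ℕ) (hp : p.Prime) (hb : ¬ p ∣ b) : ¬ p ∣ b * (p^2 - 1) := by
  intro h
  rcases (Nat.Prime.dvd_mul hp).mp h with h | h
  · exact hb h
  · have h1 : 1 ≤ p^2 := Nat.one_le_pow _ _ hp.pos
    have h2 : p ∣ p^2 := ⟨p, by ring⟩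
    have h3 : p ∣ 1 := by
      have := (Nat.dvd_sub_iff_right h1 h2).mp h
      exact this
    exact hp.one_lt.ne' (Nat.dvd_one.mp h3)

lemma loc_z1 (a b p : ℕ) (hp : p.Prime) (hb : ¬ p ∣ b) :
    ((range (p^2)).filter (fun z : ℕ => (p:ℤ) ∣ (b:ℤ) * ((a:ℤ) - z) + 1 ∧
      ¬ (p:ℤ)^2 ∣ (b:ℤ) * ((a:ℤ) - z) + 1)).card = p - 1 := by
  have h1 := card_lin_exact p (a * b + 1) (b * (p^2 - 1)) hp (loc_d p b hp hb)
  rw [← h1]
  congr 1
  apply filter_congr
  intro z _
  rw [loc_conv a b p p z hp.pos ⟨p, by ring⟩, ← Nat.cast_pow, loc_conv a b p (p^2) z hp.pos dvd_rfl]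

lemma loc_z1_le (a b p : ℕ) (hp : p.Prime) :
    ((range (p^2)).filter (fun z : ℕ => (p:ℤ) ∣ (b:ℤ) * ((a:ℤ) - z) + 1)).card ≤ p := by
  by_cases hb : p ∣ b
  · have h1 : (range (p^2)).filter (fun z : ℕ => (p:ℤ) ∣ (b:ℤ) * ((a:ℤ) - z) + 1) = ∅ := by
      apply filter_false_of_mem
      intro z _ h
      have h2 : (p:ℤ) ∣ (b:ℤ) * ((a:ℤ) - z) :=
        Dvd.dvd.mul_right (Int.natCast_dvd_natCast.mpr hb) _
      have h3 : (p:ℤ) ∣ 1 := (dvd_add_right h2).mp h
      have h4 : p ∣ 1 := by exact_mod_cast h3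
      exact hp.one_lt.ne' (Nat.dvd_one.mp h4)
    rw [h1]
    simp
  · have h1 := card_lin p (a * b + 1) (b * (p^2 - 1)) hp (loc_d p b hp hb)
    refine le_of_eq ?_
    calc _ = ((range (p^2)).filter (fun z => p ∣ (a * b + 1) + (b * (p^2 - 1)) * z)).card := by
          congr 1
          apply filter_congr
          intro z _
          exact loc_conv a b p p z hp.pos ⟨p, by ring⟩
      _ = p := h1

lemma loc_dvd (p : ℕ) (hp : 0 < p) : ((range (p^2)).filter (fun z : ℕ => p ∣ z)).card = p := by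
  have h1 := card_mod_eq p 0 hp
  calc _ = ((range (p^2)).filter (fun x => x % p = 0)).card := by
        congr 1
        apply filter_congr
        intro z _
        exact Nat.dvd_iff_mod_eq_zero
    _ = p := h1

lemma loc_v (a p : ℕ) (hp : p.Prime) (ha : ¬ p ∣ a) :
    ((range (p^2)).filter (fun b : ℕ => p ∣ a * b + 1)).card = p := by
  have h1 := card_lin p 1 a hp ha
  calc _ = ((range (p^2)).filter (fun t => p ∣ 1 + a * t)).card := by
        congr 1
        apply filter_congr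
        intro z _
        rw [add_comm]
    _ = p := h1

/-- fibre count -/
lemma loc_fib (N : ℕ) (P : ℕ → ℕ → Prop) :
    (((range N) ×ˢ (range N)).filter (fun t => P t.1 t.2)).card =
      ∑ b ∈ range N, ((range N).filter (fun z => P b z)).card := by
  rw [card_filter, sum_product]
  refine sum_congr rfl fun b _ => ?_
  rw [card_filter]

/-- number of `b` with Jacobi symbol `-1` -/
lemma loc_J (a p : ℕ) (s : ℤ) (hp : p.Prime) (hp2 : p ≠ 2) (ha : ¬ p ∣ a) (hs : s = 1 ∨ s = -1) :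
    2 * ((range (p^2)).filter (fun b : ℕ => jacobiSym (s * ((a * b + 1 : ℕ) : ℤ)) p = -1)).card =
      p * (p - 1) := by
  have hcop : Nat.Coprime a (p^2) :=
    Nat.Coprime.pow_right 2 ((Nat.Prime.coprime_iff_not_dvd hp).mpr ha).symm
  have hper : ∀ x : ℕ, jacobiSym (s * (x : ℤ)) p = jacobiSym (s * ((x % p : ℕ) : ℤ)) p := by
    intro x
    rw [jacobiSym.mul_left, jacobiSym.mul_left s]
    congr 1
    rw [jacobiSym.mod_left (x:ℤ) p]
    congr 1
  have hper2 : ∀ x : ℕ, jacobiSym (s * (x : ℤ)) p = jacobiSym (s * ((x % p^2 : ℕ) : ℤ)) p := by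
    intro x
    rw [hper x, hper (x % p^2), Nat.mod_mod_of_dvd x ⟨p, by ring⟩]
  have h1 := card_affine a 1 (p^2) hcop (fun x => jacobiSym (s * (x : ℤ)) p = -1) (fun x => by
    rw [hper2 x])
  have h2 := loc_count_mod p (fun x => jacobiSym (s * (x : ℤ)) p = -1) hp.pos (fun x => by
    rw [hper x])
  have h3 := card_nonres p hp hp2 s hs
  have h4 : ((range (p^2)).filter
      (fun b : ℕ => jacobiSym (s * ((a * b + 1 : ℕ) : ℤ)) p = -1)).card =
      ((range (p^2)).filter (fun x : ℕ => jacobiSym (s * (x : ℤ)) p = -1)).card := by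
    refine Eq.trans (loc_cc fun b _ => ?_) (Eq.trans h1 (loc_cc fun b _ => Iff.rfl))
    rw [add_comm]
  have h5 : ((range (p^2)).filter (fun x : ℕ => jacobiSym (s * (x : ℤ)) p = -1)).card =
      p * ((range p).filter (fun u : ℕ => jacobiSym (s * u) p = -1)).card := by
    refine Eq.trans (loc_cc fun b _ => Iff.rfl) (Eq.trans h2 ?_)
    rw [loc_cc fun b _ => Iff.rfl]
  rw [h4, h5, ← h3]
  ring

lemma loc_J_dvd {a b p : ℕ} {s : ℤ} (hp : p.Prime)
    (h : jacobiSym (s * ((a * b + 1 : ℕ) : ℤ)) p = -1) : ¬ p ∣ a * b + 1 := by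
  intro h1
  have h2 : jacobiSym (s * ((a * b + 1 : ℕ) : ℤ)) p = 0 := by
    rw [jacobiSym.mul_left]
    have h3 : jacobiSym ((a * b + 1 : ℕ) : ℤ) p = 0 := by
      rw [jacobiSym.mod_left]
      have h4 : (((a * b + 1 : ℕ) : ℤ)) % (p:ℤ) = 0 := by
        rw [← Int.natCast_mod, Nat.mod_eq_zero_of_dvd h1]
        rfl
      rw [h4]
      exact jacobiSym.zero_left hp.one_lt
    rw [h3, mul_zero]
  rw [h2] at h
  norm_num at h

/-- lower bound for one `b` -/
lemma loc_low_b (a p b : ℕ) (s : ℤ) (A U : Prop) (hp : p.Prime) :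
    (if p ∣ a * b + 1 then chi A * (p:ℝ)^2 else 0) +
      (if (¬ p ∣ a * b + 1 ∧ (U ∨ jacobiSym (s * ((a * b + 1 : ℕ) : ℤ)) p = -1)) then
        2 * ((p:ℝ) - 1) else 0) - (if p ∣ b then (p:ℝ) - 1 else 0) ≤
      (((range (p^2)).filter (fun z => Ev2 a s A U p b z)).card : ℝ) := by
  have hp1 : (1:ℝ) ≤ p := by exact_mod_cast hp.one_lt.le
  have hpm : ((p - 1 : ℕ) : ℝ) = p - 1 := by
    rw [Nat.cast_sub hp.one_lt.le, Nat.cast_one]
  by_cases hv : p ∣ a * b + 1
  · rw [if_pos hv, if_neg (fun h => h.1 hv)]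
    have hpb : ¬ p ∣ b := by
      intro h
      have h1 : p ∣ 1 := (Nat.dvd_add_right (Dvd.dvd.mul_left h a)).mp hv
      exact hp.one_lt.ne' (Nat.dvd_one.mp h1)
    rw [if_neg hpb]
    by_cases hA : A
    · have h1 : (range (p^2)).filter (fun z => Ev2 a s A U p b z) = range (p^2) := by
        apply filter_true_of_mem
        intro z _
        exact Or.inl ⟨hA, hv⟩
      rw [h1, card_range, chi_true hA]
      push_cast
      linarith
    · rw [chi_false hA]
      have : (0:ℝ) ≤ (((range (p^2)).filter (fun z => Ev2 a s A U p b z)).card : ℝ) :=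
        Nat.cast_nonneg _
      linarith
  · rw [if_neg hv]
    by_cases hG : U ∨ jacobiSym (s * ((a * b + 1 : ℕ) : ℤ)) p = -1
    · rw [if_pos ⟨hv, hG⟩]
      set S1 := (range (p^2)).filter (fun z : ℕ => (p:ℤ) ∣ (b:ℤ) * ((a:ℤ) - z) + 1 ∧
        ¬ (p:ℤ)^2 ∣ (b:ℤ) * ((a:ℤ) - z) + 1) with hS1
      set S2 := (range (p^2)).filter (fun z : ℕ => p ∣ z ∧ ¬ p^2 ∣ z) with hS2
      have hdis : Disjoint S1 S2 := by
        rw [hS1, hS2, disjoint_filter]
        rintro z _ ⟨h1, _⟩ ⟨h2, _⟩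
        apply hv
        have h3 : (p:ℤ) ∣ (b:ℤ) * (z:ℤ) := Dvd.dvd.mul_left (Int.natCast_dvd_natCast.mpr h2) _
        have h4 : (p:ℤ) ∣ ((a * b + 1 : ℕ) : ℤ) := by
          have h5 := dvd_add h1 h3
          have h6 : (b:ℤ) * ((a:ℤ) - z) + 1 + b * z = ((a * b + 1 : ℕ) : ℤ) := by
            push_cast; ring
          rwa [h6] at h5
        exact Int.natCast_dvd_natCast.mp h4
      have hsub : S1 ∪ S2 ⊆ (range (p^2)).filter (fun z => Ev2 a s A U p b z) := by
        intro z hz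
        rw [mem_union, hS1, hS2, mem_filter, mem_filter] at hz
        rw [mem_filter]
        rcases hz with ⟨h1, h2⟩ | ⟨h1, h2⟩
        · exact ⟨h1, Or.inr ⟨hv, Or.inl h2, hG⟩⟩
        · exact ⟨h1, Or.inr ⟨hv, Or.inr h2, hG⟩⟩
      have h1 := card_le_card hsub
      rw [card_union_of_disjoint hdis] at h1
      have h2 : S2.card = p - 1 := card_exact p hp.pos
      have h3 : ((S1.card : ℝ) + S2.card) ≤
          (((range (p^2)).filter (fun z => Ev2 a s A U p b z)).card : ℝ) := by exact_mod_cast h1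
      rw [h2, hpm] at h3
      by_cases hb : p ∣ b
      · rw [if_pos hb]
        have : (0:ℝ) ≤ S1.card := Nat.cast_nonneg _
        linarith
      · rw [if_neg hb]
        have h4 : S1.card = p - 1 := loc_z1 a b p hp hb
        rw [h4, hpm] at h3
        linarith
    · rw [if_neg (fun h => hG h.2)]
      have : (0:ℝ) ≤ (((range (p^2)).filter (fun z => Ev2 a s A U p b z)).card : ℝ) :=
        Nat.cast_nonneg _
      split_ifs <;> linarith

lemma loc_up_b (a p b : ℕ) (s : ℤ) (A U : Prop) (hp : p.Prime) :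
    ((range (p^2)).filter (fun z => Ev2 a s A U p b z)).card ≤
      (if p ∣ a * b + 1 then p^2 else 0) + 2 * p := by
  by_cases hv : p ∣ a * b + 1
  · rw [if_pos hv]
    have h1 := card_le_card (filter_subset (fun z => Ev2 a s A U p b z) (range (p^2)))
    rw [card_range] at h1
    omega
  · rw [if_neg hv]
    have hsub : (range (p^2)).filter (fun z => Ev2 a s A U p b z) ⊆
        (range (p^2)).filter (fun z : ℕ => (p:ℤ) ∣ (b:ℤ) * ((a:ℤ) - z) + 1) ∪
        (range (p^2)).filter (fun z : ℕ => p ∣ z) := by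
      intro z hz
      rw [mem_filter] at hz
      rw [mem_union, mem_filter, mem_filter]
      rcases hz.2 with h | ⟨_, h | h, _⟩
      · exact absurd h.2 hv
      · exact Or.inl ⟨hz.1, h.1⟩
      · exact Or.inr ⟨hz.1, h.1⟩
    have h1 := (card_le_card hsub).trans (card_union_le _ _)
    have h2 := loc_z1_le a b p hp
    have h3 := loc_dvd p hp.pos
    omega

theorem loc2 (a p : ℕ) (s : ℤ) (A U : Prop) (hp : p.Prime) (hp2 : 2 < p) (ha : ¬ p ∣ a)
    (hs : s = 1 ∨ s = -1) :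
    (chi A + 1 + chi U) * (p:ℝ)^3 - 5 * (p:ℝ)^2 ≤
      ((((range (p^2)) ×ˢ (range (p^2))).filter (fun t => Ev2 a s A U p t.1 t.2)).card : ℝ) ∧
    (((range (p^2)) ×ˢ (range (p^2))).filter (fun t => Ev2 a s A U p t.1 t.2)).card ≤
      3 * p^3 := by
  have hp0 : (0:ℝ) < p := by exact_mod_cast hp.pos
  have hp3 : (3:ℝ) ≤ p := by exact_mod_cast hp2
  have hpm : ((p - 1 : ℕ) : ℝ) = p - 1 := by
    rw [Nat.cast_sub hp.one_lt.le, Nat.cast_one]
  rw [loc_fib (p^2) (fun b z => Ev2 a s A U p b z)]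
  constructor
  · push_cast
    have h1 := sum_le_sum fun b (_ : b ∈ range (p^2)) => loc_low_b a p b s A U hp
    refine le_trans ?_ h1
    rw [sum_sub_distrib, sum_add_distrib, ← sum_filter, ← sum_filter, ← sum_filter, sum_const,
      sum_const, sum_const, nsmul_eq_mul, nsmul_eq_mul, nsmul_eq_mul, loc_v a p hp ha,
      loc_dvd p hp.pos]
    have hG : (p:ℝ) * (p - 1) * (1 + chi U) ≤ 2 * (((range (p^2)).filter (fun b => ¬ p ∣ a * b + 1 ∧
        (U ∨ jacobiSym (s * ((a * b + 1 : ℕ) : ℤ)) p = -1))).card : ℝ) := by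
      by_cases hU : U
      · have h2 : (range (p^2)).filter (fun b => ¬ p ∣ a * b + 1 ∧
          (U ∨ jacobiSym (s * ((a * b + 1 : ℕ) : ℤ)) p = -1)) =
          (range (p^2)).filter (fun b => ¬ p ∣ a * b + 1) := by
          apply filter_congr
          intro b _
          exact ⟨fun h => h.1, fun h => ⟨h, Or.inl hU⟩⟩
        have h3 := card_filter_add_card_filter_not (s := range (p^2)) (fun b => p ∣ a * b + 1)
        rw [loc_v a p hp ha, card_range] at h3
        rw [h2, chi_true hU]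
        have h4 : (p:ℝ) + ((range (p^2)).filter (fun b => ¬ p ∣ a * b + 1)).card = (p:ℝ)^2 := by
          exact_mod_cast h3
        nlinarith
      · rw [chi_false hU]
        have h2 := loc_J a p s hp (by omega) ha hs
        have h3 : (range (p^2)).filter (fun b : ℕ => jacobiSym (s * ((a * b + 1 : ℕ) : ℤ)) p = -1) ⊆
            (range (p^2)).filter (fun b => ¬ p ∣ a * b + 1 ∧
              (U ∨ jacobiSym (s * ((a * b + 1 : ℕ) : ℤ)) p = -1)) := by
          intro b hb
          rw [mem_filter] at hb ⊢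
          exact ⟨hb.1, loc_J_dvd hp hb.2, Or.inr hb.2⟩
        have h4 := card_le_card h3
        have h5 : (2:ℝ) * (((range (p^2)).filter
            (fun b : ℕ => jacobiSym (s * ((a * b + 1 : ℕ) : ℤ)) p = -1)).card : ℝ) =
            p * (p - 1) := by
          rw [← hpm]
          exact_mod_cast h2
        have h6 : (((range (p^2)).filter
            (fun b : ℕ => jacobiSym (s * ((a * b + 1 : ℕ) : ℤ)) p = -1)).card : ℝ) ≤
            ((range (p^2)).filter (fun b => ¬ p ∣ a * b + 1 ∧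
              (U ∨ jacobiSym (s * ((a * b + 1 : ℕ) : ℤ)) p = -1))).card := by exact_mod_cast h4
        linarith
    have hU0 := chi_nonneg U
    have hU1 := chi_le_one U
    generalize (((range (p^2)).filter (fun b => ¬ p ∣ a * b + 1 ∧
        (U ∨ jacobiSym (s * ((a * b + 1 : ℕ) : ℤ)) p = -1))).card : ℝ) = g at hG ⊢
    have h7 : (p:ℝ) * (p - 1) * (1 + chi U) * (p - 1) ≤ 2 * g * (p - 1) :=
      mul_le_mul_of_nonneg_right hG (by linarith)
    have h8 : (1 + chi U) * (p:ℝ)^3 - 5 * (p:ℝ)^2 ≤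
        (p:ℝ) * (p - 1) * (1 + chi U) * (p - 1) - p * (p - 1) := by
      nlinarith [mul_nonneg hU0 hp0.le, mul_nonneg hU0 (sq_nonneg (p:ℝ)),
        mul_nonneg (sub_nonneg.mpr hU1) (sq_nonneg (p:ℝ))]
    linarith
  · refine (sum_le_sum fun b (_ : b ∈ range (p^2)) => loc_up_b a p b s A U hp).trans ?_
    rw [sum_add_distrib, ← sum_filter, sum_const, sum_const, loc_v a p hp ha, card_range,
      smul_eq_mul, smul_eq_mul]
    exact le_of_eq (by ring)

theorem loc2_cond (a p : ℕ) (hp : p.Prime) (ha : ¬ p ∣ a) :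
    (((range (p^2)) ×ˢ (range (p^2))).filter (fun t =>
      (p:ℤ) ∣ (t.1:ℤ) * (a - t.2) + 1 ∨ p ∣ t.2)).card ≤ 2 * p^3 ∧
    (((range (p^2)) ×ˢ (range (p^2))).filter (fun t => p ∣ a * t.1 + 1)).card ≤ 2 * p^3 := by
  constructor
  · have h0 := loc_fib (p^2) (fun b z => (p:ℤ) ∣ (b:ℤ) * (a - z) + 1 ∨ p ∣ z)
    have h1 : ∀ b ∈ range (p^2), ((range (p^2)).filter
        (fun z : ℕ => (p:ℤ) ∣ (b:ℤ) * (a - z) + 1 ∨ p ∣ z)).card ≤ 2 * p := by
      intro b _
      have h2 := loc_z1_le a b p hp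
      have h3 := loc_dvd p hp.pos
      have h4 : ((range (p^2)).filter
          (fun z : ℕ => (p:ℤ) ∣ (b:ℤ) * (a - z) + 1 ∨ p ∣ z)).card ≤
          ((range (p^2)).filter (fun z : ℕ => (p:ℤ) ∣ (b:ℤ) * ((a:ℤ) - z) + 1)).card +
          ((range (p^2)).filter (fun z : ℕ => p ∣ z)).card := by
        rw [filter_or]
        exact (card_union_le _ _).trans (le_of_eq (by congr 1))
      omega
    calc _ = ∑ b ∈ range (p^2), ((range (p^2)).filter
          (fun z : ℕ => (p:ℤ) ∣ (b:ℤ) * (a - z) + 1 ∨ p ∣ z)).card := by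
          refine (loc_cc fun t _ => Iff.rfl).trans (h0.trans ?_)
          exact sum_congr rfl fun b _ => loc_cc fun _ _ => Iff.rfl
      _ ≤ ∑ b ∈ range (p^2), 2 * p := sum_le_sum h1
      _ = 2 * p^3 := by
          rw [sum_const, card_range, smul_eq_mul]
          ring
  · have h0 := loc_fib (p^2) (fun b _ => p ∣ a * b + 1)
    have h1 : ∀ b ∈ range (p^2), ((range (p^2)).filter
        (fun _ : ℕ => p ∣ a * b + 1)).card = if p ∣ a * b + 1 then p^2 else 0 := by
      intro b _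
      split_ifs with h
      · rw [filter_true_of_mem (fun _ _ => h), card_range]
      · rw [filter_false_of_mem (fun _ _ => h), card_empty]
    calc _ = ∑ b ∈ range (p^2), ((range (p^2)).filter (fun _ : ℕ => p ∣ a * b + 1)).card := by
          refine (loc_cc fun t _ => Iff.rfl).trans (h0.trans ?_)
          exact sum_congr rfl fun b _ => loc_cc fun _ _ => Iff.rfl
      _ = ∑ b ∈ range (p^2), if p ∣ a * b + 1 then p^2 else 0 := sum_congr rfl h1
      _ = p * p^2 := by
          rw [← sum_filter, sum_const, smul_eq_mul]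
          congr 1
          exact loc_v a p hp ha
      _ ≤ 2 * p^3 := by
          have : p * p^2 = p^3 := by ring
          omega

end Pool.Agent.H24.KS
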