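import Mathlib
import Pool.Agent.H24.KS.Df2
import Pool.Agent.H24.KS.Equid
import Pool.Agent.H24.KS.AbSieve

/-!
The two-dimensional upper bound sieve on the modular hyperbola `b z = 1 (mod a)`.
-/

namespace Pool.Agent.H24.KS

open Finset Classical
open Pool.Agent.H95.Gol

/-- two coprime moduli -/
lemma crt_two {m n : ℕ} (hm : 0 < m) (hn : 0 < n) (h : Nat.Coprime m n) (R R' : ℕ → ℕ → Prop)
    (hR : ∀ b z, R b z ↔ R (b % m) (z % m)) (hR' : ∀ b z, R' b z ↔ R' (b % n) (z % n)) :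
    (((range (m * n)) ×ˢ (range (m * n))).filter (fun t => R t.1 t.2 ∧ R' t.1 t.2)).card =
      (((range m) ×ˢ (range m)).filter (fun t => R t.1 t.2)).card *
        (((range n) ×ˢ (range n)).filter (fun t => R' t.1 t.2)).card := by
  rw [← card_product]
  refine card_bij (fun t _ => ((t.1 % m, t.2 % m), (t.1 % n, t.2 % n))) ?_ ?_ ?_
  · rintro ⟨b, z⟩ ht
    rw [mem_filter, mem_product] at ht
    rw [mem_product, mem_filter, mem_filter, mem_product, mem_product, mem_range, mem_range,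
      mem_range, mem_range]
    exact ⟨⟨⟨Nat.mod_lt _ hm, Nat.mod_lt _ hm⟩, (hR _ _).mp ht.2.1⟩,
      ⟨⟨Nat.mod_lt _ hn, Nat.mod_lt _ hn⟩, (hR' _ _).mp ht.2.2⟩⟩
  · rintro ⟨b, z⟩ ht ⟨b', z'⟩ ht' heq
    rw [mem_filter, mem_product, mem_range, mem_range] at ht ht'
    simp only [Prod.mk.injEq] at heq
    obtain ⟨⟨h1, h2⟩, h3, h4⟩ := heq
    have e1 : b ≡ b' [MOD m * n] := (Nat.modEq_and_modEq_iff_modEq_mul h).mp ⟨h1, h3⟩
    have e2 : z ≡ z' [MOD m * n] := (Nat.modEq_and_modEq_iff_modEq_mul h).mp ⟨h2, h4⟩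
    rw [e1.eq_of_lt_of_lt ht.1.1 ht'.1.1, e2.eq_of_lt_of_lt ht.1.2 ht'.1.2]
  · rintro ⟨⟨b1, z1⟩, ⟨b2, z2⟩⟩ ht
    rw [mem_product, mem_filter, mem_filter, mem_product, mem_product, mem_range, mem_range,
      mem_range, mem_range] at ht
    obtain ⟨⟨⟨h1, h2⟩, h3⟩, ⟨⟨h4, h5⟩, h6⟩⟩ := ht
    obtain ⟨b, hb1, hb2⟩ := Nat.chineseRemainder h b1 b2
    obtain ⟨z, hz1, hz2⟩ := Nat.chineseRemainder h z1 z2
    have eb1 : (b % (m * n)) % m = b1 := by
      rw [Nat.mod_mul_right_mod, hb1, Nat.mod_eq_of_lt h1]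
    have eb2 : (b % (m * n)) % n = b2 := by
      rw [Nat.mod_mul_left_mod, hb2, Nat.mod_eq_of_lt h4]
    have ez1 : (z % (m * n)) % m = z1 := by
      rw [Nat.mod_mul_right_mod, hz1, Nat.mod_eq_of_lt h2]
    have ez2 : (z % (m * n)) % n = z2 := by
      rw [Nat.mod_mul_left_mod, hz2, Nat.mod_eq_of_lt h5]
    have hmn : 0 < m * n := Nat.mul_pos hm hn
    refine ⟨(b % (m * n), z % (m * n)), ?_, ?_⟩
    · rw [mem_filter, mem_product, mem_range, mem_range]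
      refine ⟨⟨Nat.mod_lt _ hmn, Nat.mod_lt _ hmn⟩, ?_, ?_⟩
      · rw [hR]; simp only [eb1, ez1]; exact h3
      · rw [hR']; simp only [eb2, ez2]; exact h6
    · simp only [eb1, ez1, eb2, ez2]

/-- many moduli -/
lemma crt_many (r : ℕ) (hr0 : 0 < r) (T : Finset ℕ) (hT : ∀ q ∈ T, q.Prime)
    (hr : ∀ q ∈ T, Nat.Coprime r q) (R0 : ℕ → ℕ → Prop) (R : ℕ → ℕ → ℕ → Prop)
    (h0 : ∀ b z, R0 b z ↔ R0 (b % r) (z % r))
    (hR : ∀ q ∈ T, ∀ b z, R q b z ↔ R q (b % q^2) (z % q^2)) :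
    (((range (r * ∏ q ∈ T, q^2)) ×ˢ (range (r * ∏ q ∈ T, q^2))).filter
      (fun t => R0 t.1 t.2 ∧ ∀ q ∈ T, R q t.1 t.2)).card =
      (((range r) ×ˢ (range r)).filter (fun t => R0 t.1 t.2)).card *
        ∏ q ∈ T, (((range (q^2)) ×ˢ (range (q^2))).filter (fun t => R q t.1 t.2)).card := by
  induction T using Finset.induction_on with
  | empty => simp
  | insert p T hp ih =>
    have hT' : ∀ q ∈ T, q.Prime := fun q hq => hT q (mem_insert_of_mem hq)
    have hpp : p.Prime := hT p (mem_insert_self p T)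
    have ih' := ih hT' (fun q hq => hr q (mem_insert_of_mem hq))
      (fun q hq => hR q (mem_insert_of_mem hq))
    have hQ0 : 0 < r * ∏ q ∈ T, q^2 :=
      Nat.mul_pos hr0 (prod_pos fun q hq => pow_pos (hT' q hq).pos 2)
    have hcop : Nat.Coprime (r * ∏ q ∈ T, q^2) (p^2) := by
      refine Nat.Coprime.pow_right 2 (Nat.Coprime.mul_left (hr p (mem_insert_self p T)) ?_)
      refine Nat.Coprime.prod_left fun q hq => Nat.Coprime.pow_left 2 ?_
      rw [Nat.coprime_primes (hT' q hq) hpp]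
      rintro rfl
      exact hp hq
    have h1 := crt_two hQ0 (pow_pos hpp.pos 2) hcop (fun b z => R0 b z ∧ ∀ q ∈ T, R q b z) (R p)
      (fun b z => by
        have hdr : r ∣ r * ∏ q ∈ T, q^2 := dvd_mul_right _ _
        have hd : ∀ q ∈ T, q^2 ∣ r * ∏ q ∈ T, q^2 := fun q hq =>
          (dvd_prod_of_mem (fun q => q^2) hq).trans (dvd_mul_left _ _)
        constructor
        · rintro ⟨h2, h3⟩
          refine ⟨?_, fun q hq => ?_⟩
          · rw [h0, Nat.mod_mod_of_dvd _ hdr, Nat.mod_mod_of_dvd _ hdr]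
            exact (h0 _ _).mp h2
          · rw [hR q (mem_insert_of_mem hq), Nat.mod_mod_of_dvd _ (hd q hq),
              Nat.mod_mod_of_dvd _ (hd q hq)]
            exact (hR q (mem_insert_of_mem hq) _ _).mp (h3 q hq)
        · rintro ⟨h2, h3⟩
          refine ⟨?_, fun q hq => ?_⟩
          · rw [h0, Nat.mod_mod_of_dvd _ hdr, Nat.mod_mod_of_dvd _ hdr] at h2
            exact (h0 _ _).mpr h2
          · have h4 := h3 q hq
            rw [hR q (mem_insert_of_mem hq), Nat.mod_mod_of_dvd _ (hd q hq),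
              Nat.mod_mod_of_dvd _ (hd q hq)] at h4
            exact (hR q (mem_insert_of_mem hq) _ _).mpr h4)
      (hR p (mem_insert_self p T))
    rw [prod_insert hp, prod_insert hp, show r * (p^2 * ∏ q ∈ T, q^2) = (r * ∏ q ∈ T, q^2) * p^2
      by ring, mul_left_comm, ← ih', mul_comm _ (card _)]
    refine Eq.trans ?_ (Eq.trans h1 ?_)
    · congr 1
      ext t
      simp only [mem_filter, forall_mem_insert]
      tauto
    · congr!

/-- number of `t` with `β + Q t < B` -/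
def nU (B Q β : ℕ) : ℕ := (B + Q - 1 - β) / Q

lemma lt_nU {B Q β t : ℕ} (hβ : β < Q) : t < nU B Q β ↔ β + Q * t < B := by
  have hQ : 0 < Q := by omega
  unfold nU
  rw [Nat.lt_iff_add_one_le, Nat.le_div_iff_mul_le hQ, Nat.add_mul, one_mul, mul_comm t Q]
  omega

lemma nU_bound {B Q β : ℕ} (hβ : β < Q) : |(nU B Q β : ℝ) - B / Q| ≤ 1 := by
  have hQ : 0 < Q := by omega
  have hQR : (0:ℝ) < Q := by exact_mod_cast hQ
  rw [abs_le]
  constructor
  · -- `Q (U + 1) ≥ B`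
    have h1 : ¬ (nU B Q β < nU B Q β) := lt_irrefl _
    rw [lt_nU hβ, not_lt] at h1
    have h2 : B ≤ Q * (nU B Q β + 1) := by
      rw [mul_add, mul_one]; omega
    have h3 : (B:ℝ) ≤ Q * (nU B Q β + 1) := by exact_mod_cast h2
    have h4 : (B:ℝ) / Q ≤ nU B Q β + 1 := by
      rw [div_le_iff₀ hQR]; linarith
    linarith
  · have h2 : Q * nU B Q β ≤ B + Q := by
      unfold nU
      have := Nat.mul_div_le (B + Q - 1 - β) Q
      omega
    have h3 : (Q:ℝ) * nU B Q β ≤ B + Q := by exact_mod_cast h2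
    have h4 : (nU B Q β : ℝ) ≤ (B + Q) / Q := by
      rw [le_div_iff₀ hQR]; linarith
    rw [add_div, div_self hQR.ne'] at h4
    linarith

/-- the pairs in a residue class -/
lemma card_class (B a s Q β ζ : ℕ) (hβ : β < Q) (hζ : ζ < Q) :
    (((range B) ×ˢ (range a)).filter (fun t => (t.1 % Q = β ∧ t.2 % Q = ζ) ∧
      (t.1 * t.2) % s = 1 % s)).card =
    (((range (nU B Q β)) ×ˢ (range (nU a Q ζ))).filter
      (fun t => ((β + Q * t.1) * (ζ + Q * t.2)) % s = 1 % s)).card := by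
  symm
  refine card_bij (fun t _ => (β + Q * t.1, ζ + Q * t.2)) ?_ ?_ ?_
  · rintro ⟨x, y⟩ ht
    rw [mem_filter, mem_product, mem_range, mem_range] at ht
    rw [mem_filter, mem_product, mem_range, mem_range]
    refine ⟨⟨(lt_nU hβ).mp ht.1.1, (lt_nU hζ).mp ht.1.2⟩, ⟨?_, ?_⟩, ht.2⟩
    · show (β + Q * x) % Q = β
      rw [Nat.add_mul_mod_self_left, Nat.mod_eq_of_lt hβ]
    · show (ζ + Q * y) % Q = ζ
      rw [Nat.add_mul_mod_self_left, Nat.mod_eq_of_lt hζ]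
  · rintro ⟨x, y⟩ _ ⟨x', y'⟩ _ heq
    simp only [Prod.mk.injEq] at heq
    have hQ : 0 < Q := by omega
    have h1 : Q * x = Q * x' := by omega
    have h2 : Q * y = Q * y' := by omega
    rw [Nat.eq_of_mul_eq_mul_left hQ h1, Nat.eq_of_mul_eq_mul_left hQ h2]
  · rintro ⟨b, z⟩ ht
    rw [mem_filter, mem_product, mem_range, mem_range] at ht
    obtain ⟨⟨h1, h2⟩, ⟨h3, h4⟩, h5⟩ := ht
    simp only at h1 h2 h3 h4 h5
    have e1 : β + Q * (b / Q) = b := by rw [← h3, Nat.mod_add_div]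
    have e2 : ζ + Q * (z / Q) = z := by rw [← h4, Nat.mod_add_div]
    refine ⟨(b / Q, z / Q), ?_, ?_⟩
    · rw [mem_filter, mem_product, mem_range, mem_range, lt_nU hβ, lt_nU hζ]
      simp only [e1, e2]
      exact ⟨⟨h1, h2⟩, h5⟩
    · simp only [e1, e2]

/-- decomposition of `a` with squarefree part -/
lemma exists_rs (a : ℕ) (ha : 0 < a) : ∃ r s d : ℕ, a = r * s ∧ Squarefree s ∧ Nat.Coprime r s ∧
    d^2 ∣ a ∧ r ≤ d^3 ∧ 0 < r ∧ 0 < s := by
  obtain ⟨t, d, ht, hd0, htd, hsq⟩ := Nat.sq_mul_squarefree_of_pos ha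
  have hg : Nat.gcd t d ∣ t := Nat.gcd_dvd_left _ _
  obtain ⟨s, hs⟩ := hg
  have hs0 : 0 < s := by
    rcases Nat.eq_zero_or_pos s with h | h
    · rw [h, mul_zero] at hs; omega
    · exact h
  have hg0 : 0 < Nat.gcd t d := Nat.gcd_pos_of_pos_left _ ht
  have hss : Squarefree s := hsq.squarefree_of_dvd ⟨_, by rw [mul_comm]; exact hs⟩
  have hcop1 : Nat.Coprime s (Nat.gcd t d) := by
    have h1 : Squarefree (Nat.gcd t d * s) := by rw [← hs]; exact hsq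
    exact (Nat.squarefree_mul_iff.mp h1).1.symm
  have hcopd : Nat.Coprime s d := by
    rw [Nat.coprime_iff_gcd_eq_one]
    by_contra hcon
    obtain ⟨p, hp, hpd⟩ := Nat.exists_prime_and_dvd hcon
    have h1 : p ∣ s := hpd.trans (Nat.gcd_dvd_left _ _)
    have h2 : p ∣ d := hpd.trans (Nat.gcd_dvd_right _ _)
    have h3 : p ∣ t := by rw [hs]; exact h1.mul_left _
    have h4 : p ∣ Nat.gcd t d := Nat.dvd_gcd h3 h2
    have h5 := Nat.dvd_gcd h1 h4
    rw [hcop1] at h5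
    exact hp.one_lt.ne' (Nat.dvd_one.mp h5)
  refine ⟨d^2 * Nat.gcd t d, s, d, ?_, hss, ?_, ?_, ?_, ?_, hs0⟩
  · rw [mul_assoc, ← hs, htd]
  · exact (Nat.Coprime.mul_right (Nat.Coprime.pow_right 2 hcopd) hcop1).symm
  · exact ⟨t, htd.symm⟩
  · rw [pow_succ d 2]
    rcases Nat.eq_zero_or_pos d with h | h
    · rw [h] at htd
      simp at htd
      omega
    · exact Nat.mul_le_mul_left _ (Nat.gcd_le_right _ h)
  · rcases Nat.eq_zero_or_pos d with h | h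
    · rw [h] at htd
      simp at htd
      omega
    · positivity

/-- the count in one class -/
lemma class_bound : ∃ C : ℝ, 0 < C ∧ ∀ (B a r s Q β ζ : ℕ), a = r * s → 0 < r → 0 < s →
    a ≤ B → Squarefree s → Nat.Coprime Q s → β < Q → ζ < Q →
    |((((range B) ×ˢ (range a)).filter (fun t => (t.1 % Q = β ∧ t.2 % Q = ζ) ∧
      (t.1 * t.2) % s = 1 % s)).card : ℝ) - (B / Q) * (a / Q) * (s.totient / (s:ℝ)^2)| ≤
      C * B * (r:ℝ)^2 * (a:ℝ)^(-(1/8:ℝ)) := by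
  obtain ⟨C1, hC1, heq⟩ := equid
  refine ⟨9 * C1 + 3, by positivity, ?_⟩
  intro B a r s Q β ζ ha hr hs haB hsq hQs hβ hζ
  rw [card_class B a s Q β ζ hβ hζ]
  have hU := nU_bound (B := B) hβ
  have hV := nU_bound (B := a) hζ
  have h1 := heq s Q Q β ζ (nU B Q β) (nU a Q ζ) hs hsq hQs hQs
  set U : ℝ := (nU B Q β : ℝ) with hUd
  set V : ℝ := (nU a Q ζ : ℝ) with hVd
  set cnt : ℝ := ((((range (nU B Q β)) ×ˢ (range (nU a Q ζ))).filter
      (fun t => ((β + Q * t.1) * (ζ + Q * t.2)) % s = 1 % s)).card : ℝ) with hcnt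
  have hQ0 : 0 < Q := by omega
  have hQR : (1:ℝ) ≤ Q := by exact_mod_cast hQ0
  have hsR : (1:ℝ) ≤ s := by exact_mod_cast hs
  have hrR : (1:ℝ) ≤ r := by exact_mod_cast hr
  have hs0 : (0:ℝ) < s := by linarith
  have hr0 : (0:ℝ) < r := by linarith
  have haR : (a:ℝ) = r * s := by exact_mod_cast ha
  have ha1 : (1:ℝ) ≤ a := by rw [haR]; nlinarith
  have hBR : (a:ℝ) ≤ B := by exact_mod_cast haB
  have hB1 : (1:ℝ) ≤ B := by linarith
  have hU0 : 0 ≤ U := Nat.cast_nonneg _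
  have hV0 : 0 ≤ V := Nat.cast_nonneg _
  have hBQ : (B:ℝ) / Q ≤ B := div_le_self (by linarith) hQR
  have haQ : (a:ℝ) / Q ≤ a := div_le_self (by linarith) hQR
  have hBQ0 : 0 ≤ (B:ℝ) / Q := by positivity
  have haQ0 : 0 ≤ (a:ℝ) / Q := by positivity
  have hphi : (s.totient : ℝ) / (s:ℝ)^2 ≤ 1 / s := by
    rw [div_le_div_iff₀ (by positivity) hs0, one_mul, pow_two]
    have : (s.totient : ℝ) ≤ s := by exact_mod_cast Nat.totient_le s
    nlinarith
  have hphi0 : 0 ≤ (s.totient : ℝ) / (s:ℝ)^2 := by positivity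
  have e2 : |U * V - (B / Q) * (a / Q)| ≤ 3 * B := by
    have h2 : U * V - (B / Q) * (a / Q) = (U - B / Q) * V + (B / Q) * (V - a / Q) := by ring
    rw [h2]
    refine (abs_add_le _ _).trans ?_
    rw [abs_mul, abs_mul, abs_of_nonneg hV0, abs_of_nonneg hBQ0]
    have h3 : V ≤ a / Q + 1 := by have := (abs_le.mp hV).2; linarith
    have h4 : |U - B / Q| * V ≤ 1 * V := mul_le_mul_of_nonneg_right hU hV0
    have h5 : (B:ℝ) / Q * |V - a / Q| ≤ (B:ℝ) / Q * 1 := mul_le_mul_of_nonneg_left hV hBQ0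
    linarith
  have hsB : (s:ℝ) ≤ B := by nlinarith
  have e3 : 1 + U / s ≤ 3 * B / s := by
    rw [← div_self hs0.ne', ← add_div]
    apply div_le_div_of_nonneg_right _ hs0.le
    have := (abs_le.mp hU).2
    linarith
  have e4 : 1 + V / s ≤ 3 * r := by
    have h5 : V ≤ a + 1 := by have := (abs_le.mp hV).2; linarith
    have h6 : V / s ≤ (a + 1) / s := div_le_div_of_nonneg_right h5 hs0.le
    have h7 : ((a:ℝ) + 1) / s ≤ 2 * r := by
      rw [div_le_iff₀ hs0, haR]; nlinarith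
    linarith
  have e5 : (s:ℝ)^((7:ℝ)/8) / s = (s:ℝ)^(-(1/8:ℝ)) := by
    rw [div_eq_iff hs0.ne']
    conv_rhs => rw [← Real.rpow_one (s:ℝ), ← Real.rpow_mul hs0.le, ← Real.rpow_add hs0]
    congr 1
    norm_num
  have e6 : 1 / (s:ℝ) ≤ (s:ℝ)^(-(1/8:ℝ)) := by
    rw [← e5]
    apply div_le_div_of_nonneg_right _ hs0.le
    exact Real.one_le_rpow hsR (by norm_num)
  have e7 : (s:ℝ)^(-(1/8:ℝ)) ≤ (a:ℝ)^(-(1/8:ℝ)) * r := by
    rw [haR, Real.mul_rpow hr0.le hs0.le]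
    have h8 : 1 ≤ (r:ℝ)^(-(1/8:ℝ)) * r := by
      conv_rhs => rw [← Real.rpow_one (r:ℝ), ← Real.rpow_mul hr0.le, ← Real.rpow_add hr0]
      exact Real.one_le_rpow hrR (by norm_num)
    have h9 : 0 ≤ (s:ℝ)^(-(1/8:ℝ)) := by positivity
    nlinarith
  have h10 : |cnt - (B / Q) * (a / Q) * (s.totient / (s:ℝ)^2)| ≤
      |cnt - U * V * s.totient / (s:ℝ)^2| + |U * V - (B / Q) * (a / Q)| * (s.totient / (s:ℝ)^2) := by
    have h11 : cnt - (B / Q) * (a / Q) * (s.totient / (s:ℝ)^2) =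
        (cnt - U * V * s.totient / (s:ℝ)^2) +
          (U * V - (B / Q) * (a / Q)) * (s.totient / (s:ℝ)^2) := by ring
    rw [h11]
    refine (abs_add_le _ _).trans ?_
    rw [abs_mul, abs_of_nonneg hphi0]
  refine h10.trans ?_
  have h12 : |U * V - (B / Q) * (a / Q)| * (s.totient / (s:ℝ)^2) ≤ 3 * B * (1 / s) :=
    mul_le_mul e2 hphi hphi0 (by positivity)
  have h13 : C1 * (s:ℝ)^((7:ℝ)/8) * (1 + U / s) * (1 + V / s) ≤
      C1 * (s:ℝ)^((7:ℝ)/8) * (3 * B / s) * (3 * r) := by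
    apply mul_le_mul _ e4 (by positivity) (by positivity)
    exact mul_le_mul_of_nonneg_left e3 (by positivity)
  have h14 : C1 * (s:ℝ)^((7:ℝ)/8) * (3 * B / s) * (3 * r) = 9 * C1 * B * r * (s:ℝ)^(-(1/8:ℝ)) := by
    rw [← e5]; ring
  have hx0 : 0 ≤ (s:ℝ)^(-(1/8:ℝ)) := by positivity
  have hB0 : (0:ℝ) ≤ B := by linarith
  calc |cnt - U * V * s.totient / (s:ℝ)^2| + |U * V - (B / Q) * (a / Q)| * (s.totient / (s:ℝ)^2)
      ≤ 9 * C1 * B * r * (s:ℝ)^(-(1/8:ℝ)) + 3 * B * (s:ℝ)^(-(1/8:ℝ)) := by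
        have h15 : 3 * (B:ℝ) * (1 / s) ≤ 3 * B * (s:ℝ)^(-(1/8:ℝ)) :=
          mul_le_mul_of_nonneg_left e6 (by positivity)
        linarith
    _ ≤ (9 * C1 + 3) * B * r * (s:ℝ)^(-(1/8:ℝ)) := by
        have h16 : 3 * (B:ℝ) * (s:ℝ)^(-(1/8:ℝ)) ≤ 3 * B * (s:ℝ)^(-(1/8:ℝ)) * r :=
          le_mul_of_one_le_right (by positivity) hrR
        have h17 : (9 * C1 + 3) * B * r * (s:ℝ)^(-(1/8:ℝ)) = 9 * C1 * B * r * (s:ℝ)^(-(1/8:ℝ)) +
          3 * B * (s:ℝ)^(-(1/8:ℝ)) * r := by ring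
        linarith
    _ ≤ (9 * C1 + 3) * B * r * ((a:ℝ)^(-(1/8:ℝ)) * r) :=
        mul_le_mul_of_nonneg_left e7 (by positivity)
    _ = (9 * C1 + 3) * B * (r:ℝ)^2 * (a:ℝ)^(-(1/8:ℝ)) := by ring

/-- the number of local solutions -/
noncomputable def lc (R : ℕ → ℕ → Prop) (m : ℕ) : ℕ :=
  (((range m) ×ˢ (range m)).filter (fun t => R t.1 t.2)).card

lemma lc_le (R : ℕ → ℕ → Prop) (m : ℕ) : lc R m ≤ m^2 := by
  unfold lc
  refine (card_filter_le _ _).trans ?_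
  rw [card_product, card_range, pow_two]

lemma lc_hyp (r : ℕ) : lc (fun b z => (b * z) % r = 1 % r) r ≤ r := by
  unfold lc
  calc _ ≤ (range r).card := by
        refine card_le_card_of_injOn (fun t => t.1) ?_ ?_
        · rintro ⟨b, z⟩ ht
          simp only [mem_coe, mem_filter, mem_product] at ht
          exact ht.1.1
        · rintro ⟨b, z⟩ ht ⟨b', z'⟩ ht' heq
          simp only [mem_coe, mem_filter, mem_product, mem_range] at ht ht'
          simp only at heq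
          subst heq
          have h1 : (b * z) ≡ 1 [MOD r] := ht.2
          have h2 : (b * z') ≡ 1 [MOD r] := ht'.2
          have hcop : Nat.Coprime r b := by
            rw [Nat.coprime_iff_gcd_eq_one]
            have h3 : Nat.gcd r b ∣ 1 := by
              have h4 : Nat.gcd r b ∣ b * z := (Nat.gcd_dvd_right r b).mul_right z
              have h5 : b * z ≡ 1 [MOD Nat.gcd r b] := h1.of_dvd (Nat.gcd_dvd_left r b)
              exact (Nat.modEq_zero_iff_dvd).mp (h5.symm.trans ((Nat.modEq_zero_iff_dvd).mpr h4))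
            exact Nat.dvd_one.mp h3
          have h6 : z ≡ z' [MOD r] := Nat.ModEq.cancel_left_of_coprime hcop (h1.trans h2.symm)
          rw [h6.eq_of_lt_of_lt ht.1.2 ht'.1.2]
    _ = r := card_range r

/-- the joint count -/
lemma count_bound : ∃ C : ℝ, 0 < C ∧ ∀ (B a r s : ℕ) (T : Finset ℕ) (R : ℕ → ℕ → ℕ → Prop),
    a = r * s → 0 < r → 0 < s → a ≤ B → Squarefree s → Nat.Coprime r s →
    (∀ q ∈ T, q.Prime ∧ ¬ q ∣ a) →
    (∀ q ∈ T, ∀ b z, R q b z ↔ R q (b % q^2) (z % q^2)) →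
    |((((range B) ×ˢ (range a)).filter (fun t => (t.1 * t.2) % a = 1 % a ∧
      ∀ q ∈ T, R q t.1 t.2)).card : ℝ) -
      B * (a * lc (fun b z => (b * z) % r = 1 % r) r * s.totient / ((r:ℝ)^2 * (s:ℝ)^2)) *
        ∏ q ∈ T, ((lc (R q) (q^2) : ℝ) / (q:ℝ)^4)| ≤
      C * B * (r:ℝ)^4 * (a:ℝ)^(-(1/8:ℝ)) * ∏ q ∈ T, (q:ℝ)^4 := by
  obtain ⟨C, hC, hcl⟩ := class_bound
  refine ⟨C, hC, ?_⟩
  intro B a r s T R ha hr hs haB hsq hrs hT hR
  set Q : ℕ := r * ∏ q ∈ T, q^2 with hQd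
  have hrT : ∀ q ∈ T, Nat.Coprime r q := fun q hq => by
    rw [Nat.coprime_comm, (hT q hq).1.coprime_iff_not_dvd]
    intro h
    exact (hT q hq).2 (by rw [ha]; exact h.mul_right s)
  have hsT : ∀ q ∈ T, Nat.Coprime s q := fun q hq => by
    rw [Nat.coprime_comm, (hT q hq).1.coprime_iff_not_dvd]
    intro h
    exact (hT q hq).2 (by rw [ha]; exact h.mul_left r)
  have hQ0 : 0 < Q := Nat.mul_pos hr (prod_pos fun q hq => pow_pos (hT q hq).1.pos 2)
  have hQs : Nat.Coprime Q s := by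
    refine Nat.Coprime.mul_left hrs (Nat.Coprime.prod_left fun q hq => ?_)
    exact Nat.Coprime.pow_left 2 (hsT q hq).symm
  have hrQ : r ∣ Q := dvd_mul_right _ _
  have hqQ : ∀ q ∈ T, q^2 ∣ Q := fun q hq =>
    (dvd_prod_of_mem (fun q => q^2) hq).trans (dvd_mul_left _ _)
  -- the classes
  set A : Finset (ℕ × ℕ) := ((range Q) ×ˢ (range Q)).filter
    (fun t => (t.1 * t.2) % r = 1 % r ∧ ∀ q ∈ T, R q t.1 t.2) with hA
  have hAcard : A.card = lc (fun b z => (b * z) % r = 1 % r) r * ∏ q ∈ T, lc (R q) (q^2) := by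
    have h1 := crt_many r hr T (fun q hq => (hT q hq).1) hrT (fun b z => (b * z) % r = 1 % r) R
      (fun b z => by rw [← Nat.mul_mod]) hR
    rw [hA]
    unfold lc
    rw [← h1]
    congr!
  set S : Finset (ℕ × ℕ) := ((range B) ×ˢ (range a)).filter (fun t => (t.1 * t.2) % a = 1 % a ∧
      ∀ q ∈ T, R q t.1 t.2) with hS
  have hmod : ∀ b z : ℕ, (b * z) % a = 1 % a ↔ (b * z) % r = 1 % r ∧ (b * z) % s = 1 % s := by
    intro b z
    rw [ha]
    exact (Nat.modEq_and_modEq_iff_modEq_mul hrs).symm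
  have hper : ∀ b z : ℕ, ((b % Q) * (z % Q)) % r = (b * z) % r := by
    intro b z
    rw [Nat.mul_mod, Nat.mod_mod_of_dvd _ hrQ, Nat.mod_mod_of_dvd _ hrQ, ← Nat.mul_mod]
  have hperR : ∀ q ∈ T, ∀ b z : ℕ, R q (b % Q) (z % Q) ↔ R q b z := by
    intro q hq b z
    rw [hR q hq, Nat.mod_mod_of_dvd _ (hqQ q hq), Nat.mod_mod_of_dvd _ (hqQ q hq), ← hR q hq]
  have hfib : S.card = ∑ t ∈ A, (((range B) ×ˢ (range a)).filter
      (fun x => (x.1 % Q = t.1 ∧ x.2 % Q = t.2) ∧ (x.1 * x.2) % s = 1 % s)).card := by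
    rw [card_eq_sum_card_fiberwise (f := fun x : ℕ × ℕ => (x.1 % Q, x.2 % Q)) (t := A)]
    · refine sum_congr rfl fun t ht => ?_
      rw [hA, mem_filter] at ht
      congr 1
      ext x
      rw [hS]
      simp only [mem_filter]
      constructor
      · rintro ⟨⟨h1, h2, h3⟩, h4⟩
        refine ⟨h1, ⟨?_, ?_⟩, ((hmod _ _).mp h2).2⟩
        · rw [← h4]
        · rw [← h4]
      · rintro ⟨h1, ⟨h2, h3⟩, h4⟩
        have h5 : (x.1 % Q, x.2 % Q) = t := by rw [h2, h3]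
        refine ⟨⟨h1, (hmod _ _).mpr ⟨?_, h4⟩, fun q hq => ?_⟩, h5⟩
        · rw [← hper, h2, h3]; exact ht.2.1
        · rw [← hperR q hq, h2, h3]; exact ht.2.2 q hq
    · intro x hx
      rw [hS, mem_coe, mem_filter] at hx
      rw [mem_coe, hA, mem_filter, mem_product, mem_range, mem_range]
      refine ⟨⟨Nat.mod_lt _ hQ0, Nat.mod_lt _ hQ0⟩, ?_, fun q hq => (hperR q hq _ _).mpr (hx.2.2 q hq)⟩
      show ((x.1 % Q) * (x.2 % Q)) % r = 1 % r
      rw [hper]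
      exact ((hmod _ _).mp hx.2.1).1
  have hsR : (1:ℝ) ≤ s := by exact_mod_cast hs
  have hrR : (1:ℝ) ≤ r := by exact_mod_cast hr
  have hs0 : (s:ℝ) ≠ 0 := by positivity
  have hr0 : (r:ℝ) ≠ 0 := by positivity
  set m : ℝ := (B / Q) * (a / Q) * (s.totient / (s:ℝ)^2) with hm
  set e : ℝ := C * B * (r:ℝ)^2 * (a:ℝ)^(-(1/8:ℝ)) with he
  have he0 : 0 ≤ e := by positivity
  have hdiff : |(S.card : ℝ) - A.card * m| ≤ A.card * e := by
    rw [hfib]
    push_cast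
    have h1 : (A.card : ℝ) * m = ∑ _t ∈ A, m := by rw [sum_const, nsmul_eq_mul]
    have h2 : (A.card : ℝ) * e = ∑ _t ∈ A, e := by rw [sum_const, nsmul_eq_mul]
    rw [h1, h2, ← sum_sub_distrib]
    refine (abs_sum_le_sum_abs _ _).trans (sum_le_sum fun t ht => ?_)
    rw [hA, mem_filter, mem_product, mem_range, mem_range] at ht
    exact hcl B a r s Q t.1 t.2 ha hr hs haB hsq hQs ht.1.1 ht.1.2
  have hQcast : (Q:ℝ)^2 = (r:ℝ)^2 * ∏ q ∈ T, (q:ℝ)^4 := by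
    rw [hQd]
    push_cast
    rw [mul_pow, ← prod_pow]
    congr 1
    exact prod_congr rfl fun q _ => by ring
  have hP4 : ∏ q ∈ T, (q:ℝ)^4 ≠ 0 := by
    rw [prod_ne_zero_iff]
    intro q hq
    have := (hT q hq).1.pos
    positivity
  have hmain : (A.card : ℝ) * m =
      B * (a * lc (fun b z => (b * z) % r = 1 % r) r * s.totient / ((r:ℝ)^2 * (s:ℝ)^2)) *
        ∏ q ∈ T, ((lc (R q) (q^2) : ℝ) / (q:ℝ)^4) := by
    rw [hAcard, hm, prod_div_distrib]
    push_cast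
    have hQ' : (B:ℝ) / Q * (a / Q) = B * a / ((r:ℝ)^2 * ∏ q ∈ T, (q:ℝ)^4) := by
      rw [← hQcast, pow_two]
      field_simp
    rw [hQ']
    field_simp
  have hAle : (A.card : ℝ) ≤ (r:ℝ)^2 * ∏ q ∈ T, (q:ℝ)^4 := by
    rw [← hQcast, hA]
    have h1 : (((range Q) ×ˢ (range Q)).filter
      (fun t => (t.1 * t.2) % r = 1 % r ∧ ∀ q ∈ T, R q t.1 t.2)).card ≤ Q^2 := by
      refine (card_filter_le _ _).trans ?_
      rw [card_product, card_range, pow_two]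
    exact_mod_cast h1
  rw [← hmain]
  refine hdiff.trans ?_
  calc (A.card : ℝ) * e ≤ ((r:ℝ)^2 * ∏ q ∈ T, (q:ℝ)^4) * e := mul_le_mul_of_nonneg_right hAle he0
    _ = C * B * (r:ℝ)^4 * (a:ℝ)^(-(1/8:ℝ)) * ∏ q ∈ T, (q:ℝ)^4 := by rw [he]; ring

lemma rpow_le_bb {n a : ℕ} (h : bb (n + 10) ≤ a) :
    (a:ℝ)^(-(1/8:ℝ)) ≤ 1 / (bb n : ℝ)^78 := by
  have h1 : bb (n + 10) = (bb (n + 7))^8 := by
    have := bb_add (n + 7) 3
    rw [show n + 7 + 3 = n + 10 by ring] at this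
    rw [this]; norm_num
  have h2 : (bb n)^78 ≤ bb (n + 7) := by
    rw [bb_add n 7]
    exact Nat.pow_le_pow_right (bb_pos n) (by norm_num)
  have h3 : (0:ℝ) < bb (n + 7) := by exact_mod_cast bb_pos (n + 7)
  have h4 : (0:ℝ) < (bb n : ℝ)^78 := by
    have : (0:ℝ) < bb n := by exact_mod_cast bb_pos n
    positivity
  have h5 : (bb (n + 7) : ℝ)^8 ≤ a := by rw [h1] at h; exact_mod_cast h
  have h6 : (a:ℝ)^(-(1/8:ℝ)) ≤ ((bb (n + 7) : ℝ)^8)^(-(1/8:ℝ)) :=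
    Real.rpow_le_rpow_of_nonpos (pow_pos h3 8) h5 (by norm_num)
  have h7 : ((bb (n + 7) : ℝ)^8)^(-(1/8:ℝ)) = 1 / (bb (n + 7) : ℝ) := by
    rw [← Real.rpow_natCast, ← Real.rpow_mul h3.le,
      show ((8:ℕ):ℝ) * (-(1/8:ℝ)) = -1 by norm_num, Real.rpow_neg_one, one_div]
  rw [h7] at h6
  refine h6.trans (one_div_le_one_div_of_le h4 ?_)
  exact_mod_cast h2

lemma two_pow_le_bb (n : ℕ) : 2^n ≤ bb n := by
  unfold bb
  exact Nat.pow_le_pow_right (by norm_num) Nat.lt_two_pow_self.le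

/-- the two-dimensional sieve -/
theorem sieve2 : ∃ C : ℝ, 0 < C ∧ ∀ (K a B : ℕ) (D P : Finset ℕ) (E Cd : ℕ → ℕ → ℕ → Prop),
    2000 ≤ K → bb K ≤ a → a ≤ B → NSq K a → D.card ≤ 3 →
    (∀ q ∈ D, q.Prime ∧ q ≤ bb (K-10) ∧ ¬ q ∣ a) → Disjoint D P →
    (∀ p ∈ P, p.Prime ∧ 2 < p ∧ p ≤ bb (K-10) ∧ ¬ p ∣ a) →
    (∀ p ∈ P, ∀ b z, E p b z ↔ E p (b % p^2) (z % p^2)) →
    (∀ q ∈ D, ∀ b z, Cd q b z ↔ Cd q (b % q^2) (z % q^2)) →
    (∀ p ∈ P, (((range (p^2)) ×ˢ (range (p^2))).filter (fun t => E p t.1 t.2)).card ≤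
      3 * p^3) →
    (∀ q ∈ D, (((range (q^2)) ×ˢ (range (q^2))).filter (fun t => Cd q t.1 t.2)).card ≤
      2 * q^3) →
    ((((range B) ×ˢ (range a)).filter (fun t => (t.1 * t.2) % a = 1 % a ∧
      (∀ q ∈ D, Cd q t.1 t.2) ∧ ∀ p ∈ P, ¬ E p t.1 t.2)).card : ℝ) ≤
      C * B * (∏ q ∈ D, (1:ℝ)/q) *
        Real.exp (- ∑ p ∈ P, ((((range (p^2)) ×ˢ (range (p^2))).filter
          (fun t => E p t.1 t.2)).card : ℝ) / (p:ℝ)^4) := by
  obtain ⟨C1, hC1, hcb⟩ := count_bound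
  obtain ⟨C2, hC2, hsieve⟩ := absieve 3 4
  obtain ⟨C3, hC3, hlow⟩ := exp_neg_lower 3
  refine ⟨8 * C2 + C1 * C3, by positivity, ?_⟩
  intro K a B D P E Cd hK haK haB hNSq hD3 hD hDP hP hE hCd hE3 hCd2
  have hbbK : 0 < bb K := by unfold bb; positivity
  have ha0 : 0 < a := by omega
  obtain ⟨r, s, d, ha, hsq, hrs, hd, hrd, hr, hs⟩ := exists_rs a ha0
  have hd' : d ≤ bb (kk K) := by
    by_contra h
    push Not at h
    exact hNSq d h hd
  obtain ⟨n, hn⟩ : ∃ n, K = n + 10 := ⟨K - 10, by omega⟩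
  have hn' : K - 10 = n := by omega
  rw [hn'] at hD hP
  have hkk : kk K ≤ n := by have := kk_lt K hK; omega
  clear hK
  have hrb : r ≤ (bb n)^3 := hrd.trans (Nat.pow_le_pow_left (hd'.trans (bb_mono hkk)) 3)
  clear hkk hd' hNSq
  set x : ℝ := (bb n : ℝ) with hx
  have hx2 : (2:ℝ)^n ≤ x := by rw [hx]; exact_mod_cast two_pow_le_bb n
  have hx1 : 1 ≤ x := by
    have : (1:ℝ) ≤ (2:ℝ)^n := one_le_pow₀ (by norm_num)
    linarith
  have hx0 : 0 < x := by linarith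
  have ha18 : (a:ℝ)^(-(1/8:ℝ)) ≤ 1 / x^78 := rpow_le_bb (by rw [← hn]; exact haK)
  set S : Finset (ℕ × ℕ) := ((range B) ×ˢ (range a)).filter (fun t => (t.1 * t.2) % a = 1 % a ∧
      ∀ q ∈ D, Cd q t.1 t.2) with hS
  set c0 : ℝ := (a:ℝ) * lc (fun b z => (b * z) % r = 1 % r) r * s.totient /
    ((r:ℝ)^2 * (s:ℝ)^2) with hc0
  set N : ℝ := B * c0 * ∏ q ∈ D, ((lc (Cd q) (q^2) : ℝ) / (q:ℝ)^4) with hN
  set E0 : ℝ := C1 * B * (r:ℝ)^4 * (a:ℝ)^(-(1/8:ℝ)) * ∏ q ∈ D, (q:ℝ)^4 with hE0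
  have hrR : (1:ℝ) ≤ r := by exact_mod_cast hr
  have hsR : (1:ℝ) ≤ s := by exact_mod_cast hs
  have hc00 : 0 ≤ c0 := by positivity
  have hc01 : c0 ≤ 1 := by
    rw [hc0, div_le_one (by positivity)]
    have h1 : (lc (fun b z => (b * z) % r = 1 % r) r : ℝ) ≤ r := by exact_mod_cast lc_hyp r
    have h2 : (s.totient : ℝ) ≤ s := by exact_mod_cast Nat.totient_le s
    have h3 : (a:ℝ) = r * s := by exact_mod_cast ha
    rw [h3]
    calc (r:ℝ) * s * lc (fun b z => (b * z) % r = 1 % r) r * s.totient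
        ≤ (r:ℝ) * s * r * s := by
          apply mul_le_mul _ h2 (by positivity) (by positivity)
          exact mul_le_mul_of_nonneg_left h1 (by positivity)
      _ = (r:ℝ)^2 * (s:ℝ)^2 := by ring
  have hN0 : 0 ≤ N := by
    rw [hN]
    exact mul_nonneg (mul_nonneg (Nat.cast_nonneg _) hc00) (prod_nonneg fun q _ => by positivity)
  have hE00 : 0 ≤ E0 := by
    rw [hE0]
    exact mul_nonneg (by positivity) (prod_nonneg fun q _ => by positivity)
  have hδ : ∀ p ∈ P, 0 ≤ (lc (E p) (p^2) : ℝ) / (p:ℝ)^4 ∧ (lc (E p) (p^2) : ℝ) / (p:ℝ)^4 ≤ 1 ∧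
      (lc (E p) (p^2) : ℝ) / (p:ℝ)^4 ≤ ((3:ℕ):ℝ) / p := by
    intro p hp
    have hp0 : (0:ℝ) < p := by exact_mod_cast (hP p hp).1.pos
    refine ⟨by positivity, ?_, ?_⟩
    · rw [div_le_one (by positivity)]
      have h1 := lc_le (E p) (p^2)
      have h2 : ((lc (E p) (p^2) : ℕ) : ℝ) ≤ (((p^2)^2 : ℕ) : ℝ) := by exact_mod_cast h1
      refine h2.trans (le_of_eq ?_)
      push_cast; ring
    · have h1 : ((lc (E p) (p^2) : ℕ) : ℝ) ≤ ((3 * p^3 : ℕ) : ℝ) := by exact_mod_cast hE3 p hp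
      rw [div_le_div_iff₀ (by positivity) hp0]
      push_cast at h1 ⊢
      calc (lc (E p) (p^2) : ℝ) * p ≤ (3 * (p:ℝ)^3) * p := mul_le_mul_of_nonneg_right h1 hp0.le
        _ = 3 * (p:ℝ)^4 := by ring
  have hcount : ∀ D' ⊆ P, |((S.filter (fun j => ∀ p ∈ D', E p j.1 j.2)).card : ℝ) -
      N * ∏ p ∈ D', ((lc (E p) (p^2) : ℝ) / (p:ℝ)^4)| ≤ E0 * ∏ p ∈ D', (p:ℝ)^4 := by
    intro D' hD'
    have hdis : Disjoint D D' := disjoint_of_subset_right hD' hDP
    have hnot : ∀ q ∈ D', q ∉ D := fun q hq hq' => (disjoint_left.mp hdis) hq' hq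
    have h1 := hcb B a r s (D ∪ D') (fun q b z => if q ∈ D then Cd q b z else E q b z) ha hr hs haB
      hsq hrs (fun q hq => by
        rcases mem_union.mp hq with h | h
        · exact ⟨(hD q h).1, (hD q h).2.2⟩
        · exact ⟨(hP q (hD' h)).1, (hP q (hD' h)).2.2.2⟩) (fun q hq b z => by
        by_cases h : q ∈ D
        · simp only [h, if_true]; exact hCd q h b z
        · simp only [h, if_false]
          exact hE q (hD' ((mem_union.mp hq).resolve_left h)) b z)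
    have hset : ((range B) ×ˢ (range a)).filter (fun t => (t.1 * t.2) % a = 1 % a ∧
        ∀ q ∈ D ∪ D', if q ∈ D then Cd q t.1 t.2 else E q t.1 t.2) =
        S.filter (fun j => ∀ p ∈ D', E p j.1 j.2) := by
      rw [hS]
      ext t
      simp only [mem_filter]
      constructor
      · rintro ⟨h2, h3, h4⟩
        refine ⟨⟨h2, h3, fun q hq => ?_⟩, fun p hp => ?_⟩
        · have := h4 q (mem_union_left _ hq)
          rwa [if_pos hq] at this
        · have := h4 p (mem_union_right _ hp)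
          rwa [if_neg (hnot p hp)] at this
      · rintro ⟨⟨h2, h3, h4⟩, h5⟩
        refine ⟨h2, h3, fun q hq => ?_⟩
        by_cases h : q ∈ D
        · rw [if_pos h]; exact h4 q h
        · rw [if_neg h]; exact h5 q ((mem_union.mp hq).resolve_left h)
    have hpr1 : ∏ q ∈ D ∪ D', ((lc (fun b z => if q ∈ D then Cd q b z else E q b z) (q^2) : ℝ) /
        (q:ℝ)^4) = (∏ q ∈ D, ((lc (Cd q) (q^2) : ℝ) / (q:ℝ)^4)) *
          ∏ p ∈ D', ((lc (E p) (p^2) : ℝ) / (p:ℝ)^4) := by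
      rw [prod_union hdis]
      congr 1
      · refine prod_congr rfl fun q hq => ?_
        simp only [hq, if_true]
      · refine prod_congr rfl fun q hq => ?_
        simp only [hnot q hq, if_false]
    have hpr2 : ∏ q ∈ D ∪ D', (q:ℝ)^4 = (∏ q ∈ D, (q:ℝ)^4) * ∏ q ∈ D', (q:ℝ)^4 :=
      prod_union hdis
    rw [hpr1, hpr2] at h1
    have h2 : (((range B) ×ˢ (range a)).filter (fun t => (t.1 * t.2) % a = 1 % a ∧
        ∀ q ∈ D ∪ D', if q ∈ D then Cd q t.1 t.2 else E q t.1 t.2)).card =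
        (S.filter (fun j => ∀ p ∈ D', E p j.1 j.2)).card := by rw [hset]
    have h3 : (((S.filter (fun j => ∀ p ∈ D', E p j.1 j.2)).card : ℕ) : ℝ) =
        ((((range B) ×ˢ (range a)).filter (fun t => (t.1 * t.2) % a = 1 % a ∧
        ∀ q ∈ D ∪ D', (fun q b z => if q ∈ D then Cd q b z else E q b z) q t.1 t.2)).card : ℝ) := by
      rw [← h2]
      congr!
    rw [h3, hN, hE0]
    calc _ = _ := by
          congr 2
          rw [hc0]; ring
      _ ≤ _ := h1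
      _ = _ := by ring
  have hmain := hsieve (ι := ℕ × ℕ) S P n (fun p t => E p t.1 t.2)
    (fun p => (lc (E p) (p^2) : ℝ) / (p:ℝ)^4) (fun p => (p:ℝ)^4) N E0 hN0 hE00
    (fun p hp => ⟨(hP p hp).1, (hP p hp).2.1, (hP p hp).2.2.1⟩) hδ
    (fun p hp => ⟨by positivity, le_refl _⟩) hcount
  have hlow' := hlow P n (fun p => (lc (E p) (p^2) : ℝ) / (p:ℝ)^4)
    (fun p hp => ⟨(hP p hp).1, (hP p hp).2.1, (hP p hp).2.2.1⟩) (fun p hp => (hδ p hp).2.2)
  set X : ℝ := Real.exp (- ∑ p ∈ P, (lc (E p) (p^2) : ℝ) / (p:ℝ)^4) with hX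
  have hX0 : 0 < X := Real.exp_pos _
  have hset2 : ((range B) ×ˢ (range a)).filter (fun t => (t.1 * t.2) % a = 1 % a ∧
      (∀ q ∈ D, Cd q t.1 t.2) ∧ ∀ p ∈ P, ¬ E p t.1 t.2) =
      S.filter (fun j => ∀ p ∈ P, ¬ E p j.1 j.2) := by
    rw [hS]
    ext t
    simp only [mem_filter]
    tauto
  have hgoal : ((((range B) ×ˢ (range a)).filter (fun t => (t.1 * t.2) % a = 1 % a ∧
      (∀ q ∈ D, Cd q t.1 t.2) ∧ ∀ p ∈ P, ¬ E p t.1 t.2)).card : ℝ) ≤
      C2 * N * X + E0 * x^48 := by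
    rw [hset2]
    exact hmain
  -- the product over `D`
  have hqpos : ∀ q ∈ D, (0:ℝ) < q := fun q hq => by exact_mod_cast (hD q hq).1.pos
  have hqx : ∀ q ∈ D, (q:ℝ) ≤ x := fun q hq => by rw [hx]; exact_mod_cast (hD q hq).2.1
  set Y : ℝ := ∏ q ∈ D, (1:ℝ) / q with hY
  have hY0 : 0 ≤ Y := prod_nonneg fun q _ => by positivity
  have hYlow : 1 / x^3 ≤ Y := by
    calc 1 / x^3 ≤ 1 / x^D.card := by
          apply one_div_le_one_div_of_le (by positivity)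
          exact pow_le_pow_right₀ hx1 hD3
      _ = ∏ _q ∈ D, 1 / x := by rw [prod_const, one_div_pow]
      _ ≤ Y := prod_le_prod (fun q _ => by positivity) fun q hq =>
          one_div_le_one_div_of_le (hqpos q hq) (hqx q hq)
  have hNle : N ≤ 8 * B * Y := by
    have h1 : ∏ q ∈ D, ((lc (Cd q) (q^2) : ℝ) / (q:ℝ)^4) ≤ 8 * Y := by
      calc ∏ q ∈ D, ((lc (Cd q) (q^2) : ℝ) / (q:ℝ)^4) ≤ ∏ q ∈ D, (2 * (1 / (q:ℝ))) := by
            refine prod_le_prod (fun q _ => by positivity) fun q hq => ?_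
            have h2 : ((lc (Cd q) (q^2) : ℕ) : ℝ) ≤ ((2 * q^3 : ℕ) : ℝ) := by
              exact_mod_cast hCd2 q hq
            have hq0 := hqpos q hq
            rw [mul_one_div, div_le_div_iff₀ (by positivity) hq0]
            push_cast at h2
            calc (lc (Cd q) (q^2) : ℝ) * q ≤ (2 * (q:ℝ)^3) * q :=
                  mul_le_mul_of_nonneg_right h2 hq0.le
              _ = 2 * (q:ℝ)^4 := by ring
        _ = 2^D.card * Y := by rw [prod_mul_distrib, prod_const]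
        _ ≤ 8 * Y := by
            apply mul_le_mul_of_nonneg_right _ hY0
            calc (2:ℝ)^D.card ≤ 2^3 := pow_le_pow_right₀ (by norm_num) hD3
              _ = 8 := by norm_num
    rw [hN]
    calc (B:ℝ) * c0 * ∏ q ∈ D, ((lc (Cd q) (q^2) : ℝ) / (q:ℝ)^4)
        ≤ (B:ℝ) * 1 * (8 * Y) := by
          apply mul_le_mul _ h1 (prod_nonneg fun q _ => by positivity) (by positivity)
          exact mul_le_mul_of_nonneg_left hc01 (Nat.cast_nonneg _)
      _ = 8 * B * Y := by ring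
  have hE0le : E0 * x^48 ≤ C1 * B * (1 / x^6) := by
    have h1 : ∏ q ∈ D, (q:ℝ)^4 ≤ x^12 := by
      calc ∏ q ∈ D, (q:ℝ)^4 ≤ ∏ _q ∈ D, x^4 :=
            prod_le_prod (fun q _ => by positivity) fun q hq =>
              pow_le_pow_left₀ (hqpos q hq).le (hqx q hq) 4
        _ = (x^4)^D.card := by rw [prod_const]
        _ ≤ (x^4)^3 := pow_le_pow_right₀ (one_le_pow₀ hx1) hD3
        _ = x^12 := by ring
    have h2 : (r:ℝ)^4 ≤ x^12 := by
      have h3 : (r:ℝ) ≤ x^3 := by rw [hx]; exact_mod_cast hrb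
      calc (r:ℝ)^4 ≤ (x^3)^4 := pow_le_pow_left₀ (by positivity) h3 4
        _ = x^12 := by ring
    have h5 : 0 ≤ (a:ℝ)^(-(1/8:ℝ)) := by positivity
    calc E0 * x^48 = (C1 * B) * ((r:ℝ)^4 * (a:ℝ)^(-(1/8:ℝ)) * (∏ q ∈ D, (q:ℝ)^4)) * x^48 := by
          rw [hE0]; ring
      _ ≤ (C1 * B) * (x^12 * (1 / x^78) * x^12) * x^48 := by
          apply mul_le_mul_of_nonneg_right _ (by positivity)
          apply mul_le_mul_of_nonneg_left _ (by positivity)
          apply mul_le_mul _ h1 (prod_nonneg fun q _ => by positivity) (by positivity)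
          exact mul_le_mul h2 ha18 h5 (by positivity)
      _ = C1 * B * (1 / x^6) := by
          field_simp
  have hlow2 : 1 / x^3 ≤ C3 * X := by
    refine le_trans ?_ hlow'
    apply one_div_le_one_div_of_le (by positivity)
    calc (2:ℝ)^(3 * n) = ((2:ℝ)^n)^3 := by rw [← pow_mul, mul_comm]
      _ ≤ x^3 := pow_le_pow_left₀ (by positivity) hx2 3
  have hfin2 : E0 * x^48 ≤ C1 * C3 * B * Y * X := by
    refine hE0le.trans ?_
    have h1 : 1 / x^6 ≤ Y * (C3 * X) := by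
      calc 1 / x^6 = (1 / x^3) * (1 / x^3) := by field_simp
        _ ≤ Y * (C3 * X) := mul_le_mul hYlow hlow2 (by positivity) hY0
    calc C1 * B * (1 / x^6) ≤ C1 * B * (Y * (C3 * X)) :=
          mul_le_mul_of_nonneg_left h1 (by positivity)
      _ = C1 * C3 * B * Y * X := by ring
  have hfin1 : C2 * N * X ≤ 8 * C2 * B * Y * X := by
    apply mul_le_mul_of_nonneg_right _ hX0.le
    calc C2 * N ≤ C2 * (8 * B * Y) := mul_le_mul_of_nonneg_left hNle hC2.le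
      _ = 8 * C2 * B * Y := by ring
  have hres : C2 * N * X + E0 * x^48 ≤ (8 * C2 + C1 * C3) * B * Y * X := by
    calc C2 * N * X + E0 * x^48 ≤ 8 * C2 * B * Y * X + C1 * C3 * B * Y * X :=
          add_le_add hfin1 hfin2
      _ = _ := by ring
  exact hgoal.trans hres

end Pool.Agent.H24.KS
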