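import Mathlib
import Pool.Agent.H24.KS.Sieve2
import Pool.Agent.H24.KS.Loc2

/-!
M15: the two-dimensional sieve for fixed `a` in terms of `Lz`.
-/

namespace Pool.Agent.H24.KS

open Finset Classical
open Pool.Agent.H95.Gol

lemma lg_modEq {p m : ℕ} (hm : m ∣ p^2) (b : ℕ) : ((b % p^2 : ℕ) : ℤ) ≡ (b : ℤ) [ZMOD m] := by
  have h : ((b % p^2 : ℕ) : ℤ) ≡ (b : ℤ) [ZMOD ((p^2 : ℕ) : ℤ)] := by
    rw [Int.natCast_mod]
    exact Int.mod_modEq _ _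
  exact h.of_dvd (by exact_mod_cast hm)

lemma lg_dvd_iff {m : ℕ} {x y : ℤ} (h : x ≡ y [ZMOD m]) : (m:ℤ) ∣ x ↔ (m:ℤ) ∣ y := by
  rw [← Int.modEq_zero_iff_dvd, ← Int.modEq_zero_iff_dvd]
  exact ⟨fun h1 => h.symm.trans h1, fun h1 => h.trans h1⟩

lemma lg_lin {p m a : ℕ} (hm : m ∣ p^2) (b z : ℕ) :
    ((m:ℤ) ∣ (b:ℤ) * (a - z) + 1 ↔ (m:ℤ) ∣ ((b % p^2 : ℕ):ℤ) * (a - (z % p^2 : ℕ)) + 1) :=
  lg_dvd_iff (((lg_modEq hm b).symm.mul ((Int.ModEq.refl _).sub (lg_modEq hm z).symm)).add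
    (Int.ModEq.refl _))

lemma lg_ab {p m a : ℕ} (hm : m ∣ p^2) (b : ℕ) :
    (((a * b + 1 : ℕ) : ℤ) ≡ ((a * (b % p^2) + 1 : ℕ) : ℤ) [ZMOD m]) := by
  push_cast
  have h := lg_modEq hm b
  push_cast at h
  exact ((Int.ModEq.refl _).mul h.symm).add (Int.ModEq.refl _)

lemma lg_v {p m a : ℕ} (hm : m ∣ p^2) (b : ℕ) : m ∣ a * b + 1 ↔ m ∣ a * (b % p^2) + 1 := by
  rw [← Int.natCast_dvd_natCast, ← Int.natCast_dvd_natCast]
  exact lg_dvd_iff (lg_ab hm b)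

lemma lg_Ex {p : ℕ} (z : ℕ) : Ex p z ↔ Ex p (z % p^2) := by
  unfold Ex
  rw [Nat.dvd_mod_iff (Dvd.intro_left p (by ring)), Nat.dvd_mod_iff dvd_rfl]

lemma lg_jac {p a : ℕ} (s : ℤ) (b : ℕ) :
    jacobiSym (s * ((a * b + 1 : ℕ) : ℤ)) p = jacobiSym (s * ((a * (b % p^2) + 1 : ℕ) : ℤ)) p := by
  apply jacobiSym.mod_left'
  exact (Int.ModEq.refl s).mul (lg_ab (m := p) (Dvd.intro_left p (by ring)) b)

lemma lg_Ev2 (a : ℕ) (s : ℤ) (A U : Prop) (p b z : ℕ) :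
    Ev2 a s A U p b z ↔ Ev2 a s A U p (b % p^2) (z % p^2) := by
  have h1 : p ∣ p^2 := Dvd.intro_left p (by ring)
  have h2 : p^2 ∣ p^2 := dvd_rfl
  have e2 := lg_lin (a := a) h2 b z
  push_cast at e2
  unfold Ev2
  have e1 := lg_lin (a := a) h1 b z
  push_cast at e1
  have e3 := lg_v (a := a) h1 b
  have e4 := lg_Ex (p := p) z
  have e5 := lg_jac (p := p) (a := a) s b
  push_cast at e5 ⊢
  rw [e3, e1, e2, e4, e5]

/-- the conditions at `D ∪ E` -/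
def CdL (a : ℕ) (D E : Finset ℕ) (q b z : ℕ) : Prop :=
  (q ∈ D → (q:ℤ) ∣ (b:ℤ) * (a - z) + 1 ∨ q ∣ z) ∧ (q ∈ E → q ∣ a * b + 1)

lemma lg_CdL (a : ℕ) (D E : Finset ℕ) (q b z : ℕ) :
    CdL a D E q b z ↔ CdL a D E q (b % q^2) (z % q^2) := by
  have h1 : q ∣ q^2 := Dvd.intro_left q (by ring)
  have e1 := lg_lin (a := a) h1 b z
  have e3 := lg_v (a := a) h1 b
  have e4 : q ∣ z ↔ q ∣ z % q^2 := (Nat.dvd_mod_iff h1).symm
  unfold CdL
  rw [e3, e1, ← e4]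

lemma lg_CdL_card (a : ℕ) (D E : Finset ℕ) (q : ℕ) (hq : q.Prime) (ha : ¬ q ∣ a)
    (hDE : q ∈ D ∪ E) :
    (((range (q^2)) ×ˢ (range (q^2))).filter (fun t => CdL a D E q t.1 t.2)).card ≤ 2 * q^3 := by
  obtain ⟨h1, h2⟩ := loc2_cond a q hq ha
  rcases mem_union.mp hDE with h | h
  · refine le_trans (card_le_card ?_) h1
    intro t ht
    rw [mem_filter] at ht ⊢
    exact ⟨ht.1, ht.2.1 h⟩
  · refine le_trans (card_le_card ?_) h2
    intro t ht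
    rw [mem_filter] at ht ⊢
    exact ⟨ht.1, ht.2.2 h⟩

/-- conversion of the conditions on `x` -/
lemma lg_x {a b z x m q : ℕ} (hz : z < a) (hx : a * x = b * (a - z) + 1) (hq : q.Prime)
    (ha : ¬ q ∣ a) (hm : m = q ∨ m = q^2) : m ∣ x ↔ (m:ℤ) ∣ (b:ℤ) * (a - z) + 1 := by
  have e : ((b:ℤ) * (a - z) + 1) = ((a * x : ℕ) : ℤ) := by
    rw [hx]
    push_cast [Nat.cast_sub hz.le]
    ring
  rw [e, Int.natCast_dvd_natCast]
  have hc : Nat.Coprime m a := by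
    have h1 : Nat.Coprime q a := (Nat.Prime.coprime_iff_not_dvd hq).mpr ha
    rcases hm with rfl | rfl
    · exact h1
    · exact h1.pow_left 2
  exact ⟨fun h => h.mul_left a, fun h => hc.dvd_of_dvd_mul_left h⟩

theorem lgen : ∃ C : ℝ, 0 < C ∧ ∀ (K X a : ℕ) (s : ℤ) (D E P : Finset ℕ) (A U : ℕ → Prop),
    2000 ≤ K → bb K ≤ a → a^2 < X → NSq K a → (D ∪ E).card ≤ 3 → Disjoint D E →
    (∀ q ∈ D ∪ E, q.Prime ∧ q ≤ bb (K-10) ∧ ¬ q ∣ a) → (s = 1 ∨ s = -1) →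
    (∀ p ∈ P, p.Prime ∧ 2 < p ∧ p ≤ bb (K-10) ∧ ¬ p ∣ a ∧ p ∉ D ∪ E) →
    (Lz X a (fun b z x => QL a D E b z x ∧ EvL P a s A U b z x) : ℝ) ≤
      C * (X / a) * (∏ q ∈ D ∪ E, (1:ℝ)/q) *
        Real.exp (- ∑ l ∈ P, (chi (A l) + 1 + chi (U l)) / l) := by
  obtain ⟨C, hC, h⟩ := sieve2
  have hsum : Summable (fun n : ℕ => (1:ℝ) / (n:ℝ)^2) := Real.summable_one_div_nat_pow.mpr (by norm_num)
  set Z : ℝ := ∑' n : ℕ, (1:ℝ) / (n:ℝ)^2 with hZ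
  refine ⟨C * 2 * Real.exp (5 * Z), by positivity, ?_⟩
  intro K X a s D E P A U hK hKa haX hN hcard hdis hDE hs hP
  have hbbK : 0 < bb K := by unfold bb; positivity
  have ha0 : 0 < a := by omega
  have haXa : a ≤ X / a := by
    rw [Nat.le_div_iff_mul_le ha0]; nlinarith
  have h1 := h K a (X / a + 1) (D ∪ E) P (fun p b z => Ev2 a s (A p) (U p) p b z) (CdL a D E) hK hKa
    (by omega) hN hcard hDE (by
      rw [Finset.disjoint_right]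
      intro p hp
      exact (hP p hp).2.2.2.2)
    (fun p hp => ⟨(hP p hp).1, (hP p hp).2.1, (hP p hp).2.2.1, (hP p hp).2.2.2.1⟩)
    (fun p _ b z => lg_Ev2 a s (A p) (U p) p b z)
    (fun q _ b z => lg_CdL a D E q b z)
    (fun p hp => (loc2 a p s (A p) (U p) (hP p hp).1 (hP p hp).2.1 (hP p hp).2.2.2.1 hs).2)
    (fun q hq => lg_CdL_card a D E q (hDE q hq).1 (hDE q hq).2.2 hq)
  -- the set of `Lz` is contained in the sifted set
  have h2 : (Lz X a (fun b z x => QL a D E b z x ∧ EvL P a s A U b z x) : ℝ) ≤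
      ((((range (X / a + 1)) ×ˢ (range a)).filter (fun t => (t.1 * t.2) % a = 1 % a ∧
      (∀ q ∈ D ∪ E, CdL a D E q t.1 t.2) ∧ ∀ p ∈ P, ¬ Ev2 a s (A p) (U p) p t.1 t.2)).card : ℝ) := by
    unfold Lz
    norm_cast
    apply card_le_card
    rintro ⟨b, z⟩ ht
    rw [mem_filter, mem_product, mem_range, mem_range] at ht
    rw [mem_filter, mem_product, mem_range, mem_range]
    obtain ⟨⟨hb, hz⟩, hbz, x, hx, hQ, hE⟩ := ht
    simp only at hb hz hbz hx hQ hE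
    refine ⟨⟨hb, hz⟩, hbz, ?_, ?_⟩
    · intro q hq
      refine ⟨fun hqD => ?_, fun hqE => hQ.2 q hqE⟩
      rcases hQ.1 q hqD with h3 | h3
      · left
        exact (lg_x hz hx (hDE q hq).1 (hDE q hq).2.2 (Or.inl rfl)).mp h3
      · right; exact h3
    · intro p hp hev
      obtain ⟨hp1, hp2, -, hpa, -⟩ := hP p hp
      obtain ⟨k1, k2⟩ := hE p hp
      rcases hev with h3 | ⟨h3, h4, h5⟩
      · exact k1 h3
      · refine k2 ⟨h3, ?_, h5⟩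
        rcases h4 with ⟨h6, h7⟩ | h6
        · left
          refine ⟨(lg_x hz hx hp1 hpa (Or.inl rfl)).mpr h6, fun h8 => h7 ?_⟩
          have h9 := (lg_x hz hx hp1 hpa (Or.inr rfl)).mp h8
          push_cast at h9
          exact h9
        · right; exact h6
  -- the exponential
  have h3 : - ∑ p ∈ P, ((((range (p^2)) ×ˢ (range (p^2))).filter
          (fun t => Ev2 a s (A p) (U p) p t.1 t.2)).card : ℝ) / (p:ℝ)^4 ≤
      5 * Z + (- ∑ l ∈ P, (chi (A l) + 1 + chi (U l)) / l) := by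
    have h4 : ∀ p ∈ P, (chi (A p) + 1 + chi (U p)) / p - 5 * (1 / (p:ℝ)^2) ≤
        ((((range (p^2)) ×ˢ (range (p^2))).filter
          (fun t => Ev2 a s (A p) (U p) p t.1 t.2)).card : ℝ) / (p:ℝ)^4 := by
      intro p hp
      obtain ⟨hp1, hp2, -, hpa, -⟩ := hP p hp
      have hp0 : (0:ℝ) < p := by exact_mod_cast hp1.pos
      have h5 := (loc2 a p s (A p) (U p) hp1 hp2 hpa hs).1
      rw [le_div_iff₀ (by positivity)]
      refine le_trans (le_of_eq ?_) h5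
      field_simp
    have h5 := sum_le_sum h4
    rw [sum_sub_distrib, ← mul_sum] at h5
    have h6 : ∑ p ∈ P, 1 / (p:ℝ)^2 ≤ Z := hsum.sum_le_tsum P (fun n _ => by positivity)
    linarith
  have h4 := Real.exp_le_exp.mpr h3
  rw [Real.exp_add] at h4
  have hprod : 0 ≤ ∏ q ∈ D ∪ E, (1:ℝ)/q := prod_nonneg fun q _ => by positivity
  have ha0' : (0:ℝ) < a := by exact_mod_cast ha0
  have hB : (((X / a + 1 : ℕ)) : ℝ) ≤ 2 * (X / a) := by
    push_cast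
    have h5 : ((X / a : ℕ) : ℝ) ≤ X / a := Nat.cast_div_le
    have h6 : (1:ℝ) ≤ X / a := by
      rw [le_div_iff₀ ha0', one_mul]
      have : a ≤ X := by nlinarith
      exact_mod_cast this
    linarith
  calc (Lz X a (fun b z x => QL a D E b z x ∧ EvL P a s A U b z x) : ℝ) ≤ _ := h2
    _ ≤ C * ((X / a + 1 : ℕ) : ℝ) * (∏ q ∈ D ∪ E, (1:ℝ)/q) * _ := h1
    _ ≤ C * (2 * (X / a)) * (∏ q ∈ D ∪ E, (1:ℝ)/q) *
        (Real.exp (5 * Z) * Real.exp (- ∑ l ∈ P, (chi (A l) + 1 + chi (U l)) / l)) := by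
        gcongr
    _ = C * 2 * Real.exp (5 * Z) * (X / a) * (∏ q ∈ D ∪ E, (1:ℝ)/q) *
        Real.exp (- ∑ l ∈ P, (chi (A l) + 1 + chi (U l)) / l) := by ring

end Pool.Agent.H24.KS
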