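import Mathlib
import Pool.Agent.H24.KS.Df2

/-!
The trivial bound for the `a` divisible by a large square.
-/

namespace Pool.Agent.H24.KS

open Finset Classical
open Pool.Agent.H95.Gol

/-- trivial bound -/
lemma Lz_triv (X a : ℕ) (_ha : 2 ≤ a) (Q : ℕ → ℕ → ℕ → Prop) : Lz X a Q ≤ X / a + 1 := by
  unfold Lz
  have h := card_le_card_of_injOn (s := ((range (X / a + 1)) ×ˢ (range a)).filter
    (fun t => (t.1 * t.2) % a = 1 % a ∧
    ∃ x, a * x = t.1 * (a - t.2) + 1 ∧ Q t.1 t.2 x)) (t := range (X/a+1)) Prod.fst ?_ ?_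
  · rwa [card_range] at h
  · rintro ⟨b, z⟩ h
    rw [mem_coe, mem_filter, mem_product] at h
    exact h.1.1
  · rintro ⟨b, z⟩ h ⟨b', z'⟩ h' heq
    rw [mem_coe, mem_filter, mem_product, mem_range, mem_range] at h h'
    obtain ⟨⟨-, hz⟩, h1, -⟩ := h
    obtain ⟨⟨-, hz'⟩, h2, -⟩ := h'
    simp only at heq hz hz' h1 h2
    subst heq
    have e1 : b * z ≡ 1 [MOD a] := h1
    have e2 : b * z' ≡ 1 [MOD a] := h2
    have e3 : z * (b * z') ≡ z * 1 [MOD a] := e2.mul_left z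
    have e4 : z' * (b * z) ≡ z' * 1 [MOD a] := e1.mul_left z'
    have e5 : z * (b * z') = z' * (b * z) := by ring
    rw [mul_one] at e3 e4
    rw [e5] at e3
    have e6 : z ≡ z' [MOD a] := e3.symm.trans e4
    have e7 : z = z' := Nat.ModEq.eq_of_lt_of_lt e6 hz hz'
    rw [e7]

lemma harm_le (N : ℕ) : ∑ m ∈ Ico 1 N, (1:ℝ) / m ≤ 1 + Real.log N := by
  have h1 := harmonic_le_one_add_log N
  rw [harmonic_eq_sum_Icc] at h1
  push_cast at h1
  refine le_trans ?_ h1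
  have h2 : ∑ m ∈ Ico 1 N, (1:ℝ) / m = ∑ m ∈ Ico 1 N, ((m:ℝ))⁻¹ :=
    sum_congr rfl fun m _ => by rw [one_div]
  rw [h2]
  apply sum_le_sum_of_subset_of_nonneg
  · intro m hm
    rw [mem_Ico] at hm
    rw [mem_Icc]
    omega
  · intro m _ _
    positivity

lemma sum_large_sq (N D : ℕ) :
    ∑ a ∈ (Ico 1 N).filter (fun a => ∃ d, D < d ∧ d^2 ∣ a), (1:ℝ) / a ≤
      (2 / ((D:ℝ) + 1)) * (1 + Real.log N) := by
  have hch : ∀ a : ℕ, ∃ t : ℕ × ℕ, (1 ≤ a ∧ ∃ d, D < d ∧ d^2 ∣ a) →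
      D < t.1 ∧ a = t.1^2 * t.2 := by
    intro a
    by_cases h : 1 ≤ a ∧ ∃ d, D < d ∧ d^2 ∣ a
    · obtain ⟨-, d, hd, m, hm⟩ := h
      exact ⟨(d, m), fun _ => ⟨hd, hm⟩⟩
    · exact ⟨(0, 0), fun h' => absurd h' h⟩
  choose φ hφ using hch
  set S := (Ico 1 N).filter (fun a => ∃ d, D < d ∧ d^2 ∣ a) with hS
  have hmem : ∀ a ∈ S, 1 ≤ a ∧ a < N ∧ D < (φ a).1 ∧ a = (φ a).1^2 * (φ a).2 := by
    intro a ha
    rw [hS, mem_filter, mem_Ico] at ha
    obtain ⟨⟨h1, h2⟩, h3⟩ := ha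
    have := hφ a ⟨h1, h3⟩
    exact ⟨h1, h2, this.1, this.2⟩
  have hinj : Set.InjOn φ (S : Set ℕ) := by
    intro a ha a' ha' heq
    have h1 := (hmem a ha).2.2.2
    have h2 := (hmem a' ha').2.2.2
    rw [h1, h2, heq]
  have h1 : ∑ a ∈ S, (1:ℝ) / a = ∑ t ∈ S.image φ, (((t.1:ℝ))^2)⁻¹ * (1 / (t.2:ℝ)) := by
    rw [sum_image hinj]
    apply sum_congr rfl
    intro a ha
    have h2 := (hmem a ha).2.2.2
    have h3 : (a:ℝ) = ((φ a).1:ℝ)^2 * ((φ a).2:ℝ) := by exact_mod_cast h2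
    rw [h3, one_div, mul_inv, one_div]
  have hsub : S.image φ ⊆ (Ioo D N) ×ˢ (Ico 1 N) := by
    intro t ht
    rw [mem_image] at ht
    obtain ⟨a, ha, rfl⟩ := ht
    obtain ⟨e1, e2, e3, e4⟩ := hmem a ha
    have e5 : 0 < (φ a).2 := by
      rcases Nat.eq_zero_or_pos (φ a).2 with h0 | h0
      · rw [h0, mul_zero] at e4; omega
      · exact h0
    have e6 : 0 < (φ a).1 := by omega
    have e7 : (φ a).1 ≤ a := by
      calc (φ a).1 = (φ a).1 * 1 := (mul_one _).symm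
        _ ≤ (φ a).1 * ((φ a).1 * (φ a).2) := Nat.mul_le_mul_left _ (Nat.mul_pos e6 e5)
        _ = a := by rw [← mul_assoc, ← pow_two, ← e4]
    have e8 : (φ a).2 ≤ a := by
      calc (φ a).2 = 1 * (φ a).2 := (one_mul _).symm
        _ ≤ (φ a).1^2 * (φ a).2 := Nat.mul_le_mul_right _ (Nat.pow_pos e6)
        _ = a := e4.symm
    rw [mem_product, mem_Ioo, mem_Ico]
    exact ⟨⟨e3, by omega⟩, by omega, by omega⟩
  rw [h1]
  refine le_trans (sum_le_sum_of_subset_of_nonneg hsub fun t _ _ => by positivity) ?_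
  rw [sum_product]
  simp only
  rw [← sum_mul_sum]
  have h2 : ∑ i ∈ Ioo D N, (((i:ℕ):ℝ)^2)⁻¹ ≤ 2 / ((D:ℝ) + 1) := sum_Ioo_inv_sq_le D N
  exact mul_le_mul h2 (harm_le N) (sum_nonneg fun _ _ => by positivity) (by positivity)

lemma log_bb_le_two_pow (K : ℕ) : Real.log (bb K) ≤ 2^K := by
  unfold bb
  push_cast
  rw [Real.log_pow]
  push_cast
  have h1 : Real.log 2 ≤ 1 := by
    have := Real.log_two_lt_d9
    linarith
  have h2 : (0:ℝ) < 2^K := by positivity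
  nlinarith

theorem bSq : ∃ C : ℝ, 0 < C ∧ ∀ K X : ℕ, 2000 ≤ K → bb (K+6) ≤ X → X < bb (K+7) →
    (cnt X (fun a _ _ _ => bb K ≤ a ∧ ¬ NSq K a) : ℝ) ≤ C * X / 2^K := by
  refine ⟨1, one_pos, ?_⟩
  intro K X hK hX1 hX2
  have h1 := cnt_le_sumL X K (fun a _ _ _ => bb K ≤ a ∧ ¬ NSq K a) hX2 (fun _ _ _ _ _ h => h.1)
  have h2 : ∀ a ∈ Ico (bb K) (bb (K+6)),
      ((Lz X a (fun b z x => Tr X a b z x ∧ (bb K ≤ a ∧ ¬ NSq K a)) : ℕ) : ℝ) ≤
        if ∃ d, bb (kk K) < d ∧ d^2 ∣ a then 2 * (X:ℝ) * ((1:ℝ)/a) else 0 := by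
    intro a ha
    rw [mem_Ico] at ha
    have ha2 : 2 ≤ a := (two_le_bb K).trans ha.1
    split_ifs with hd
    · have e1 := Lz_triv X a ha2 (fun b z x => Tr X a b z x ∧ (bb K ≤ a ∧ ¬ NSq K a))
      have e2 : ((X / a + 1 : ℕ) : ℝ) ≤ 2 * (X:ℝ) * ((1:ℝ)/a) := by
        have ha0 : (0:ℝ) < a := by exact_mod_cast (show 0 < a by omega)
        have e3 : ((X / a : ℕ) : ℝ) ≤ (X:ℝ) / a := Nat.cast_div_le
        have e4 : (1:ℝ) ≤ (X:ℝ)/a := by
          rw [le_div_iff₀ ha0, one_mul]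
          exact_mod_cast (ha.2.le.trans hX1)
        push_cast
        have e5 : 2 * (X:ℝ) * ((1:ℝ)/a) = 2 * ((X:ℝ)/a) := by ring
        rw [e5]
        linarith
      exact le_trans (by exact_mod_cast e1) e2
    · have e1 : Lz X a (fun b z x => Tr X a b z x ∧ (bb K ≤ a ∧ ¬ NSq K a)) = 0 := by
        unfold Lz
        rw [card_eq_zero, filter_eq_empty_iff]
        rintro ⟨b, z⟩ _ ⟨_, x, _, _, _, hn⟩
        apply hd
        unfold NSq at hn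
        push Not at hn
        exact hn
      rw [e1]
      norm_num
  have h3 : (cnt X (fun a _ _ _ => bb K ≤ a ∧ ¬ NSq K a) : ℝ) ≤
      ∑ a ∈ Ico (bb K) (bb (K+6)),
        if ∃ d, bb (kk K) < d ∧ d^2 ∣ a then 2 * (X:ℝ) * ((1:ℝ)/a) else 0 := by
    refine le_trans ?_ (sum_le_sum h2)
    exact_mod_cast h1
  rw [← sum_filter, ← mul_sum] at h3
  have h4 : ∑ a ∈ (Ico (bb K) (bb (K+6))).filter (fun a => ∃ d, bb (kk K) < d ∧ d^2 ∣ a),
      (1:ℝ)/a ≤ (2 / ((bb (kk K):ℝ) + 1)) * (1 + Real.log (bb (K+6))) := by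
    refine le_trans ?_ (sum_large_sq (bb (K+6)) (bb (kk K)))
    apply sum_le_sum_of_subset_of_nonneg
    · apply filter_subset_filter
      apply Ico_subset_Ico_left
      exact bb_pos K
    · intro a _ _
      positivity
  have h5 : (2:ℝ)^(10*K+10) ≤ (bb (kk K) : ℝ) := by
    have : 2^(10*K+10) ≤ bb (kk K) := by
      unfold bb
      exact Nat.pow_le_pow_right (by norm_num) (kk_pow K)
    exact_mod_cast this
  have h6 := log_bb_le_two_pow (K+6)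
  have h7 : 0 ≤ Real.log (bb (K+6)) := Real.log_natCast_nonneg _
  have h8 : (0:ℝ) < 2^(10*K+10) := by positivity
  have h9 : (2 / ((bb (kk K):ℝ) + 1)) * (1 + Real.log (bb (K+6))) ≤
      (2 / 2^(10*K+10)) * (2^(K+7)) := by
    apply mul_le_mul
    · apply div_le_div_of_nonneg_left (by norm_num) h8
      linarith
    · have e1 : (2:ℝ)^(K+7) = 2 * 2^(K+6) := by rw [pow_succ]; ring
      have e2 : (1:ℝ) ≤ 2^(K+6) := one_le_pow₀ (by norm_num)
      rw [e1]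
      linarith
    · linarith
    · positivity
  have h10 : (2 / 2^(10*K+10)) * ((2:ℝ)^(K+7)) ≤ 1/2 * (1 / 2^K) := by
    have e1 : (2:ℝ)^(10*K+10) = 2^(K+9) * (2^K * 2^(8*K+1)) := by
      rw [← pow_add, ← pow_add]
      congr 1
      ring
    have e2 : (1:ℝ) ≤ 2^(8*K+1) := one_le_pow₀ (by norm_num)
    have e3 : (2:ℝ)^(K+9) = 4 * 2^(K+7) := by
      rw [show K + 9 = (K+7) + 2 by ring, pow_add]; ring
    have p1 : (0:ℝ) < 2^(K+7) := by positivity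
    have p2 : (0:ℝ) < 2^K := by positivity
    rw [e1, e3]
    have e4 : 2 / (4 * 2^(K+7) * (2^K * 2^(8*K+1))) * (2:ℝ)^(K+7) =
        1/2 * (1/(2^K * 2^(8*K+1))) := by
      field_simp
      norm_num
    rw [e4]
    apply mul_le_mul_of_nonneg_left _ (by norm_num)
    apply one_div_le_one_div_of_le p2
    exact le_mul_of_one_le_right p2.le e2
  have hX0 : (0:ℝ) ≤ X := Nat.cast_nonneg _
  calc (cnt X (fun a _ _ _ => bb K ≤ a ∧ ¬ NSq K a) : ℝ)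
      ≤ 2 * (X:ℝ) * ∑ a ∈ (Ico (bb K) (bb (K+6))).filter
          (fun a => ∃ d, bb (kk K) < d ∧ d^2 ∣ a), (1:ℝ)/a := h3
    _ ≤ 2 * (X:ℝ) * (1/2 * (1 / 2^K)) :=
        mul_le_mul_of_nonneg_left (h4.trans (h9.trans h10)) (by positivity)
    _ = 1 * X / 2^K := by ring

end Pool.Agent.H24.KS
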