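import Mathlib
import Pool.Agent.H24.KS.Lgen
import Pool.Agent.H24.KS.Logic

/-!
M16: the two-dimensional sieve with the full window; the missing primes are few.
-/

namespace Pool.Agent.H24.KS

open Finset Classical
open Pool.Agent.H95.Gol

theorem lgenW : ∃ C : ℝ, 0 < C ∧ ∀ (K X a : ℕ) (s : ℤ) (D E : Finset ℕ) (A U : ℕ → Prop),
    2000 ≤ K → bb K ≤ a → a < bb (K+6) → a^2 < X → NSq K a → (D ∪ E).card ≤ 3 → Disjoint D E →
    (∀ q ∈ D ∪ E, q.Prime ∧ q ≤ bb (K-10) ∧ ¬ q ∣ a) → (s = 1 ∨ s = -1) →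
    (Lz X a (fun b z x => QL a D E b z x ∧
      EvL ((W (kk K) (K-10)).filter (fun l => ¬ l ∣ a ∧ l ∉ D ∪ E)) a s A U b z x) : ℝ) ≤
      C * (X / a) * (∏ q ∈ D ∪ E, (1:ℝ)/q) *
        Real.exp (- ∑ l ∈ W (kk K) (K-10), (chi (A l) + 1 + chi (U l)) / l) := by
  obtain ⟨C, hC, h⟩ := lgen
  refine ⟨C * Real.exp 3, by positivity, ?_⟩
  intro K X a s D E A U hK ha ha6 haX hN hcard hdis hq hs
  set Pw := (W (kk K) (K-10)).filter (fun l => ¬ l ∣ a ∧ l ∉ D ∪ E) with hPw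
  have hP : ∀ p ∈ Pw, p.Prime ∧ 2 < p ∧ p ≤ bb (K-10) ∧ ¬ p ∣ a ∧ p ∉ D ∪ E := by
    intro p hp
    rw [hPw, mem_filter] at hp
    exact ⟨prime_of_mem_W hp.1, two_lt_of_mem_W hp.1, le_of_mem_W hp.1, hp.2.1, hp.2.2⟩
  have h1 := h K X a s D E Pw A U hK ha haX hN hcard hdis hq hs hP
  have hprod0 : ∀ q ∈ D ∪ E, 0 < q := fun q hq' => (hq q hq').1.pos
  -- the missing primes
  set S := (W (kk K) (K-10)).filter (fun l => ¬ (¬ l ∣ a ∧ l ∉ D ∪ E)) with hS
  have hfew : ∑ p ∈ S, (1:ℝ)/p ≤ 1 := by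
    have ha0 : 0 < a := lt_of_lt_of_le (by have := two_le_bb K; omega) ha
    have hpr : 0 < ∏ q ∈ D ∪ E, q := prod_pos hprod0
    refine few_primes S (bb (kk K)) (a * ∏ q ∈ D ∪ E, q) (by have := two_le_bb (kk K); omega)
      ?_ (by positivity) ?_
    · intro p hp
      rw [hS, mem_filter] at hp
      refine ⟨prime_of_mem_W hp.1, lt_of_mem_W hp.1, ?_⟩
      by_cases hpa : p ∣ a
      · exact hpa.mul_right _
      · have : p ∈ D ∪ E := by
          by_contra hcon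
          exact hp.2 ⟨hpa, hcon⟩
        exact (dvd_prod_of_mem _ this).mul_left _
    · have h2 : ∏ q ∈ D ∪ E, q ≤ (bb (K-10))^3 := by
        calc ∏ q ∈ D ∪ E, q ≤ ∏ _q ∈ D ∪ E, bb (K-10) := prod_le_prod' fun q hq' => (hq q hq').2.1
          _ = (bb (K-10))^(D ∪ E).card := by rw [prod_const]
          _ ≤ (bb (K-10))^3 := Nat.pow_le_pow_right (by have := two_le_bb (K-10); omega) hcard
      have h3 : (bb (K-10))^3 ≤ bb (K+6) := by
        calc (bb (K-10))^3 ≤ (bb (K-10))^(2^2) :=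
              Nat.pow_le_pow_right (by have := two_le_bb (K-10); omega) (by norm_num)
          _ = bb (K-10+2) := (bb_add _ _).symm
          _ ≤ bb (K+6) := bb_mono (by omega)
      calc a * ∏ q ∈ D ∪ E, q ≤ bb (K+6) * bb (K+6) := Nat.mul_le_mul ha6.le (h2.trans h3)
        _ = bb (K+6+1) := by rw [bb_add (K+6) 1]; ring
        _ = 2^(2^(K+7)) := rfl
        _ ≤ 2^(bb (kk K)) := by
          apply Nat.pow_le_pow_right (by norm_num)
          show 2^(K+7) ≤ 2^(2^(kk K))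
          apply Nat.pow_le_pow_right (by norm_num)
          have := kk_pow K
          omega
  have hsum : ∑ l ∈ W (kk K) (K-10), (chi (A l) + 1 + chi (U l)) / l ≤
      ∑ l ∈ Pw, (chi (A l) + 1 + chi (U l)) / l + 3 := by
    rw [← sum_filter_add_sum_filter_not (W (kk K) (K-10)) (fun l => ¬ l ∣ a ∧ l ∉ D ∪ E)]
    have h4 : ∑ l ∈ S, (chi (A l) + 1 + chi (U l)) / l ≤ 3 * ∑ l ∈ S, (1:ℝ)/l := by
      rw [mul_sum]
      refine sum_le_sum fun l _ => ?_
      rw [mul_one_div]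
      apply div_le_div_of_nonneg_right _ (by positivity)
      have := chi_le_one (A l)
      have := chi_le_one (U l)
      linarith
    have h5 : ∑ l ∈ S, (chi (A l) + 1 + chi (U l)) / l ≤ 3 := by linarith
    linarith
  have hX0 : (0:ℝ) ≤ C * (X / a) * (∏ q ∈ D ∪ E, (1:ℝ)/q) := by
    have : (0:ℝ) ≤ ∏ q ∈ D ∪ E, (1:ℝ)/q := prod_nonneg fun _ _ => by positivity
    positivity
  refine h1.trans ?_
  calc C * (X / a) * (∏ q ∈ D ∪ E, (1:ℝ)/q) *
        Real.exp (- ∑ l ∈ Pw, (chi (A l) + 1 + chi (U l)) / l)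
      ≤ C * (X / a) * (∏ q ∈ D ∪ E, (1:ℝ)/q) *
        (Real.exp 3 * Real.exp (- ∑ l ∈ W (kk K) (K-10), (chi (A l) + 1 + chi (U l)) / l)) := by
        apply mul_le_mul_of_nonneg_left _ hX0
        rw [← Real.exp_add]
        apply Real.exp_le_exp.mpr
        linarith
    _ = _ := by ring

end Pool.Agent.H24.KS
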