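import Mathlib
import Pool.Agent.H24.KS.Dens

/-!
Module M5: the sum over `p`.
-/

namespace Pool.Agent.H24.KS

open Finset Classical
open Pool.Agent.H95.Gol

/-- sum of the reciprocals of the primes up to `bb K` -/
lemma sum_Pr : ∃ C : ℝ, 0 < C ∧ ∀ K : ℕ, ∑ p ∈ Pr (bb K), (1:ℝ)/p ≤ C * (K + 1) := by
  obtain ⟨C0, hC0, hup⟩ := SW_upper
  have hl2 : 0 < Real.log 2 := Real.log_pos (by norm_num)
  refine ⟨Real.log 2 + C0 + 1, by positivity, fun K => ?_⟩
  have hsub : Pr (bb K) ⊆ insert 2 (W 0 K) := by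
    intro p hp
    rw [mem_Pr] at hp
    rw [mem_insert, mem_W (Nat.zero_le K)]
    have h0 : bb 0 = 2 := by unfold bb; norm_num
    rw [h0]
    have := hp.1.two_le
    by_cases h : p = 2
    · exact Or.inl h
    · exact Or.inr ⟨hp.1, by omega, hp.2⟩
  have h2 : 2 ∉ W 0 K := by
    rw [mem_W (Nat.zero_le K)]
    have h0 : bb 0 = 2 := by unfold bb; norm_num
    rw [h0]
    omega
  have h1 : ∑ p ∈ Pr (bb K), (1:ℝ)/p ≤ ∑ p ∈ insert 2 (W 0 K), (1:ℝ)/p :=
    sum_le_sum_of_subset_of_nonneg hsub fun _ _ _ => by positivity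
  rw [sum_insert h2] at h1
  have h3 := hup 0 K (Nat.zero_le K)
  unfold SW at h3
  have hK : (0:ℝ) ≤ K := Nat.cast_nonneg K
  push_cast at h1 h3
  nlinarith

theorem psum : ∃ (C : ℝ) (m : ℕ → ℕ → ℝ), 0 < C ∧ (∀ K p, 0 ≤ m K p) ∧
    (∀ K p j, 2000 ≤ K → p.Prime → p ≠ 2 → j ≤ K → XD (ps p) (kk K) j ≤ m K p) ∧
    ∀ K, 2000 ≤ K → ∑ p ∈ (Pr (bb K)).filter (fun p => p ≠ 2), Real.exp (m K p) / p ≤
      C * (K + 1) := by
  obtain ⟨C, μ, hC, hμ0, hμ1, hμ2⟩ := weightN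
  obtain ⟨C1, hC1, hsum⟩ := sum_Pr
  set sg0 : ℕ → ℤ := fun p => (-1)^(p/2) with hsg0
  have hs : ∀ p, sg0 p = 1 ∨ sg0 p = -1 := fun p => neg_one_pow_eq_or ℤ _
  refine ⟨2 * (C * (1 + C1)), fun K p => μ (sg0 p) (kk K) K p, by positivity, fun K p => hμ0 _ _ _ _,
    ?_, ?_⟩
  · intro K p j hK hp hp2 hj
    refine hμ1 (sg0 p) (kk K) K p (hs p) (kk_ge K) hp.pos ?_ j hj
    rintro ⟨r, hr⟩
    rcases hs p with h | h
    · rw [h, one_mul] at hr
      have h1 : (p:ℤ) = (r.natAbs : ℤ) * (r.natAbs : ℤ) := by rw [Int.natAbs_mul_self', hr]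
      have h2 : p = r.natAbs * r.natAbs := by exact_mod_cast h1
      exact hp.prime.not_isSquare ⟨_, h2⟩
    · rw [h] at hr
      have h1 : 0 ≤ r * r := mul_self_nonneg r
      have h2 : (0:ℤ) < p := by exact_mod_cast hp.pos
      omega
  · intro K hK
    have hK5 : 5 * K ≤ 2^kk K := by
      have := kk_pow K
      omega
    have key : ∀ s : ℤ, (s = 1 ∨ s = -1) → ∀ S ⊆ Pr (bb K),
        ∑ p ∈ S, Real.exp (μ s (kk K) K p) / p ≤ C * (1 + C1) * (K + 1) := by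
      intro s hs1 S hS
      have h1 := hμ2 s (kk K) K S hs1 hK5 (fun D hD => by
        have h9 := mem_Pr.mp (hS hD)
        have h8 : bb K ≤ bb (K+3) := bb_mono (Nat.le_add_right K 3)
        exact ⟨h9.1.pos, h9.2.trans h8⟩)
      clear hK5
      refine h1.trans ?_
      have h2 : ∑ D ∈ S, (1:ℝ)/D ≤ C1 * (K+1) :=
        (sum_le_sum_of_subset_of_nonneg hS fun _ _ _ => by positivity).trans (hsum K)
      have hK0 : (0:ℝ) ≤ K := Nat.cast_nonneg K
      have h3 : 1 + ∑ D ∈ S, (1:ℝ)/D ≤ (1 + C1) * (K+1) := by nlinarith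
      calc C * (1 + ∑ D ∈ S, (1:ℝ)/D) ≤ C * ((1 + C1) * (K+1)) :=
            mul_le_mul_of_nonneg_left h3 hC.le
        _ = _ := by ring
    have hsplit : ∑ p ∈ (Pr (bb K)).filter (fun p => p ≠ 2),
        Real.exp (μ (sg0 p) (kk K) K p) / p =
        ∑ p ∈ ((Pr (bb K)).filter (fun p => p ≠ 2)).filter (fun p => sg0 p = 1),
          Real.exp (μ 1 (kk K) K p) / p +
        ∑ p ∈ ((Pr (bb K)).filter (fun p => p ≠ 2)).filter (fun p => ¬ sg0 p = 1),
          Real.exp (μ (-1) (kk K) K p) / p := by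
      rw [← sum_filter_add_sum_filter_not _ (fun p => sg0 p = 1)]
      congr 1
      · refine sum_congr rfl fun p hp => ?_
        rw [(mem_filter.mp hp).2]
      · refine sum_congr rfl fun p hp => ?_
        rw [(hs p).resolve_left (mem_filter.mp hp).2]
    show ∑ p ∈ (Pr (bb K)).filter (fun p => p ≠ 2), Real.exp (μ (sg0 p) (kk K) K p) / p ≤ _
    rw [hsplit]
    have h1 := key 1 (Or.inl rfl) _ ((filter_subset (fun p => sg0 p = 1) _).trans
      (filter_subset (fun p => p ≠ 2) (Pr (bb K))))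
    have h2 := key (-1) (Or.inr rfl) _ ((filter_subset (fun p => ¬ sg0 p = 1) _).trans
      (filter_subset (fun p => p ≠ 2) (Pr (bb K))))
    linarith

end Pool.Agent.H24.KS
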