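import Mathlib
import Pool.Agent.H24.KS.Psum

/-!
Module M6: the sum over the sets `T`.
-/

namespace Pool.Agent.H24.KS

open Finset Classical
open Pool.Agent.H95.Gol

lemma tsum_pcard (a : ℕ → ℝ) (ha : ∀ q, 0 ≤ a q) (P : Finset ℕ) : ∀ t : ℕ,
    ∑ V ∈ powersetCard t P, ∏ q ∈ V, a q ≤ (∑ q ∈ P, a q)^t := by
  induction P using Finset.induction_on with
  | empty =>
    intro t
    rcases Nat.eq_zero_or_pos t with h | h
    · subst h; simp
    · rw [powersetCard_eq_empty.mpr (by simpa using h)]
      simp [h.ne']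
  | insert p P hp ih =>
    intro t
    rcases t with _ | t
    · simp
    · rw [powersetCard_succ_insert hp, sum_union, sum_image, sum_insert hp]
      · have h1 : ∑ V ∈ powersetCard t P, ∏ q ∈ insert p V, a q =
            a p * ∑ V ∈ powersetCard t P, ∏ q ∈ V, a q := by
          rw [mul_sum]
          refine sum_congr rfl fun V hV => ?_
          rw [prod_insert]
          intro h
          exact hp ((mem_powersetCard.mp hV).1 h)
        rw [h1]
        have hS : 0 ≤ ∑ q ∈ P, a q := sum_nonneg fun q _ => ha q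
        set S := ∑ q ∈ P, a q with hSd
        have h2 := ih (t+1)
        have h3 := mul_le_mul_of_nonneg_left (ih t) (ha p)
        have h4 : S^t ≤ (a p + S)^t := pow_le_pow_left₀ hS (by linarith [ha p]) t
        have h5 : S^(t+1) = S * S^t := by ring
        calc _ ≤ S^(t+1) + a p * S^t := add_le_add h2 h3
          _ = (a p + S) * S^t := by rw [h5]; ring
          _ ≤ (a p + S) * (a p + S)^t :=
            mul_le_mul_of_nonneg_left h4 (by linarith [ha p])
          _ = _ := by ring
      · intro V hV V' hV' h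
        have hV1 : p ∉ V := fun h => hp ((mem_powersetCard.mp hV).1 h)
        have hV1' : p ∉ V' := fun h => hp ((mem_powersetCard.mp hV').1 h)
        have := congrArg (fun s : Finset ℕ => s.erase p) h
        simpa [erase_insert hV1, erase_insert hV1'] using this
      · rw [disjoint_left]
        intro V hV hV'
        rw [mem_image] at hV'
        obtain ⟨V', _, rfl⟩ := hV'
        exact hp ((mem_powersetCard.mp hV).1 (mem_insert_self p V'))

lemma tsum_split (P : Finset ℕ) (r : ℕ) (f g : Finset ℕ → ℝ) (hf : ∀ U, 0 ≤ f U)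
    (hg : ∀ U, 0 ≤ g U) :
    ∑ T ∈ powersetCard r P, ∑ U ∈ T.powerset, f U * g (T \ U) ≤
      ∑ s ∈ range (r+1), (∑ U ∈ powersetCard s P, f U) * ∑ V ∈ powersetCard (r-s) P, g V := by
  rw [sum_sigma']
  have h1 : ∀ s, (∑ U ∈ powersetCard s P, f U) * ∑ V ∈ powersetCard (r-s) P, g V =
      ∑ x ∈ powersetCard s P ×ˢ powersetCard (r-s) P, f x.1 * g x.2 := by
    intro s
    rw [sum_product, sum_mul_sum]
  simp only [h1]
  rw [sum_sigma']
  set e : ((_ : Finset ℕ) × Finset ℕ) → ((_ : ℕ) × (Finset ℕ × Finset ℕ)) :=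
    fun x => ⟨x.2.card, (x.2, x.1 \ x.2)⟩ with he
  set G : ((_ : ℕ) × (Finset ℕ × Finset ℕ)) → ℝ := fun y => f y.2.1 * g y.2.2 with hG
  have hinj : Set.InjOn e ((powersetCard r P).sigma fun T => T.powerset :
      Finset ((_ : Finset ℕ) × Finset ℕ)) := by
    rintro ⟨T, U⟩ hx ⟨T', U'⟩ hy hxy
    rw [mem_coe, mem_sigma, mem_powerset] at hx hy
    have h2 : (U, T \ U) = (U', T' \ U') := by
      have := Sigma.mk.inj_iff.mp hxy
      exact eq_of_heq this.2
    have h3 := congrArg Prod.fst h2
    have h4 := congrArg Prod.snd h2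
    simp only at h3 h4
    subst h3
    have hx2 : U ⊆ T := hx.2
    have hy2 : U ⊆ T' := hy.2
    have h5 : T = T' := by
      rw [← union_sdiff_of_subset hx2, h4, union_sdiff_of_subset hy2]
    subst h5
    rfl
  calc ∑ x ∈ (powersetCard r P).sigma fun T => T.powerset, f x.2 * g (x.1 \ x.2)
      = ∑ x ∈ (powersetCard r P).sigma fun T => T.powerset, G (e x) := rfl
    _ = ∑ y ∈ ((powersetCard r P).sigma fun T => T.powerset).image e, G y := by
        rw [sum_image hinj]
    _ ≤ ∑ y ∈ (range (r+1)).sigma fun s => powersetCard s P ×ˢ powersetCard (r-s) P, G y := by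
        apply sum_le_sum_of_subset_of_nonneg
        · intro y hy
          rw [mem_image] at hy
          obtain ⟨⟨T, U⟩, hx, rfl⟩ := hy
          rw [mem_sigma, mem_powersetCard, mem_powerset] at hx
          obtain ⟨⟨h2, h3⟩, h4⟩ := hx
          simp only at h2 h3 h4
          rw [mem_sigma, mem_range, mem_product, mem_powersetCard, mem_powersetCard]
          have h5 := card_le_card h4
          have h6 := card_sdiff_of_subset h4
          refine ⟨?_, ⟨h4.trans h2, rfl⟩, (sdiff_subset).trans h2, ?_⟩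
          · show U.card < r + 1
            omega
          · show (T \ U).card = r - U.card
            omega
        · intro y _ _
          exact mul_nonneg (hf _) (hg _)

lemma not_sq_prod (U : Finset ℕ) (hU : ∀ q ∈ U, q.Prime) (hne : U.Nonempty) :
    ¬ IsSquare ((∏ q ∈ U, q : ℕ) : ℤ) := by
  rintro ⟨r, hr⟩
  have h1 : (∏ q ∈ U, q : ℕ) = r.natAbs * r.natAbs := by
    have : ((∏ q ∈ U, q : ℕ) : ℤ) = (r.natAbs : ℤ) * (r.natAbs : ℤ) := by
      rw [Int.natAbs_mul_self', hr]
    exact_mod_cast this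
  obtain ⟨q, hq⟩ := hne
  have hqp := hU q hq
  have h2 : q ∣ r.natAbs := by
    have h3 : q ∣ r.natAbs * r.natAbs := h1 ▸ dvd_prod_of_mem (fun q => q) hq
    rcases hqp.dvd_mul.mp h3 with h | h <;> exact h
  have h3 : q * q ∣ ∏ q ∈ U, q := h1 ▸ mul_dvd_mul h2 h2
  rw [← mul_prod_erase U (fun q => q) hq] at h3
  have h4 : q ∣ ∏ x ∈ U.erase q, x := (Nat.mul_dvd_mul_iff_left hqp.pos).mp h3
  rw [hqp.prime.dvd_finsetProd_iff] at h4
  obtain ⟨x, hx, hqx⟩ := h4
  rw [mem_erase] at hx
  exact hx.1 ((Nat.prime_dvd_prime_iff_eq hqp (hU x hx.2)).mp hqx).symm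

lemma tsum_prod_inj (U V : Finset ℕ) (hU : ∀ q ∈ U, q.Prime) (hV : ∀ q ∈ V, q.Prime)
    (h : ∏ q ∈ U, q = ∏ q ∈ V, q) : U = V := by
  have key : ∀ U V : Finset ℕ, (∀ q ∈ U, q.Prime) → (∀ q ∈ V, q.Prime) →
      ∏ q ∈ U, q = ∏ q ∈ V, q → U ⊆ V := by
    intro U V hU hV h q hq
    have h1 : q ∣ ∏ q ∈ V, q := h ▸ dvd_prod_of_mem (fun q => q) hq
    rw [(hU q hq).prime.dvd_finsetProd_iff] at h1
    obtain ⟨x, hx, hqx⟩ := h1
    rwa [(Nat.prime_dvd_prime_iff_eq (hU q hq) (hV x hx)).mp hqx]
  exact Subset.antisymm (key U V hU hV h) (key V U hV hU h.symm)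

/-- `m K T = 2^(-r) ∑_{∅ ≠ U ⊆ T} μ 1 (kk K) K (∏ U)`; convexity of `exp` -/
theorem tsum (r : ℕ) (hr : 1 ≤ r) (hr3 : r ≤ 3) : ∃ (C : ℝ) (m : ℕ → Finset ℕ → ℝ), 0 < C ∧
    (∀ K T, 0 ≤ m K T) ∧
    (∀ K T j, 2000 ≤ K → T.card = r → (∀ q ∈ T, q.Prime) → j ≤ K →
      (1/2:ℝ)^r * ∑ U ∈ T.powerset.erase ∅, XD ((∏ q ∈ U, q : ℕ) : ℤ) (kk K) j ≤ m K T) ∧
    ∀ K, 2000 ≤ K → ∑ T ∈ powersetCard r (Pr (bb K)), (∏ q ∈ T, (1:ℝ)/q) * Real.exp (m K T) ≤
      C * (K + 1)^r := by
  obtain ⟨C, μ, hC, hμ0, hμ1, hμ2⟩ := weightN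
  obtain ⟨C1, hC1, hsum⟩ := sum_Pr
  refine ⟨(r+1) * ((1 + C + C) * (1 + C1)^r), fun K T => (1/2:ℝ)^r * ∑ U ∈ T.powerset.erase ∅,
    μ 1 (kk K) K (∏ q ∈ U, q), by positivity, ?_, ?_, ?_⟩
  · intro K T
    exact mul_nonneg (by positivity) (sum_nonneg fun U _ => hμ0 _ _ _ _)
  · intro K T j hK hT hTp hj
    apply mul_le_mul_of_nonneg_left _ (by positivity)
    refine sum_le_sum fun U hU => ?_
    rw [mem_erase, mem_powerset] at hU
    have hUp : ∀ q ∈ U, q.Prime := fun q hq => hTp q (hU.2 hq)
    have h1 := hμ1 1 (kk K) K (∏ q ∈ U, q) (Or.inl rfl) (kk_ge K)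
      (prod_pos fun q hq => (hUp q hq).pos)
      (by rw [one_mul]; exact not_sq_prod U hUp (nonempty_iff_ne_empty.mpr hU.1)) j hj
    rwa [one_mul] at h1
  · intro K hK
    have hK5 : 5 * K ≤ 2^kk K := by
      have := kk_pow K
      omega
    set P := Pr (bb K) with hP
    have hPp : ∀ q ∈ P, q.Prime := fun q hq => (mem_Pr.mp hq).1
    set f : Finset ℕ → ℝ := fun U => (∏ q ∈ U, (1:ℝ)/q) *
      (if U = ∅ then 1 else Real.exp (μ 1 (kk K) K (∏ q ∈ U, q))) with hf
    set g : Finset ℕ → ℝ := fun V => ∏ q ∈ V, (1:ℝ)/q with hg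
    have hf0 : ∀ U, 0 ≤ f U := by
      intro U
      rw [hf]
      refine mul_nonneg (prod_nonneg fun q _ => one_div_nonneg.mpr (Nat.cast_nonneg _)) ?_
      split_ifs
      · exact zero_le_one
      · exact (Real.exp_pos _).le
    have hg0 : ∀ V, 0 ≤ g V := fun V =>
      prod_nonneg fun q _ => one_div_nonneg.mpr (Nat.cast_nonneg _)
    -- the sums over `U` of cardinality `s`
    have hfs : ∀ s, s ≤ r → ∑ U ∈ powersetCard s P, f U ≤ (1 + C + C) * ((1 + C1) * (K+1))^s := by
      intro s hs
      rcases Nat.eq_zero_or_pos s with h | h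
      · subst h
        rw [powersetCard_zero, sum_singleton, hf]
        simp only [prod_empty, if_true, pow_zero, mul_one]
        linarith
      · have h1 : ∑ U ∈ powersetCard s P, f U =
            ∑ D ∈ (powersetCard s P).image (fun U => ∏ q ∈ U, q),
              Real.exp (μ 1 (kk K) K D) / D := by
          rw [sum_image]
          · refine sum_congr rfl fun U hU => ?_
            rw [mem_powersetCard] at hU
            have hne : U ≠ ∅ := by
              rintro rfl
              simp at hU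
              omega
            rw [hf]
            simp only [if_neg hne]
            rw [prod_div_distrib, prod_const_one]
            push_cast
            ring
          · intro U hU V hV hUV
            rw [mem_coe, mem_powersetCard] at hU hV
            exact tsum_prod_inj U V (fun q hq => hPp q (hU.1 hq)) (fun q hq => hPp q (hV.1 hq)) hUV
        rw [h1]
        have h2 := hμ2 1 (kk K) K ((powersetCard s P).image (fun U => ∏ q ∈ U, q)) (Or.inl rfl) hK5
          (by
            intro D hD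
            rw [mem_image] at hD
            obtain ⟨U, hU, rfl⟩ := hD
            rw [mem_powersetCard] at hU
            refine ⟨prod_pos fun q hq => (hPp q (hU.1 hq)).pos, ?_⟩
            calc ∏ q ∈ U, q ≤ ∏ _q ∈ U, bb K := prod_le_prod' fun q hq => (mem_Pr.mp (hU.1 hq)).2
              _ = bb K ^ s := by rw [prod_const, hU.2]
              _ ≤ bb K ^ 8 := Nat.pow_le_pow_right (bb_pos K) (by omega)
              _ = bb (K+3) := (bb_add K 3).symm)
        clear hK5
        refine h2.trans ?_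
        have h3 : ∑ D ∈ (powersetCard s P).image (fun U => ∏ q ∈ U, q), (1:ℝ)/D ≤
            (C1 * (K+1))^s := by
          calc ∑ D ∈ (powersetCard s P).image (fun U => ∏ q ∈ U, q), (1:ℝ)/D
              = ∑ U ∈ powersetCard s P, ∏ q ∈ U, (1:ℝ)/q := by
                rw [sum_image]
                · refine sum_congr rfl fun U hU => ?_
                  rw [prod_div_distrib, prod_const_one]
                  push_cast
                  rfl
                · intro U hU V hV hUV
                  rw [mem_coe, mem_powersetCard] at hU hV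
                  exact tsum_prod_inj U V (fun q hq => hPp q (hU.1 hq))
                    (fun q hq => hPp q (hV.1 hq)) hUV
            _ ≤ (∑ q ∈ P, (1:ℝ)/q)^s :=
                tsum_pcard (fun q => (1:ℝ)/q) (fun q => one_div_nonneg.mpr (Nat.cast_nonneg _)) P s
            _ ≤ (C1 * (K+1))^s := by
                apply pow_le_pow_left₀ (sum_nonneg fun q _ => one_div_nonneg.mpr (Nat.cast_nonneg _))
                exact hsum K
        have hK0 : (0:ℝ) ≤ K := Nat.cast_nonneg K
        have h4 : (C1 * ((K:ℝ)+1))^s ≤ ((1 + C1) * (K+1))^s := by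
          apply pow_le_pow_left₀ (by positivity)
          nlinarith
        have h5 : (1:ℝ) ≤ ((1 + C1) * (K+1))^s := by
          apply one_le_pow₀
          nlinarith
        calc C * (1 + ∑ D ∈ (powersetCard s P).image (fun U => ∏ q ∈ U, q), (1:ℝ)/D)
            ≤ C * (((1 + C1) * (K+1))^s + ((1 + C1) * (K+1))^s) := by
              apply mul_le_mul_of_nonneg_left _ hC.le
              linarith
          _ ≤ (1 + C + C) * ((1 + C1) * (K+1))^s := by nlinarith
    have hgs : ∀ t, ∑ V ∈ powersetCard t P, g V ≤ ((1 + C1) * (K+1))^t := by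
      intro t
      refine (tsum_pcard (fun q => (1:ℝ)/q) (fun q => one_div_nonneg.mpr (Nat.cast_nonneg _))
        P t).trans ?_
      apply pow_le_pow_left₀ (sum_nonneg fun q _ => one_div_nonneg.mpr (Nat.cast_nonneg _))
      refine (hsum K).trans ?_
      have hK0 : (0:ℝ) ≤ K := Nat.cast_nonneg K
      clear hK5
      nlinarith
    clear hK5
    -- convexity
    have hconv : ∀ T ∈ powersetCard r P, (∏ q ∈ T, (1:ℝ)/q) * Real.exp ((1/2:ℝ)^r *
        ∑ U ∈ T.powerset.erase ∅, μ 1 (kk K) K (∏ q ∈ U, q)) ≤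
        ∑ U ∈ T.powerset, f U * g (T \ U) := by
      intro T hT
      rw [mem_powersetCard] at hT
      set x : Finset ℕ → ℝ := fun U => if U = ∅ then 0 else μ 1 (kk K) K (∏ q ∈ U, q) with hx
      have h1 : (1/2:ℝ)^r * ∑ U ∈ T.powerset.erase ∅, μ 1 (kk K) K (∏ q ∈ U, q) =
          ∑ U ∈ T.powerset, (1/2:ℝ)^r • x U := by
        rw [← add_sum_erase _ _ (empty_mem_powerset T), hx]
        simp only [if_true, smul_zero, zero_add]
        rw [mul_sum]
        refine sum_congr rfl fun U hU => ?_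
        rw [if_neg (mem_erase.mp hU).1, smul_eq_mul]
      have h2 : Real.exp (∑ U ∈ T.powerset, (1/2:ℝ)^r • x U) ≤
          ∑ U ∈ T.powerset, (1/2:ℝ)^r • Real.exp (x U) := by
        apply convexOn_exp.map_sum_le
        · intro U _; positivity
        · rw [sum_const, card_powerset, hT.2, nsmul_eq_mul]
          push_cast
          rw [← mul_pow]
          norm_num
        · intro U _; trivial
      rw [h1]
      refine (mul_le_mul_of_nonneg_left h2
        (prod_nonneg fun q _ => one_div_nonneg.mpr (Nat.cast_nonneg _))).trans ?_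
      rw [mul_sum]
      refine sum_le_sum fun U hU => ?_
      rw [mem_powerset] at hU
      have h3 : (∏ q ∈ T, (1:ℝ)/q) = (∏ q ∈ U, (1:ℝ)/q) * ∏ q ∈ T \ U, (1:ℝ)/q := by
        rw [mul_comm, prod_sdiff hU]
      have h4 : Real.exp (x U) = if U = ∅ then 1 else Real.exp (μ 1 (kk K) K (∏ q ∈ U, q)) := by
        rw [hx]
        by_cases h : U = ∅
        · simp [h]
        · simp [h]
      have h5 : f U * g (T \ U) = (∏ q ∈ T, (1:ℝ)/q) * Real.exp (x U) := by
        rw [h3, h4, hf, hg]; ring
      rw [h5, smul_eq_mul]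
      have h6 : (1/2:ℝ)^r ≤ 1 := pow_le_one₀ (by norm_num) (by norm_num)
      have h7 : 0 ≤ (∏ q ∈ T, (1:ℝ)/q) * Real.exp (x U) :=
        mul_nonneg (prod_nonneg fun q _ => one_div_nonneg.mpr (Nat.cast_nonneg _))
          (Real.exp_pos _).le
      nlinarith
    refine (sum_le_sum hconv).trans ((tsum_split P r f g hf0 hg0).trans ?_)
    have hterm : ∀ s ∈ range (r+1), (∑ U ∈ powersetCard s P, f U) *
        ∑ V ∈ powersetCard (r-s) P, g V ≤ (1 + C + C) * ((1 + C1) * (K+1))^r := by
      intro s hs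
      rw [mem_range] at hs
      have hK0 : (0:ℝ) ≤ K := Nat.cast_nonneg K
      calc (∑ U ∈ powersetCard s P, f U) * ∑ V ∈ powersetCard (r-s) P, g V
          ≤ ((1 + C + C) * ((1 + C1) * (K+1))^s) * ((1 + C1) * (K+1))^(r-s) :=
            mul_le_mul (hfs s (by omega)) (hgs (r-s)) (sum_nonneg fun V _ => hg0 V) (by positivity)
        _ = (1 + C + C) * ((1 + C1) * (K+1))^r := by
            rw [mul_assoc, ← pow_add]
            congr 3
            omega
    refine (sum_le_sum hterm).trans ?_
    rw [sum_const, card_range, nsmul_eq_mul, mul_pow]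
    push_cast
    apply le_of_eq
    ring

end Pool.Agent.H24.KS
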