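import Mathlib
import Pool.Agent.H24.KS.LgenW
import Pool.Agent.H24.KS.Logic
import Pool.Agent.H24.KS.Dens
import Pool.Agent.H24.KS.Tsum
import Pool.Agent.H24.KS.Asum

/-!
M20: zone L, exactly one small prime of odd exponent.
-/

namespace Pool.Agent.H24.KS

open Finset Classical
open Pool.Agent.H95.Gol

lemma mem_OL {K a b z x q : ℕ} : q ∈ OL K a b z x ↔ q.Prime ∧ q ≤ bb K ∧ ¬ q ∣ a ∧
    ¬ q ∣ a * b + 1 ∧ Odd (padicValNat q (x * z)) := by
  unfold OL
  rw [mem_filter, mem_range]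
  constructor
  · rintro ⟨h1, h2, h3, h4, h5⟩; exact ⟨h2, by omega, h3, h4, h5⟩
  · rintro ⟨h1, h2, h3, h4, h5⟩; exact ⟨by omega, h1, h3, h4, h5⟩

/-- the conditions and the events of zone L for a set `D` of primes of odd exponent which
contains all the small ones (`U = True`) -/
lemma evL_all {X K a b z x : ℕ} (h : Tr X a b z x) {D : Finset ℕ} (hD : D ⊆ OL (K-10) a b z x)
    (hD2 : OL (K-10) a b z x ⊆ D) (s : ℤ) (P : Finset ℕ) (hP : P ⊆ W (kk K) (K-10))
    (hP2 : ∀ l ∈ P, ¬ l ∣ a ∧ l ∉ D) :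
    QL a D ∅ b z x ∧ EvL P a s (AT D) (fun _ => True) b z x := by
  refine ⟨⟨fun q hq => ?_, by simp⟩, ?_⟩
  · obtain ⟨h1, _, _, _, h5⟩ := mem_OL.mp (hD hq)
    have h6 : q ∣ x * z := by
      by_contra hcon
      rw [padicValNat.eq_zero_of_not_dvd hcon] at h5
      exact absurd h5 (by decide)
    exact (h1.dvd_mul).mp h6
  · intro l hl
    have hlW := hP hl
    obtain ⟨hla, hlD⟩ := hP2 l hl
    have hlp := prime_of_mem_W hlW
    have hl2 : l ≠ 2 := (two_lt_of_mem_W hlW).ne'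
    refine ⟨?_, ?_⟩
    · rintro ⟨h1, h2⟩
      exact evA h (fun q hq => ⟨(mem_OL.mp (hD hq)).1, (mem_OL.mp (hD hq)).2.2.2.2⟩) hlp hl2
        hlD h2 h1
    · rintro ⟨h1, h2, _⟩
      exact hlD (hD2 (mem_OL.mpr ⟨hlp, le_of_mem_W hlW, hla, h1, odd_of_ex h hlp h2 h1⟩))

/-- zone L is empty for `a` with a large square divisor or with `a ^ 2 ≥ X` -/
lemma Lz_zero {X a : ℕ} {Q : ℕ → ℕ → ℕ → Prop}
    (h : ∀ b z x, z < a → a * x = b * (a - z) + 1 → ¬ Q b z x) : Lz X a Q = 0 := by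
  unfold Lz
  rw [card_eq_zero, filter_eq_empty_iff]
  rintro ⟨b, z⟩ hb ⟨_, x, h2, h3⟩
  rw [mem_product, mem_range, mem_range] at hb
  exact h b z x hb.2 h2 h3

theorem bL1 : ∃ C : ℝ, 0 < C ∧ ∀ K X : ℕ, 2000 ≤ K → bb (K+6) ≤ X → X < bb (K+7) →
    (cnt X (fun a b z x => CL1 K a b z x ∧ NSq K a) : ℝ) ≤ C * X / 2^K := by
  obtain ⟨C1, hC1, h1⟩ := lgenW
  obtain ⟨C2, hC2, h2⟩ := SW_lower
  obtain ⟨C3, m, hC3, hm0, hm, h3⟩ := tsum 1 le_rfl (by norm_num)
  obtain ⟨C4, hC4, h4⟩ := harm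
  obtain ⟨C5, hC5, h5⟩ := absorb (5/2) 1 (1/2) (by norm_num)
  set G : ℝ := Real.exp (1 + (5/2) * (C2 + 10 * Real.log 2)) with hG
  refine ⟨C1 * C3 * G * (C4 * 2^6) * C5, by positivity, ?_⟩
  intro K X hK hX6 hX7
  set j := K - 10 with hj
  -- the bound of one `a`
  have hSW : Real.exp (-(5/2) * SW (kk K) j + 1) ≤
      G * Real.exp (-(5/2) * ((K:ℝ) - kk K) * Real.log 2) := by
    rw [hG, ← Real.exp_add]
    apply Real.exp_le_exp.mpr
    have h6 := h2 (kk K) j
    have h7 : (j:ℝ) = (K:ℝ) - 10 := by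
      rw [hj, Nat.cast_sub (by omega)]
      norm_num
    rw [h7] at h6
    nlinarith
  have hone : ∀ a ∈ Ico (bb K) (bb (K+6)),
      (Lz X a (fun b z x => Tr X a b z x ∧ (CL1 K a b z x ∧ NSq K a)) : ℝ) ≤
      (1:ℝ)/a * (C1 * X * (C3 * (K+1)) *
        (G * Real.exp (-(5/2) * ((K:ℝ) - kk K) * Real.log 2))) := by
    intro a ha
    rw [mem_Ico] at ha
    have hpos : 0 ≤ (1:ℝ)/a * (C1 * X * (C3 * (K+1)) *
        (G * Real.exp (-(5/2) * ((K:ℝ) - kk K) * Real.log 2))) := by positivity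
    by_cases hN : NSq K a ∧ a^2 < X
    swap
    · rw [Lz_zero]
      · simpa using hpos
      · rintro b z x _ _ ⟨h6, _, h8⟩
        refine hN ⟨h8, ?_⟩
        calc a^2 = a * a := sq a
          _ ≤ a * b := Nat.mul_le_mul_left _ h6.1
          _ < X := h6.2.1
    obtain ⟨hNS, haX⟩ := hN
    -- split according to the prime
    set I := (powersetCard 1 (Pr (bb K))).filter
      (fun T => ∀ q ∈ T, q.Prime ∧ q ≤ bb j ∧ ¬ q ∣ a) with hI
    have hsub : Lz X a (fun b z x => Tr X a b z x ∧ (CL1 K a b z x ∧ NSq K a)) ≤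
        ∑ T ∈ I, Lz X a (fun b z x => QL a T ∅ b z x ∧
          EvL ((W (kk K) j).filter (fun l => ¬ l ∣ a ∧ l ∉ T ∪ ∅)) a 1 (AT T)
            (fun _ => True) b z x) := by
      apply Lz_le_sum
      rintro b z x _ _ ⟨hTr, ⟨_, hcard⟩, _⟩
      refine ⟨OL j a b z x, ?_, ?_⟩
      · rw [hI, mem_filter, mem_powersetCard]
        refine ⟨⟨?_, hcard⟩, ?_⟩
        · intro q hq
          have h6 := mem_OL.mp hq
          exact mem_Pr.mpr ⟨h6.1, h6.2.1.trans (bb_mono (by omega))⟩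
        · intro q hq
          have h6 := mem_OL.mp hq
          exact ⟨h6.1, h6.2.1, h6.2.2.1⟩
      · apply evL_all hTr subset_rfl subset_rfl 1 _ (filter_subset _ _)
        intro l hl
        rw [mem_filter, union_empty] at hl
        exact hl.2
    have hT : ∀ T ∈ I, (Lz X a (fun b z x => QL a T ∅ b z x ∧
          EvL ((W (kk K) j).filter (fun l => ¬ l ∣ a ∧ l ∉ T ∪ ∅)) a 1 (AT T)
            (fun _ => True) b z x) : ℝ) ≤
        (C1 * (X / a) * Real.exp (-(5/2) * SW (kk K) j + 1)) *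
          ((∏ q ∈ T, (1:ℝ)/q) * Real.exp (m K T)) := by
      intro T hTI
      rw [hI, mem_filter, mem_powersetCard] at hTI
      obtain ⟨⟨_, hcard⟩, hq⟩ := hTI
      have h6 := h1 K X a 1 T ∅ (AT T) (fun _ => True) hK ha.1 ha.2 haX hNS
        (by rw [union_empty, hcard]; norm_num) (disjoint_empty_right _)
        (by rw [union_empty]; exact hq) (Or.inl rfl)
      refine h6.trans ?_
      rw [union_empty]
      have h7 : 0 ≤ C1 * (X / a) * (∏ q ∈ T, (1:ℝ)/q) := by
        have : (0:ℝ) ≤ ∏ q ∈ T, (1:ℝ)/q := prod_nonneg fun _ _ => by positivity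
        positivity
      have h8 : Real.exp (- ∑ l ∈ W (kk K) j, (chi (AT T l) + 1 + chi True) / l) ≤
          Real.exp (-(5/2) * SW (kk K) j + 1) * Real.exp (m K T) := by
        rw [← Real.exp_add]
        apply Real.exp_le_exp.mpr
        have h9 := densT T (fun q hq' => (hq q hq').1) (kk K) j (one_le_kk K)
        have h10 := hm K T j hK hcard (fun q hq' => (hq q hq').1) (by omega)
        have h11 : ∑ l ∈ W (kk K) j, (chi (AT T l) + 1 + chi True) / l =
            ∑ l ∈ W (kk K) j, chi (AT T l) / l + 2 * SW (kk K) j := by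
          rw [SW, mul_sum, ← sum_add_distrib]
          refine sum_congr rfl fun l _ => ?_
          rw [chi_true trivial]
          ring
        rw [hcard] at h9
        rw [h11]
        norm_num at h9 h10 ⊢
        linarith
      calc C1 * (X / a) * (∏ q ∈ T, (1:ℝ)/q) *
            Real.exp (- ∑ l ∈ W (kk K) (K-10), (chi (AT T l) + 1 + chi True) / l)
          ≤ C1 * (X / a) * (∏ q ∈ T, (1:ℝ)/q) *
            (Real.exp (-(5/2) * SW (kk K) j + 1) * Real.exp (m K T)) :=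
            mul_le_mul_of_nonneg_left h8 h7
        _ = _ := by ring
    calc (Lz X a (fun b z x => Tr X a b z x ∧ (CL1 K a b z x ∧ NSq K a)) : ℝ)
        ≤ ∑ T ∈ I, (Lz X a (fun b z x => QL a T ∅ b z x ∧
          EvL ((W (kk K) j).filter (fun l => ¬ l ∣ a ∧ l ∉ T ∪ ∅)) a 1 (AT T)
            (fun _ => True) b z x) : ℝ) := by exact_mod_cast hsub
      _ ≤ ∑ T ∈ I, (C1 * (X / a) * Real.exp (-(5/2) * SW (kk K) j + 1)) *
          ((∏ q ∈ T, (1:ℝ)/q) * Real.exp (m K T)) := sum_le_sum hT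
      _ = (C1 * (X / a) * Real.exp (-(5/2) * SW (kk K) j + 1)) *
          ∑ T ∈ I, ((∏ q ∈ T, (1:ℝ)/q) * Real.exp (m K T)) := by rw [mul_sum]
      _ ≤ (C1 * (X / a) * (G * Real.exp (-(5/2) * ((K:ℝ) - kk K) * Real.log 2))) *
          (C3 * (K+1)) := by
          have h12 : ∑ T ∈ I, ((∏ q ∈ T, (1:ℝ)/q) * Real.exp (m K T)) ≤ C3 * (K+1) := by
            have h3' := h3 K hK
            rw [pow_one] at h3'
            refine le_trans ?_ h3'
            apply sum_le_sum_of_subset_of_nonneg (filter_subset _ _)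
            intro T _ _
            have : (0:ℝ) ≤ ∏ q ∈ T, (1:ℝ)/q := prod_nonneg fun _ _ => by positivity
            positivity
          have h13 : (0:ℝ) ≤ ∑ T ∈ I, ((∏ q ∈ T, (1:ℝ)/q) * Real.exp (m K T)) := by
            refine sum_nonneg fun T _ => ?_
            have : (0:ℝ) ≤ ∏ q ∈ T, (1:ℝ)/q := prod_nonneg fun _ _ => by positivity
            positivity
          exact mul_le_mul (mul_le_mul_of_nonneg_left hSW (by positivity)) h12 h13
            (by positivity)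
      _ = _ := by ring
  -- sum over `a`
  have hcnt : cnt X (fun a b z x => CL1 K a b z x ∧ NSq K a) ≤
      ∑ a ∈ Ico (bb K) (bb (K+6)), Lz X a
        (fun b z x => Tr X a b z x ∧ (CL1 K a b z x ∧ NSq K a)) :=
    cnt_le_sumL X K _ hX7 fun a b z x _ h6 => h6.1.1
  set Z : ℝ := C1 * X * (C3 * (K+1)) *
    (G * Real.exp (-(5/2) * ((K:ℝ) - kk K) * Real.log 2)) with hZ
  have hZ0 : 0 ≤ Z := by positivity
  have hsuma : ∑ a ∈ Ico (bb K) (bb (K+6)), (1:ℝ)/a ≤ C4 * 2^(K+6) := by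
    refine le_trans ?_ (h4 (K+6))
    apply sum_le_sum_of_subset_of_nonneg
    · apply Ico_subset_Ico_left
      have := two_le_bb K
      omega
    · intro a _ _
      positivity
  calc (cnt X (fun a b z x => CL1 K a b z x ∧ NSq K a) : ℝ)
      ≤ ∑ a ∈ Ico (bb K) (bb (K+6)), (Lz X a
        (fun b z x => Tr X a b z x ∧ (CL1 K a b z x ∧ NSq K a)) : ℝ) := by exact_mod_cast hcnt
    _ ≤ ∑ a ∈ Ico (bb K) (bb (K+6)), (1:ℝ)/a * Z := sum_le_sum hone
    _ = (∑ a ∈ Ico (bb K) (bb (K+6)), (1:ℝ)/a) * Z := by rw [sum_mul]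
    _ ≤ C4 * 2^(K+6) * Z := mul_le_mul_of_nonneg_right hsuma hZ0
    _ = (C1 * C3 * G * (C4 * 2^6)) * X * (2^K * (K+1) *
        Real.exp (-(5/2) * ((K:ℝ) - kk K) * Real.log 2)) := by rw [hZ, pow_add]; ring
    _ ≤ (C1 * C3 * G * (C4 * 2^6)) * X * (C5 / 2^K) := by
        apply mul_le_mul_of_nonneg_left _ (by positivity)
        have h14 := h5 K
        rw [le_div_iff₀ (by positivity)]
        refine le_trans (le_of_eq ?_) h14
        have h15 : (2:ℝ)^K = Real.exp (K * Real.log 2) := by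
          rw [mul_comm, Real.exp_mul, Real.exp_log (by norm_num), Real.rpow_natCast]
        rw [h15, pow_one]
        have h16 : Real.exp (((5/2) * kk K - (1/2) * K) * Real.log 2) =
            Real.exp (K * Real.log 2) * Real.exp (-(5/2) * ((K:ℝ) - kk K) * Real.log 2) *
              Real.exp (K * Real.log 2) := by
          rw [← Real.exp_add, ← Real.exp_add]
          congr 1
          ring
        rw [h16]
        ring
    _ = _ := by ring

end Pool.Agent.H24.KS
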