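import Mathlib
import Pool.Agent.H24.KS.L1
import Pool.Agent.H24.KS.Psum

/-!
M21: zone L, at least two small primes of odd exponent and a small prime factor.
-/

namespace Pool.Agent.H24.KS

open Finset Classical
open Pool.Agent.H95.Gol

lemma sg_cases2 (v : ℕ) : sg v = 1 ∨ sg v = -1 := by
  unfold sg
  split_ifs
  · right; rfl
  · left; rfl

/-- the conditions and the events of zone L for a set `D` of primes of odd exponent and a prime
factor `p` of `v` -/
lemma evL_two {X K a b z x p : ℕ} (h : Tr X a b z x) {D : Finset ℕ} (hD : D ⊆ OL K a b z x)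
    (hp : p.Prime) (hp2 : p ≠ 2) (hpv : p ∣ a * b + 1) (i j : ℕ) (P : Finset ℕ) (hP : P ⊆ W (kk i) j)
    (hP2 : ∀ l ∈ P, ¬ l ∣ a ∧ l ∉ D ∪ {p}) :
    QL a D {p} b z x ∧ EvL P a (sg (a * b + 1)) (AT D) (BP p) b z x := by
  refine ⟨⟨fun q hq => ?_, fun q hq => ?_⟩, ?_⟩
  · obtain ⟨h1, _, _, _, h5⟩ := mem_OL.mp (hD hq)
    have h6 : q ∣ x * z := by
      by_contra hcon
      rw [padicValNat.eq_zero_of_not_dvd hcon] at h5
      exact absurd h5 (by decide)
    exact (h1.dvd_mul).mp h6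
  · rw [mem_singleton] at hq
    rw [hq]; exact hpv
  · intro l hl
    have hlW := hP hl
    obtain ⟨hla, hlD⟩ := hP2 l hl
    have hlp := prime_of_mem_W hlW
    have hl2 : l ≠ 2 := (two_lt_of_mem_W hlW).ne'
    refine ⟨?_, ?_⟩
    · rintro ⟨h1, h2⟩
      refine evA h (fun q hq => ⟨(mem_OL.mp (hD hq)).1, (mem_OL.mp (hD hq)).2.2.2.2⟩) hlp hl2
        (fun hcon => hlD (mem_union_left _ hcon)) h2 h1
    · rintro ⟨h1, h2, h3⟩
      obtain ⟨_, h4, h5⟩ := evB h hp hp2 hpv hlp hl2 h2 h1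
      rcases h3 with h3 | h3
      · unfold BP at h3
        rw [h4] at h3
        norm_num at h3
      · rw [h5] at h3
        norm_num at h3

theorem bL2 : ∃ C : ℝ, 0 < C ∧ ∀ K X : ℕ, 2000 ≤ K → bb (K+6) ≤ X → X < bb (K+7) →
    (cnt X (fun a b z x => CL2 K a b z x ∧ NSq K a) : ℝ) ≤ C * X / 2^K := by
  obtain ⟨C1, hC1, h1⟩ := lgenW
  obtain ⟨C2, hC2, h2⟩ := SW_lower
  obtain ⟨C3, m, hC3, hm0, hm, h3⟩ := tsum 2 (by norm_num) (by norm_num)
  obtain ⟨C6, mp, hC6, hmp0, hmp, h6'⟩ := psum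
  obtain ⟨C4, hC4, h4⟩ := harm
  obtain ⟨C5, hC5, h5⟩ := absorb (9/4) 3 (1/4) (by norm_num)
  set G : ℝ := Real.exp (3 + (9/4) * (C2 + 10 * Real.log 2)) with hG
  refine ⟨2 * C1 * C3 * C6 * G * (C4 * 2^6) * C5, by positivity, ?_⟩
  intro K X hK hX6 hX7
  set j := K - 10 with hj
  -- the bound of one `a`
  have hSW : Real.exp (-(9/4) * SW (kk K) j + 3) ≤
      G * Real.exp (-(9/4) * ((K:ℝ) - kk K) * Real.log 2) := by
    rw [hG, ← Real.exp_add]
    apply Real.exp_le_exp.mpr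
    have h6 := h2 (kk K) j
    have h7 : (j:ℝ) = (K:ℝ) - 10 := by
      rw [hj, Nat.cast_sub (by omega)]
      norm_num
    rw [h7] at h6
    nlinarith
  have hone : ∀ a ∈ Ico (bb K) (bb (K+6)),
      (Lz X a (fun b z x => Tr X a b z x ∧ (CL2 K a b z x ∧ NSq K a)) : ℝ) ≤
      (1:ℝ)/a * (2 * C1 * X * (C3 * (K+1)^2) * (C6 * (K+1)) *
        (G * Real.exp (-(9/4) * ((K:ℝ) - kk K) * Real.log 2))) := by
    intro a ha
    rw [mem_Ico] at ha
    have hpos : 0 ≤ (1:ℝ)/a * (2 * C1 * X * (C3 * (K+1)^2) * (C6 * (K+1)) *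
        (G * Real.exp (-(9/4) * ((K:ℝ) - kk K) * Real.log 2))) := by positivity
    by_cases hN : NSq K a ∧ a^2 < X
    swap
    · rw [Lz_zero]
      · simpa using hpos
      · rintro b z x _ _ ⟨h6, _, h8⟩
        refine hN ⟨h8, ?_⟩
        calc a^2 = a * a := sq a
          _ ≤ a * b := Nat.mul_le_mul_left _ h6.1
          _ < X := h6.2.1
    obtain ⟨hNS, haX⟩ := hN
    -- split according to the primes
    set I1 := (powersetCard 2 (Pr (bb K))).filter
      (fun T => ∀ q ∈ T, q.Prime ∧ q ≤ bb j ∧ ¬ q ∣ a) with hI1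
    set I2 := (Pr (bb K)).filter (fun p => p ≠ 2 ∧ p ≤ bb j ∧ ¬ p ∣ a) with hI2
    set S : Finset ℤ := {1, -1} with hS
    set I : Finset (Finset ℕ × (ℕ × ℤ)) := ((I1 ×ˢ (I2 ×ˢ S))).filter (fun t => t.2.1 ∉ t.1) with hI
    set R : Finset ℕ × (ℕ × ℤ) → ℕ → ℕ → ℕ → Prop := fun t b z x => QL a t.1 {t.2.1} b z x ∧
          EvL ((W (kk K) j).filter (fun l => ¬ l ∣ a ∧ l ∉ t.1 ∪ {t.2.1})) a t.2.2 (AT t.1)
            (BP t.2.1) b z x with hR
    have hsub : Lz X a (fun b z x => Tr X a b z x ∧ (CL2 K a b z x ∧ NSq K a)) ≤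
        ∑ t ∈ I, Lz X a (R t) := by
      apply Lz_le_sum
      rintro b z x _ _ ⟨hTr, ⟨_, hcard, p, hp, hp2, hpj, hpv⟩, _⟩
      obtain ⟨T, hTsub, hTcard⟩ := exists_subset_card_eq hcard
      have hpa : ¬ p ∣ a := by
        intro hcon
        have h7 : p ∣ 1 := (Nat.dvd_add_right (hcon.mul_right b)).mp hpv
        exact hp.one_lt.ne' (Nat.dvd_one.mp h7)
      have hpT : p ∉ T := fun hcon => (mem_OL.mp (hTsub hcon)).2.2.2.1 hpv
      refine ⟨(T, (p, sg (a * b + 1))), ?_, ?_⟩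
      · rw [hI, mem_filter, mem_product, mem_product]
        refine ⟨⟨?_, ?_, ?_⟩, hpT⟩
        · show T ∈ I1
          rw [hI1, mem_filter, mem_powersetCard]
          refine ⟨⟨?_, hTcard⟩, ?_⟩
          · intro q hq
            have h6 := mem_OL.mp (hTsub hq)
            exact mem_Pr.mpr ⟨h6.1, h6.2.1.trans (bb_mono (by omega))⟩
          · intro q hq
            have h6 := mem_OL.mp (hTsub hq)
            exact ⟨h6.1, h6.2.1, h6.2.2.1⟩
        · show p ∈ I2
          rw [hI2, mem_filter]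
          exact ⟨mem_Pr.mpr ⟨hp, hpj.trans (bb_mono (by omega))⟩, hp2, hpj, hpa⟩
        · show sg (a * b + 1) ∈ S
          rw [hS, mem_insert, mem_singleton]
          exact sg_cases2 _
      · apply evL_two hTr hTsub hp hp2 hpv K j _ (filter_subset _ _)
        intro l hl
        rw [mem_filter] at hl
        exact hl.2
    have hT : ∀ t ∈ I, (Lz X a (R t) : ℝ) ≤
        (C1 * (X / a) * Real.exp (-(9/4) * SW (kk K) j + 3)) *
          (((∏ q ∈ t.1, (1:ℝ)/q) * Real.exp (m K t.1)) * (Real.exp (mp K t.2.1) / t.2.1)) := by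
      rintro ⟨T, p, s⟩ ht
      rw [hI, mem_filter, mem_product, mem_product] at ht
      obtain ⟨⟨hT1, hp1, hs1⟩, hpT⟩ := ht
      simp only at hT1 hp1 hs1 hpT
      rw [hI1, mem_filter, mem_powersetCard] at hT1
      obtain ⟨⟨_, hcard⟩, hq⟩ := hT1
      rw [hI2, mem_filter, mem_Pr] at hp1
      obtain ⟨⟨hp, _⟩, hp2, hpj, hpa⟩ := hp1
      rw [hS, mem_insert, mem_singleton] at hs1
      have hdis : Disjoint T {p} := disjoint_singleton_right.mpr hpT
      have h6 := h1 K X a s T {p} (AT T) (BP p) hK ha.1 ha.2 haX hNS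
        (by rw [card_union_of_disjoint hdis, hcard, card_singleton]) hdis
        (by
          intro q hq'
          rw [mem_union, mem_singleton] at hq'
          rcases hq' with hq' | hq'
          · exact hq q hq'
          · rw [hq']; exact ⟨hp, hpj, hpa⟩) hs1
      have h6a : (Lz X a (R (T, (p, s))) : ℝ) ≤ C1 * (X / a) * (∏ q ∈ T ∪ {p}, (1:ℝ)/q) *
        Real.exp (- ∑ l ∈ W (kk K) (K-10), (chi (AT T l) + 1 + chi (BP p l)) / l) := h6
      refine h6a.trans ?_
      show C1 * (X / a) * (∏ q ∈ T ∪ {p}, (1:ℝ)/q) *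
        Real.exp (- ∑ l ∈ W (kk K) (K-10), (chi (AT T l) + 1 + chi (BP p l)) / l) ≤
        (C1 * (X / a) * Real.exp (-(9/4) * SW (kk K) j + 3)) *
          (((∏ q ∈ T, (1:ℝ)/q) * Real.exp (m K T)) * (Real.exp (mp K p) / p))
      have hprod : (∏ q ∈ T ∪ {p}, (1:ℝ)/q) = (∏ q ∈ T, (1:ℝ)/q) * (1 / p) := by
        rw [prod_union hdis, prod_singleton]
      rw [hprod]
      have h7 : 0 ≤ C1 * (X / a) * ((∏ q ∈ T, (1:ℝ)/q) * (1 / p)) := by
        have : (0:ℝ) ≤ ∏ q ∈ T, (1:ℝ)/q := prod_nonneg fun _ _ => by positivity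
        positivity
      have h8 : Real.exp (- ∑ l ∈ W (kk K) j, (chi (AT T l) + 1 + chi (BP p l)) / l) ≤
          Real.exp (-(9/4) * SW (kk K) j + 3) * (Real.exp (m K T) * Real.exp (mp K p)) := by
        rw [← Real.exp_add, ← Real.exp_add]
        apply Real.exp_le_exp.mpr
        have h9 := densT T (fun q hq' => (hq q hq').1) (kk K) j (one_le_kk K)
        have h9' := densP p hp hp2 (kk K) j (one_le_kk K)
        have h10 := hm K T j hK hcard (fun q hq' => (hq q hq').1) (by omega)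
        have h10' := hmp K p j hK hp hp2 (by omega)
        have h10'' := hmp0 K p
        have h11 : ∑ l ∈ W (kk K) j, (chi (AT T l) + 1 + chi (BP p l)) / l =
            ∑ l ∈ W (kk K) j, chi (AT T l) / l + SW (kk K) j +
              ∑ l ∈ W (kk K) j, chi (BP p l) / l := by
          rw [SW, ← sum_add_distrib, ← sum_add_distrib]
          refine sum_congr rfl fun l _ => ?_
          ring
        rw [hcard] at h9
        rw [h11]
        norm_num at h9 h10 ⊢
        linarith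
      calc C1 * (X / a) * ((∏ q ∈ T, (1:ℝ)/q) * (1 / p)) *
            Real.exp (- ∑ l ∈ W (kk K) (K-10), (chi (AT T l) + 1 + chi (BP p l)) / l)
          ≤ C1 * (X / a) * ((∏ q ∈ T, (1:ℝ)/q) * (1 / p)) *
            (Real.exp (-(9/4) * SW (kk K) j + 3) * (Real.exp (m K T) * Real.exp (mp K p))) :=
            mul_le_mul_of_nonneg_left h8 h7
        _ = _ := by ring
    have hTs0 : ∀ T : Finset ℕ, 0 ≤ (∏ q ∈ T, (1:ℝ)/q) * Real.exp (m K T) := by
      intro T
      have : (0:ℝ) ≤ ∏ q ∈ T, (1:ℝ)/q := prod_nonneg fun _ _ => by positivity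
      positivity
    have hps0 : ∀ p : ℕ, 0 ≤ Real.exp (mp K p) / p := fun p => by positivity
    have hsumI : ∑ t ∈ I, (((∏ q ∈ t.1, (1:ℝ)/q) * Real.exp (m K t.1)) *
        (Real.exp (mp K t.2.1) / t.2.1)) ≤ (C3 * (K+1)^2) * (2 * (C6 * (K+1))) := by
      calc ∑ t ∈ I, (((∏ q ∈ t.1, (1:ℝ)/q) * Real.exp (m K t.1)) *
            (Real.exp (mp K t.2.1) / t.2.1))
          ≤ ∑ t ∈ I1 ×ˢ (I2 ×ˢ S), (((∏ q ∈ t.1, (1:ℝ)/q) * Real.exp (m K t.1)) *
            (Real.exp (mp K t.2.1) / t.2.1)) :=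
            sum_le_sum_of_subset_of_nonneg (filter_subset _ _)
              fun t _ _ => mul_nonneg (hTs0 _) (hps0 _)
        _ = (∑ T ∈ I1, (∏ q ∈ T, (1:ℝ)/q) * Real.exp (m K T)) *
            ∑ u ∈ I2 ×ˢ S, (Real.exp (mp K u.1) / u.1) := by
            rw [sum_product, sum_mul]
            refine sum_congr rfl fun T _ => ?_
            rw [mul_sum]
        _ = (∑ T ∈ I1, (∏ q ∈ T, (1:ℝ)/q) * Real.exp (m K T)) *
            (2 * ∑ p ∈ I2, (Real.exp (mp K p) / p)) := by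
            congr 1
            rw [sum_product, mul_sum]
            refine sum_congr rfl fun p _ => ?_
            have hc : S.card = 2 := by rw [hS]; rfl
            calc ∑ _y ∈ S, Real.exp (mp K p) / (p:ℝ) = S.card • (Real.exp (mp K p) / (p:ℝ)) :=
                  sum_const _
              _ = 2 * (Real.exp (mp K p) / p) := by rw [hc, nsmul_eq_mul]; norm_num
        _ ≤ (C3 * (K+1)^2) * (2 * (C6 * (K+1))) := by
            have e1 : (∑ T ∈ I1, (∏ q ∈ T, (1:ℝ)/q) * Real.exp (m K T)) ≤ C3 * (K+1)^2 := by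
              refine le_trans ?_ (h3 K hK)
              exact sum_le_sum_of_subset_of_nonneg (filter_subset _ _) fun T _ _ => hTs0 T
            have e2 : ∑ p ∈ I2, (Real.exp (mp K p) / p) ≤ C6 * (K+1) := by
              refine le_trans ?_ (h6' K hK)
              apply sum_le_sum_of_subset_of_nonneg _ fun p _ _ => hps0 p
              intro p hp
              rw [hI2, mem_filter] at hp
              rw [mem_filter]
              exact ⟨hp.1, hp.2.1⟩
            have e3 : 0 ≤ ∑ p ∈ I2, (Real.exp (mp K p) / p) := sum_nonneg fun p _ => hps0 p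
            exact mul_le_mul e1 (by linarith) (by positivity) (by positivity)
    calc (Lz X a (fun b z x => Tr X a b z x ∧ (CL2 K a b z x ∧ NSq K a)) : ℝ)
        ≤ ∑ t ∈ I, (Lz X a (R t) : ℝ) := by exact_mod_cast hsub
      _ ≤ ∑ t ∈ I, (C1 * (X / a) * Real.exp (-(9/4) * SW (kk K) j + 3)) *
          (((∏ q ∈ t.1, (1:ℝ)/q) * Real.exp (m K t.1)) * (Real.exp (mp K t.2.1) / t.2.1)) :=
          sum_le_sum hT
      _ = (C1 * (X / a) * Real.exp (-(9/4) * SW (kk K) j + 3)) *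
          ∑ t ∈ I, (((∏ q ∈ t.1, (1:ℝ)/q) * Real.exp (m K t.1)) *
            (Real.exp (mp K t.2.1) / t.2.1)) := by rw [mul_sum]
      _ ≤ (C1 * (X / a) * (G * Real.exp (-(9/4) * ((K:ℝ) - kk K) * Real.log 2))) *
          ((C3 * (K+1)^2) * (2 * (C6 * (K+1)))) := by
          have h13 : (0:ℝ) ≤ ∑ t ∈ I, (((∏ q ∈ t.1, (1:ℝ)/q) * Real.exp (m K t.1)) *
            (Real.exp (mp K t.2.1) / t.2.1)) := sum_nonneg fun t _ => mul_nonneg (hTs0 _) (hps0 _)
          exact mul_le_mul (mul_le_mul_of_nonneg_left hSW (by positivity)) hsumI h13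
            (by positivity)
      _ = _ := by ring
  -- sum over `a`
  have hcnt : cnt X (fun a b z x => CL2 K a b z x ∧ NSq K a) ≤
      ∑ a ∈ Ico (bb K) (bb (K+6)), Lz X a
        (fun b z x => Tr X a b z x ∧ (CL2 K a b z x ∧ NSq K a)) :=
    cnt_le_sumL X K _ hX7 fun a b z x _ h6 => h6.1.1
  set Z : ℝ := 2 * C1 * X * (C3 * (K+1)^2) * (C6 * (K+1)) *
    (G * Real.exp (-(9/4) * ((K:ℝ) - kk K) * Real.log 2)) with hZ
  have hZ0 : 0 ≤ Z := by positivity
  have hsuma : ∑ a ∈ Ico (bb K) (bb (K+6)), (1:ℝ)/a ≤ C4 * 2^(K+6) := by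
    refine le_trans ?_ (h4 (K+6))
    apply sum_le_sum_of_subset_of_nonneg
    · apply Ico_subset_Ico_left
      have := two_le_bb K
      omega
    · intro a _ _
      positivity
  calc (cnt X (fun a b z x => CL2 K a b z x ∧ NSq K a) : ℝ)
      ≤ ∑ a ∈ Ico (bb K) (bb (K+6)), (Lz X a
        (fun b z x => Tr X a b z x ∧ (CL2 K a b z x ∧ NSq K a)) : ℝ) := by exact_mod_cast hcnt
    _ ≤ ∑ a ∈ Ico (bb K) (bb (K+6)), (1:ℝ)/a * Z := sum_le_sum hone
    _ = (∑ a ∈ Ico (bb K) (bb (K+6)), (1:ℝ)/a) * Z := by rw [sum_mul]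
    _ ≤ C4 * 2^(K+6) * Z := mul_le_mul_of_nonneg_right hsuma hZ0
    _ = (2 * C1 * C3 * C6 * G * (C4 * 2^6)) * X * (2^K * (K+1)^3 *
        Real.exp (-(9/4) * ((K:ℝ) - kk K) * Real.log 2)) := by rw [hZ, pow_add]; ring
    _ ≤ (2 * C1 * C3 * C6 * G * (C4 * 2^6)) * X * (C5 / 2^K) := by
        apply mul_le_mul_of_nonneg_left _ (by positivity)
        have h14 := h5 K
        rw [le_div_iff₀ (by positivity)]
        refine le_trans (le_of_eq ?_) h14
        have h15 : (2:ℝ)^K = Real.exp (K * Real.log 2) := by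
          rw [mul_comm, Real.exp_mul, Real.exp_log (by norm_num), Real.rpow_natCast]
        rw [h15]
        have h16 : Real.exp (((9/4) * kk K - (1/4) * K) * Real.log 2) =
            Real.exp (K * Real.log 2) * Real.exp (-(9/4) * ((K:ℝ) - kk K) * Real.log 2) *
              Real.exp (K * Real.log 2) := by
          rw [← Real.exp_add, ← Real.exp_add]
          congr 1
          ring
        rw [h16]
        ring
    _ = _ := by ring

end Pool.Agent.H24.KS
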