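import Mathlib
import Pool.Agent.H24.AN.Defs
import Pool.Agent.H66.Gol.Paley
import Pool.Agent.H49.Gol.PrimesLower

/-!
The lower bound: Paley difference sets in the groups of prime order `p ≡ 3 mod 4`.
-/

namespace Pool.Agent.H24.KS

open Finset Classical Filter
open Pool.Agent.H96.Sing Pool.Agent.H24.AN

lemma low_paley_mem (w : ℕ) (hw : 2 ≤ w) (hp : (4 * w - 1).Prime) (X : ℕ) (hX : 4 * w - 1 ≤ X) :
    4 * w - 1 ∈ differenceSetOrders X := by
  obtain ⟨D, hDc, hD⟩ := Pool.Agent.H66.Gol.paley w (by omega) hp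
  have hne : NeZero (4 * w - 1) := ⟨by omega⟩
  have hcard : Nat.card (Multiplicative (ZMod (4 * w - 1))) = 4 * w - 1 := by
    have : Nat.card (Multiplicative (ZMod (4 * w - 1))) = Nat.card (ZMod (4 * w - 1)) := rfl
    rw [this, Nat.card_zmod]
  have hDc' : (D.map (Multiplicative.ofAdd (α := ZMod (4 * w - 1))).toEmbedding).card =
      2 * w - 1 := by rw [card_map, hDc]
  refine ⟨hX, Multiplicative (ZMod (4 * w - 1)), inferInstance,
    D.map (Multiplicative.ofAdd (α := ZMod (4 * w - 1))).toEmbedding, w - 1, hcard, ?_, ?_, ?_⟩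
  · rw [hDc']; omega
  · rw [hDc']; omega
  · intro g hg
    have hg0 : Multiplicative.toAdd g ≠ 0 := by
      intro h0
      apply hg
      rw [← ofAdd_toAdd g, h0, ofAdd_zero]
    rw [← hD (Multiplicative.toAdd g) hg0, ← Set.ncard_coe_finset]
    symm
    refine Set.ncard_congr (fun t _ => (Multiplicative.ofAdd t.1, Multiplicative.ofAdd t.2))
      ?_ ?_ ?_
    · intro t ht
      rw [mem_coe, mem_filter, mem_product] at ht
      refine ⟨?_, ?_, ?_⟩
      · simpa using ht.1.1
      · simpa using ht.1.2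
      · show Multiplicative.ofAdd t.1 * (Multiplicative.ofAdd t.2)⁻¹ = g
        rw [← div_eq_mul_inv, ← ofAdd_sub, ht.2, ofAdd_toAdd]
    · intro t t' _ _ h
      simp only [Prod.mk.injEq, EmbeddingLike.apply_eq_iff_eq] at h
      exact Prod.ext h.1 h.2
    · rintro ⟨x, y⟩ ⟨hx, hy, hxy⟩
      simp only at hx hy hxy
      rw [mem_map_equiv] at hx hy
      refine ⟨(Multiplicative.toAdd x, Multiplicative.toAdd y), ?_, rfl⟩
      rw [mem_coe, mem_filter, mem_product]
      refine ⟨⟨hx, hy⟩, ?_⟩
      rw [← hxy, toAdd_mul, toAdd_inv, sub_eq_add_neg]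

theorem lower : ∃ (c : ℝ) (X0 : ℕ), 0 < c ∧ ∀ X : ℕ, X0 ≤ X →
    c * X / Real.log X ≤ ((differenceSetOrders X).ncard : ℝ) := by
  obtain ⟨c, hc, hev⟩ := Pool.Agent.H49.Gol.primes_lower
  obtain ⟨W0, hW0⟩ := eventually_atTop.mp hev
  have hlog : ∀ᶠ X : ℕ in atTop, 1 ≤ c / 16 * X / Real.log X := by
    have h1 : Tendsto (fun x : ℝ => Real.log x / x) atTop (nhds 0) := by
      have := Real.isLittleO_log_id_atTop.tendsto_div_nhds_zero
      simpa using this
    have h2 : Tendsto (fun n : ℕ => Real.log (n:ℝ) / (n:ℝ)) atTop (nhds 0) :=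
      h1.comp tendsto_natCast_atTop_atTop
    have h3 := h2.eventually (gt_mem_nhds (show (0:ℝ) < c / 16 by positivity))
    filter_upwards [h3, eventually_ge_atTop 3] with X hX hX3
    have hX0 : (0:ℝ) < X := by exact_mod_cast (by omega : 0 < X)
    have hl : 0 < Real.log X := Real.log_pos (by exact_mod_cast (by omega : 1 < X))
    rw [div_lt_iff₀ hX0] at hX
    rw [le_div_iff₀ hl]
    linarith
  obtain ⟨X1, hX1⟩ := eventually_atTop.mp hlog
  refine ⟨c / 16, max (4 * W0 + 8) (max X1 8), by positivity, ?_⟩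
  intro X hX
  have hXa : 4 * W0 + 8 ≤ X := le_trans (le_max_left _ _) hX
  have hXb : X1 ≤ X := le_trans ((le_max_left _ _).trans (le_max_right _ _)) hX
  set W := (X + 1) / 4 with hW
  have hWW : W0 ≤ W := by omega
  have h1 := hW0 W hWW
  have h2 := hX1 X hXb
  have hfin : (differenceSetOrders X).Finite := (Set.finite_Iic X).subset fun v hv => hv.1
  have h3 : ((Icc 1 W).filter (fun w => (4 * w - 1).Prime)).card ≤ (differenceSetOrders X).ncard + 1 := by
    have h4 : (((Icc 1 W).filter (fun w => (4 * w - 1).Prime)).erase 1).card ≤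
        (differenceSetOrders X).ncard := by
      rw [← Set.ncard_coe_finset]
      refine Set.ncard_le_ncard_of_injOn (fun w => 4 * w - 1) ?_ ?_ hfin
      · intro w hw
        rw [mem_coe, mem_erase, mem_filter, mem_Icc] at hw
        exact low_paley_mem w (by omega) hw.2.2 X (by omega)
      · intro w hw w' hw' h
        rw [mem_coe, mem_erase, mem_filter, mem_Icc] at hw hw'
        simp only at h
        omega
    have h5 := pred_card_le_card_erase (s := (Icc 1 W).filter (fun w => (4 * w - 1).Prime)) (a := 1)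
    omega
  have h3' : (((Icc 1 W).filter (fun w => (4 * w - 1).Prime)).card : ℝ) ≤
      ((differenceSetOrders X).ncard : ℝ) + 1 := by exact_mod_cast h3
  have hX8 : 8 ≤ X := by omega
  have hWX : (X:ℝ) / 8 ≤ W := by
    have : X ≤ 8 * W := by omega
    have h' : (X:ℝ) ≤ 8 * W := by exact_mod_cast this
    linarith
  have hWle : (W:ℝ) ≤ X := by exact_mod_cast (by omega : W ≤ X)
  have hW2 : (2:ℝ) ≤ W := by exact_mod_cast (by omega : 2 ≤ W)
  have hlW : 0 < Real.log W := Real.log_pos (by linarith)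
  have hlX : 0 < Real.log X := Real.log_pos (by linarith)
  have hll : Real.log W ≤ Real.log X := Real.log_le_log (by linarith) hWle
  have h6 : c * (X / 8) / Real.log X ≤ c * W / Real.log W := by
    apply div_le_div₀ (by positivity) _ hlW hll
    exact mul_le_mul_of_nonneg_left hWX hc.le
  have h7 : c * (X / 8) / Real.log X = c / 16 * X / Real.log X + c / 16 * X / Real.log X := by
    ring
  linarith

end Pool.Agent.H24.KS
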