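import Mathlib
import Pool.Agent.H24.KS.Df2

/-!
Rough numbers.
-/

namespace Pool.Agent.H24.KS

open Finset Classical
open Pool.Agent.H95.Gol

lemma SW_zero_lower : ∃ C : ℝ, 0 < C ∧ ∀ K : ℕ, (K:ℝ) * Real.log 2 - C ≤ SW 0 K := by
  obtain ⟨C0, hC0, hb⟩ := Pool.Agent.H66.Gol.blk
  refine ⟨2 * C0, by positivity, ?_⟩
  intro K
  unfold SW
  rw [sum_W]
  have h1 : ∀ k ∈ Ico 0 K, Real.log 2 - C0 * (1/2)^k ≤ ∑ l ∈ PB k, (1:ℝ)/l := by
    intro k _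
    have h := (abs_le.mp (hb k)).1
    have h2 : C0 / 2^k = C0 * (1/2)^k := by rw [one_div, inv_pow]; rfl
    rw [h2] at h
    linarith
  refine le_trans ?_ (sum_le_sum h1)
  rw [sum_sub_distrib, ← mul_sum, sum_const, Nat.card_Ico, nsmul_eq_mul, Nat.sub_zero]
  have h3 : ∑ k ∈ Ico 0 K, (1/2:ℝ)^k ≤ 2 := by
    rw [← range_eq_Ico]
    have h4 := geom_sum_eq (show (1/2:ℝ) ≠ 1 by norm_num) K
    rw [h4]
    have : (0:ℝ) < (1/2)^K := by positivity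
    rw [div_le_iff_of_neg (by norm_num)]
    linarith
  nlinarith

theorem bRough : ∃ C : ℝ, 0 < C ∧ ∀ K X : ℕ, 2000 ≤ K → bb (K+6) ≤ X → X < bb (K+7) →
    (((range (X+1)).filter (fun v => ∀ p : ℕ, p.Prime → p ≠ 2 → p ≤ bb (K-10) → ¬ p ∣ v)).card : ℝ)
      ≤ C * X / 2^K := by
  obtain ⟨C, hC, hs⟩ := sieveD 1
  obtain ⟨C1, hC1, hSW⟩ := SW_zero_lower
  refine ⟨C * 2 * (Real.exp C1 * 2^10), by positivity, ?_⟩
  intro K X hK hX _
  have hJ : (bb (K-10))^33 ≤ X + 1 := by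
    have h1 : (bb (K-10))^33 ≤ (bb (K-10))^(2^6) :=
      Nat.pow_le_pow_right (bb_pos _) (by norm_num)
    have h2 : (bb (K-10))^(2^6) = bb (K - 10 + 6) := (bb_add _ _).symm
    have h3 : bb (K - 10 + 6) ≤ bb (K+6) := bb_mono (by omega)
    omega
  have hb2 : 2 ≤ bb 0 := two_le_bb 0
  have hb02 : bb 0 = 2 := rfl
  obtain ⟨E, hE⟩ : ∃ E : ℕ → ℕ → Prop, ∀ p j, E p j ↔ p ∣ j := ⟨fun p j => p ∣ j, fun _ _ => Iff.rfl⟩
  have h1 := hs (W 0 (K-10)) (K-10) (X+1) E (fun p => p) hJ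
    (fun p hp => ⟨prime_of_mem_W hp, by have := lt_of_mem_W hp; omega, le_of_mem_W hp⟩)
    (fun p _ j => by rw [hE, hE, Nat.dvd_mod_iff (⟨p, by ring⟩ : p ∣ p^2)])
    (fun p hp => by
      have h2 := card_mod_eq p 0 (prime_of_mem_W hp).pos
      have h3 : (range (p^2)).filter (E p) = (range (p^2)).filter (fun x => x % p = 0) :=
        filter_congr fun x _ => (hE p x).trans Nat.dvd_iff_mod_eq_zero
      rw [h3]; exact h2)
    (fun p _ => by omega)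
  have hcard : (((range (X+1)).filter (fun v => ∀ p : ℕ, p.Prime → p ≠ 2 → p ≤ bb (K-10) →
      ¬ p ∣ v)).card : ℝ) ≤ C * ((X+1 : ℕ) : ℝ) *
        Real.exp (- ∑ p ∈ W 0 (K-10), ((p:ℕ):ℝ) / (p:ℝ)^2) := by
    refine le_trans ?_ h1
    refine Nat.cast_le.mpr ?_
    apply card_le_card
    intro v hv
    rw [mem_filter] at hv ⊢
    refine ⟨hv.1, fun p hp => ?_⟩
    rw [hE]
    refine hv.2 p (prime_of_mem_W hp) ?_ (le_of_mem_W hp)
    have := lt_of_mem_W hp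
    omega
  have hexp : Real.exp (- ∑ p ∈ W 0 (K-10), ((p:ℕ):ℝ) / (p:ℝ)^2) ≤
      Real.exp C1 * 2^10 / 2^K := by
    have h4 : ∑ p ∈ W 0 (K-10), ((p:ℕ):ℝ) / (p:ℝ)^2 = SW 0 (K-10) := by
      unfold SW
      refine sum_congr rfl fun p hp => ?_
      have : (p:ℝ) ≠ 0 := by exact_mod_cast (prime_of_mem_W hp).ne_zero
      field_simp
    rw [h4]
    have h5 := hSW (K-10)
    have h6 : (((K - 10 : ℕ)) : ℝ) = K - 10 := by
      rw [Nat.cast_sub (by omega)]; norm_num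
    have h7 : Real.exp C1 * 2^10 / 2^K = Real.exp (C1 - (K - 10) * Real.log 2) := by
      rw [Real.exp_sub, sub_mul, Real.exp_sub]
      have e1 : Real.exp ((K:ℝ) * Real.log 2) = 2^K := by
        rw [Real.exp_nat_mul, Real.exp_log (by norm_num)]
      have e2 : Real.exp ((10:ℝ) * Real.log 2) = 2^10 := by
        have := Real.exp_nat_mul (Real.log 2) 10
        rw [Real.exp_log (by norm_num)] at this
        exact_mod_cast this
      rw [e1, e2, div_div_eq_mul_div]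
    rw [h7]
    apply Real.exp_le_exp.mpr
    rw [h6] at h5
    linarith
  have hX0 : (0:ℝ) ≤ X := Nat.cast_nonneg _
  have hX1 : ((X + 1 : ℕ) : ℝ) ≤ 2 * X := by
    have h8 : 1 ≤ X := le_trans (bb_pos _) hX
    have h9 : (1:ℝ) ≤ X := by exact_mod_cast h8
    push_cast; linarith
  calc _ ≤ C * ((X+1 : ℕ) : ℝ) * Real.exp (- ∑ p ∈ W 0 (K-10), ((p:ℕ):ℝ) / (p:ℝ)^2) := hcard
    _ ≤ C * (2 * X) * (Real.exp C1 * 2^10 / 2^K) := by gcongr
    _ = C * 2 * (Real.exp C1 * 2^10) * X / 2^K := by ring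

end Pool.Agent.H24.KS
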