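import Mathlib
import Pool.Agent.H24.KS.Df2
import Pool.Agent.H24.KS.Fz4

/-!
Zone S: the conditions at `T`, `p` and the exact divisors of `z`, from the `t`-sieve.
-/

namespace Pool.Agent.H24.KS

open Finset Classical
open Pool.Agent.H95.Gol


/-- the exact divisors of `z` in the window, other than `p` -/
noncomputable def sgD3 (K a z p : ℕ) : Finset ℕ :=
  ((W (kk K) (ja a - 6)).erase p).filter (fun q => Ex q z)

/-- the conditions at the primes of `D` -/
def sgCd (K a z p : ℕ) (s : ℤ) (T : Finset ℕ) (q b x : ℕ) : Prop :=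
  (q ∈ T → q ∣ x) ∧ (q = p → q ∣ a * b + 1) ∧
    (q ∈ sgD3 K a z p → (q ∣ a * b + 1 ∨
      (F (ps p) q = 1 ∧ jacobiSym (s * ((a * b + 1 : ℕ) : ℤ)) q = 1)))

/-- the densities -/
noncomputable def sgg (K a z p q : ℕ) : ℝ :=
  if q ∈ sgD3 K a z p then wz p q else 1 / q

lemma sg_wz_nonneg (p q : ℕ) : 0 ≤ wz p q := by
  unfold wz
  split_ifs <;> positivity

lemma sg_dvd_add (q n m : ℕ) : q ∣ n ↔ q ∣ n + m * q^2 :=
  (Nat.dvd_add_left (Dvd.dvd.mul_left ⟨q, by ring⟩ _)).symm

lemma sg_jac_add (q n m : ℕ) (s : ℤ) :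
    jacobiSym (s * (n : ℤ)) q = jacobiSym (s * ((n + m * q^2 : ℕ) : ℤ)) q := by
  rw [jacobiSym.mod_left (s * (n:ℤ)) q, jacobiSym.mod_left (s * ((n + m * q^2 : ℕ) : ℤ)) q]
  congr 1
  push_cast
  have h : s * ((n:ℤ) + m * q^2) = s * n + q * (s * m * q) := by ring
  rw [h, Int.add_mul_emod_self_left]

/-- number of `t < q²` such that the affine form is a multiple of `q` or a residue -/
lemma sg_card_res (q c d : ℕ) (hq : q.Prime) (hq2 : q ≠ 2) (hd : ¬ q ∣ d) (s : ℤ)
    (hs : s = 1 ∨ s = -1) :
    2 * ((range (q^2)).filter (fun t => q ∣ c + d * t ∨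
      jacobiSym (s * ((c + d * t : ℕ) : ℤ)) q = 1)).card = q * (q + 1) := by
  have hf : Fact q.Prime := ⟨hq⟩
  have hdq : q ∣ q^2 := ⟨q, by ring⟩
  let R : ℕ → Prop := fun u => q ∣ u ∨ jacobiSym (s * (u : ℤ)) q = 1
  have hmod : ∀ x, R x ↔ R (x % q) := by
    intro x
    show (q ∣ x ∨ jacobiSym (s * (x : ℤ)) q = 1) ↔
      (q ∣ x % q ∨ jacobiSym (s * ((x % q : ℕ) : ℤ)) q = 1)
    have h1 : q ∣ x ↔ q ∣ x % q := (Nat.dvd_mod_iff dvd_rfl).symm
    have h2 : jacobiSym (s * (x : ℤ)) q = jacobiSym (s * ((x % q : ℕ) : ℤ)) q := by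
      rw [jacobiSym.mod_left (s * (x:ℤ)) q, jacobiSym.mod_left (s * ((x % q : ℕ) : ℤ)) q]
      congr 1
      push_cast
      rw [Int.mul_emod s ((x:ℤ) % q), Int.emod_emod_of_dvd _ (dvd_refl _), ← Int.mul_emod]
    rw [← h1, ← h2]
  have hmod2 : ∀ x, R x ↔ R (x % q^2) := by
    intro x
    rw [hmod x, hmod (x % q^2), Nat.mod_mod_of_dvd x hdq]
  have hcop : Nat.Coprime d (q^2) :=
    Nat.Coprime.pow_right 2 ((Nat.Prime.coprime_iff_not_dvd hq).mpr hd).symm
  have h1 := card_affine d c (q^2) hcop R hmod2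
  have h2 := Pool.Agent.H24.SH.card_sq_of_mod q hq.pos R hmod
  have h3 : 2 * ((range q).filter R).card = q + 1 := by
    have h4 := card_nonres q hq hq2 s hs
    have h5 : (range q).filter (fun u : ℕ => jacobiSym (s * u) q = -1) =
        (range q).filter (fun u => ¬ R u) := by
      refine filter_congr fun u _ => ?_
      show _ ↔ ¬ (q ∣ u ∨ jacobiSym (s * (u : ℤ)) q = 1)
      constructor
      · intro h6 h7
        rcases h7 with h7 | h7
        · have h8 : jacobiSym (s * (u:ℤ)) q = 0 := by
            rw [← jacobiSym.legendreSym.to_jacobiSym, legendreSym.eq_zero_iff]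
            have h9 : ((u:ℕ) : ZMod q) = 0 := (ZMod.natCast_eq_zero_iff _ _).mpr h7
            push_cast
            rw [h9, mul_zero]
          rw [h8] at h6; norm_num at h6
        · rw [h7] at h6; norm_num at h6
      · intro h6
        push Not at h6
        rcases jacobiSym.trichotomy (s * (u:ℤ)) q with h | h | h
        · exfalso
          apply h6.1
          rw [← jacobiSym.legendreSym.to_jacobiSym, legendreSym.eq_zero_iff] at h
          push_cast at h
          have h10 : ((s:ℤ) : ZMod q) ≠ 0 := by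
            rcases hs with h2 | h2 <;> rw [h2] <;> simp
          rcases mul_eq_zero.mp h with h11 | h11
          · exact absurd h11 h10
          · exact (ZMod.natCast_eq_zero_iff _ _).mp h11
        · exact absurd h h6.2
        · exact h
    have h6 := card_filter_add_card_filter_not (s := range q) R
    rw [card_range] at h6
    rw [h5] at h4
    have h7 := hq.pos
    omega
  have h4 : ((range (q^2)).filter (fun t => q ∣ c + d * t ∨
      jacobiSym (s * ((c + d * t : ℕ) : ℤ)) q = 1)).card = ((range q).filter R).card * q := by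
    refine Eq.trans ?_ h2
    refine Eq.trans (Eq.trans ?_ h1) (by congr)
    congr
  rw [h4]
  calc 2 * (((range q).filter R).card * q) = (2 * ((range q).filter R).card) * q := by ring
    _ = q * (q + 1) := by rw [h3]; ring

theorem sgen : ∃ C : ℝ, 0 < C ∧ ∀ (K X a z p : ℕ) (s : ℤ) (T : Finset ℕ) (A B : ℕ → Prop),
    2000 ≤ K → bb (K+6) ≤ X → 2 ≤ a → a < bb K → 0 < z → z < a → Nat.Coprime a z →
    p.Prime → p ≠ 2 → p ≤ bb K → (∀ q ∈ T, q.Prime ∧ q ≤ bb K) → T.card ≤ 3 → p ∉ T →
    (s = 1 ∨ s = -1) →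
    (Bz X a z (fun b x => QS K a z p s T b x ∧ EvS K a z (insert p T) A B b x) : ℝ) ≤
      C * (X / a^2) * (∏ q ∈ T, (1:ℝ)/q) * (1/p) *
        (∏ q ∈ (W (kk K) (ja a - 6)).erase p, if Ex q z then wz p q else 1) *
        Real.exp (- ∑ l ∈ W (kk K) K, (chi (A l) + chi (B l)) / l) := by
  obtain ⟨C, hC, hf⟩ := fz4
  refine ⟨C, hC, ?_⟩
  intro K X a z p s T A B hK hX ha haK hz hza hcop hp hp2 hpK hT hTc hpT hs
  have hprodwz : ∏ q ∈ (W (kk K) (ja a - 6)).erase p, (if Ex q z then wz p q else 1) =
      ∏ q ∈ sgD3 K a z p, wz p q := by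
    unfold sgD3
    rw [prod_filter]
  rw [hprodwz]
  have hR0 : 0 ≤ C * ((X:ℝ) / a^2) * (∏ q ∈ T, (1:ℝ)/q) * (1/p) *
        (∏ q ∈ sgD3 K a z p, wz p q) *
        Real.exp (- ∑ l ∈ W (kk K) K, (chi (A l) + chi (B l)) / l) := by
    have h1 : 0 ≤ ∏ q ∈ T, (1:ℝ)/q := prod_nonneg fun _ _ => by positivity
    have h2 : 0 ≤ ∏ q ∈ sgD3 K a z p, wz p q := prod_nonneg fun _ _ => sg_wz_nonneg _ _
    positivity
  by_cases hTz : ∃ q ∈ T, q ∣ z
  · have h0 : Bz X a z (fun b x => QS K a z p s T b x ∧ EvS K a z (insert p T) A B b x) = 0 := by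
      unfold Bz
      rw [card_eq_zero, filter_eq_empty_iff]
      rintro b _ ⟨x, _, _, h1, _⟩
      obtain ⟨q, hq, hqz⟩ := hTz
      exact (h1.1 q hq).2 hqz
    rw [h0]
    simpa using hR0
  push Not at hTz
  have hD3 : ∀ q ∈ sgD3 K a z p, q.Prime ∧ q ≠ p ∧ q ∣ z ∧ 2 < q := by
    intro q hq
    unfold sgD3 at hq
    rw [mem_filter, mem_erase] at hq
    have h1 := lt_of_mem_W hq.1.2
    have h2 := two_le_bb (kk K)
    exact ⟨prime_of_mem_W hq.1.2, hq.1.1, hq.2.1, by omega⟩
  have hdis : Disjoint (insert p T) (sgD3 K a z p) := by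
    rw [disjoint_left]
    intro q hq1 hq2
    obtain ⟨e1, e2, e3, e4⟩ := hD3 q hq2
    rw [mem_insert] at hq1
    rcases hq1 with h | h
    · exact e2 h
    · exact hTz q h e3
  set D : Finset ℕ := insert p T ∪ sgD3 K a z p with hD
  have hDp : ∀ q ∈ D, q.Prime := by
    intro q hq
    rw [hD, mem_union, mem_insert] at hq
    rcases hq with (h | h) | h
    · rw [h]; exact hp
    · exact (hT q h).1
    · exact (hD3 q h).1
  have hDprod : ∏ q ∈ D, q ≤ (bb K)^5 := by
    rw [hD, prod_union hdis, prod_insert hpT]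
    have hb1 : 1 ≤ bb K := bb_pos K
    have h1 : ∏ q ∈ T, q ≤ (bb K)^3 := by
      calc ∏ q ∈ T, q ≤ ∏ q ∈ T, bb K := prod_le_prod' fun q hq => (hT q hq).2
        _ = (bb K)^T.card := prod_const _
        _ ≤ (bb K)^3 := Nat.pow_le_pow_right hb1 hTc
    have h2 : ∏ q ∈ sgD3 K a z p, q ≤ bb K := by
      have h3 : ∏ q ∈ sgD3 K a z p, q ∣ z :=
        prod_primes_dvd z (fun q hq => (hD3 q hq).1.prime) fun q hq => (hD3 q hq).2.2.1
      have := Nat.le_of_dvd hz h3
      omega
    calc (p * ∏ q ∈ T, q) * ∏ q ∈ sgD3 K a z p, q ≤ (bb K * (bb K)^3) * bb K :=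
          Nat.mul_le_mul (Nat.mul_le_mul hpK h1) h2
      _ = (bb K)^5 := by ring
  have hgprod : ∏ q ∈ D, sgg K a z p q =
      (∏ q ∈ T, (1:ℝ)/q) * (1/p) * ∏ q ∈ sgD3 K a z p, wz p q := by
    rw [hD, prod_union hdis, prod_insert hpT]
    have hpn : p ∉ sgD3 K a z p := fun h => (hD3 p h).2.1 rfl
    have h1 : sgg K a z p p = 1 / p := if_neg hpn
    have h2 : ∏ q ∈ T, sgg K a z p q = ∏ q ∈ T, (1:ℝ)/q :=
      prod_congr rfl fun q hq => if_neg fun h => hTz q hq (hD3 q h).2.2.1
    have h3 : ∏ q ∈ sgD3 K a z p, sgg K a z p q = ∏ q ∈ sgD3 K a z p, wz p q :=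
      prod_congr rfl fun q hq => if_pos hq
    rw [h1, h2, h3]
    ring
  have hper : ∀ q ∈ D, ∀ b x, sgCd K a z p s T q b x ↔
      sgCd K a z p s T q (b + a * q^2) (x + (a - z) * q^2) := by
    intro q _ b x
    unfold sgCd
    have e1 : a * (b + a * q^2) + 1 = (a * b + 1) + (a * a) * q^2 := by ring
    rw [e1, ← sg_dvd_add q x (a - z), ← sg_dvd_add q (a*b+1) (a*a),
      ← sg_jac_add q (a*b+1) (a*a) s]
  have hcount : ∀ q ∈ D, ∀ b x, a * x = b * (a - z) + 1 →
      (((range (q^2)).filter (fun t => sgCd K a z p s T q (b + a * t) (x + (a - z) * t))).card : ℝ) ≤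
        sgg K a z p q * q^2 := by
    intro q hq b x hbx
    have hqp := hDp q hq
    have hq0 : (0:ℝ) < q := by exact_mod_cast hqp.pos
    by_cases hq3 : q ∈ sgD3 K a z p
    · obtain ⟨e1, e2, e3, e4⟩ := hD3 q hq3
      have hqa : ¬ q ∣ a := fun h => by
        have h2 := Nat.dvd_gcd h e3
        rw [Nat.Coprime] at hcop
        rw [hcop] at h2
        exact hqp.one_lt.ne' (Nat.dvd_one.mp h2)
      have hqa2 : ¬ q ∣ a * a := fun h => by
        rcases (Nat.Prime.dvd_mul hqp).mp h with h | h <;> exact hqa h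
      have e5 : ∀ t, a * (b + a * t) + 1 = (a * b + 1) + (a * a) * t := fun t => by ring
      rw [show sgg K a z p q = wz p q from if_pos hq3]
      by_cases hF : F (ps p) q = 1
      · have h1 : ((range (q^2)).filter
            (fun t => sgCd K a z p s T q (b + a * t) (x + (a - z) * t))).card ≤
            ((range (q^2)).filter (fun t => q ∣ (a * b + 1) + (a * a) * t ∨
              jacobiSym (s * (((a * b + 1) + (a * a) * t : ℕ) : ℤ)) q = 1)).card := by
          apply card_le_card
          intro t ht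
          rw [mem_filter] at ht ⊢
          refine ⟨ht.1, ?_⟩
          have h2 := ht.2.2.2 hq3
          rw [e5] at h2
          rcases h2 with h2 | h2
          · exact Or.inl h2
          · exact Or.inr h2.2
        have h2 := sg_card_res q (a * b + 1) (a * a) hqp (by omega) hqa2 s hs
        unfold wz
        rw [if_pos hF]
        have h3 : (2:ℝ) * (((range (q^2)).filter
            (fun t => sgCd K a z p s T q (b + a * t) (x + (a - z) * t))).card : ℝ) ≤
            q * (q + 1) := by
          have h4 : 2 * ((range (q^2)).filter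
            (fun t => sgCd K a z p s T q (b + a * t) (x + (a - z) * t))).card ≤ q * (q+1) := by
            omega
          exact_mod_cast h4
        have h5 : ((q:ℝ) + 1) / (2 * q) * (q:ℝ)^2 = q * (q + 1) / 2 := by
          field_simp
        rw [h5]
        linarith
      · have h1 : ((range (q^2)).filter
            (fun t => sgCd K a z p s T q (b + a * t) (x + (a - z) * t))).card ≤
            ((range (q^2)).filter (fun t => q ∣ (a * b + 1) + (a * a) * t)).card := by
          apply card_le_card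
          intro t ht
          rw [mem_filter] at ht ⊢
          refine ⟨ht.1, ?_⟩
          have h2 := ht.2.2.2 hq3
          rw [e5] at h2
          rcases h2 with h2 | h2
          · exact h2
          · exact absurd h2.1 hF
        rw [card_lin q (a*b+1) (a*a) hqp hqa2] at h1
        unfold wz
        rw [if_neg hF]
        have h5 : (1:ℝ) / q * (q:ℝ)^2 = q := by field_simp
        rw [h5]
        exact_mod_cast h1
    · rw [show sgg K a z p q = 1 / q from if_neg hq3]
      have h5 : (1:ℝ) / q * (q:ℝ)^2 = q := by field_simp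
      rw [h5]
      rw [hD, mem_union, mem_insert] at hq
      rcases hq with (hq | hq) | hq
      · -- q = p
        by_cases hqa : q ∣ a
        · have h0 : ((range (q^2)).filter
            (fun t => sgCd K a z p s T q (b + a * t) (x + (a - z) * t))).card = 0 := by
            rw [card_eq_zero, filter_eq_empty_iff]
            rintro t _ ⟨_, h1, _⟩
            have h2 := h1 hq
            have h3 : q ∣ a * (b + a * t) := Dvd.dvd.mul_right hqa _
            have h4 := (Nat.dvd_add_right h3).mp h2
            exact hqp.one_lt.ne' (Nat.dvd_one.mp h4)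
          rw [h0]
          simp
        · have hqa2 : ¬ q ∣ a * a := fun h => by
            rcases (Nat.Prime.dvd_mul hqp).mp h with h | h <;> exact hqa h
          have e5 : ∀ t, a * (b + a * t) + 1 = (a * b + 1) + (a * a) * t := fun t => by ring
          have h1 : ((range (q^2)).filter
              (fun t => sgCd K a z p s T q (b + a * t) (x + (a - z) * t))).card ≤
              ((range (q^2)).filter (fun t => q ∣ (a * b + 1) + (a * a) * t)).card := by
            apply card_le_card
            intro t ht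
            rw [mem_filter] at ht ⊢
            refine ⟨ht.1, ?_⟩
            have h2 := ht.2.2.1 hq
            rwa [e5] at h2
          rw [card_lin q (a*b+1) (a*a) hqp hqa2] at h1
          exact_mod_cast h1
      · -- q ∈ T
        by_cases hqy : q ∣ a - z
        · have h0 : ((range (q^2)).filter
            (fun t => sgCd K a z p s T q (b + a * t) (x + (a - z) * t))).card = 0 := by
            rw [card_eq_zero, filter_eq_empty_iff]
            rintro t _ ⟨h1, _, _⟩
            have h2 := h1 hq
            have h3 : q ∣ x := (Nat.dvd_add_left (Dvd.dvd.mul_right hqy _)).mp h2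
            have h4 : q ∣ b * (a - z) + 1 := by
              rw [← hbx]; exact Dvd.dvd.mul_left h3 _
            have h5 := (Nat.dvd_add_right (Dvd.dvd.mul_left hqy b)).mp h4
            exact hqp.one_lt.ne' (Nat.dvd_one.mp h5)
          rw [h0]
          simp
        · have h1 : ((range (q^2)).filter
              (fun t => sgCd K a z p s T q (b + a * t) (x + (a - z) * t))).card ≤
              ((range (q^2)).filter (fun t => q ∣ x + (a - z) * t)).card := by
            apply card_le_card
            intro t ht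
            rw [mem_filter] at ht ⊢
            exact ⟨ht.1, ht.2.1 hq⟩
          rw [card_lin q x (a - z) hqp hqy] at h1
          exact_mod_cast h1
      · exact absurd hq hq3
  have hmain := hf K X a z D A B (sgCd K a z p s T) (sgg K a z p) hK hX ha haK hz hza hcop hDp
    hDprod (fun q _ => by
      unfold sgg
      split_ifs
      · exact sg_wz_nonneg _ _
      · positivity) hper hcount
  rw [hgprod] at hmain
  have hle : Bz X a z (fun b x => QS K a z p s T b x ∧ EvS K a z (insert p T) A B b x) ≤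
      Bz X a z (fun b x => (∀ q ∈ D, sgCd K a z p s T q b x) ∧ EvS K a z D A B b x) := by
    apply Bz_mono
    rintro b x _ _ ⟨⟨h1, h2, h3⟩, h4⟩
    refine ⟨?_, ?_⟩
    · intro q _
      refine ⟨fun hq => (h1 q hq).1, fun hq => by rw [hq]; exact h2, fun hq => ?_⟩
      have hq' := hq
      unfold sgD3 at hq'
      rw [mem_filter, mem_erase] at hq'
      exact h3 q hq'.1.2 hq'.1.1 hq'.2
    · intro l hl hlD hl2
      refine h4 l hl (fun h => hlD ?_) hl2
      rw [hD, mem_union]
      exact Or.inl h
  refine (Nat.cast_le.mpr hle).trans (hmain.trans (le_of_eq ?_))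
  ring

end Pool.Agent.H24.KS
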