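import Mathlib
import Pool.Agent.H24.KS.Sgen

/-!
Zone S: the sum over `z`.
-/

namespace Pool.Agent.H24.KS

open Finset Classical
open Pool.Agent.H95.Gol


lemma ss_wz_le_one (p q : ℕ) (hq : q.Prime) : wz p q ≤ 1 := by
  have h1 : (2:ℝ) ≤ q := by exact_mod_cast hq.two_le
  unfold wz
  split_ifs
  · rw [div_le_one (by linarith)]; linarith
  · rw [div_le_one (by linarith)]; linarith

lemma ss_F_tri (D : ℤ) (q : ℕ) (hq : q.Prime) (hq2 : q ≠ 2) (hqD : ¬ (q:ℤ) ∣ D) :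
    F D q = 1 ∨ F D q = -1 := by
  have hf : Fact q.Prime := ⟨hq⟩
  unfold F
  rw [if_pos (hq.odd_of_ne_two hq2)]
  rcases jacobiSym.trichotomy D q with h | h | h
  · exfalso
    rw [← jacobiSym.legendreSym.to_jacobiSym, legendreSym.eq_zero_iff,
      ZMod.intCast_zmod_eq_zero_iff_dvd] at h
    exact hqD h
  · left; rw [h]; norm_num
  · right; rw [h]; norm_num

lemma ss_ps_dvd {p q : ℕ} (hp : p.Prime) (hq : q.Prime) (hqp : q ≠ p) : ¬ (q:ℤ) ∣ ps p := by
  intro h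
  unfold ps at h
  have h1 : (q:ℤ) ∣ (p:ℤ) := by
    have h2 : (q:ℤ) ∣ (-1)^(p/2) * ((-1)^(p/2) * (p:ℤ)) := Dvd.dvd.mul_left h _
    rw [← mul_assoc, ← mul_pow] at h2
    simpa using h2
  have h3 : q ∣ p := by exact_mod_cast h1
  exact hqp ((Nat.prime_dvd_prime_iff_eq hq hp).mp h3)

lemma ss_neg_le_F (D : ℤ) (q : ℕ) : -1 ≤ F D q := by
  unfold F
  split_ifs
  · rcases jacobiSym.trichotomy D q with h | h | h <;> rw [h] <;> norm_num
  · norm_num

/-- the exponent -/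
lemma ss_exponent (p i j : ℕ) (hp : p.Prime) :
    (3/4) * SW i j - (1/4) * XD (ps p) i j - 2 ≤
      ∑ q ∈ (W i j).erase p, (1 - wz p q) / q := by
  have h1 : ∀ q ∈ (W i j).erase p, (3/4) * ((1:ℝ)/q) - (1/4) * (F (ps p) q / q) - (1:ℝ)/(q:ℝ)^2 ≤
      (1 - wz p q) / q := by
    intro q hq
    rw [mem_erase] at hq
    have hqp := prime_of_mem_W hq.2
    have h2 := lt_of_mem_W hq.2
    have h3 := two_le_bb i
    have hq0 : (0:ℝ) < q := by exact_mod_cast hqp.pos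
    have hF := ss_F_tri (ps p) q hqp (by omega) (ss_ps_dvd hp hqp hq.1)
    unfold wz
    rcases hF with hF | hF
    · rw [hF, if_pos rfl]
      have e1 : (1 - ((q:ℝ) + 1) / (2 * q)) / q = 1/2 * (1/q) - 1/2 * (1/(q:ℝ)^2) := by
        field_simp; ring
      rw [e1]
      have : 0 ≤ 1/(q:ℝ)^2 := by positivity
      linarith
    · rw [hF, if_neg (by norm_num)]
      have e1 : (1 - 1 / (q:ℝ)) / q = (1/q) - (1/(q:ℝ)^2) := by
        field_simp
      rw [e1]
      have : (-1:ℝ) / q = - (1/q) := by ring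
      rw [this]
      linarith
  have h2 := sum_le_sum h1
  rw [sum_sub_distrib, sum_sub_distrib, ← mul_sum, ← mul_sum] at h2
  have h3 : ∑ q ∈ (W i j).erase p, (1:ℝ)/(q:ℝ)^2 ≤ 1 :=
    sum_inv_sq_le _ fun l hl => (prime_of_mem_W (mem_of_mem_erase hl)).two_le
  have h4 : (3/4) * SW i j - (1/4) * XD (ps p) i j ≤
      (3/4) * ∑ q ∈ (W i j).erase p, (1:ℝ)/q -
        (1/4) * ∑ q ∈ (W i j).erase p, F (ps p) q / q + 1 := by
    by_cases hpW : p ∈ W i j
    · have e1 := sum_erase_add (W i j) (fun q : ℕ => (1:ℝ)/q) hpW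
      have e2 := sum_erase_add (W i j) (fun q : ℕ => F (ps p) q/q) hpW
      unfold SW XD
      rw [← e1, ← e2]
      have hp2 : (2:ℝ) ≤ p := by exact_mod_cast hp.two_le
      have e3 : (1:ℝ)/p ≤ 1/2 := one_div_le_one_div_of_le (by norm_num) hp2
      have e5 : -(1/(p:ℝ)) ≤ F (ps p) p / p := by
        rw [neg_div', div_le_div_iff_of_pos_right (by linarith)]
        exact ss_neg_le_F _ _
      linarith
    · rw [erase_eq_of_notMem hpW]
      unfold SW XD
      linarith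
  linarith

/-- the sum over `z` -/
lemma ss_zsum : ∃ C : ℝ, 0 < C ∧ ∀ (K a p : ℕ), 2 ≤ a → p.Prime →
    ∑ z ∈ Ico 1 a, ∏ q ∈ (W (kk K) (ja a - 6)).erase p, (if Ex q z then wz p q else 1) ≤
      C * a * Real.exp (-(3/4) * SW (kk K) (ja a - 6) + (1/4) * XD (ps p) (kk K) (ja a - 6)) := by
  obtain ⟨C, hC, hz⟩ := zsieve
  refine ⟨C * Real.exp 2 + 1, by positivity, ?_⟩
  intro K a p ha hp
  have ha0 : (0:ℝ) < a := by exact_mod_cast (by omega : 0 < a)
  by_cases hj : ja a - 6 ≤ kk K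
  · have hW : W (kk K) (ja a - 6) = ∅ := by
      unfold W
      rw [Ico_eq_empty (by omega), biUnion_empty]
    have h1 : ∑ z ∈ Ico 1 a, ∏ q ∈ (W (kk K) (ja a - 6)).erase p,
        (if Ex q z then wz p q else 1) = ((a - 1 : ℕ) : ℝ) := by
      rw [hW]
      simp
    have h2 : SW (kk K) (ja a - 6) = 0 := by unfold SW; rw [hW, sum_empty]
    have h3 : XD (ps p) (kk K) (ja a - 6) = 0 := by unfold XD; rw [hW, sum_empty]
    rw [h1, h2, h3]
    simp only [mul_zero, add_zero, Real.exp_zero, mul_one]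
    have h4 : ((a - 1 : ℕ) : ℝ) ≤ a := by exact_mod_cast Nat.sub_le a 1
    have h5 : 0 ≤ C * Real.exp 2 * a := by positivity
    linarith
  · push Not at hj
    have hja : 6 ≤ ja a := by omega
    have hN : 1 * (bb (ja a - 6))^33 ≤ a := by
      rw [one_mul]
      have h1 : bb (ja a) = (bb (ja a - 6))^(2^6) := by
        rw [← bb_add]; congr 1; omega
      calc (bb (ja a - 6))^33 ≤ (bb (ja a - 6))^(2^6) :=
            Nat.pow_le_pow_right (bb_pos _) (by norm_num)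
        _ = bb (ja a) := h1.symm
        _ ≤ a := ja_le a ha
    have h1 := hz ((W (kk K) (ja a - 6)).erase p) (ja a - 6) a 1 (wz p) one_pos
      (fun q hq => by
        rw [mem_erase] at hq
        have h2 := lt_of_mem_W hq.2
        have h3 := two_le_bb (kk K)
        exact ⟨prime_of_mem_W hq.2, by omega, le_of_mem_W hq.2, Nat.coprime_one_right _⟩)
      (fun q hq => ⟨sg_wz_nonneg _ _, ss_wz_le_one _ _ (prime_of_mem_W (mem_of_mem_erase hq))⟩) hN
    have h2 : ∑ z ∈ Ico 1 a, ∏ q ∈ (W (kk K) (ja a - 6)).erase p,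
        (if Ex q z then wz p q else 1) ≤ ∑ z ∈ (range a).filter (fun z => 1 ∣ z),
          ∏ q ∈ (W (kk K) (ja a - 6)).erase p, (if q ∣ z ∧ ¬ q^2 ∣ z then wz p q else 1) := by
      refine le_trans (le_of_eq ?_) (sum_le_sum_of_subset_of_nonneg
        (s := Ico 1 a) ?_ ?_)
      · refine sum_congr rfl fun z _ => prod_congr rfl fun q _ => ?_
        unfold Ex
        congr
      · intro z hz
        rw [mem_Ico] at hz
        rw [mem_filter, mem_range]
        exact ⟨hz.2, one_dvd z⟩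
      · intro z _ _
        refine prod_nonneg fun q _ => ?_
        split_ifs
        · exact sg_wz_nonneg _ _
        · norm_num
    refine h2.trans (h1.trans ?_)
    have h3 := ss_exponent p (kk K) (ja a - 6) hp
    rw [Nat.cast_one, div_one]
    have h4 : Real.exp (- ∑ q ∈ (W (kk K) (ja a - 6)).erase p, (1 - wz p q) / q) ≤
        Real.exp 2 * Real.exp (-(3/4) * SW (kk K) (ja a - 6) +
          (1/4) * XD (ps p) (kk K) (ja a - 6)) := by
      rw [← Real.exp_add]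
      apply Real.exp_le_exp.mpr
      linarith
    have h5 := Real.exp_pos (-(3/4) * SW (kk K) (ja a - 6) +
          (1/4) * XD (ps p) (kk K) (ja a - 6))
    calc C * (a:ℝ) * Real.exp (- ∑ q ∈ (W (kk K) (ja a - 6)).erase p, (1 - wz p q) / q)
        ≤ C * a * (Real.exp 2 * Real.exp (-(3/4) * SW (kk K) (ja a - 6) +
          (1/4) * XD (ps p) (kk K) (ja a - 6))) :=
          mul_le_mul_of_nonneg_left h4 (by positivity)
      _ ≤ _ := by nlinarith [mul_pos ha0 h5]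

theorem ssum : ∃ C : ℝ, 0 < C ∧ ∀ (K X a p : ℕ) (s : ℤ) (T : Finset ℕ) (Z : ℕ → Prop)
    (A B : ℕ → ℕ → Prop) (L : ℝ), 2000 ≤ K → bb (K+6) ≤ X → 2 ≤ a → a < bb K →
    p.Prime → p ≠ 2 → p ≤ bb K → (∀ q ∈ T, q.Prime ∧ q ≤ bb K) → T.card ≤ 3 → p ∉ T →
    (s = 1 ∨ s = -1) →
    (∀ z, Z z → L ≤ ∑ l ∈ W (kk K) K, (chi (A z l) + chi (B z l)) / l) →
    ∑ z ∈ (Ico 1 a).filter (fun z => Nat.Coprime a z ∧ Z z),
      (Bz X a z (fun b x => QS K a z p s T b x ∧
        EvS K a z (insert p T) (A z) (B z) b x) : ℝ) ≤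
      C * (X / a) * (∏ q ∈ T, (1:ℝ)/q) * (1/p) * Real.exp (-L) *
        Real.exp (-(3/4) * SW (kk K) (ja a - 6) + (1/4) * XD (ps p) (kk K) (ja a - 6)) := by
  obtain ⟨C1, hC1, h1⟩ := sgen
  obtain ⟨C2, hC2, h2⟩ := ss_zsum
  refine ⟨C1 * C2, by positivity, ?_⟩
  intro K X a p s T Z A B L hK hX ha haK hp hp2 hpK hT hTc hpT hs hL
  have ha0 : (0:ℝ) < a := by exact_mod_cast (by omega : 0 < a)
  have hprod : 0 ≤ ∏ q ∈ T, (1:ℝ)/q := prod_nonneg fun _ _ => by positivity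
  have hM0 : 0 ≤ C1 * ((X:ℝ) / a^2) * (∏ q ∈ T, (1:ℝ)/q) * (1/p) * Real.exp (-L) := by positivity
  have hstep : ∀ z ∈ (Ico 1 a).filter (fun z => Nat.Coprime a z ∧ Z z),
      (Bz X a z (fun b x => QS K a z p s T b x ∧
        EvS K a z (insert p T) (A z) (B z) b x) : ℝ) ≤
      C1 * ((X:ℝ) / a^2) * (∏ q ∈ T, (1:ℝ)/q) * (1/p) * Real.exp (-L) *
        ∏ q ∈ (W (kk K) (ja a - 6)).erase p, (if Ex q z then wz p q else 1) := by
    intro z hz
    rw [mem_filter, mem_Ico] at hz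
    refine (h1 K X a z p s T (A z) (B z) hK hX ha haK (by omega) hz.1.2 hz.2.1 hp hp2 hpK hT hTc
      hpT hs).trans ?_
    have h3 : Real.exp (- ∑ l ∈ W (kk K) K, (chi (A z l) + chi (B z l)) / l) ≤ Real.exp (-L) :=
      Real.exp_le_exp.mpr (neg_le_neg (hL z hz.2.2))
    have h4 : 0 ≤ ∏ q ∈ (W (kk K) (ja a - 6)).erase p, (if Ex q z then wz p q else 1) := by
      refine prod_nonneg fun q _ => ?_
      split_ifs
      · exact sg_wz_nonneg _ _
      · norm_num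
    calc C1 * ((X:ℝ) / a^2) * (∏ q ∈ T, (1:ℝ)/q) * (1/p) *
        (∏ q ∈ (W (kk K) (ja a - 6)).erase p, if Ex q z then wz p q else 1) *
        Real.exp (- ∑ l ∈ W (kk K) K, (chi (A z l) + chi (B z l)) / l)
        ≤ C1 * ((X:ℝ) / a^2) * (∏ q ∈ T, (1:ℝ)/q) * (1/p) *
        (∏ q ∈ (W (kk K) (ja a - 6)).erase p, if Ex q z then wz p q else 1) * Real.exp (-L) :=
          mul_le_mul_of_nonneg_left h3 (by positivity)
      _ = _ := by ring
  refine (sum_le_sum hstep).trans ?_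
  rw [← mul_sum]
  have h5 : ∑ z ∈ (Ico 1 a).filter (fun z => Nat.Coprime a z ∧ Z z),
      ∏ q ∈ (W (kk K) (ja a - 6)).erase p, (if Ex q z then wz p q else 1) ≤
      ∑ z ∈ Ico 1 a, ∏ q ∈ (W (kk K) (ja a - 6)).erase p, (if Ex q z then wz p q else 1) := by
    apply sum_le_sum_of_subset_of_nonneg (filter_subset _ _)
    intro z _ _
    refine prod_nonneg fun q _ => ?_
    split_ifs
    · exact sg_wz_nonneg _ _
    · norm_num
  refine (mul_le_mul_of_nonneg_left (h5.trans (h2 K a p ha hp)) hM0).trans (le_of_eq ?_)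
  have e1 : (X:ℝ) / a^2 * a = X / a := by field_simp
  calc _ = C1 * C2 * ((X:ℝ) / a^2 * a) * (∏ q ∈ T, (1:ℝ)/q) * (1/p) * Real.exp (-L) *
        Real.exp (-(3/4) * SW (kk K) (ja a - 6) + (1/4) * XD (ps p) (kk K) (ja a - 6)) := by ring
    _ = _ := by rw [e1]

end Pool.Agent.H24.KS
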