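import Mathlib
import Pool.Agent.H24.KS.Accum
import Pool.Agent.H24.KS.Logic
import Pool.Agent.H24.KS.Dens
import Pool.Agent.H24.KS.Ssum
import Pool.Agent.H24.KS.Psum
import Pool.Agent.H24.KS.Tsum
import Pool.Agent.H24.KS.Asum

/-!
The case `|Ox| ≥ 3`.
-/

namespace Pool.Agent.H24.KS

open Finset Classical
open Pool.Agent.H95.Gol

theorem bS1 : ∃ C : ℝ, 0 < C ∧ ∀ K X : ℕ, 2000 ≤ K → bb (K+6) ≤ X → X < bb (K+7) →
    (cnt X (CS1 K) : ℝ) ≤ C * X / 2^K := by
  obtain ⟨C1, hC1, hssum⟩ := ssum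
  obtain ⟨C2, hC2, hSW⟩ := SW_lower
  obtain ⟨Cp, mp, hCp, hmp0, hmp1, hmp2⟩ := psum
  obtain ⟨Ct, mt, hCt, hmt0, hmt1, hmt2⟩ := tsum 3 (by norm_num) le_rfl
  obtain ⟨Ca, hCa, hasum⟩ := asum (3/4) (by norm_num) (by norm_num)
  obtain ⟨Cb, hCb, habs⟩ := absorb (17/8) 5 (1/8) (by norm_num)
  have hl2 : 0 < Real.log 2 := Real.log_pos (by norm_num)
  refine ⟨C1 * Real.exp (4 + 11/8 * C2) * 2 * Ct * Cp * Ca * Cb, by positivity, ?_⟩
  intro K X hK hX1 hX2
  -- the summands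
  have key := accumulate (Idx 3 K) X K (CS1 K)
    (fun i a z b x => QS K a z i.1.2 i.2 i.1.1 b x ∧
      EvS K a z (insert i.1.2 i.1.1) (AT i.1.1) (BP i.1.2) b x)
    (fun a b z x _ h => h.1) ?_
    (fun i => (∏ q ∈ i.1.1, (1:ℝ)/q) * Real.exp (mt K i.1.1) * (Real.exp (mp K i.1.2) / i.1.2))
    (fun a => (1:ℝ)/a * Real.exp (-(3/4) * SW (kk K) (ja a - 6)))
    (C1 * Real.exp (4 - 11/8 * SW (kk K) K) * X) ?_
  · refine key.trans ?_
    have hw : ∑ i ∈ Idx 3 K, (∏ q ∈ i.1.1, (1:ℝ)/q) * Real.exp (mt K i.1.1) *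
        (Real.exp (mp K i.1.2) / i.1.2) ≤ 2 * (Ct * (K+1)^3) * (Cp * (K+1)) := by
      have h1 := sum_Idx_le 3 K (fun T => (∏ q ∈ T, (1:ℝ)/q) * Real.exp (mt K T))
        (fun p => Real.exp (mp K p) / p)
        (fun T => mul_nonneg (prod_nonneg fun q _ => by positivity) (Real.exp_pos _).le)
        (fun p => by positivity)
      refine h1.trans ?_
      have h2 := hmt2 K hK
      have h3 := hmp2 K hK
      have h4 : 0 ≤ ∑ p ∈ (Pr (bb K)).filter (fun p => p ≠ 2), Real.exp (mp K p) / p :=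
        sum_nonneg fun p _ => by positivity
      gcongr
    have hα := hasum K
    have hα0 : 0 ≤ ∑ a ∈ Ico 2 (bb K), (1:ℝ)/a * Real.exp (-(3/4) * SW (kk K) (ja a - 6)) :=
      sum_nonneg fun a _ => by positivity
    have hE : Real.exp (4 - 11/8 * SW (kk K) K) ≤
        Real.exp (4 + 11/8 * C2) * Real.exp (-(11/8) * ((K:ℝ) - kk K) * Real.log 2) := by
      rw [← Real.exp_add]
      apply Real.exp_le_exp.mpr
      have := hSW (kk K) K
      nlinarith
    calc C1 * Real.exp (4 - 11/8 * SW (kk K) K) * X *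
          (∑ i ∈ Idx 3 K, (∏ q ∈ i.1.1, (1:ℝ)/q) * Real.exp (mt K i.1.1) *
            (Real.exp (mp K i.1.2) / i.1.2)) *
          ∑ a ∈ Ico 2 (bb K), (1:ℝ)/a * Real.exp (-(3/4) * SW (kk K) (ja a - 6))
        ≤ C1 * (Real.exp (4 + 11/8 * C2) * Real.exp (-(11/8) * ((K:ℝ) - kk K) * Real.log 2)) * X *
          (2 * (Ct * (K+1)^3) * (Cp * (K+1))) *
          (Ca * (K + 1) * Real.exp (((1 - 3/4) * K + 3/4 * kk K) * Real.log 2)) := by
          gcongr
      _ = C1 * Real.exp (4 + 11/8 * C2) * 2 * Ct * Cp * Ca * X *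
          (Real.exp (-(11/8) * ((K:ℝ) - kk K) * Real.log 2) *
            Real.exp (((1 - 3/4) * K + 3/4 * kk K) * Real.log 2) * (K+1)^5) := by ring
      _ = C1 * Real.exp (4 + 11/8 * C2) * 2 * Ct * Cp * Ca * X *
          (Real.exp (-(K * Real.log 2)) *
            (Real.exp ((17/8 * kk K - 1/8 * K) * Real.log 2) * (K+1)^5)) := by
          have h5 : Real.exp (-(11/8) * ((K:ℝ) - kk K) * Real.log 2) *
              Real.exp (((1 - 3/4) * K + 3/4 * kk K) * Real.log 2) =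
              Real.exp (-(K * Real.log 2)) * Real.exp ((17/8 * kk K - 1/8 * K) * Real.log 2) := by
            rw [← Real.exp_add, ← Real.exp_add]
            congr 1
            ring
          rw [h5]
          ring
      _ ≤ C1 * Real.exp (4 + 11/8 * C2) * 2 * Ct * Cp * Ca * X *
          (Real.exp (-(K * Real.log 2)) * Cb) := by
          have := habs K
          gcongr
      _ = C1 * Real.exp (4 + 11/8 * C2) * 2 * Ct * Cp * Ca * Cb * X / 2^K := by
          have h6 : Real.exp (-(K * Real.log 2)) = 1 / 2^K := by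
            rw [Real.exp_neg, Real.exp_nat_mul, Real.exp_log (by norm_num), one_div]
          rw [h6]
          ring
  · -- the cover
    intro a b z x ha2 haK hz0 hza hTr hQ
    obtain ⟨_, hO, p, hp, hp2, hpK, hpv⟩ := hQ
    obtain ⟨T, hT, hTc⟩ := exists_subset_card_eq hO
    obtain ⟨h1, h2, h3⟩ := qs_of hTr hT hp hp2 hpv
    refine ⟨((T, p), sg (a * b + 1)), ?_, h1, evS1 hTr hT hp hp2 hpv _ (subset_insert _ _)⟩
    rw [mem_Idx]
    refine ⟨⟨⟨fun q hq => mem_Pr.2 (h3 q hq), hTc⟩, ⟨hp, hpK⟩, hp2⟩, sg_cases _, h2⟩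
  · -- the estimate for fixed `(T, p, s)`
    intro i hi a ha2 haK
    obtain ⟨⟨⟨hT, hTc⟩, ⟨hp, hpK⟩, hp2⟩, hs, hpT⟩ := mem_Idx.1 hi
    obtain ⟨⟨T, p⟩, s⟩ := i
    simp only at hT hTc hp hpK hp2 hs hpT ⊢
    have hTp : ∀ q ∈ T, q.Prime ∧ q ≤ bb K := fun q hq => mem_Pr.1 (hT hq)
    have hL : (11/8) * SW (kk K) K - mt K T - 1/2 * mp K p - 4 ≤
        ∑ l ∈ W (kk K) K, (chi (AT T l) + chi (BP p l)) / l := by
      have h1 := densT T (fun q hq => (hTp q hq).1) (kk K) K (by have := kk_ge K; omega)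
      have h2 := densP p hp hp2 (kk K) K (by have := kk_ge K; omega)
      have h3 := hmt1 K T K hK hTc (fun q hq => (hTp q hq).1) le_rfl
      have h4 := hmp1 K p K hK hp hp2 le_rfl
      have h5 : ∑ l ∈ W (kk K) K, (chi (AT T l) + chi (BP p l)) / (l:ℝ) =
          ∑ l ∈ W (kk K) K, chi (AT T l) / (l:ℝ) + ∑ l ∈ W (kk K) K, chi (BP p l) / (l:ℝ) := by
        rw [← sum_add_distrib]
        exact sum_congr rfl fun l _ => add_div _ _ _
      rw [h5]
      rw [hTc, show ((3:ℕ):ℝ) = 3 by norm_num] at h1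
      linarith
    have h1 := hssum K X a p s T (fun _ => True) (fun _ => AT T) (fun _ => BP p) _ hK hX1 ha2 haK
      hp hp2 hpK hTp (by rw [hTc]) hpT hs (fun _ _ => hL)
    simp only [and_true] at h1
    refine h1.trans ?_
    have hja : ja a - 6 ≤ K := by
      have := ja_le_of_lt ha2 haK
      omega
    have h2 : XD (ps p) (kk K) (ja a - 6) ≤ mp K p := hmp1 K p _ hK hp hp2 hja
    have h3 : Real.exp (-((11/8) * SW (kk K) K - mt K T - 1/2 * mp K p - 4)) *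
        Real.exp (-(3/4) * SW (kk K) (ja a - 6) + (1/4) * XD (ps p) (kk K) (ja a - 6)) ≤
        Real.exp (4 - 11/8 * SW (kk K) K) * Real.exp (mt K T) * Real.exp (mp K p) *
          Real.exp (-(3/4) * SW (kk K) (ja a - 6)) := by
      rw [← Real.exp_add, ← Real.exp_add, ← Real.exp_add, ← Real.exp_add]
      apply Real.exp_le_exp.mpr
      have := hmp0 K p
      linarith
    have h4 : 0 ≤ ∏ q ∈ T, (1:ℝ)/q :=
      prod_nonneg fun q _ => one_div_nonneg.2 (Nat.cast_nonneg _)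
    have h5 : 0 ≤ C1 * ((X:ℝ) / a) * (∏ q ∈ T, (1:ℝ)/q) * (1/p) :=
      mul_nonneg (mul_nonneg (mul_nonneg hC1.le (div_nonneg (Nat.cast_nonneg _)
        (Nat.cast_nonneg _))) h4) (one_div_nonneg.2 (Nat.cast_nonneg _))
    exact regroup h5 h3 rfl

end Pool.Agent.H24.KS
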