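import Mathlib
import Pool.Agent.H24.KS.Df2

/-!
Elementary counts in zone S (used in the modules S3 and S4).
-/

namespace Pool.Agent.H24.KS

open Finset Classical
open Pool.Agent.H95.Gol

/-- a set of congruent numbers -/
lemma card_congr_le (S : Finset ℕ) (N M : ℕ) (_hM : 0 < M) (hS : ∀ b ∈ S, b ≤ N)
    (h : ∀ b ∈ S, ∀ b' ∈ S, b ≡ b' [MOD M]) : S.card ≤ N / M + 1 := by
  rw [← card_range (N / M + 1)]
  refine card_le_card_of_injOn (fun b => b / M) ?_ ?_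
  · intro b hb
    rw [mem_coe, mem_range]
    exact Nat.lt_succ_of_le (Nat.div_le_div_right (hS b hb))
  · intro b hb b' hb' hbb
    have h1 := h b hb b' hb'
    simp only at hbb
    rw [← Nat.div_add_mod b M, ← Nat.div_add_mod b' M, hbb, h1]

/-- the count of the `b` in a progression -/
lemma Bz_le_mod (X a z M : ℕ) (ha : 0 < a) (hM : 0 < M) (haM : a * M ≤ X) (Q : ℕ → ℕ → Prop)
    (h : ∀ b x b' x', a * x = b * (a - z) + 1 → Q b x → a * x' = b' * (a - z) + 1 → Q b' x' →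
      b ≡ b' [MOD M]) : (Bz X a z Q : ℝ) ≤ 2 * (X / (a * M)) := by
  have h1 : Bz X a z Q ≤ (X / a) / M + 1 := by
    unfold Bz
    apply card_congr_le _ _ _ hM
    · intro b hb
      rw [mem_filter] at hb
      obtain ⟨_, x, _, h3, _⟩ := hb
      exact (Nat.le_div_iff_mul_le ha).mpr (by rw [mul_comm]; exact h3.le)
    · intro b hb b' hb'
      rw [mem_filter] at hb hb'
      obtain ⟨_, x, h2, _, h4⟩ := hb
      obtain ⟨_, x', h2', _, h4'⟩ := hb'
      exact h b x b' x' h2 h4 h2' h4'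
  have h2 : ((Bz X a z Q : ℕ) : ℝ) ≤ (((X / a) / M + 1 : ℕ) : ℝ) := by exact_mod_cast h1
  refine h2.trans ?_
  rw [Nat.div_div_eq_div_mul]
  have h3 : ((X / (a * M) : ℕ) : ℝ) ≤ (X:ℝ) / ((a * M : ℕ) : ℝ) := Nat.cast_div_le
  have haM0 : (0:ℝ) < ((a * M : ℕ) : ℝ) := by exact_mod_cast Nat.mul_pos ha hM
  have h4 : (1:ℝ) ≤ (X:ℝ) / ((a * M : ℕ) : ℝ) := by
    rw [le_div_iff₀ haM0, one_mul]
    exact_mod_cast haM
  push_cast at h3 h4 ⊢
  linarith

lemma modEq_a {a z b x b' x' : ℕ} (hza : z < a) (hcop : Nat.Coprime a z)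
    (h : a * x = b * (a - z) + 1) (h' : a * x' = b' * (a - z) + 1) : b ≡ b' [MOD a] := by
  have h1 : b * (a - z) ≡ b' * (a - z) [MOD a] := by
    apply Nat.ModEq.add_right_cancel' 1
    rw [← h, ← h']
    exact ((Nat.modEq_zero_iff_dvd).mpr ⟨x, rfl⟩).trans
      ((Nat.modEq_zero_iff_dvd).mpr ⟨x', rfl⟩).symm
  refine Nat.ModEq.cancel_right_of_coprime ?_ h1
  have h2 : Nat.Coprime a (a - z) := (Nat.coprime_self_sub_right hza.le).mpr hcop
  exact h2

lemma Bz_triv (K X a z : ℕ) (hX : bb (K+6) ≤ X) (ha : 2 ≤ a) (haK : a < bb K) (hza : z < a)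
    (hcop : Nat.Coprime a z) (Q : ℕ → ℕ → Prop) : (Bz X a z Q : ℝ) ≤ 2 * (X / (a * a)) := by
  have h := Bz_le_mod X a z a (by omega) (by omega) ?_ Q
    (fun b x b' x' h1 _ h2 _ => modEq_a hza hcop h1 h2)
  · exact h
  · calc a * a ≤ bb K * bb K := Nat.mul_le_mul haK.le haK.le
      _ = bb K ^ 2 := by ring
      _ ≤ bb K ^ (2^6) := Nat.pow_le_pow_right (bb_pos K) (by norm_num)
      _ = bb (K+6) := (bb_add K 6).symm
      _ ≤ X := hX

lemma Bz_qv (K X a z q : ℕ) (hX : bb (K+6) ≤ X) (ha : 2 ≤ a) (haK : a < bb K) (hz : 0 < z)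
    (hza : z < a) (hcop : Nat.Coprime a z) (hq : q.Prime) (hqz : q ∣ z) :
    (Bz X a z (fun b _ => q ∣ a * b + 1) : ℝ) ≤ 2 * (X / (a * (a * q))) := by
  have hqa : Nat.Coprime a q := Nat.Coprime.coprime_dvd_right hqz hcop
  have hqle : q ≤ a := (Nat.le_of_dvd hz hqz).trans hza.le
  have h := Bz_le_mod X a z (a * q) (by omega) (Nat.mul_pos (by omega) hq.pos) ?_
    (fun b _ => q ∣ a * b + 1) ?_
  · push_cast at h
    exact h
  · calc a * (a * q) ≤ bb K * (bb K * bb K) :=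
          Nat.mul_le_mul haK.le (Nat.mul_le_mul haK.le (hqle.trans haK.le))
      _ = bb K ^ 3 := by ring
      _ ≤ bb K ^ (2^6) := Nat.pow_le_pow_right (bb_pos K) (by norm_num)
      _ = bb (K+6) := (bb_add K 6).symm
      _ ≤ X := hX
  · intro b x b' x' h1 h2 h3 h4
    rw [← Nat.modEq_and_modEq_iff_modEq_mul hqa]
    refine ⟨modEq_a hza hcop h1 h3, ?_⟩
    refine Nat.ModEq.cancel_left_of_coprime (c := a) (by rw [Nat.gcd_comm]; exact hqa) ?_
    apply Nat.ModEq.add_right_cancel' 1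
    exact ((Nat.modEq_zero_iff_dvd).mpr h2).trans ((Nat.modEq_zero_iff_dvd).mpr h4).symm

/-- the sum over the multiples -/
lemma sum_mult_le (a : ℕ) (I : Finset ℕ) (Z : ℕ → Prop) [DecidablePred Z] (g : ℕ → ℝ) (hg : ∀ q, 0 ≤ g q) :
    ∑ z ∈ (Ico 1 a).filter Z, ∑ q ∈ I.filter (fun q => q ∣ z), g q ≤
      ∑ q ∈ I, g q * (a / q) := by
  have h1 : ∑ z ∈ (Ico 1 a).filter Z, ∑ q ∈ I.filter (fun q => q ∣ z), g q ≤
      ∑ z ∈ Ico 1 a, ∑ q ∈ I.filter (fun q => q ∣ z), g q :=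
    sum_le_sum_of_subset_of_nonneg (filter_subset _ _) fun _ _ _ => sum_nonneg fun q _ => hg q
  refine h1.trans ?_
  simp only [sum_filter]
  rw [sum_comm]
  refine sum_le_sum fun q _ => ?_
  rw [← sum_filter, sum_const, nsmul_eq_mul, mul_comm]
  apply mul_le_mul_of_nonneg_left _ (hg q)
  have h2 : ((Ico 1 a).filter (fun z => q ∣ z)).card ≤ a / q := by
    rw [← Nat.Ioc_filter_dvd_card_eq_div a q]
    apply card_le_card
    apply filter_subset_filter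
    intro z hz
    rw [mem_Ico] at hz
    rw [mem_Ioc]
    omega
  exact (by exact_mod_cast h2 : (((Ico 1 a).filter (fun z => q ∣ z)).card : ℝ) ≤
    ((a / q : ℕ) : ℝ)).trans Nat.cast_div_le

lemma cnt_le_add (X : ℕ) (Q Q1 Q2 : ℕ → ℕ → ℕ → ℕ → Prop)
    (h : ∀ a b z x, Tr X a b z x → Q a b z x → Q1 a b z x ∨ Q2 a b z x) :
    cnt X Q ≤ cnt X Q1 + cnt X Q2 := by
  unfold cnt
  refine (card_le_card ?_).trans (card_union_le _ _)
  rintro ⟨a, b, z⟩ ht
  rw [mem_filter] at ht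
  obtain ⟨h1, x, h2, h3⟩ := ht
  rw [mem_union, mem_filter, mem_filter]
  rcases h a b z x h2 h3 with h4 | h4
  · exact Or.inl ⟨h1, x, h2, h4⟩
  · exact Or.inr ⟨h1, x, h2, h4⟩

end Pool.Agent.H24.KS
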