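import Mathlib
import Pool.Agent.H24.KS.Ssum
import Pool.Agent.H24.KS.SCnt
import Pool.Agent.H24.KS.Accum
import Pool.Agent.H24.KS.Cover
import Pool.Agent.H24.KS.Dens
import Pool.Agent.H24.KS.Asum
import Pool.Agent.H24.KS.Psum

/-!
Module M10: the case `CS3` (`z` has a large prime divisor of odd exponent).
-/

namespace Pool.Agent.H24.KS

open Finset Classical
open Pool.Agent.H95.Gol

/-- a large prime divides `z` and `v` -/
def Q3a (K a b z _x : ℕ) : Prop :=
  a < bb K ∧ ∃ q : ℕ, q.Prime ∧ bb (kk K) < q ∧ q ∣ z ∧ q ∣ a * b + 1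

/-- a large bad prime divides `z` -/
def Q3b (K a _b z _x : ℕ) : Prop :=
  a < bb K ∧ ∃ q : ℕ, q.Prime ∧ bb (kk K) < q ∧ q ∣ z ∧ BadN 1 (kk K) q

def Q3c (K a b z x : ℕ) : Prop := CS3 K a b z x ∧ ¬ Q3a K a b z x ∧ ¬ Q3b K a b z x

lemma s3_bb_kk (K : ℕ) : (2:ℝ)^(10 * K + 10) ≤ bb (kk K) := by
  have h1 := kk_pow K
  have h2 : 2^(10 * K + 10) ≤ bb (kk K) := by
    unfold bb
    exact Nat.pow_le_pow_right (by norm_num) h1
  exact_mod_cast h2

lemma s3_sq_sum (N M : ℕ) (I : Finset ℕ) (hI : ∀ q ∈ I, N < q ∧ q < M) :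
    ∑ q ∈ I, (1:ℝ) / q * (1 / q) ≤ 2 / (N + 1) := by
  have h1 := sum_Ioo_inv_sq_le (α := ℝ) N M
  refine le_trans ?_ h1
  have h2 : I ⊆ Ioo N M := fun q hq => mem_Ioo.mpr (hI q hq)
  calc ∑ q ∈ I, (1:ℝ) / q * (1 / q) = ∑ q ∈ I, ((q:ℝ)^2)⁻¹ := by
        refine sum_congr rfl fun q _ => ?_
        rw [one_div, ← mul_inv, pow_two]
    _ ≤ _ := sum_le_sum_of_subset_of_nonneg h2 fun _ _ _ => inv_nonneg.mpr (sq_nonneg _)

lemma s3_prime_le {a z q K : ℕ} (hz : 0 < z) (hza : z < a) (haK : a < bb K) (hqz : q ∣ z) :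
    q < bb K := ((Nat.le_of_dvd hz hqz).trans_lt hza).trans haK

theorem bQ3a : ∃ C : ℝ, 0 < C ∧ ∀ K X : ℕ, 2000 ≤ K → bb (K+6) ≤ X →
    (cnt X (Q3a K) : ℝ) ≤ C * X / 2^K := by
  obtain ⟨Ch, hCh, harm⟩ := harm
  refine ⟨4 * Ch, by positivity, fun K X hK hX => ?_⟩
  have hb : (2:ℝ)^(10 * K + 10) ≤ bb (kk K) := s3_bb_kk K
  have hkb0 : (0:ℝ) < bb (kk K) := lt_of_lt_of_le (by positivity) hb
  set N := bb (kk K) with hN
  set I : Finset ℕ := (Pr (bb K)).filter (fun q => N < q ∧ q < bb K) with hI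
  have hX0 : (0:ℝ) ≤ X := Nat.cast_nonneg X
  have h1 : (cnt X (Q3a K) : ℝ) ≤ ∑ a ∈ Ico 2 (bb K),
      ∑ z ∈ (Ico 1 a).filter (fun z => Nat.Coprime a z),
        (Bz X a z (fun b x => Tr X a b z x ∧ Q3a K a b z x) : ℝ) := by
    have := cnt_le_sum X (bb K) (Q3a K) (fun a b z x _ h => h.1)
    exact_mod_cast this
  have h2 : ∀ a ∈ Ico 2 (bb K), ∑ z ∈ (Ico 1 a).filter (fun z => Nat.Coprime a z),
      (Bz X a z (fun b x => Tr X a b z x ∧ Q3a K a b z x) : ℝ) ≤
      (1:ℝ)/a * (4 * X / N) := by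
    intro a ha
    rw [mem_Ico] at ha
    have ha0 : (0:ℝ) < a := by exact_mod_cast (by omega : 0 < a)
    have h3 : ∀ z ∈ (Ico 1 a).filter (fun z => Nat.Coprime a z),
        (Bz X a z (fun b x => Tr X a b z x ∧ Q3a K a b z x) : ℝ) ≤
        ∑ q ∈ I.filter (fun q => q ∣ z), 2 * ((X:ℝ) / (a * (a * q))) := by
      intro z hz
      rw [mem_filter, mem_Ico] at hz
      have h4 := Bz_le_sum (I.filter (fun q => q ∣ z)) X a z
        (fun b x => Tr X a b z x ∧ Q3a K a b z x) (fun q b _ => q ∣ a * b + 1)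
        (by
          rintro b x _ _ ⟨_, _, q, hq, hNq, hqz, hqv⟩
          have hqK := s3_prime_le hz.1.1 hz.1.2 ha.2 hqz
          exact ⟨q, mem_filter.mpr ⟨mem_filter.mpr ⟨mem_Pr.mpr ⟨hq, hqK.le⟩, hNq, hqK⟩, hqz⟩, hqv⟩)
      have h5 : (Bz X a z (fun b x => Tr X a b z x ∧ Q3a K a b z x) : ℝ) ≤
          ∑ q ∈ I.filter (fun q => q ∣ z), (Bz X a z (fun b _ => q ∣ a * b + 1) : ℝ) := by
        exact_mod_cast h4
      refine h5.trans (sum_le_sum fun q hq => ?_)
      rw [mem_filter, hI, mem_filter] at hq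
      exact Bz_qv K X a z q hX ha.1 ha.2 hz.1.1 hz.1.2 hz.2 (mem_Pr.mp hq.1.1).1 hq.2
    refine (sum_le_sum h3).trans ?_
    refine (sum_mult_le a I _ (fun q => 2 * ((X:ℝ) / (a * (a * q)))) (fun q => by positivity)).trans ?_
    have h4 : ∑ q ∈ I, 2 * ((X:ℝ) / (a * (a * q))) * (a / q) =
        (2 * X / a) * ∑ q ∈ I, (1:ℝ) / q * (1 / q) := by
      rw [mul_sum]
      refine sum_congr rfl fun q hq => ?_
      rw [hI, mem_filter] at hq
      have hq0 : (0:ℝ) < q := by exact_mod_cast (mem_Pr.mp hq.1).1.pos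
      field_simp
    rw [h4]
    have h5 := s3_sq_sum N (bb K) I (fun q hq => (mem_filter.mp hq).2)
    calc (2 * X / a) * ∑ q ∈ I, (1:ℝ) / q * (1 / q) ≤ (2 * X / a) * (2 / (N + 1)) :=
          mul_le_mul_of_nonneg_left h5 (by positivity)
      _ ≤ (2 * X / a) * (2 / N) := by
          apply mul_le_mul_of_nonneg_left _ (by positivity)
          exact div_le_div_of_nonneg_left (by norm_num) hkb0 (by linarith)
      _ = (1:ℝ)/a * (4 * X / N) := by ring
  refine h1.trans ((sum_le_sum h2).trans ?_)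
  rw [← sum_mul]
  have h6 : ∑ a ∈ Ico 2 (bb K), (1:ℝ)/a ≤ Ch * 2^K :=
    (sum_le_sum_of_subset_of_nonneg (Ico_subset_Ico_left (by norm_num))
      fun _ _ _ => by positivity).trans (harm K)
  have h7 : 4 * (X:ℝ) / N ≤ 4 * X / 2^(10 * K + 10) :=
    div_le_div_of_nonneg_left (by positivity) (by positivity) hb
  calc (∑ a ∈ Ico 2 (bb K), (1:ℝ)/a) * (4 * X / N)
      ≤ (Ch * 2^K) * (4 * X / 2^(10 * K + 10)) :=
        mul_le_mul h6 h7 (by positivity) (by positivity)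
    _ = (4 * Ch * X / 2^K) * (2^K * 2^K / 2^(10 * K + 10)) := by
        field_simp
    _ ≤ (4 * Ch * X / 2^K) * 1 := by
        apply mul_le_mul_of_nonneg_left _ (by positivity)
        rw [div_le_one (by positivity), ← pow_add]
        exact pow_le_pow_right₀ (by norm_num) (by omega)
    _ = _ := by ring

/-- the bad primes above `bb (kk K)` -/
lemma s3_bad_sum (K : ℕ) : ∑ q ∈ (Pr (bb K)).filter (fun q => bb (kk K) < q ∧ BadN 1 (kk K) q),
    (1:ℝ)/q ≤ 16^K * (2 / bb (kk K)) := by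
  have hsub : (Pr (bb K)).filter (fun q => bb (kk K) < q ∧ BadN 1 (kk K) q) ⊆
      (Ico (kk K) K).biUnion fun i => (Ioc (bb i) (bb (i+1))).filter (BadN 1 (kk K)) := by
    intro q hq
    rw [mem_filter, mem_Pr] at hq
    obtain ⟨⟨hq1, hq2⟩, hq3, hq4⟩ := hq
    have hkK : kk K ≤ K := by
      by_contra hcon
      push Not at hcon
      have := bb_mono hcon.le
      omega
    have hqW : q ∈ W (kk K) K := (mem_W hkK).mpr ⟨hq1, hq3, hq2⟩
    unfold W at hqW
    rw [mem_biUnion] at hqW ⊢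
    obtain ⟨i, hi, hqi⟩ := hqW
    rw [mem_PB] at hqi
    exact ⟨i, hi, mem_filter.mpr ⟨mem_Ioc.mpr hqi.1, hq4⟩⟩
  have hb0 : (0:ℝ) < bb (kk K) := by exact_mod_cast bb_pos (kk K)
  calc ∑ q ∈ (Pr (bb K)).filter (fun q => bb (kk K) < q ∧ BadN 1 (kk K) q), (1:ℝ)/q
      ≤ ∑ q ∈ (Ico (kk K) K).biUnion fun i => (Ioc (bb i) (bb (i+1))).filter (BadN 1 (kk K)),
          (1:ℝ)/q := sum_le_sum_of_subset_of_nonneg hsub
            fun _ _ _ => one_div_nonneg.mpr (Nat.cast_nonneg _)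
    _ = ∑ i ∈ Ico (kk K) K, ∑ q ∈ (Ioc (bb i) (bb (i+1))).filter (BadN 1 (kk K)), (1:ℝ)/q := by
        apply sum_biUnion
        intro i _ j _ hij
        rw [Function.onFun, disjoint_left]
        intro q hq hq'
        rw [mem_filter, mem_Ioc] at hq hq'
        rcases lt_or_gt_of_ne hij with h | h
        · have := bb_mono (show i + 1 ≤ j by omega)
          omega
        · have := bb_mono (show j + 1 ≤ i by omega)
          omega
    _ ≤ ∑ i ∈ Ico (kk K) K, (16:ℝ)^i * (2 / bb (kk K)) :=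
        sum_le_sum fun i _ => bad_sumN 1 (Or.inl rfl) (kk K) i
    _ = (∑ i ∈ Ico (kk K) K, (16:ℝ)^i) * (2 / bb (kk K)) := by rw [sum_mul]
    _ ≤ 16^K * (2 / bb (kk K)) := by
        apply mul_le_mul_of_nonneg_right _ (by positivity)
        have h1 : ∑ i ∈ Ico (kk K) K, (16:ℝ)^i ≤ ∑ i ∈ range K, (16:ℝ)^i :=
          sum_le_sum_of_subset_of_nonneg (by
            intro i hi
            rw [mem_Ico] at hi
            exact mem_range.mpr hi.2) fun _ _ _ => by positivity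
        refine h1.trans ?_
        rw [geom_sum_eq (by norm_num)]
        have h2 : (1:ℝ) ≤ 16^K := one_le_pow₀ (by norm_num)
        rw [div_le_iff₀ (by norm_num)]
        linarith

theorem bQ3b : ∃ C : ℝ, 0 < C ∧ ∀ K X : ℕ, 2000 ≤ K → bb (K+6) ≤ X →
    (cnt X (Q3b K) : ℝ) ≤ C * X / 2^K := by
  obtain ⟨Ch, hCh, harm⟩ := harm
  refine ⟨4 * Ch, by positivity, fun K X hK hX => ?_⟩
  have hb : (2:ℝ)^(10 * K + 10) ≤ bb (kk K) := s3_bb_kk K
  have hbad := s3_bad_sum K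
  have hkb0 : (0:ℝ) < bb (kk K) := lt_of_lt_of_le (by positivity) hb
  set N := bb (kk K) with hN
  set I : Finset ℕ := (Pr (bb K)).filter (fun q => N < q ∧ BadN 1 (kk K) q) with hI
  have hX0 : (0:ℝ) ≤ X := Nat.cast_nonneg X
  have h1 : (cnt X (Q3b K) : ℝ) ≤ ∑ a ∈ Ico 2 (bb K),
      ∑ z ∈ (Ico 1 a).filter (fun z => Nat.Coprime a z),
        (Bz X a z (fun b x => Tr X a b z x ∧ Q3b K a b z x) : ℝ) := by
    have := cnt_le_sum X (bb K) (Q3b K) (fun a b z x _ h => h.1)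
    exact_mod_cast this
  have h2 : ∀ a ∈ Ico 2 (bb K), ∑ z ∈ (Ico 1 a).filter (fun z => Nat.Coprime a z),
      (Bz X a z (fun b x => Tr X a b z x ∧ Q3b K a b z x) : ℝ) ≤
      (1:ℝ)/a * (4 * X * 16^K / N) := by
    intro a ha
    rw [mem_Ico] at ha
    have ha0 : (0:ℝ) < a := by exact_mod_cast (by omega : 0 < a)
    have h3 : ∀ z ∈ (Ico 1 a).filter (fun z => Nat.Coprime a z),
        (Bz X a z (fun b x => Tr X a b z x ∧ Q3b K a b z x) : ℝ) ≤
        ∑ q ∈ I.filter (fun q => q ∣ z), 2 * ((X:ℝ) / (a * a)) := by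
      intro z hz
      rw [mem_filter, mem_Ico] at hz
      have h4 := Bz_le_sum (I.filter (fun q => q ∣ z)) X a z
        (fun b x => Tr X a b z x ∧ Q3b K a b z x) (fun _ _ _ => True)
        (by
          rintro b x _ _ ⟨_, _, q, hq, hNq, hqz, hqv⟩
          have hqK := s3_prime_le hz.1.1 hz.1.2 ha.2 hqz
          exact ⟨q, mem_filter.mpr ⟨mem_filter.mpr ⟨mem_Pr.mpr ⟨hq, hqK.le⟩, hNq, hqv⟩, hqz⟩,
            trivial⟩)
      have h5 : (Bz X a z (fun b x => Tr X a b z x ∧ Q3b K a b z x) : ℝ) ≤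
          ∑ q ∈ I.filter (fun q => q ∣ z), (Bz X a z (fun b _ => True) : ℝ) := by
        exact_mod_cast h4
      refine h5.trans (sum_le_sum fun q hq => ?_)
      exact Bz_triv K X a z hX ha.1 ha.2 hz.1.2 hz.2 _
    refine (sum_le_sum h3).trans ?_
    refine (sum_mult_le a I _ (fun _ => 2 * ((X:ℝ) / (a * a))) (fun q => by positivity)).trans ?_
    have h4 : ∑ q ∈ I, 2 * ((X:ℝ) / (a * a)) * (a / q) =
        (2 * X / a) * ∑ q ∈ I, (1:ℝ) / q := by
      rw [mul_sum]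
      refine sum_congr rfl fun q hq => ?_
      rw [hI, mem_filter] at hq
      have hq0 : (0:ℝ) < q := by exact_mod_cast (mem_Pr.mp hq.1).1.pos
      field_simp
    rw [h4]
    calc (2 * X / a) * ∑ q ∈ I, (1:ℝ) / q ≤ (2 * X / a) * (16^K * (2 / N)) :=
          mul_le_mul_of_nonneg_left hbad (by positivity)
      _ = (1:ℝ)/a * (4 * X * 16^K / N) := by ring
  refine h1.trans ((sum_le_sum h2).trans ?_)
  rw [← sum_mul]
  have h6 : ∑ a ∈ Ico 2 (bb K), (1:ℝ)/a ≤ Ch * 2^K :=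
    (sum_le_sum_of_subset_of_nonneg (Ico_subset_Ico_left (by norm_num))
      fun _ _ _ => by positivity).trans (harm K)
  have h7 : 4 * (X:ℝ) * 16^K / N ≤ 4 * X * 16^K / 2^(10 * K + 10) :=
    div_le_div_of_nonneg_left (by positivity) (by positivity) hb
  have h16 : (16:ℝ)^K = 2^(4*K) := by
    rw [pow_mul]; norm_num
  calc (∑ a ∈ Ico 2 (bb K), (1:ℝ)/a) * (4 * X * 16^K / N)
      ≤ (Ch * 2^K) * (4 * X * 16^K / 2^(10 * K + 10)) :=
        mul_le_mul h6 h7 (by positivity) (by positivity)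
    _ = (4 * Ch * X / 2^K) * (2^K * 2^K * 2^(4*K) / 2^(10 * K + 10)) := by
        rw [h16]
        field_simp
    _ ≤ (4 * Ch * X / 2^K) * 1 := by
        apply mul_le_mul_of_nonneg_left _ (by positivity)
        rw [div_le_one (by positivity), ← pow_add, ← pow_add]
        exact pow_le_pow_right₀ (by norm_num) (by omega)
    _ = _ := by ring

/-- the large good primes -/
def Good3 (K z : ℕ) : Prop :=
  ∃ q : ℕ, q.Prime ∧ bb (kk K) < q ∧ Odd (padicValNat q z) ∧ ¬ BadN 1 (kk K) q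

noncomputable def q3 (K z : ℕ) : ℕ := if h : Good3 K z then Classical.choose h else 2

lemma q3_spec {K z : ℕ} (h : Good3 K z) : (q3 K z).Prime ∧ bb (kk K) < q3 K z ∧
    Odd (padicValNat (q3 K z) z) ∧ ¬ BadN 1 (kk K) (q3 K z) := by
  unfold q3
  rw [dif_pos h]
  exact Classical.choose_spec h

lemma Bz_and {X a z : ℕ} {P : Prop} {Q : ℕ → ℕ → Prop} :
    (Bz X a z (fun b x => P ∧ Q b x) : ℝ) = if P then (Bz X a z Q : ℝ) else 0 := by
  by_cases h : P
  · simp [h]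
  · rw [if_neg h]
    unfold Bz
    simp [h]

lemma dvd_of_odd_val {q z : ℕ} (h : Odd (padicValNat q z)) : q ∣ z := by
  by_contra hcon
  rw [padicValNat.eq_zero_of_not_dvd hcon] at h
  simp at h

theorem bQ3c : ∃ C : ℝ, 0 < C ∧ ∀ K X : ℕ, 2000 ≤ K → bb (K+6) ≤ X →
    (cnt X (Q3c K) : ℝ) ≤ C * X / 2^K := by
  obtain ⟨C1, hC1, hss⟩ := ssum
  obtain ⟨Cl, hCl, hlow⟩ := SW_lower
  obtain ⟨Cw, hCw, hwin⟩ := win_good
  obtain ⟨Cp, m, hCp, hm0, hm1, hm2⟩ := psum
  obtain ⟨Ca, hCa, has⟩ := asum (3/4) (by norm_num) (by norm_num)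
  obtain ⟨Cb, hCb, hab⟩ := absorb (9/4) 2 (1/4) (by norm_num)
  have hl2 : 0 < Real.log 2 := Real.log_pos (by norm_num)
  set c0 : ℝ := (3/2) * Cl + Cw / 2 + 1 with hc0
  refine ⟨C1 * Real.exp c0 * (2 * Cp) * Ca * Cb, by positivity, fun K X hK hX => ?_⟩
  have hX0 : (0:ℝ) ≤ X := Nat.cast_nonneg X
  set L : ℝ := (3/2) * (((K:ℝ) - kk K) * Real.log 2) - c0 with hL
  set I : Finset (ℕ × ℤ) := ((Pr (bb K)).filter (fun p => p ≠ 2)) ×ˢ ({1, -1} : Finset ℤ) with hI
  have hacc := accumulate I X K (Q3c K)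
    (fun i a z b x => Good3 K z ∧ (QS K a z i.1 i.2 ∅ b x ∧
      EvS K a z (insert i.1 ∅) (AT {q3 K z}) (fun _ => True) b x))
    (fun a b z x _ h => h.1.1) ?_ (fun i => Real.exp (m K i.1) / i.1)
    (fun a => (1:ℝ)/a * Real.exp (-(3/4) * SW (kk K) (ja a - 6))) (C1 * Real.exp (-L) * X) ?_
  · refine hacc.trans ?_
    have h1 : ∑ i ∈ I, Real.exp (m K i.1) / (i.1 : ℝ) ≤ 2 * Cp * (K+1) := by
      rw [hI, sum_product]
      simp only [sum_const]
      have h2 : ({1, -1} : Finset ℤ).card = 2 := by decide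
      rw [h2, ← smul_sum, nsmul_eq_mul]
      have := hm2 K hK
      push_cast
      linarith
    have h2 := has K
    have hs1 : 0 ≤ ∑ i ∈ I, Real.exp (m K i.1) / (i.1 : ℝ) :=
      sum_nonneg fun i _ => div_nonneg (Real.exp_pos _).le (Nat.cast_nonneg _)
    have hs2 : 0 ≤ ∑ a ∈ Ico 2 (bb K), (1:ℝ)/a * Real.exp (-(3/4) * SW (kk K) (ja a - 6)) :=
      sum_nonneg fun a _ => mul_nonneg (one_div_nonneg.mpr (Nat.cast_nonneg _)) (Real.exp_pos _).le
    have hE0 : 0 ≤ C1 * Real.exp (-L) * X := mul_nonneg (mul_nonneg hC1.le (Real.exp_pos _).le) hX0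
    have hK0 : (0:ℝ) ≤ (K:ℝ) + 1 := by positivity
    calc C1 * Real.exp (-L) * X * (∑ i ∈ I, Real.exp (m K i.1) / (i.1 : ℝ)) *
          ∑ a ∈ Ico 2 (bb K), (1:ℝ)/a * Real.exp (-(3/4) * SW (kk K) (ja a - 6))
        ≤ C1 * Real.exp (-L) * X * (2 * Cp * (K+1)) *
          (Ca * (K+1) * Real.exp (((1 - 3/4) * K + (3/4) * kk K) * Real.log 2)) := by
          apply mul_le_mul (mul_le_mul_of_nonneg_left h1 hE0) h2 hs2
          exact mul_nonneg hE0 (mul_nonneg (by linarith) hK0)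
      _ = C1 * Real.exp c0 * (2 * Cp) * Ca *
          (Real.exp ((9/4 * kk K - 1/4 * K) * Real.log 2) * (K+1)^2) * X *
            Real.exp (-(K * Real.log 2)) := by
          have e1 : Real.exp (-L) * Real.exp (((1 - 3/4) * K + (3/4) * kk K) * Real.log 2) =
              Real.exp c0 * Real.exp ((9/4 * kk K - 1/4 * K) * Real.log 2) *
                Real.exp (-(K * Real.log 2)) := by
            rw [← Real.exp_add, ← Real.exp_add, ← Real.exp_add, hL]
            congr 1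
            ring
          calc C1 * Real.exp (-L) * X * (2 * Cp * (K+1)) *
              (Ca * (K+1) * Real.exp (((1 - 3/4) * K + (3/4) * kk K) * Real.log 2))
              = C1 * (2 * Cp) * Ca * (K+1)^2 * X * (Real.exp (-L) *
                Real.exp (((1 - 3/4) * K + (3/4) * kk K) * Real.log 2)) := by ring
            _ = _ := by rw [e1]; ring
      _ ≤ C1 * Real.exp c0 * (2 * Cp) * Ca * Cb * X * Real.exp (-(K * Real.log 2)) := by
          apply mul_le_mul_of_nonneg_right _ (Real.exp_pos _).le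
          apply mul_le_mul_of_nonneg_right _ hX0
          exact mul_le_mul_of_nonneg_left (hab K) (by positivity)
      _ = C1 * Real.exp c0 * (2 * Cp) * Ca * Cb * X / 2^K := by
          rw [Real.exp_neg, mul_comm (K:ℝ) (Real.log 2), Real.exp_mul, Real.exp_log (by norm_num),
            Real.rpow_natCast, div_eq_mul_inv]
  · -- the cover
    intro a b z x ha2 haK hz0 hza hTr hQ
    obtain ⟨⟨_, hOx, ⟨p, hp, hp2, hpK, hpv⟩, q, hq, hqN, hqodd⟩, hna, hnb⟩ := hQ
    have hqz := dvd_of_odd_val hqodd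
    have hgood : Good3 K z := by
      refine ⟨q, hq, hqN, hqodd, fun hbad => hnb ⟨haK, q, hq, hqN, hqz, hbad⟩⟩
    obtain ⟨g1, g2, g3, g4⟩ := q3_spec hgood
    have g5 := dvd_of_odd_val g3
    have g6 : ¬ q3 K z ∣ a * b + 1 := fun h => hna ⟨haK, q3 K z, g1, g2, g5, h⟩
    refine ⟨(p, sg (a * b + 1)), ?_, hgood, ?_, ?_⟩
    · rw [hI, mem_product, mem_filter, mem_Pr]
      refine ⟨⟨⟨hp, hpK⟩, hp2⟩, ?_⟩
      rcases sg_cases (a * b + 1) with h | h <;> rw [h] <;> simp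
    · exact (qs_of hTr (T := ∅) (empty_subset _) hp hp2 hpv).1
    · refine evS2 hTr (T := {q3 K z}) ?_ _ (by rw [hOx]; exact empty_subset _) ?_
      · intro q' hq'
        rw [mem_singleton] at hq'
        rw [hq']
        exact ⟨g1, (odd_z_of hTr g1 g3 g6).1⟩
      · intro q' hq'
        rw [mem_singleton] at hq'
        rw [hq']
        exact Or.inr (Or.inl (Dvd.dvd.mul_left g5 _))
  · -- the bound
    intro i hi a ha2 haK
    rw [hI, mem_product, mem_filter, mem_Pr] at hi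
    obtain ⟨⟨⟨hp, hpK⟩, hp2⟩, hs⟩ := hi
    have hs' : i.2 = 1 ∨ i.2 = -1 := by
      rw [mem_insert, mem_singleton] at hs
      exact hs
    have h1 := hss K X a i.1 i.2 ∅ (Good3 K) (fun z l => AT {q3 K z} l) (fun _ _ => True) L hK hX
      ha2 haK hp hp2 hpK (by simp) (by simp) (by simp) hs' ?_
    · have h2 : ∑ z ∈ (Ico 1 a).filter (fun z => Nat.Coprime a z),
          (Bz X a z (fun b x => Good3 K z ∧ (QS K a z i.1 i.2 ∅ b x ∧
            EvS K a z (insert i.1 ∅) (AT {q3 K z}) (fun _ => True) b x)) : ℝ) =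
          ∑ z ∈ (Ico 1 a).filter (fun z => Nat.Coprime a z ∧ Good3 K z),
            (Bz X a z (fun b x => QS K a z i.1 i.2 ∅ b x ∧
              EvS K a z (insert i.1 ∅) (AT {q3 K z}) (fun _ => True) b x) : ℝ) := by
        rw [← filter_filter, sum_filter (s := (Ico 1 a).filter (fun z => Nat.Coprime a z))]
        refine sum_congr rfl fun z _ => ?_
        rw [Bz_and]
      show ∑ z ∈ (Ico 1 a).filter (fun z => Nat.Coprime a z),
          (Bz X a z (fun b x => Good3 K z ∧ (QS K a z i.1 i.2 ∅ b x ∧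
            EvS K a z (insert i.1 ∅) (AT {q3 K z}) (fun _ => True) b x)) : ℝ) ≤ _
      rw [h2]
      refine h1.trans ?_
      rw [prod_empty, mul_one]
      have h3 : Real.exp (-(3/4) * SW (kk K) (ja a - 6) + (1/4) * XD (ps i.1) (kk K) (ja a - 6)) ≤
          Real.exp (m K i.1) * Real.exp (-(3/4) * SW (kk K) (ja a - 6)) := by
        rw [← Real.exp_add]
        apply Real.exp_le_exp.mpr
        have h4 := hm1 K i.1 (ja a - 6) hK hp hp2 ((Nat.sub_le _ _).trans (ja_le_of_lt ha2 haK))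
        have h5 := hm0 K i.1
        linarith
      have hp0 : (0:ℝ) < i.1 := by exact_mod_cast hp.pos
      have ha0 : (0:ℝ) < a := by exact_mod_cast (by omega : 0 < a)
      calc C1 * (X / a) * (1 / i.1) * Real.exp (-L) *
            Real.exp (-(3/4) * SW (kk K) (ja a - 6) + (1/4) * XD (ps i.1) (kk K) (ja a - 6))
          ≤ C1 * (X / a) * (1 / i.1) * Real.exp (-L) *
            (Real.exp (m K i.1) * Real.exp (-(3/4) * SW (kk K) (ja a - 6))) := by
            apply mul_le_mul_of_nonneg_left h3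
            positivity
        _ = _ := by ring
    · intro z hz
      obtain ⟨g1, g2, g3, g4⟩ := q3_spec hz
      have h4 := densT {q3 K z} (by intro q hq; rw [mem_singleton] at hq; rw [hq]; exact g1)
        (kk K) K (one_le_kk K)
      have hpe : ({q3 K z} : Finset ℕ).powerset.erase ∅ = {{q3 K z}} := by
        ext U
        rw [mem_erase, mem_powerset, subset_singleton_iff, mem_singleton]
        constructor
        · rintro ⟨h5, h6⟩
          exact h6.resolve_left h5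
        · rintro rfl
          exact ⟨singleton_ne_empty _, Or.inr rfl⟩
      rw [hpe, sum_singleton, prod_singleton, card_singleton] at h4
      have hns : ¬ IsSquare ((1:ℤ) * (q3 K z : ℤ)) := by
        rw [one_mul]
        rintro ⟨r, hr⟩
        have h5 : ((q3 K z : ℕ) : ℤ) = (r.natAbs : ℤ) * (r.natAbs : ℤ) := by
          rw [Int.natAbs_mul_self', hr]
        have h6 : q3 K z = r.natAbs * r.natAbs := by exact_mod_cast h5
        exact g1.prime.not_isSquare ⟨_, h6⟩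
      have h7 := hwin 1 (kk K) (q3 K z) (Or.inl rfl) (kk_ge K) g1.pos hns g4 K
      rw [one_mul] at h7
      have h8 : ∑ l ∈ W (kk K) K, (chi (AT {q3 K z} l) + chi True) / (l:ℝ) =
          ∑ l ∈ W (kk K) K, chi (AT {q3 K z} l) / l + SW (kk K) K := by
        unfold SW
        rw [← sum_add_distrib]
        refine sum_congr rfl fun l _ => ?_
        rw [chi_true trivial]
        ring
      rw [h8]
      have h9 := hlow (kk K) K
      rw [hL, hc0]
      push_cast at h4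
      linarith

/-- **M10** -/
theorem bS3 : ∃ C : ℝ, 0 < C ∧ ∀ K X : ℕ, 2000 ≤ K → bb (K+6) ≤ X → X < bb (K+7) →
    (cnt X (CS3 K) : ℝ) ≤ C * X / 2^K := by
  obtain ⟨C1, hC1, h1⟩ := bQ3a
  obtain ⟨C2, hC2, h2⟩ := bQ3b
  obtain ⟨C3, hC3, h3⟩ := bQ3c
  refine ⟨C1 + C2 + C3, by positivity, fun K X hK hX _ => ?_⟩
  have hc1 := cnt_le_add X (CS3 K) (Q3a K) (fun a b z x => CS3 K a b z x ∧ ¬ Q3a K a b z x)
    (fun a b z x _ h => (Classical.em (Q3a K a b z x)).imp id fun h' => ⟨h, h'⟩)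
  have hc2 := cnt_le_add X (fun a b z x => CS3 K a b z x ∧ ¬ Q3a K a b z x) (Q3b K) (Q3c K)
    (fun a b z x _ h => (Classical.em (Q3b K a b z x)).imp id fun h' => ⟨h.1, h.2, h'⟩)
  have h4 : (cnt X (CS3 K) : ℝ) ≤ cnt X (Q3a K) + (cnt X (Q3b K) + cnt X (Q3c K)) := by
    exact_mod_cast hc1.trans (Nat.add_le_add_left hc2 _)
  calc (cnt X (CS3 K) : ℝ) ≤ cnt X (Q3a K) + (cnt X (Q3b K) + cnt X (Q3c K)) := h4
    _ ≤ C1 * X / 2^K + (C2 * X / 2^K + C3 * X / 2^K) :=
      add_le_add (h1 K X hK hX) (add_le_add (h2 K X hK hX) (h3 K X hK hX))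
    _ = _ := by ring

end Pool.Agent.H24.KS
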