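import Mathlib
import Pool.Agent.H24.KS.Dens
import Pool.Agent.H24.KS.FZ

/-!
The case `CS5`.
-/

namespace Pool.Agent.H24.KS

open Finset Classical
open Pool.Agent.H95.Gol

/-- the solutions for fixed `(a,z)` are parametrised by `t` -/
lemma Bz_param (X a z : ℕ) (hz : z < a) (hc : Nat.Coprime a z) (Q : ℕ → ℕ → Prop) :
    ∃ b0 x0 : ℕ, Bz X a z Q ≤
      ((range (X / a^2 + 1)).filter (fun t => Q (b0 + a * t) (x0 + (a - z) * t))).card ∧
      (Bz X a z Q ≠ 0 → a * x0 = b0 * (a - z) + 1) := by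
  have ha0 : 0 < a := by omega
  by_cases hne : ∃ b x, a * x = b * (a - z) + 1
  · obtain ⟨b1, x1, h1⟩ := hne
    have hcop : Nat.Coprime a (a - z) := (Nat.coprime_self_sub_right hz.le).2 hc
    obtain ⟨b0, x0, hb0, h0, hmod⟩ : ∃ b0 x0, b0 < a ∧ a * x0 = b0 * (a - z) + 1 ∧
        b0 = b1 % a := by
      refine ⟨b1 % a, x1 - (a - z) * (b1 / a), Nat.mod_lt _ ha0, ?_, rfl⟩
      have h3 : b1 = b1 % a + a * (b1 / a) := (Nat.mod_add_div b1 a).symm
      have h4 : a * ((a - z) * (b1 / a)) ≤ a * x1 := by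
        rw [h1]
        calc a * ((a - z) * (b1 / a)) = (a * (b1 / a)) * (a - z) := by ring
          _ ≤ b1 * (a - z) := Nat.mul_le_mul_right _ (by omega)
          _ ≤ _ := Nat.le_succ _
      rw [Nat.mul_sub]
      have h5 : b1 * (a - z) = (b1 % a) * (a - z) + a * ((a - z) * (b1 / a)) := by
        conv_lhs => rw [h3]
        ring
      omega
    refine ⟨b0, x0, ?_, fun _ => h0⟩
    unfold Bz
    refine card_le_card_of_injOn (fun b => b / a) ?_ ?_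
    · intro b hb
      rw [mem_coe, mem_filter] at hb
      obtain ⟨_, x, h2, h3, h4⟩ := hb
      have hba : b % a = b0 := by
        rw [hmod]
        have h5 : b1 * (a - z) ≡ b * (a - z) [MOD a] := by
          have h6 : b1 * (a - z) + 1 ≡ b * (a - z) + 1 [MOD a] := by
            rw [← h1, ← h2]
            exact (Nat.modEq_zero_iff_dvd.2 (dvd_mul_right a x1)).trans
              (Nat.modEq_zero_iff_dvd.2 (dvd_mul_right a x)).symm
          exact Nat.ModEq.add_right_cancel' 1 h6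
        exact (Nat.ModEq.cancel_right_of_coprime hcop h5).symm
      have hb' : b = b0 + a * (b / a) := by
        rw [← hba]; exact (Nat.mod_add_div b a).symm
      have hx' : x = x0 + (a - z) * (b / a) := by
        have h6 : a * x = a * (x0 + (a - z) * (b / a)) := by
          rw [h2, mul_add, h0]
          conv_lhs => rw [hb']
          ring
        exact Nat.eq_of_mul_eq_mul_left ha0 h6
      rw [mem_coe, mem_filter, mem_range]
      refine ⟨?_, ?_⟩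
      · refine Nat.lt_succ_of_le ((Nat.le_div_iff_mul_le (by positivity)).2 ?_)
        have h7 : a * (b / a) ≤ b := Nat.mul_div_le b a
        calc b / a * a^2 = a * (a * (b / a)) := by ring
          _ ≤ a * b := Nat.mul_le_mul_left a h7
          _ ≤ X := h3.le
      · rw [← hb', ← hx']
        exact h4
    · intro b hb b' hb' h
      rw [mem_coe, mem_filter] at hb hb'
      simp only at h
      have key : ∀ c : ℕ, (∃ x, a * x = c * (a - z) + 1) → c % a = b0 := by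
        rintro c ⟨x, h2⟩
        rw [hmod]
        have h5 : b1 * (a - z) ≡ c * (a - z) [MOD a] := by
          have h6 : b1 * (a - z) + 1 ≡ c * (a - z) + 1 [MOD a] := by
            rw [← h1, ← h2]
            exact (Nat.modEq_zero_iff_dvd.2 (dvd_mul_right a x1)).trans
              (Nat.modEq_zero_iff_dvd.2 (dvd_mul_right a x)).symm
          exact Nat.ModEq.add_right_cancel' 1 h6
        exact (Nat.ModEq.cancel_right_of_coprime hcop h5).symm
      have e1 := key b ⟨hb.2.choose, hb.2.choose_spec.1⟩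
      have e2 := key b' ⟨hb'.2.choose, hb'.2.choose_spec.1⟩
      rw [← Nat.mod_add_div b a, ← Nat.mod_add_div b' a, e1, e2, h]
  · refine ⟨0, 0, ?_, ?_⟩
    · have h0 : Bz X a z Q = 0 := by
        unfold Bz
        rw [card_eq_zero, filter_eq_empty_iff]
        rintro b _ ⟨x, h1, _⟩
        exact hne ⟨b, x, h1⟩
      rw [h0]
      exact Nat.zero_le _
    · intro h
      exfalso
      apply h
      unfold Bz
      rw [card_eq_zero, filter_eq_empty_iff]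
      rintro b _ ⟨x, h1, _⟩
      exact hne ⟨b, x, h1⟩

/-- the reciprocal sum of prime divisors -/
lemma sum_recip_le (S : Finset ℕ) (n : ℕ) (hn : n ≠ 0) (hS : ∀ l ∈ S, l.Prime ∧ l ∣ n) :
    ∑ l ∈ S, (1:ℝ) / l ≤ 3 + 1/8 * Real.log n := by
  have h1 : ∀ l ∈ S, (1:ℝ)/l ≤ 1/8 * Real.log l + (if l < 6 then (1:ℝ)/2 else 0) := by
    intro l hl
    have hl2 := (hS l hl).1.two_le
    have hl2' : (2:ℝ) ≤ l := by exact_mod_cast hl2
    have hlog : 0 ≤ Real.log l := Real.log_nonneg (by linarith)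
    split_ifs with h
    · have : (1:ℝ)/l ≤ 1/2 := one_div_le_one_div_of_le (by norm_num) hl2'
      linarith
    · have h6 : (6:ℝ) ≤ l := by
        push Not at h
        exact_mod_cast h
      have h7 : (1:ℝ)/l ≤ 1/6 := one_div_le_one_div_of_le (by norm_num) h6
      have h8 : Real.log 4 ≤ Real.log l := Real.log_le_log (by norm_num) (by linarith)
      have h9 : Real.log 4 = 2 * Real.log 2 := by
        rw [show (4:ℝ) = 2^2 by norm_num, Real.log_pow]; norm_num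
      have h10 := Real.log_two_gt_d9
      linarith
  have h2 : ∑ l ∈ S, (if l < 6 then (1:ℝ)/2 else 0) ≤ 3 := by
    rw [← sum_filter, sum_const, nsmul_eq_mul]
    have h3 : (S.filter (fun l => l < 6)).card ≤ 6 := by
      calc (S.filter (fun l => l < 6)).card ≤ (range 6).card :=
            card_le_card fun l hl => mem_range.2 (mem_filter.1 hl).2
        _ = 6 := card_range 6
    have h4 : ((S.filter (fun l => l < 6)).card : ℝ) ≤ 6 := by exact_mod_cast h3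
    linarith
  have h3 : ∑ l ∈ S, Real.log l ≤ Real.log n := by
    rw [← Real.log_prod fun l hl => by
      have := (hS l hl).1.pos
      positivity]
    have h4 : ∏ l ∈ S, l ∣ n := prod_primes_dvd n (fun p hp => (hS p hp).1.prime)
      fun p hp => (hS p hp).2
    have h5 : (∏ l ∈ S, l : ℕ) ≤ n := Nat.le_of_dvd (Nat.pos_of_ne_zero hn) h4
    apply Real.log_le_log
    · exact prod_pos fun l hl => by
        have := (hS l hl).1.pos
        positivity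
    · have h6 : ((∏ l ∈ S, l : ℕ) : ℝ) ≤ n := by exact_mod_cast h5
      rw [Nat.cast_prod] at h6
      exact h6
  calc ∑ l ∈ S, (1:ℝ) / l ≤ ∑ l ∈ S, (1/8 * Real.log l + (if l < 6 then (1:ℝ)/2 else 0)) :=
        sum_le_sum h1
    _ = 1/8 * ∑ l ∈ S, Real.log l + ∑ l ∈ S, (if l < 6 then (1:ℝ)/2 else 0) := by
        rw [sum_add_distrib, mul_sum]
    _ ≤ 3 + 1/8 * Real.log n := by linarith

/-- the squarefree part -/
lemma exists_sqf : ∃ (G u : ℕ → ℕ), ∀ z, 0 < z → 0 < G z ∧ 0 < u z ∧ z = (u z)^2 * G z ∧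
    Squarefree (G z) := by
  have h : ∀ z : ℕ, ∃ g v : ℕ, 0 < z → 0 < g ∧ 0 < v ∧ z = v^2 * g ∧ Squarefree g := by
    intro z
    by_cases hz : 0 < z
    · obtain ⟨g, v, h1, h2, h3, h4⟩ := Nat.sq_mul_squarefree_of_pos hz
      exact ⟨g, v, fun _ => ⟨h1, h2, h3.symm, h4⟩⟩
    · exact ⟨0, 0, fun h => absurd h hz⟩
  choose G u hGu using h
  exact ⟨G, u, hGu⟩

/-- the sum of the reciprocals of the squarefree parts -/
lemma sum_sqf_le (G u : ℕ → ℕ) (hG : ∀ z, 0 < z → 0 < G z ∧ 0 < u z ∧ z = (u z)^2 * G z ∧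
    Squarefree (G z)) (a : ℕ) (ha : 1 ≤ a) :
    ∑ z ∈ Ico 1 a, (1:ℝ) / G z ≤ 9 * (a:ℝ)^((1:ℝ)/2 + 1/8) := by
  have ha' : (1:ℝ) ≤ a := by exact_mod_cast ha
  have ha0 : (0:ℝ) < a := by linarith
  have h1 : ∑ z ∈ Ico 1 a, (1:ℝ) / G z ≤
      ∑ p ∈ (Icc 1 (Nat.sqrt a)) ×ˢ (Icc 1 a), (1:ℝ) / (p.2 : ℕ) := by
    have hinj : Set.InjOn (fun z => (u z, G z)) (Ico 1 a : Finset ℕ) := by
      intro z hz z' hz' h
      rw [mem_coe, mem_Ico] at hz hz'
      simp only [Prod.mk.injEq] at h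
      rw [(hG z (by omega)).2.2.1, (hG z' (by omega)).2.2.1, h.1, h.2]
    rw [← sum_image (s := Ico 1 a) (g := fun z => (u z, G z))
      (f := fun p : ℕ × ℕ => (1:ℝ) / (p.2 : ℕ)) hinj]
    refine sum_le_sum_of_subset_of_nonneg ?_ fun _ _ _ => by positivity
    intro p hp
    rw [mem_image] at hp
    obtain ⟨z, hz, rfl⟩ := hp
    rw [mem_Ico] at hz
    obtain ⟨e1, e2, e3, _⟩ := hG z (by omega)
    rw [mem_product, mem_Icc, mem_Icc]
    refine ⟨⟨e2, Nat.le_sqrt.2 ?_⟩, e1, ?_⟩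
    · have : u z ^ 2 ≤ u z ^ 2 * G z := Nat.le_mul_of_pos_right _ e1
      nlinarith
    · have : G z ≤ u z ^ 2 * G z := Nat.le_mul_of_pos_left _ (by positivity)
      show G z ≤ a
      omega
  have h2 : ∑ g ∈ Icc 1 a, (1:ℝ)/g ≤ 1 + Real.log a := by
    have h3 := harmonic_le_one_add_log a
    rw [harmonic_eq_sum_Icc] at h3
    push_cast at h3
    simpa [one_div] using h3
  have h3 : (Nat.sqrt a : ℝ) ≤ (a:ℝ)^((1:ℝ)/2) := by
    rw [← Real.sqrt_eq_rpow]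
    apply Real.le_sqrt_of_sq_le
    have := Nat.sqrt_le' a
    exact_mod_cast this
  have h4 : Real.log a ≤ 8 * (a:ℝ)^((1:ℝ)/8) := by
    have := Real.log_le_rpow_div ha0.le (show (0:ℝ) < 1/8 by norm_num)
    calc Real.log a ≤ (a:ℝ)^((1:ℝ)/8) / (1/8) := this
      _ = 8 * (a:ℝ)^((1:ℝ)/8) := by ring
  have h5 : (1:ℝ) ≤ (a:ℝ)^((1:ℝ)/8) := Real.one_le_rpow ha' (by norm_num)
  calc ∑ z ∈ Ico 1 a, (1:ℝ) / G z ≤ _ := h1
    _ = (Nat.sqrt a : ℝ) * ∑ g ∈ Icc 1 a, (1:ℝ)/g := by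
        simp only [sum_product, sum_const, nsmul_eq_mul, Nat.card_Icc, Nat.add_sub_cancel]
    _ ≤ (a:ℝ)^((1:ℝ)/2) * (1 + Real.log a) := by
        have h6 : 0 ≤ ∑ g ∈ Icc 1 a, (1:ℝ)/g := sum_nonneg fun _ _ => by positivity
        gcongr
    _ ≤ (a:ℝ)^((1:ℝ)/2) * (9 * (a:ℝ)^((1:ℝ)/8)) := by
        gcongr
        linarith
    _ = 9 * (a:ℝ)^((1:ℝ)/2 + 1/8) := by
        rw [Real.rpow_add ha0]
        ring

lemma odd_val_of_sqf {z g u q : ℕ} (hg : Squarefree g) (hz : z = u^2 * g) (hu : 0 < u) (hq : q.Prime)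
    (hqg : q ∣ g) : Odd (padicValNat q z) := by
  have hf : Fact q.Prime := ⟨hq⟩
  have hg0 : g ≠ 0 := hg.ne_zero
  have h1 : padicValNat q g = 1 := by
    have h2 : 1 ≤ padicValNat q g := one_le_padicValNat_of_dvd hg0 hqg
    have h3 : ¬ 2 ≤ padicValNat q g := by
      rw [← padicValNat_dvd_iff_le hg0]
      intro h4
      rw [pow_two] at h4
      exact hq.one_lt.ne' (Nat.isUnit_iff.1 (hg q h4))
    omega
  rw [hz, padicValNat.mul (by positivity) hg0, padicValNat.pow, h1]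
  exact ⟨padicValNat q u, rfl⟩

lemma val_one_of_exact {n l : ℕ} (hn : n ≠ 0) (hl : l.Prime) (h1 : l ∣ n) (h2 : ¬ l^2 ∣ n) :
    padicValNat l n = 1 := by
  have hf : Fact l.Prime := ⟨hl⟩
  have h3 : 1 ≤ padicValNat l n := one_le_padicValNat_of_dvd hn h1
  have h4 : ¬ 2 ≤ padicValNat l n := by
    rw [← padicValNat_dvd_iff_le hn]
    exact h2
  omega

/-- the bound for fixed `(a,z)` -/
lemma one_az : ∃ C : ℝ, 0 < C ∧ ∀ (K X a z g u : ℕ), 2000 ≤ K → bb (K+6) ≤ X → 2 ≤ a → a < bb K →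
    0 < z → z < a → Nat.Coprime a z → 0 < u → z = u^2 * g → Squarefree g →
    (Bz X a z (fun b x => Tr X a b z x ∧ CS5 K a b z x) : ℝ) ≤
      C * ((X:ℝ) / (a:ℝ)^2) * (1 / g) * (a:ℝ)^((1:ℝ)/4) * (1 / 2^K) := by
  obtain ⟨C1, hC1, hsieve⟩ := sieveC 1
  obtain ⟨C2, hC2, hSW⟩ := SW_lower
  refine ⟨C1 * 2 * Real.exp (7 + C2), by positivity, ?_⟩
  intro K X a z g u hK hX ha2 haK hz0 hza hcop hu hzg hsq
  have ha0 : 0 < a := by omega
  have haR : (0:ℝ) < a := by exact_mod_cast ha0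
  have hg0 : 0 < g := Nat.pos_of_ne_zero hsq.ne_zero
  have hgR : (0:ℝ) < g := by exact_mod_cast hg0
  obtain ⟨b0, x0, hle, h0⟩ := Bz_param X a z hza hcop
    (fun b x => Tr X a b z x ∧ CS5 K a b z x)
  by_cases hBz : Bz X a z (fun b x => Tr X a b z x ∧ CS5 K a b z x) = 0
  · rw [hBz, Nat.cast_zero]
    positivity
  have h0' := h0 hBz
  obtain ⟨y, hy⟩ : ∃ y, y = a - z := ⟨_, rfl⟩
  rw [← hy] at hle h0'
  have hya : y + z = a := by omega
  have hy0 : 0 < y := by omega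
  obtain ⟨D, hD⟩ : ∃ D, D = g.primeFactors := ⟨_, rfl⟩
  obtain ⟨P, hP⟩ : ∃ P, P = (W 0 K).filter (fun l => ¬ l ∣ y ∧ ¬ l ∣ z) := ⟨_, rfl⟩
  have hDp : ∀ q ∈ D, q.Prime ∧ q ∣ g := by
    intro q hq
    rw [hD] at hq
    exact ⟨Nat.prime_of_mem_primeFactors hq, Nat.dvd_of_mem_primeFactors hq⟩
  have hgz : g ∣ z := ⟨u^2, by rw [hzg]; ring⟩
  have hqy : ∀ q, q.Prime → q ∣ z → ¬ q ∣ y := by
    intro q hq hqz hqy
    have h1 : q ∣ a := by rw [← hya]; exact dvd_add hqy hqz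
    have h2 : q ∣ Nat.gcd a z := Nat.dvd_gcd h1 hqz
    rw [hcop] at h2
    exact hq.one_lt.ne' (Nat.dvd_one.1 h2)
  have hPp : ∀ l ∈ P, l.Prime ∧ 2 < l ∧ l ≤ bb K ∧ ¬ l ∣ y ∧ ¬ l ∣ z := by
    intro l hl
    rw [hP, mem_filter, mem_W (Nat.zero_le K)] at hl
    obtain ⟨⟨h1, h2, h3⟩, h4, h5⟩ := hl
    refine ⟨h1, ?_, h3, h4, h5⟩
    unfold bb at h2
    simpa using h2
  have hdisj : Disjoint D P := by
    rw [disjoint_left]
    intro q hq hq'
    exact (hPp q hq').2.2.2.2 ((hDp q hq).2.trans hgz)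
  -- the size of `J`
  have hbbK : bb (K+6) = (bb K)^64 := by
    rw [bb_add]
    norm_num
  have hbK1 : 1 ≤ bb K := bb_pos K
  have haa : a^2 ≤ (bb K)^2 := Nat.pow_le_pow_left haK.le 2
  have hJ : (∏ q ∈ D, q^2) * (bb K)^(32+1) ≤ X / a^2 + 1 := by
    have h1 : ∏ q ∈ D, q^2 = g^2 := by
      rw [prod_pow, hD, Nat.prod_primeFactors_of_squarefree hsq]
    rw [h1]
    have h2 : g^2 ≤ (bb K)^2 :=
      Nat.pow_le_pow_left (((Nat.le_of_dvd hz0 hgz).trans hza.le).trans haK.le) 2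
    have h3 : g^2 * (bb K)^(32+1) ≤ X / a^2 := by
      rw [Nat.le_div_iff_mul_le (by positivity)]
      calc g^2 * (bb K)^(32+1) * a^2 ≤ (bb K)^2 * (bb K)^(32+1) * (bb K)^2 := by gcongr
        _ = (bb K)^37 := by ring
        _ ≤ (bb K)^64 := Nat.pow_le_pow_right hbK1 (by norm_num)
        _ = bb (K+6) := hbbK.symm
        _ ≤ X := hX
    omega
  have hJ2 : ((X / a^2 + 1 : ℕ) : ℝ) ≤ 2 * ((X:ℝ) / (a:ℝ)^2) := by
    have h1 : 1 ≤ X / a^2 := by
      rw [Nat.le_div_iff_mul_le (by positivity), one_mul]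
      calc a^2 ≤ (bb K)^2 := haa
        _ ≤ (bb K)^64 := Nat.pow_le_pow_right hbK1 (by norm_num)
        _ = bb (K+6) := hbbK.symm
        _ ≤ X := hX
    have h2 : ((X / a^2 : ℕ) : ℝ) ≤ (X:ℝ) / ((a^2 : ℕ) : ℝ) := Nat.cast_div_le
    have h3 : (1:ℝ) ≤ ((X / a^2 : ℕ) : ℝ) := by exact_mod_cast h1
    rw [Nat.cast_pow] at h2
    rw [Nat.cast_add, Nat.cast_one]
    linarith
  -- the sieve
  obtain ⟨E, hE⟩ : ∃ E : ℕ → ℕ → Prop, ∀ l t, E l t ↔ (l ∣ x0 + y * t ∧ ¬ l^2 ∣ x0 + y * t) :=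
    ⟨_, fun _ _ => Iff.rfl⟩
  obtain ⟨Cd, hCd⟩ : ∃ Cd : ℕ → ℕ → Prop, ∀ q t, Cd q t ↔ q ∣ x0 + y * t :=
    ⟨_, fun _ _ => Iff.rfl⟩
  have hcE : ∀ l ∈ P, ((range (l^2)).filter (E l)).card = l - 1 := by
    intro l hl
    rw [← card_lin_exact l x0 y (hPp l hl).1 (hPp l hl).2.2.2.1]
    congr 1
    ext t
    simp only [mem_filter, hE]
  have hcC : ∀ q ∈ D, ((range (q^2)).filter (Cd q)).card = q := by
    intro q hq
    obtain ⟨hqp, hqg⟩ := hDp q hq
    have h1 := card_lin q x0 y hqp (hqy q hqp (hqg.trans hgz))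
    rw [← h1, h1]
    refine Eq.trans ?_ h1
    congr 1
    ext t
    simp only [mem_filter, hCd]
  have hs := hsieve D P K (X / a^2 + 1) E Cd hJ (fun q hq => (hDp q hq).1) hdisj
    (fun l hl => ⟨(hPp l hl).1, (hPp l hl).2.1, (hPp l hl).2.2.1⟩)
    (fun l _ t => by
      rw [hE, hE, lin_mod x0 y t (l^2) l (dvd_pow_self l two_ne_zero),
        lin_mod x0 y t (l^2) (l^2) dvd_rfl])
    (fun q _ t => by
      rw [hCd, hCd]
      exact lin_mod x0 y t (q^2) q (dvd_pow_self q two_ne_zero))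
    (fun l hl => by
      rw [hcE l hl]
      omega)
  have hsub : Bz X a z (fun b x => Tr X a b z x ∧ CS5 K a b z x) ≤
      ((range (X / a^2 + 1)).filter (fun t => (∀ q ∈ D, Cd q t) ∧ ∀ l ∈ P, ¬ E l t)).card := by
    refine hle.trans ?_
    apply card_le_card
    intro t ht
    obtain ⟨h1, hTr, hCS⟩ := (@mem_filter _ _ (_) _ _).1 ht
    rw [mem_filter]
    refine ⟨h1, ?_, ?_⟩
    · intro q hq
      rw [hCd]
      obtain ⟨hqp, hqg⟩ := hDp q hq
      have h2 := hCS.2.2 q hqp (odd_val_of_sqf hsq hzg hu hqp hqg)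
      have h3 : a * (x0 + y * t) + (b0 + a * t) * z = a * (b0 + a * t) + 1 := by
        calc a * (x0 + y * t) + (b0 + a * t) * z = a * x0 + a * y * t + (b0 + a * t) * z := by ring
          _ = b0 * y + 1 + a * y * t + (b0 + a * t) * z := by rw [h0']
          _ = (y + z) * (b0 + a * t) + 1 := by ring
          _ = a * (b0 + a * t) + 1 := by rw [hya]
      have h4 : q ∣ a * (x0 + y * t) := by
        rw [← h3] at h2
        exact (Nat.dvd_add_left (Dvd.dvd.mul_left (hqg.trans hgz) _)).1 h2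
      rcases hqp.dvd_mul.1 h4 with h5 | h5
      · exfalso
        have h6 : q ∣ Nat.gcd a z := Nat.dvd_gcd h5 (hqg.trans hgz)
        rw [hcop] at h6
        exact hqp.one_lt.ne' (Nat.dvd_one.1 h6)
      · exact h5
    · intro l hl hEl
      obtain ⟨h2, h3⟩ := (hE l t).1 hEl
      obtain ⟨e1, e2, e3, e4, e5⟩ := hPp l hl
      have hx0 : x0 + y * t ≠ 0 := by
        have := hTr.2.2.2.2.hx
        omega
      have hf : Fact l.Prime := ⟨e1⟩
      have h4 : l ∈ Ox K z (x0 + y * t) := by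
        unfold Ox
        rw [mem_filter, mem_range]
        refine ⟨by omega, e1, h2, e5, ?_⟩
        rw [padicValNat.mul hx0 hz0.ne', val_one_of_exact hx0 e1 h2 h3,
          padicValNat.eq_zero_of_not_dvd e5]
        exact odd_one
      rw [hCS.2.1] at h4
      exact absurd h4 (notMem_empty l)
  have hfin1 : (∏ q ∈ D, (((range (q^2)).filter (Cd q)).card : ℝ) / (q:ℝ)^2) =
      1 / g := by
    have h1 : ∀ q ∈ D, (((range (q^2)).filter (Cd q)).card : ℝ) / (q:ℝ)^2 =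
        1 / q := by
      intro q hq
      obtain ⟨hqp, hqg⟩ := hDp q hq
      rw [hcC q hq]
      have : (q:ℝ) ≠ 0 := by
        have := hqp.ne_zero
        exact_mod_cast this
      field_simp
    rw [prod_congr rfl h1, prod_div_distrib, prod_const_one, hD]
    congr 1
    have h2 := Nat.prod_primeFactors_of_squarefree hsq
    rw [← Nat.cast_prod, h2]
  have hfin2 : Real.exp (- ∑ l ∈ P, (((range (l^2)).filter (E l)).card : ℝ) / (l:ℝ)^2) ≤
      Real.exp (7 + C2) * (a:ℝ)^((1:ℝ)/4) * (1 / 2^K) := by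
    have h1 : ∑ l ∈ P, (((range (l^2)).filter (E l)).card : ℝ) / (l:ℝ)^2 ≥
        ∑ l ∈ P, (1:ℝ)/l - 1 := by
      have h2 := sum_inv_sq_le P (fun l hl => (hPp l hl).1.two_le)
      have h3 : ∑ l ∈ P, (((range (l^2)).filter (E l)).card : ℝ) / (l:ℝ)^2 =
          ∑ l ∈ P, (1:ℝ)/l - ∑ l ∈ P, (1:ℝ)/(l:ℝ)^2 := by
        rw [← sum_sub_distrib]
        refine sum_congr rfl fun l hl => ?_
        obtain ⟨e1, e2, e3, e4, e5⟩ := hPp l hl
        rw [hcE l hl, Nat.cast_sub e1.one_lt.le, Nat.cast_one]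
        have : (l:ℝ) ≠ 0 := by
          have := e1.ne_zero
          exact_mod_cast this
        field_simp
      rw [h3]
      linarith
    have h2 : SW 0 K ≤ ∑ l ∈ P, (1:ℝ)/l + (3 + 1/8 * Real.log y) + (3 + 1/8 * Real.log z) := by
      have h3 := sum_recip_le ((W 0 K).filter (fun l => l ∣ y)) y hy0.ne' (fun l hl => by
        rw [mem_filter] at hl
        exact ⟨prime_of_mem_W hl.1, hl.2⟩)
      have h4 := sum_recip_le ((W 0 K).filter (fun l => l ∣ z)) z hz0.ne' (fun l hl => by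
        rw [mem_filter] at hl
        exact ⟨prime_of_mem_W hl.1, hl.2⟩)
      have h5 : SW 0 K ≤ ∑ l ∈ P, (1:ℝ)/l + ∑ l ∈ (W 0 K).filter (fun l => l ∣ y), (1:ℝ)/l +
          ∑ l ∈ (W 0 K).filter (fun l => l ∣ z), (1:ℝ)/l := by
        unfold SW
        rw [hP, sum_filter, sum_filter, sum_filter, ← sum_add_distrib, ← sum_add_distrib]
        refine sum_le_sum fun l _ => ?_
        have h6 : (0:ℝ) ≤ 1/l := one_div_nonneg.2 (Nat.cast_nonneg _)
        by_cases e1 : l ∣ y <;> by_cases e2 : l ∣ z <;> simp only [e1, e2, not_true_eq_false,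
          not_false_eq_true, and_true, true_and, and_false, false_and, and_self, if_true,
          if_false] <;> linarith
      linarith
    have h3 : Real.log y ≤ Real.log a := by
      apply Real.log_le_log
      · exact_mod_cast hy0
      · exact_mod_cast (show y ≤ a by omega)
    have h4 : Real.log z ≤ Real.log a := by
      apply Real.log_le_log
      · exact_mod_cast hz0
      · exact_mod_cast (show z ≤ a by omega)
    have h5 := hSW 0 K
    rw [Nat.cast_zero, sub_zero] at h5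
    have h6 : (1:ℝ) / 2^K = Real.exp (-(K * Real.log 2)) := by
      rw [Real.exp_neg, Real.exp_nat_mul, Real.exp_log (by norm_num), one_div]
    have h7 : (a:ℝ)^((1:ℝ)/4) = Real.exp (1/4 * Real.log a) := by
      rw [Real.rpow_def_of_pos haR, mul_comm]
    rw [h6, h7, ← Real.exp_add, ← Real.exp_add]
    apply Real.exp_le_exp.2
    linarith
  have hgoal : (Bz X a z (fun b x => Tr X a b z x ∧ CS5 K a b z x) : ℝ) ≤
      C1 * ((X / a^2 + 1 : ℕ) : ℝ) * (1 / g) *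
        (Real.exp (7 + C2) * (a:ℝ)^((1:ℝ)/4) * (1 / 2^K)) := by
    have e1 : (Bz X a z (fun b x => Tr X a b z x ∧ CS5 K a b z x) : ℝ) ≤
        (((range (X / a^2 + 1)).filter (fun t => (∀ q ∈ D, Cd q t) ∧
        ∀ l ∈ P, ¬ E l t)).card : ℝ) := by
      exact_mod_cast hsub
    refine e1.trans (hs.trans ?_)
    rw [hfin1]
    have e2 : 0 ≤ C1 * ((X / a^2 + 1 : ℕ) : ℝ) * (1 / (g:ℝ)) :=
      mul_nonneg (mul_nonneg hC1.le (Nat.cast_nonneg _)) (one_div_nonneg.2 (Nat.cast_nonneg _))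
    exact mul_le_mul_of_nonneg_left hfin2 e2
  refine hgoal.trans ?_
  have e3 : 0 ≤ (1 / (g:ℝ)) * (Real.exp (7 + C2) * (a:ℝ)^((1:ℝ)/4) * (1 / 2^K)) := by positivity
  calc C1 * ((X / a^2 + 1 : ℕ) : ℝ) * (1 / g) *
        (Real.exp (7 + C2) * (a:ℝ)^((1:ℝ)/4) * (1 / 2^K))
      = C1 * ((X / a^2 + 1 : ℕ) : ℝ) * ((1 / g) *
        (Real.exp (7 + C2) * (a:ℝ)^((1:ℝ)/4) * (1 / 2^K))) := by ring
    _ ≤ C1 * (2 * ((X:ℝ) / (a:ℝ)^2)) * ((1 / g) *
        (Real.exp (7 + C2) * (a:ℝ)^((1:ℝ)/4) * (1 / 2^K))) :=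
        mul_le_mul_of_nonneg_right (mul_le_mul_of_nonneg_left hJ2 hC1.le) e3
    _ = C1 * 2 * Real.exp (7 + C2) * ((X:ℝ) / (a:ℝ)^2) * (1 / g) * (a:ℝ)^((1:ℝ)/4) *
        (1 / 2^K) := by ring

theorem bS5 : ∃ C : ℝ, 0 < C ∧ ∀ K X : ℕ, 2000 ≤ K → bb (K+6) ≤ X → X < bb (K+7) →
    (cnt X (CS5 K) : ℝ) ≤ C * X / 2^K := by
  obtain ⟨C1, hC1, hone⟩ := one_az
  obtain ⟨G, u, hGu⟩ := exists_sqf
  have hsum : Summable (fun n : ℕ => 1 / (n:ℝ)^((9:ℝ)/8)) :=
    Real.summable_one_div_nat_rpow.2 (by norm_num)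
  obtain ⟨C2, hC2⟩ : ∃ C2, C2 = ∑' n : ℕ, 1 / (n:ℝ)^((9:ℝ)/8) := ⟨_, rfl⟩
  have hC20 : 0 ≤ C2 := by
    rw [hC2]
    exact tsum_nonneg fun n => by positivity
  refine ⟨C1 * 9 * (C2 + 1), by positivity, ?_⟩
  intro K X hK hX1 hX2
  have h1 : (cnt X (CS5 K) : ℝ) ≤ ∑ a ∈ Ico 2 (bb K),
      ∑ z ∈ (Ico 1 a).filter (fun z => Nat.Coprime a z),
      (Bz X a z (fun b x => Tr X a b z x ∧ CS5 K a b z x) : ℝ) := by
    have := cnt_le_sum X (bb K) (CS5 K) (fun a b z x _ h => h.1)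
    exact_mod_cast this
  have h2 : ∀ a ∈ Ico 2 (bb K), ∑ z ∈ (Ico 1 a).filter (fun z => Nat.Coprime a z),
      (Bz X a z (fun b x => Tr X a b z x ∧ CS5 K a b z x) : ℝ) ≤
      C1 * 9 * (X / 2^K) * (1 / (a:ℝ)^((9:ℝ)/8)) := by
    intro a ha
    rw [mem_Ico] at ha
    have haR : (0:ℝ) < a := by
      have : 0 < a := by omega
      exact_mod_cast this
    have h3 : ∑ z ∈ (Ico 1 a).filter (fun z => Nat.Coprime a z),
        (Bz X a z (fun b x => Tr X a b z x ∧ CS5 K a b z x) : ℝ) ≤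
        ∑ z ∈ (Ico 1 a).filter (fun z => Nat.Coprime a z),
        C1 * ((X:ℝ) / (a:ℝ)^2) * (1 / G z) * (a:ℝ)^((1:ℝ)/4) * (1 / 2^K) := by
      refine sum_le_sum fun z hz => ?_
      rw [mem_filter, mem_Ico] at hz
      obtain ⟨e1, e2, e3, e4⟩ := hGu z (by omega)
      exact hone K X a z (G z) (u z) hK hX1 ha.1 ha.2 (by omega) hz.1.2 hz.2 e2 e3 e4
    have h4 : ∑ z ∈ (Ico 1 a).filter (fun z => Nat.Coprime a z),
        C1 * ((X:ℝ) / (a:ℝ)^2) * (1 / G z) * (a:ℝ)^((1:ℝ)/4) * (1 / 2^K) ≤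
        ∑ z ∈ Ico 1 a, C1 * ((X:ℝ) / (a:ℝ)^2) * (1 / G z) * (a:ℝ)^((1:ℝ)/4) * (1 / 2^K) :=
      sum_le_sum_of_subset_of_nonneg (filter_subset _ _) fun _ _ _ => by positivity
    have h5 : ∑ z ∈ Ico 1 a, C1 * ((X:ℝ) / (a:ℝ)^2) * (1 / G z) * (a:ℝ)^((1:ℝ)/4) * (1 / 2^K) =
        C1 * ((X:ℝ) / (a:ℝ)^2) * (a:ℝ)^((1:ℝ)/4) * (1 / 2^K) * ∑ z ∈ Ico 1 a, (1:ℝ) / G z := by
      rw [mul_sum]
      exact sum_congr rfl fun z _ => by ring
    have h6 := sum_sqf_le G u hGu a (by omega)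
    have h7 : (a:ℝ)^((1:ℝ)/4) * (a:ℝ)^((1:ℝ)/2 + 1/8) / (a:ℝ)^2 = 1 / (a:ℝ)^((9:ℝ)/8) := by
      rw [← Real.rpow_add haR, ← Real.rpow_natCast, ← Real.rpow_sub haR,
        one_div ((a:ℝ)^((9:ℝ)/8)), ← Real.rpow_neg haR.le]
      congr 1
      norm_num
    calc _ ≤ C1 * ((X:ℝ) / (a:ℝ)^2) * (a:ℝ)^((1:ℝ)/4) * (1 / 2^K) *
          ∑ z ∈ Ico 1 a, (1:ℝ) / G z := by rw [← h5]; exact h3.trans h4
      _ ≤ C1 * ((X:ℝ) / (a:ℝ)^2) * (a:ℝ)^((1:ℝ)/4) * (1 / 2^K) *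
          (9 * (a:ℝ)^((1:ℝ)/2 + 1/8)) := by gcongr
      _ = C1 * 9 * (X / 2^K) * ((a:ℝ)^((1:ℝ)/4) * (a:ℝ)^((1:ℝ)/2 + 1/8) / (a:ℝ)^2) := by ring
      _ = C1 * 9 * (X / 2^K) * (1 / (a:ℝ)^((9:ℝ)/8)) := by rw [h7]
  calc (cnt X (CS5 K) : ℝ) ≤ ∑ a ∈ Ico 2 (bb K), C1 * 9 * (X / 2^K) * (1 / (a:ℝ)^((9:ℝ)/8)) :=
        h1.trans (sum_le_sum h2)
    _ = C1 * 9 * (X / 2^K) * ∑ a ∈ Ico 2 (bb K), 1 / (a:ℝ)^((9:ℝ)/8) := by rw [mul_sum]
    _ ≤ C1 * 9 * (X / 2^K) * (C2 + 1) := by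
        have h8 : ∑ a ∈ Ico 2 (bb K), 1 / (a:ℝ)^((9:ℝ)/8) ≤ C2 := by
          rw [hC2]
          exact hsum.sum_le_tsum _ fun _ _ => by positivity
        have h9 : (0:ℝ) ≤ C1 * 9 * (X / 2^K) := by positivity
        exact mul_le_mul_of_nonneg_left (by linarith) h9
    _ = C1 * 9 * (C2 + 1) * X / 2^K := by ring

end Pool.Agent.H24.KS
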