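import Mathlib
import Pool.Agent.H24.KS.MainAux
import Pool.Agent.H24.KS.S1
import Pool.Agent.H24.KS.S2
import Pool.Agent.H24.KS.S3
import Pool.Agent.H24.KS.S4
import Pool.Agent.H24.KS.S5
import Pool.Agent.H24.KS.Sq
import Pool.Agent.H24.KS.L0
import Pool.Agent.H24.KS.L1
import Pool.Agent.H24.KS.L2
import Pool.Agent.H24.KS.Rough

/-!
The upper bound `O(X / log X)`.
-/

namespace Pool.Agent.H24.KS

open Finset Classical
open Pool.Agent.H95.Gol

theorem upper : ∃ C : ℝ, 0 < C ∧ ∀ X : ℕ, 2 ≤ X →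
    ((richOrders X).ncard : ℝ) ≤ C * X / Real.log X := by
  have h0 : BoundQ (fun K X => ((range (X+1)).filter
    (fun v => ∀ p : ℕ, p.Prime → p ≠ 2 → p ≤ bb (K-10) → ¬ p ∣ v)).card) := bRough
  have h1 : BoundQ (fun K X => cnt X (CS1 K)) := bS1
  have h2 : BoundQ (fun K X => cnt X (CS2 K)) := bS2
  have h3 : BoundQ (fun K X => cnt X (CS3 K)) := bS3
  have h4 : BoundQ (fun K X => cnt X (CS4 K)) := bS4
  have h5 : BoundQ (fun K X => cnt X (CS5 K)) := bS5
  have h6 : BoundQ (fun K X => cnt X (fun a _ _ _ => bb K ≤ a ∧ ¬ NSq K a)) := bSq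
  have h7 : BoundQ (fun K X => cnt X (fun a b z x => CL0 K a b z x ∧ NSq K a)) := bL0
  have h8 : BoundQ (fun K X => cnt X (fun a b z x => CL1 K a b z x ∧ NSq K a)) := bL1
  have h9 : BoundQ (fun K X => cnt X (fun a b z x => CL2 K a b z x ∧ NSq K a)) := bL2
  have h := ((((((((h0.add h1).add h2).add h3).add h4).add h5).add h6).add h7).add h8).add h9
  exact upper_of _ h (fun K X hK hX => cover K X hK hX)

end Pool.Agent.H24.KS
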