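import Mathlib

/-!
KS1: the additive fourth moment of inversion modulo a squarefree number.
-/

namespace Pool.Agent.H24.KS

open Finset Classical

namespace N4

theorem val_cast {s n : ℕ} [NeZero s] (h : n ∣ s) (x : ZMod s) :
    ((x.val : ℕ) : ZMod n) = ZMod.castHom h (ZMod n) x := by
  simp [ZMod.natCast_val]

theorem modEq_of_dvd_sub {s n : ℕ} [NeZero s] (h : n ∣ s) {x y : ZMod s}
    (hd : n ∣ (x - y).val) : x.val ≡ y.val [MOD n] := by
  rw [← ZMod.natCast_eq_natCast_iff, val_cast h, val_cast h, ← sub_eq_zero, ← map_sub,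
    ← val_cast h, ZMod.natCast_eq_zero_iff]
  exact hd

theorem dvd_val_iff {s n : ℕ} [NeZero s] (h : n ∣ s) (x : ZMod s) :
    n ∣ x.val ↔ ZMod.castHom h (ZMod n) x = 0 := by
  rw [← val_cast h, ZMod.natCast_eq_zero_iff]

/-- the data of a solution -/
theorem struct {s : ℕ} [NeZero s] {x1 x2 x3 x4 : (ZMod s)ˣ}
    (h1 : (x1 : ZMod s) + x2 = x3 + x4)
    (h2 : ((x1⁻¹ : (ZMod s)ˣ) : ZMod s) + ((x2⁻¹ : (ZMod s)ˣ) : ZMod s) =
          ((x3⁻¹ : (ZMod s)ˣ) : ZMod s) + ((x4⁻¹ : (ZMod s)ˣ) : ZMod s)) :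
    (s / Nat.gcd ((x1 : ZMod s) + x2).val s) /
      Nat.gcd ((x3 : ZMod s) - x1).val (s / Nat.gcd ((x1 : ZMod s) + x2).val s) ∣
        ((x3 : ZMod s) - x2).val := by
  have hs0 : s ≠ 0 := NeZero.ne s
  set t : ZMod s := (x1 : ZMod s) + x2 with ht
  set d := Nat.gcd t.val s with hd
  have hd0 : 0 < d := Nat.gcd_pos_of_pos_right _ (Nat.pos_of_ne_zero hs0)
  have hds : d ∣ s := Nat.gcd_dvd_right _ _
  set m := s / d with hm
  have hms : m ∣ s := Nat.div_dvd_of_dvd hds
  have hsdm : s = d * m := (Nat.mul_div_cancel' hds).symm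
  have hm0 : 0 < m := Nat.pos_of_ne_zero (by rintro h; rw [h, mul_zero] at hsdm; exact hs0 hsdm)
  -- the key equation
  have hw : t * (((x3 : ZMod s) - x1) * (x3 - x2)) = 0 := by
    have e1 : (x1 : ZMod s) * ((x1⁻¹ : (ZMod s)ˣ) : ZMod s) = 1 := Units.mul_inv x1
    have e2 : (x2 : ZMod s) * ((x2⁻¹ : (ZMod s)ˣ) : ZMod s) = 1 := Units.mul_inv x2
    have e3 : (x3 : ZMod s) * ((x3⁻¹ : (ZMod s)ˣ) : ZMod s) = 1 := Units.mul_inv x3
    have e4 : (x4 : ZMod s) * ((x4⁻¹ : (ZMod s)ˣ) : ZMod s) = 1 := Units.mul_inv x4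
    have k1 : t * ((x3 : ZMod s) * x4) = t * ((x1 : ZMod s) * x2) := by
      have k2 : ((x1 : ZMod s) + x2) * ((x3 : ZMod s) * x4) =
          (x1 * x2 * (x3 * x4)) * (((x1⁻¹ : (ZMod s)ˣ) : ZMod s) + ((x2⁻¹ : (ZMod s)ˣ) : ZMod s)) := by
        linear_combination (-(x2 : ZMod s) * (x3 * x4)) * e1 + (-(x1 : ZMod s) * (x3 * x4)) * e2
      have k3 : ((x3 : ZMod s) + x4) * ((x1 : ZMod s) * x2) =
          (x1 * x2 * (x3 * x4)) * (((x3⁻¹ : (ZMod s)ˣ) : ZMod s) + ((x4⁻¹ : (ZMod s)ˣ) : ZMod s)) := by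
        linear_combination (-(x4 : ZMod s) * (x1 * x2)) * e3 + (-(x3 : ZMod s) * (x1 * x2)) * e4
      rw [ht, k2, h2, ← k3, ← h1]
    have hx4 : (x4 : ZMod s) = t - x3 := by rw [h1]; ring
    rw [hx4] at k1
    have : t * (((x3 : ZMod s) - x1) * (x3 - x2)) = t * ((x1 : ZMod s) * x2) - t * (x3 * (t - x3)) := by
      rw [ht]; ring
    rw [this, k1, sub_self]
  -- divisibility in naturals
  set a := ((x3 : ZMod s) - x1).val with ha
  set b := ((x3 : ZMod s) - x2).val with hb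
  have hcast : ((t.val * (a * b) : ℕ) : ZMod s) = 0 := by
    push_cast
    rw [ha, hb, ZMod.natCast_zmod_val, ZMod.natCast_zmod_val, ZMod.natCast_zmod_val]
    exact hw
  rw [ZMod.natCast_eq_zero_iff] at hcast
  have hmab : m ∣ a * b := by
    obtain ⟨t', ht'⟩ : d ∣ t.val := Nat.gcd_dvd_left _ _
    rw [ht', hsdm, mul_assoc] at hcast
    have h3 : m ∣ t' * (a * b) := Nat.dvd_of_mul_dvd_mul_left hd0 hcast
    have hcop : Nat.Coprime m t' := by
      have h4 : Nat.gcd (d * t') (d * m) = d := by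
        rw [← ht', ← hsdm]
      rw [Nat.gcd_mul_left] at h4
      have h5 : Nat.gcd t' m = 1 := by
        have := Nat.eq_of_mul_eq_mul_left hd0 (h4.trans (mul_one d).symm)
        exact this
      exact (Nat.coprime_comm.1 h5)
    exact hcop.dvd_of_dvd_mul_left h3
  set e := Nat.gcd a m with he
  have he0 : 0 < e := Nat.gcd_pos_of_pos_right _ hm0
  have hem : e ∣ m := Nat.gcd_dvd_right _ _
  obtain ⟨m', hm'⟩ := hem
  obtain ⟨a', ha'⟩ : e ∣ a := Nat.gcd_dvd_left _ _
  have hme : m / e = m' := by rw [hm', Nat.mul_div_cancel_left _ he0]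
  rw [hme]
  have h6 : m' ∣ a' * b := by
    apply Nat.dvd_of_mul_dvd_mul_left he0
    rw [← hm', ← mul_assoc, ← ha']
    exact hmab
  have hcop : Nat.Coprime m' a' := by
    have h4 : Nat.gcd (e * a') (e * m') = e := by rw [← ha', ← hm']
    rw [Nat.gcd_mul_left] at h4
    exact Nat.coprime_comm.1 (Nat.eq_of_mul_eq_mul_left he0 (h4.trans (mul_one e).symm))
  exact hcop.dvd_of_dvd_mul_left h6

/-- equality from a quotient and a residue -/
theorem eq_of_div_mod {s n : ℕ} {x y : ZMod s} [NeZero s] (h1 : x.val / n = y.val / n)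
    (h2 : x.val ≡ y.val [MOD n]) : x = y := by
  apply ZMod.val_injective s
  rw [← Nat.div_add_mod x.val n, ← Nat.div_add_mod y.val n, h1, h2]

end N4

open N4 in
/-- KS1 (file N4.lean): the additive fourth moment of inversion modulo a squarefree number. -/
theorem N4_le (s : ℕ) [NeZero s] (hs : Squarefree s) :
    ((univ : Finset ((ZMod s)ˣ × (ZMod s)ˣ × (ZMod s)ˣ × (ZMod s)ˣ)).filter
      (fun t => (t.1 : ZMod s) + t.2.1 = t.2.2.1 + t.2.2.2 ∧
        ((t.1⁻¹ : (ZMod s)ˣ) : ZMod s) + ((t.2.1⁻¹ : (ZMod s)ˣ) : ZMod s) =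
          ((t.2.2.1⁻¹ : (ZMod s)ˣ) : ZMod s) + ((t.2.2.2⁻¹ : (ZMod s)ˣ) : ZMod s))).card ≤
      s^2 * s.divisors.card^2 := by
  have hs0 : s ≠ 0 := NeZero.ne s
  have hspos : 0 < s := Nat.pos_of_ne_zero hs0
  set A := (univ : Finset ((ZMod s)ˣ × (ZMod s)ˣ × (ZMod s)ˣ × (ZMod s)ˣ)).filter
      (fun t => (t.1 : ZMod s) + t.2.1 = t.2.2.1 + t.2.2.2 ∧
        ((t.1⁻¹ : (ZMod s)ˣ) : ZMod s) + ((t.2.1⁻¹ : (ZMod s)ˣ) : ZMod s) =
          ((t.2.2.1⁻¹ : (ZMod s)ˣ) : ZMod s) + ((t.2.2.2⁻¹ : (ZMod s)ˣ) : ZMod s)) with hA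
  let dd : (ZMod s)ˣ × (ZMod s)ˣ × (ZMod s)ˣ × (ZMod s)ˣ → ℕ × ℕ := fun t =>
    (Nat.gcd ((t.1 : ZMod s) + t.2.1).val s,
      Nat.gcd ((t.2.2.1 : ZMod s) - t.1).val (s / Nat.gcd ((t.1 : ZMod s) + t.2.1).val s))
  have hmaps : ∀ t ∈ A, dd t ∈ s.divisors ×ˢ s.divisors := by
    intro t _
    simp only [dd, mem_product, Nat.mem_divisors]
    refine ⟨⟨Nat.gcd_dvd_right _ _, hs0⟩, ⟨(Nat.gcd_dvd_right _ _).trans ?_, hs0⟩⟩
    exact Nat.div_dvd_of_dvd (Nat.gcd_dvd_right _ _)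
  rw [Finset.card_eq_sum_card_fiberwise hmaps]
  have hfib : ∀ q ∈ s.divisors ×ˢ s.divisors, (A.filter fun t => dd t = q).card ≤ s ^ 2 := by
    rintro ⟨d, e⟩ hq
    simp only [mem_product, Nat.mem_divisors] at hq
    obtain ⟨⟨hds, -⟩, ⟨-, -⟩⟩ := hq
    have hd0 : 0 < d := Nat.pos_of_dvd_of_pos hds hspos
    obtain ⟨m, hsm⟩ := hds
    have hm0 : 0 < m := Nat.pos_of_ne_zero (by rintro rfl; rw [mul_zero] at hsm; exact hs0 hsm)
    have hsdm : s / d = m := by rw [hsm, Nat.mul_div_cancel_left _ hd0]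
    let F : (ZMod s)ˣ × (ZMod s)ˣ × (ZMod s)ˣ × (ZMod s)ˣ → ℕ × ℕ × ℕ := fun t =>
      ((t.1 : ZMod s).val, (t.2.1 : ZMod s).val / d, (t.2.2.1 : ZMod s).val / m)
    have hcard : (A.filter fun t => dd t = (d, e)).card ≤
        ((range s) ×ˢ (range m) ×ˢ (range d)).card := by
      apply Finset.card_le_card_of_injOn F
      · intro t _
        simp only [F, Finset.coe_product, Set.mem_prod, Finset.coe_range, Set.mem_Iio]
        refine ⟨ZMod.val_lt _, ?_, ?_⟩
        · rw [Nat.div_lt_iff_lt_mul hd0, mul_comm, ← hsm]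
          exact ZMod.val_lt _
        · rw [Nat.div_lt_iff_lt_mul hm0, ← hsm]
          exact ZMod.val_lt _
      · rintro ⟨x1, x2, x3, x4⟩ hx ⟨y1, y2, y3, y4⟩ hy hF
        simp only [Finset.coe_filter, hA, Finset.mem_filter, Finset.mem_univ, true_and,
          Set.mem_ofPred_eq] at hx hy
        obtain ⟨⟨hx1, hx2⟩, hxd⟩ := hx
        obtain ⟨⟨hy1, hy2⟩, hyd⟩ := hy
        simp only [dd, Prod.mk.injEq] at hxd hyd
        simp only [F, Prod.mk.injEq] at hF
        obtain ⟨hxd1, hxe⟩ := hxd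
        obtain ⟨hyd1, hye⟩ := hyd
        obtain ⟨hF1, hF2, hF3⟩ := hF
        have hxs := struct hx1 hx2
        have hys := struct hy1 hy2
        rw [hxd1, hsdm] at hxe hxs
        rw [hyd1, hsdm] at hye hys
        rw [hxe] at hxs
        rw [hye] at hys
        have hdvd : d ∣ s := ⟨m, hsm⟩
        have hmdvd : m ∣ s := ⟨d, by rw [mul_comm]; exact hsm⟩
        have hem : e ∣ m := hxe ▸ Nat.gcd_dvd_right _ _
        have he0 : 0 < e := Nat.pos_of_dvd_of_pos hem hm0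
        have hme : m / e ∣ m := Nat.div_dvd_of_dvd hem
        have hcop : Nat.Coprime e (m / e) := by
          obtain ⟨m', rfl⟩ := hem
          rw [Nat.mul_div_cancel_left _ he0]
          exact (Nat.squarefree_mul_iff.1 (hs.squarefree_of_dvd hmdvd)).1
        -- first coordinate
        have e1 : x1 = y1 := Units.ext (ZMod.val_injective s hF1)
        subst e1
        -- second coordinate
        have hx3 : (d : ℕ) ∣ ((x1 : ZMod s) + x2).val := hxd1 ▸ Nat.gcd_dvd_left _ _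
        have hy3 : (d : ℕ) ∣ ((x1 : ZMod s) + y2).val := hyd1 ▸ Nat.gcd_dvd_left _ _
        have e2 : x2 = y2 := by
          apply Units.ext
          apply eq_of_div_mod hF2
          apply modEq_of_dvd_sub hdvd
          rw [dvd_val_iff hdvd] at hx3 hy3 ⊢
          rw [map_add] at hx3 hy3
          rw [map_sub]
          linear_combination hx3 - hy3
        subst e2
        -- third coordinate
        have e3 : x3 = y3 := by
          apply Units.ext
          apply eq_of_div_mod hF3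
          have k1 : (x3 : ZMod s).val ≡ (y3 : ZMod s).val [MOD e] := by
            have l1 : (x3 : ZMod s).val ≡ (x1 : ZMod s).val [MOD e] :=
              modEq_of_dvd_sub (hem.trans hmdvd) (hxe ▸ Nat.gcd_dvd_left _ _)
            have l2 : (y3 : ZMod s).val ≡ (x1 : ZMod s).val [MOD e] :=
              modEq_of_dvd_sub (hem.trans hmdvd) (hye ▸ Nat.gcd_dvd_left _ _)
            exact l1.trans l2.symm
          have k2 : (x3 : ZMod s).val ≡ (y3 : ZMod s).val [MOD (m / e)] := by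
            have l1 : (x3 : ZMod s).val ≡ (x2 : ZMod s).val [MOD (m / e)] :=
              modEq_of_dvd_sub (hme.trans hmdvd) hxs
            have l2 : (y3 : ZMod s).val ≡ (x2 : ZMod s).val [MOD (m / e)] :=
              modEq_of_dvd_sub (hme.trans hmdvd) hys
            exact l1.trans l2.symm
          have k3 := (Nat.modEq_and_modEq_iff_modEq_mul hcop).1 ⟨k1, k2⟩
          rwa [Nat.mul_div_cancel' hem] at k3
        subst e3
        have e4 : x4 = y4 := by
          apply Units.ext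
          have := hx1.symm.trans hy1
          exact add_left_cancel this
        subst e4
        rfl
    refine hcard.trans ?_
    rw [card_product, card_product, card_range, card_range, card_range]
    apply le_of_eq
    rw [mul_comm m d, ← hsm, sq]
  calc ∑ q ∈ s.divisors ×ˢ s.divisors, (A.filter fun t => dd t = q).card
      ≤ ∑ q ∈ s.divisors ×ˢ s.divisors, s ^ 2 := Finset.sum_le_sum hfib
    _ = s^2 * s.divisors.card^2 := by
      rw [sum_const, card_product, smul_eq_mul]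
      ring

end Pool.Agent.H24.KS
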